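import Pool.Agent.W969.MC.Circ
import Pool.Agent.W969.MC.Avg3

/-! Average case with a gap: planted tests and random tests in which every assignment satisfies at
most half of the constraints cannot be told apart by short programs. -/

set_option linter.unusedSectionVars false
set_option linter.unusedVariables false

namespace Pool.Agent.W969.MC

open Finset Pool.Agent.H560R2

section

variable {V I A Λ : Type} [Fintype V] [DecidableEq V] [Fintype I] [DecidableEq I] [Fintype A]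
  [DecidableEq A] [Nonempty A] [Fintype Λ] [DecidableEq Λ]
  {h : I → A → V} {c w L0 : ℕ} {Q : ℕ} [NeZero Q]

/-- the average case bound -/
theorem prog_avgG (hE : Expd h c L0) (hc : 1 ≤ c) (B J : ℕ) (hB : 1 ≤ B) (hJ0 : 0 < J)
    (hw0 : 0 < w) (hwA : (c + 1) * Fintype.card A ≤ w) (hL : 2 * w ≤ L0)
    (hQ : 4 * (B * J) ≤ Q) (hq : 16 ≤ Fintype.card Λ)
    (hr : 64 * Q ≤ Fintype.card Λ ^ c) (hJ : w < 2 ^ J)
    (Gd : Set (Fin B → Fin J → (I × (A → Λ)) → Fin Q))
    (hsat2 : Fintype.card Λ * Gdᶜ.ncard ≤ ((Q ^ Fintype.card (I × (A → Λ))) ^ J) ^ B)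
    (B0 : Set (Set (I × (A → Λ)) → ℝ))
    (hleaf : ∀ b ∈ B0, ∃ T : Finset (I × (A → Λ)), T.card ≤ 1 ∧ LeafOnR T b)
    {L : List (Set (I × (A → Λ)) → ℝ)} (hP : RProg B0 L)
    (hlen : Fintype.card Λ * (L.length * (((Tm h Λ c w).card + 1) * (Tm h Λ c w).card)) ≤ 4 ^ B)
    (f : Set (I × (A → Λ)) → ℝ) (hf : f ∈ B0 ∨ f ∈ L) (τ : ℝ) :
    ({p : V → Λ | τ ≤ f (tu h (gr p) : Set (I × (A → Λ)))}.ncard : ℚ) /
      ((Fintype.card Λ : ℚ) ^ Fintype.card V) ≤
    ({ω : Fin B → Fin J → (I × (A → Λ)) → Fin Q | ω ∈ Gd ∧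
      τ ≤ f (WB ω : Set (I × (A → Λ)))}.ncard : ℚ) / (Gd.ncard : ℚ) +
    (4 / (Fintype.card Λ : ℚ) +
      4 * L.length * (2 / (Fintype.card Λ : ℚ)) ^ (w / (2 * (c + 1)) / (c + 1) + 1)) ∧
    0 < Gd.ncard := by
  classical
  obtain ⟨Ep, En, hEp, hEn, H⟩ := approxC hE hc B J hB hJ0 hw0 hwA hL hQ (by omega) hr hJ B0 hleaf
    hP
  obtain ⟨D, hD⟩ := H f hf
  set Om := ((Q ^ Fintype.card (I × (A → Λ))) ^ J) ^ B with hOm
  have hOmpos : 0 < Om := Om_pos (V := I × (A → Λ)) (Q := Q) B J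
  have hQpos : 0 < Q := Nat.pos_of_ne_zero (NeZero.ne Q)
  set q := Fintype.card Λ with hqd
  set m := Fintype.card V with hm
  have hqq : (16 : ℚ) ≤ (q : ℚ) := by exact_mod_cast hq
  have hq0 : (0 : ℚ) < (q : ℚ) := by linarith
  have hN : (0 : ℚ) < (q : ℚ) ^ m := by positivity
  set St := Gdᶜ with hSt
  -- few errors on the negative side
  have hEn4 : q * En.ncard ≤ Om := by
    have h1 : (q * En.ncard) * 4 ^ B ≤ Om * 4 ^ B := by
      calc (q * En.ncard) * 4 ^ B = q * (En.ncard * 4 ^ B) := by ring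
        _ ≤ q * (L.length * (((Tm h Λ c w).card + 1) * ((Tm h Λ c w).card * Om))) :=
            Nat.mul_le_mul_left _ hEn
        _ = (q * (L.length * (((Tm h Λ c w).card + 1) * (Tm h Λ c w).card))) * Om := by ring
        _ ≤ 4 ^ B * Om := Nat.mul_le_mul_right _ hlen
        _ = _ := by ring
    exact Nat.le_of_mul_le_mul_right h1 (by positivity)
  have hall : Om ≤ Gd.ncard + St.ncard := by
    have hcov : (Set.univ : Set (Fin B → Fin J → (I × (A → Λ)) → Fin Q)) ⊆ Gd ∪ St := by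
      intro ω _
      by_cases hh : ω ∈ Gd
      · exact Or.inl hh
      · exact Or.inr hh
    have h5 := (Set.ncard_le_ncard hcov (Set.toFinite _)).trans (Set.ncard_union_le _ _)
    rw [card_Om] at h5
    exact h5
  have hGdle : Gd.ncard ≤ Om := by
    have h5 := Set.ncard_le_ncard (Set.subset_univ Gd) (Set.toFinite _)
    rw [card_Om] at h5
    exact h5
  have hGdpos : 0 < Gd.ncard := by
    by_contra hcon
    have h0 : Gd.ncard = 0 := by omega
    rw [h0, zero_add] at hall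
    have : q * Om ≤ Om := (Nat.mul_le_mul_left _ hall).trans hsat2
    have h3 : 16 * Om ≤ q * Om := Nat.mul_le_mul_right _ hq
    omega
  refine ⟨?_, hGdpos⟩
  have hGdq : (0 : ℚ) < (Gd.ncard : ℚ) := by exact_mod_cast hGdpos
  have hOmq : (0 : ℚ) < (Om : ℚ) := by exact_mod_cast hOmpos
  have hL0 : (0 : ℚ) ≤ 4 * L.length *
      (2 / (q : ℚ)) ^ (w / (2 * (c + 1)) / (c + 1) + 1) := by positivity
  by_cases hempty : (∅ : Finset (V × Λ)) ∈ D τ
  · -- nearly all random tests are accepted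
    set Ng := {ω : Fin B → Fin J → (I × (A → Λ)) → Fin Q | ω ∈ Gd ∧
      τ ≤ f (WB ω : Set (I × (A → Λ)))} with hNg
    have hcov : (Set.univ : Set (Fin B → Fin J → (I × (A → Λ)) → Fin Q)) ⊆ (En ∪ St) ∪ Ng := by
      intro ω _
      by_cases h1 : ω ∈ En
      · exact Or.inl (Or.inl h1)
      by_cases h2 : ω ∈ St
      · exact Or.inl (Or.inr h2)
      right
      refine ⟨?_, ?_⟩
      · by_contra hcon
        exact h2 hcon
      · exact hD.neg ω h1 τ ⟨∅, hempty, by rw [tu_empty]; exact Finset.empty_subset _⟩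
    have h5 := (Set.ncard_le_ncard hcov (Set.toFinite _)).trans (Set.ncard_union_le _ _)
    rw [card_Om] at h5
    have h6 := h5.trans (Nat.add_le_add_right (Set.ncard_union_le En St) _)
    have h7 : (Om : ℚ) ≤ En.ncard + St.ncard + Ng.ncard := by exact_mod_cast h6
    have h8 : (En.ncard : ℚ) ≤ Om / q := by
      rw [le_div_iff₀ hq0, mul_comm]
      exact_mod_cast hEn4
    have h9 : (St.ncard : ℚ) ≤ Om / q := by
      rw [le_div_iff₀ hq0, mul_comm]
      exact_mod_cast hsat2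
    have h10 : (1 : ℚ) ≤ Ng.ncard / Om + 2 / q := by
      have h11 : (Om : ℚ) * 1 ≤ Om * (Ng.ncard / Om + 2 / q) := by
        have e : (Om : ℚ) * (Ng.ncard / Om + 2 / q) = Ng.ncard + 2 * (Om / q) := by
          field_simp
        rw [e]
        linarith
      exact le_of_mul_le_mul_left h11 hOmq
    have h12 : (Ng.ncard : ℚ) / Om ≤ Ng.ncard / Gd.ncard := by
      apply div_le_div_of_nonneg_left (Nat.cast_nonneg _) hGdq
      exact_mod_cast hGdle
    have h13 : ({p : V → Λ | τ ≤ f (tu h (gr p) : Set (I × (A → Λ)))}.ncard : ℚ) / (q : ℚ) ^ m ≤ 1 := by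
      rw [div_le_one hN]
      have h14 := Set.ncard_le_ncard (Set.subset_univ
        {p : V → Λ | τ ≤ f (tu h (gr p) : Set (I × (A → Λ)))}) (Set.toFinite _)
      rw [Set.ncard_univ, Nat.card_eq_fintype_card, Fintype.card_fun] at h14
      exact_mod_cast h14
    have h15 : (2 : ℚ) / q ≤ 4 / q := by
      apply div_le_div_of_nonneg_right _ hq0.le
      norm_num
    linarith
  · -- few planted tests are accepted
    have hcov : {p : V → Λ | τ ≤ f (tu h (gr p) : Set (I × (A → Λ)))} ⊆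
        Ep ∪ {p : V → Λ | ∃ S, Mn D S ∧ S ⊆ gr p ∧ 0 < S.card} := by
      intro p hp
      by_cases hh : p ∈ Ep
      · exact Or.inl hh
      · right
        obtain ⟨S, hS, hSp, hSm⟩ := exists_minc (hD.pos p hh τ hp)
        refine ⟨S, hSm, hSp, Finset.card_pos.mpr ?_⟩
        rw [Finset.nonempty_iff_ne_empty]
        rintro rfl
        exact hempty hS
    have h5 := (Set.ncard_le_ncard hcov (Set.toFinite _)).trans (Set.ncard_union_le _ _)
    have h6 := large_pos hE hc hw0 hL (by omega) B J hr hJ D hD.closed hD.anti 0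
    rw [Nat.zero_div, zero_add, pow_one] at h6
    have h7 : ({p : V → Λ | τ ≤ f (tu h (gr p) : Set (I × (A → Λ)))}.ncard : ℚ) ≤ Ep.ncard +
        ({p : V → Λ | ∃ S, Mn D S ∧ S ⊆ gr p ∧ 0 < S.card}.ncard : ℚ) := by
      exact_mod_cast h5
    have h8 : ({p : V → Λ | τ ≤ f (tu h (gr p) : Set (I × (A → Λ)))}.ncard : ℚ) / (q : ℚ) ^ m ≤
        4 / q + 4 * L.length * (2 / (q : ℚ)) ^ (w / (2 * (c + 1)) / (c + 1) + 1) := by
      rw [div_le_iff₀ hN]
      refine h7.trans ((add_le_add hEp h6).trans (le_of_eq ?_))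
      ring
    have h9 : (0 : ℚ) ≤ ({ω : Fin B → Fin J → (I × (A → Λ)) → Fin Q |
      ω ∈ Gd ∧ τ ≤ f (WB ω : Set (I × (A → Λ)))}.ncard : ℚ) /
        (Gd.ncard : ℚ) := by positivity
    linarith

/-- the number of satisfied constraints -/
noncomputable def sc (h : I → A → V) (p : V → Λ) (X : Set (I × (A → Λ))) : ℕ :=
  {i : I | (i, fun j => p (h i j)) ∈ X}.ncard

lemma sc_mono (p : V → Λ) {X Y : Set (I × (A → Λ))} (hXY : X ⊆ Y) : sc h p X ≤ sc h p Y :=
  Set.ncard_le_ncard (fun i hi => hXY hi) (Set.toFinite _)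

/-- the random set rarely satisfies many constraints -/
lemma card_satG (B J d : ℕ) :
    {ω : Fin B → Fin J → (I × (A → Λ)) → Fin Q | ∃ p : V → Λ,
      d ≤ sc h p (WB ω : Set (I × (A → Λ)))}.ncard * Q ^ d ≤
      (Fintype.card Λ ^ Fintype.card V * (2 ^ Fintype.card I * (B * J) ^ d)) *
      ((Q ^ Fintype.card (I × (A → Λ))) ^ J) ^ B := by
  classical
  have hsub : {ω : Fin B → Fin J → (I × (A → Λ)) → Fin Q | ∃ p : V → Λ,
      d ≤ sc h p (WB ω : Set (I × (A → Λ)))} ⊆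
      ⋃ p ∈ (univ : Finset (V → Λ)), ⋃ D ∈ (univ : Finset (Finset I)).filter (fun D => D.card = d),
        {ω : Fin B → Fin J → (I × (A → Λ)) → Fin Q |
          D.image (fun i => (i, fun j => p (h i j))) ⊆ WB ω} := by
    rintro ω ⟨p, hp⟩
    unfold sc at hp
    rw [Set.ncard_eq_toFinset_card'] at hp
    obtain ⟨D, hD1, hD2⟩ := Finset.exists_subset_card_eq hp
    simp only [Set.mem_iUnion]
    refine ⟨p, mem_univ _, D, Finset.mem_filter.mpr ⟨mem_univ _, hD2⟩, ?_⟩
    intro u hu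
    obtain ⟨i, hi, rfl⟩ := Finset.mem_image.mp hu
    have := hD1 hi
    rw [Set.mem_toFinset] at this
    exact Finset.mem_coe.mp this
  have hone : ∀ (p : V → Λ) (D : Finset I), D.card = d →
      {ω : Fin B → Fin J → (I × (A → Λ)) → Fin Q |
          D.image (fun i => (i, fun j => p (h i j))) ⊆ WB ω}.ncard * Q ^ d ≤
        (B * J) ^ d * ((Q ^ Fintype.card (I × (A → Λ))) ^ J) ^ B := by
    intro p D hD
    have h1 := card_wb_all (Q := Q) B J (D.image (fun i => (i, fun j => p (h i j))))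
    rw [Finset.card_image_of_injective _ (fun i i' hh => (Prod.ext_iff.mp hh).1), hD] at h1
    exact h1
  calc _ ≤ (∑ p ∈ (univ : Finset (V → Λ)),
        ∑ D ∈ (univ : Finset (Finset I)).filter (fun D => D.card = d),
        {ω : Fin B → Fin J → (I × (A → Λ)) → Fin Q |
          D.image (fun i => (i, fun j => p (h i j))) ⊆ WB ω}.ncard) * Q ^ d :=
        Nat.mul_le_mul_right _ ((Set.ncard_le_ncard hsub (Set.toFinite _)).trans
          ((Finset.set_ncard_biUnion_le _ _).trans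
            (Finset.sum_le_sum (fun p _ => Finset.set_ncard_biUnion_le _ _))))
    _ = ∑ p ∈ (univ : Finset (V → Λ)),
        ∑ D ∈ (univ : Finset (Finset I)).filter (fun D => D.card = d),
        {ω : Fin B → Fin J → (I × (A → Λ)) → Fin Q |
          D.image (fun i => (i, fun j => p (h i j))) ⊆ WB ω}.ncard * Q ^ d := by
        rw [Finset.sum_mul]
        apply Finset.sum_congr rfl
        intro p _
        rw [Finset.sum_mul]
    _ ≤ ∑ p ∈ (univ : Finset (V → Λ)), (2 ^ Fintype.card I * ((B * J) ^ d *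
        ((Q ^ Fintype.card (I × (A → Λ))) ^ J) ^ B)) := by
        apply Finset.sum_le_sum
        intro p _
        refine (Finset.sum_le_sum (fun D hD => hone p D (Finset.mem_filter.mp hD).2)).trans ?_
        rw [Finset.sum_const, smul_eq_mul]
        apply Nat.mul_le_mul_right
        refine (Finset.card_filter_le _ _).trans ?_
        rw [Finset.card_univ, Fintype.card_finset]
    _ = _ := by
        rw [Finset.sum_const, Finset.card_univ, Fintype.card_fun, smul_eq_mul]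
        ring

/-- the tests -/
theorem exists_testsG {b s w : ℕ} (hG : Good h Λ b s w) :
    ∃ (Ωn : Type) (_ : Finite Ωn) (Xn : Ωn → Set (I × (A → Λ))), 0 < Nat.card Ωn ∧
      (∀ ω, ∀ p : V → Λ, sc h p (Xn ω) ≤ Fintype.card I / 2) ∧
      ∀ (B0 : Set (Set (I × (A → Λ)) → ℝ))
        (_ : ∀ b ∈ B0, ∃ T : Finset (I × (A → Λ)), T.card ≤ 1 ∧ LeafOnR T b)
        {L : List (Set (I × (A → Λ)) → ℝ)} (_ : RProg B0 L)
        (_ : L.length ≤ (Fintype.card Λ + 1) ^ Fintype.card V)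
        (f : Set (I × (A → Λ)) → ℝ) (_ : f ∈ B0 ∨ f ∈ L) (τ : ℝ),
        ({p : V → Λ | τ ≤ f (tu h (gr p) : Set (I × (A → Λ)))}.ncard : ℝ) / Fintype.card (V → Λ) ≤
          ({ω : Ωn | τ ≤ f (Xn ω)}.ncard : ℝ) / Nat.card Ωn +
          (4 / (Fintype.card Λ : ℝ) +
            4 * L.length * (2 / (Fintype.card Λ : ℝ)) ^ (w / (2 * b) / b + 1)) := by
  classical
  obtain ⟨hb, hA, hE, hw, hws, hV, hI, hq, hstar⟩ := hG
  set q := Fintype.card Λ with hqd
  set m := Fintype.card V with hm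
  set B := 2 * (m * Nat.clog 2 (q + 1)) + 2 with hB
  set J := Nat.log 2 w + 1 with hJ
  set c := b - 1 with hc
  have hcb : c + 1 = b := by omega
  set Q := q ^ c / 64 with hQ
  have hBJ : 0 < B * J := Nat.mul_pos (by omega) (by omega)
  have hQ1 : 4 * (q * (B * J)) ≤ Q := by
    rw [hQ, Nat.le_div_iff_mul_le (by norm_num)]
    calc 4 * (q * (B * J)) * 64 = 256 * (q * (B * J)) := by ring
      _ ≤ q ^ c := hstar
  have hqBJ : B * J ≤ q * (B * J) := Nat.le_mul_of_pos_left _ (by omega)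
  have hQpos : 0 < Q := by omega
  haveI : NeZero Q := ⟨hQpos.ne'⟩
  have hwpos : 0 < w := lt_of_lt_of_le (by positivity) hw
  have hr : 64 * Q ≤ q ^ c := by
    rw [hQ]
    exact Nat.mul_div_le _ _
  have hJw : w < 2 ^ J := Nat.lt_pow_succ_log_self (by norm_num) w
  set Gd : Set (Fin B → Fin J → (I × (A → Λ)) → Fin Q) :=
    {ω | ∀ p : V → Λ, sc h p (WB ω : Set (I × (A → Λ))) ≤ Fintype.card I / 2} with hGd
  have hsat : q * Gdᶜ.ncard ≤ ((Q ^ Fintype.card (I × (A → Λ))) ^ J) ^ B := by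
    set d := Fintype.card I / 2 + 1 with hd
    have e1 : Gdᶜ = {ω : Fin B → Fin J → (I × (A → Λ)) → Fin Q | ∃ p : V → Λ,
        d ≤ sc h p (WB ω : Set (I × (A → Λ)))} := by
      ext ω
      simp only [hGd, hd, Set.mem_compl_iff, Set.mem_setOf_eq, not_forall, not_le, Nat.lt_iff_add_one_le]
    have h1 := card_satG (h := h) (Λ := Λ) (Q := Q) B J d
    rw [← e1] at h1
    have h2 : q * (q ^ m * (2 ^ Fintype.card I * (B * J) ^ d)) ≤ Q ^ d := by
      have h3 : (4 * (q * (B * J))) ^ d ≤ Q ^ d := Nat.pow_le_pow_left hQ1 _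
      refine le_trans ?_ h3
      have h4 : (4 * (q * (B * J))) ^ d = (4 ^ d * q ^ d) * (B * J) ^ d := by
        rw [mul_pow, mul_pow]
        ring
      rw [h4]
      have h5 : q * (q ^ m * (2 ^ Fintype.card I * (B * J) ^ d)) =
          (2 ^ Fintype.card I * q ^ (m + 1)) * (B * J) ^ d := by
        rw [pow_succ]
        ring
      rw [h5]
      apply Nat.mul_le_mul_right
      apply Nat.mul_le_mul
      · have : (4 : ℕ) = 2 ^ 2 := by norm_num
        rw [this, ← pow_mul]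
        exact Nat.pow_le_pow_right (by norm_num) (by omega)
      · exact Nat.pow_le_pow_right (by omega) (by omega)
    have h6 : (q * Gdᶜ.ncard) * Q ^ d ≤
        (((Q ^ Fintype.card (I × (A → Λ))) ^ J) ^ B) * Q ^ d := by
      calc (q * Gdᶜ.ncard) * Q ^ d = q * (Gdᶜ.ncard * Q ^ d) := by ring
        _ ≤ q * ((q ^ m * (2 ^ Fintype.card I * (B * J) ^ d)) *
            ((Q ^ Fintype.card (I × (A → Λ))) ^ J) ^ B) := Nat.mul_le_mul_left _ h1
        _ = (q * (q ^ m * (2 ^ Fintype.card I * (B * J) ^ d))) *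
            ((Q ^ Fintype.card (I × (A → Λ))) ^ J) ^ B := by ring
        _ ≤ Q ^ d * ((Q ^ Fintype.card (I × (A → Λ))) ^ J) ^ B := Nat.mul_le_mul_right _ h2
        _ = _ := by ring
    exact Nat.le_of_mul_le_mul_right h6 (by positivity)
  have hq1 : q + 1 ≤ 2 ^ Nat.clog 2 (q + 1) := Nat.le_pow_clog (by norm_num) _
  have hB4 : 2 * ((q + 1) ^ m * ((q + 1) ^ m * ((q + 1) ^ m * (q + 1) ^ m))) ≤ 4 ^ B := by
    have h2 : (q + 1) ^ m ≤ (2 ^ Nat.clog 2 (q + 1)) ^ m := Nat.pow_le_pow_left hq1 _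
    have h3 : (4 : ℕ) ^ B = 16 * (((2 ^ Nat.clog 2 (q + 1)) ^ m) * ((2 ^ Nat.clog 2 (q + 1)) ^ m) *
        (((2 ^ Nat.clog 2 (q + 1)) ^ m) * ((2 ^ Nat.clog 2 (q + 1)) ^ m))) := by
      have e : (4 : ℕ) = 2 ^ 2 := by norm_num
      rw [hB, e, ← pow_mul, ← pow_mul]
      rw [show (16 : ℕ) = 2 ^ 4 by norm_num, ← pow_add, ← pow_add, ← pow_add]
      congr 1
      ring
    rw [h3]
    set X := (2 ^ Nat.clog 2 (q + 1)) ^ m with hX
    calc 2 * ((q + 1) ^ m * ((q + 1) ^ m * ((q + 1) ^ m * (q + 1) ^ m))) ≤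
          2 * (X * (X * (X * X))) :=
          Nat.mul_le_mul_left _ (Nat.mul_le_mul h2 (Nat.mul_le_mul h2 (Nat.mul_le_mul h2 h2)))
      _ ≤ 16 * (X * (X * (X * X))) := Nat.mul_le_mul_right _ (by norm_num)
      _ = 16 * (X * X * (X * X)) := by ring
  have hlen' : ∀ {L : List (Set (I × (A → Λ)) → ℝ)}, L.length ≤ (q + 1) ^ m →
      q * (L.length * (((Tm h Λ c w).card + 1) * (Tm h Λ c w).card)) ≤ 4 ^ B := by
    intro L hlen
    refine le_trans ?_ hB4
    have h1 : (Tm h Λ c w).card ≤ (q + 1) ^ m := card_Tm c w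
    have h2 : (Tm h Λ c w).card + 1 ≤ 2 * (q + 1) ^ m := by
      have : 1 ≤ (q + 1) ^ m := Nat.one_le_pow _ _ (by omega)
      omega
    have h3 : q ≤ (q + 1) ^ m := (Nat.le_succ q).trans (Nat.le_self_pow (by omega) _)
    calc q * (L.length * (((Tm h Λ c w).card + 1) * (Tm h Λ c w).card))
        ≤ (q + 1) ^ m * ((q + 1) ^ m * ((2 * (q + 1) ^ m) * (q + 1) ^ m)) :=
          Nat.mul_le_mul h3 (Nat.mul_le_mul hlen (Nat.mul_le_mul h2 h1))
      _ = _ := by ring
  have hmain := fun (B0 : Set (Set (I × (A → Λ)) → ℝ))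
      (hleaf : ∀ b ∈ B0, ∃ T : Finset (I × (A → Λ)), T.card ≤ 1 ∧ LeafOnR T b)
      (L : List (Set (I × (A → Λ)) → ℝ)) (hP : RProg B0 L) (hlen : L.length ≤ (q + 1) ^ m)
      (f : Set (I × (A → Λ)) → ℝ) (hf : f ∈ B0 ∨ f ∈ L) (τ : ℝ) =>
    prog_avgG (Q := Q) hE (by omega) B J (by omega) (by omega) hwpos
      (by rw [hcb, hA]; exact hw) hws (by omega) hq hr hJw Gd hsat B0 hleaf hP (hlen' hlen) f hf τ
  refine ⟨↥Gd, inferInstance, fun ω => (WB ω.1 : Set (I × (A → Λ))), ?_, ?_, ?_⟩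
  · have h1 := (hmain {g | ∃ c, g = fun _ => c} (by
      rintro _ ⟨c, rfl⟩
      exact ⟨∅, by simp, fun x x' _ => le_rfl⟩) [] RProg.nil (by simp) (fun _ => 0)
      (Or.inl ⟨0, rfl⟩) 0).2
    rw [Nat.card_coe_set_eq]
    exact h1
  · intro ω p
    exact ω.2 p
  · intro B0 hleaf L hP hlen f hf τ
    have h1 := (hmain B0 hleaf L hP hlen f hf τ).1
    rw [hcb] at h1
    have h2 := (Rat.cast_le (K := ℝ)).mpr h1
    push_cast at h2
    have e1 : ((Fintype.card (V → Λ) : ℕ) : ℝ) = (q : ℝ) ^ m := by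
      rw [Fintype.card_fun]
      push_cast
      rfl
    have e3 : {ω : ↥Gd | τ ≤ f (WB ω.1 : Set (I × (A → Λ)))}.ncard =
        {ω : Fin B → Fin J → (I × (A → Λ)) → Fin Q | ω ∈ Gd ∧
          τ ≤ f (WB ω : Set (I × (A → Λ)))}.ncard := by
      rw [← Set.ncard_image_of_injective _ Subtype.val_injective]
      congr 1
      ext ω
      constructor
      · rintro ⟨⟨ω', h1⟩, h2, rfl⟩
        exact ⟨h1, h2⟩
      · rintro ⟨h1, h2⟩
        exact ⟨⟨ω, h1⟩, h2, rfl⟩
    rw [e1, e3, Nat.card_coe_set_eq]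
    exact h2

end

end Pool.Agent.W969.MC
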