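import Pool.Agent.W969.MC.AvgG1

/-! Randomised circuits: the lower bound for the constraint satisfaction problem with a gap. -/

set_option linter.unusedSectionVars false
set_option linter.unusedVariables false

namespace Pool.Agent.W969.MC

open Finset Pool.Agent.H560R2

section

variable {V I A Λ : Type} [Fintype V] [DecidableEq V] [Fintype I] [DecidableEq I] [Fintype A]
  [DecidableEq A] [Nonempty A] [Fintype Λ] [DecidableEq Λ]
  {h : I → A → V} {R Inp : Type} [Fintype R] [Nonempty R]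

/-- the randomised lower bound with a gap -/
theorem csp_randG {b s w : ℕ} (hG : Good h Λ b s w) {m' : ℕ} (C : R → RC Inp)
    (E : (Fin m' → Set (I × (A → Λ))) → Inp → Bool)
    (hmono : ∀ y y', (∀ j, y j ⊆ y' j) → E y ≤ E y')
    (hnar : ∀ (y : Fin m' → Set (I × (A → Λ))) (J : Fin m') (p : Inp),
      ∃ T' : Finset (I × (A → Λ)), T'.card ≤ 1 ∧
      ∀ x x' : Set (I × (A → Λ)), (∀ e ∈ T', e ∈ x → e ∈ x') →
        E (Function.update y J x) p = true → E (Function.update y J x') p = true)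
    (A0 g : ℝ)
    (hyes : ∀ y : Fin m' → Set (I × (A → Λ)),
      (∃ j, ∃ p : V → Λ, (tu h (gr p) : Set (I × (A → Λ))) ⊆ y j) →
      (A0 + g) * Fintype.card R ≤ ({r : R | (C r).acc (E y)}.ncard : ℝ))
    (hno : ∀ y : Fin m' → Set (I × (A → Λ)),
      (∀ j, ∀ p : V → Λ, sc h p (y j) ≤ Fintype.card I / 2) →
      ({r : R | (C r).acc (E y)}.ncard : ℝ) ≤ A0 * Fintype.card R)
    (hfree : ∀ r, ((C r).free : ℝ) ≤ (g / 2) * m')
    (hlen : ∀ r, (C r).size ≤ (Fintype.card Λ + 1) ^ Fintype.card V)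
    (hq : 16 / (Fintype.card Λ : ℝ) ≤ g)
    (hlt : ∀ r, 16 * ((C r).size : ℝ) * 2 ^ (w / (2 * b) / b + 1) <
      g * (Fintype.card Λ : ℝ) ^ (w / (2 * b) / b + 1)) : False := by
  classical
  have hΛ : Nonempty Λ := by
    have := hG.hq
    exact Fintype.card_pos_iff.mp (by omega)
  obtain ⟨Ωn, hfin, Xn, hpos, hXn, H⟩ := exists_testsG hG
  letI : Fintype Ωn := Fintype.ofFinite Ωn
  rw [Nat.card_eq_fintype_card] at hpos
  haveI : Nonempty Ωn := Fintype.card_pos_iff.mp hpos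
  have hqpos : (0 : ℝ) < Fintype.card Λ := by
    have := hG.hq
    exact_mod_cast (by omega : 0 < Fintype.card Λ)
  have hgpos : 0 < g := lt_of_lt_of_le (by positivity) hq
  have hbad : ∀ y : Fin m' → Set (I × (A → Λ)), (∀ j, y j = ∅ ∨ ∃ ω, y j = Xn ω) →
      ∀ j, ∀ p : V → Λ, sc h p (y j) ≤ Fintype.card I / 2 := by
    intro y hy j p
    rcases hy j with h1 | ⟨ω, h1⟩
    · rw [h1]
      unfold sc
      simp
    · rw [h1]
      exact hXn ω p
  obtain ⟨r, y, J, L, G, h1, h2, h3, h4⟩ := rand_core C E hmono Xn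
    (fun p : V → Λ => (tu h (gr p) : Set (I × (A → Λ)))) A0 g hgpos.le
    (fun y J p hy => hyes _ ⟨J, p, by rw [Function.update_self]⟩)
    (fun y hy => hno y (hbad y hy)) hfree
  have h5 := H _ (leaf_aux (fun X => E (Function.update y J X)) (hnar y J)) h1
    (h3.trans (hlen r)) G h2 (C r).τ
  rw [Nat.card_eq_fintype_card] at h5
  set j0 := w / (2 * b) / b + 1 with hj0
  have h6 : g / 2 ≤ 4 / (Fintype.card Λ : ℝ) + 4 * L.length * (2 / (Fintype.card Λ : ℝ)) ^ j0 := by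
    linarith
  have h7 : 4 / (Fintype.card Λ : ℝ) ≤ g / 4 := by
    have : 4 / (Fintype.card Λ : ℝ) = (16 / (Fintype.card Λ : ℝ)) / 4 := by ring
    linarith
  have h8 : g / 4 ≤ 4 * ((C r).size : ℝ) * (2 / (Fintype.card Λ : ℝ)) ^ j0 := by
    have h9 : (L.length : ℝ) ≤ (C r).size := by exact_mod_cast h3
    have h10 : 4 * (L.length : ℝ) * (2 / (Fintype.card Λ : ℝ)) ^ j0 ≤
        4 * ((C r).size : ℝ) * (2 / (Fintype.card Λ : ℝ)) ^ j0 := by
      apply mul_le_mul_of_nonneg_right _ (by positivity)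
      linarith
    linarith
  have h11 : g * (Fintype.card Λ : ℝ) ^ j0 ≤ 16 * ((C r).size : ℝ) * 2 ^ j0 := by
    have h12 := mul_le_mul_of_nonneg_right h8 (show 0 ≤ 4 * (Fintype.card Λ : ℝ) ^ j0 by positivity)
    have e1 : g / 4 * (4 * (Fintype.card Λ : ℝ) ^ j0) = g * (Fintype.card Λ : ℝ) ^ j0 := by ring
    have e2 : 4 * ((C r).size : ℝ) * (2 / (Fintype.card Λ : ℝ)) ^ j0 *
        (4 * (Fintype.card Λ : ℝ) ^ j0) = 16 * ((C r).size : ℝ) * 2 ^ j0 := by
      rw [div_pow]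
      field_simp
      ring
    rw [e1, e2] at h12
    exact h12
  exact absurd (hlt r) (not_lt.mpr h11)

end

end Pool.Agent.W969.MC
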