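import Pool.Agent.W969.MC.Clq

/-! Cliques in uniform hypergraphs: many copies of the constraint satisfaction problem that share
vertices, but no hyperedges that can change. -/

set_option linter.unusedSectionVars false
set_option linter.unusedVariables false

namespace Pool.Agent.W969.MC

open Finset Pool.Agent.H560R2

section

variable {V I Λ : Type} [Fintype V] [DecidableEq V] [Fintype I] [DecidableEq I]
  [Fintype Λ] [DecidableEq Λ] {n u s b2 r0 K1 K : ℕ}

/-- the vertices: apexes, parts of tuples of values, and universal vertices -/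
abbrev Vy (I Λ : Type) (u K1 K s b2 r0 : ℕ) : Type :=
  ((Fin u × Fin K1) ⊕ (Fin K × I × Fin s × (Fin b2 → Λ))) ⊕ Fin r0

/-- the copies -/
abbrev Cpy (u K1 K s : ℕ) : Type := (Fin u → Fin K1) × (Fin s → Fin K)

/-- an apex -/
abbrev apx {u K1 K s b2 r0 : ℕ} {I Λ : Type} (l : Fin u) (a : Fin K1) : Vy I Λ u K1 K s b2 r0 :=
  Sum.inl (Sum.inl (l, a))

/-- a part -/
abbrev prt' {u K1 K s b2 r0 : ℕ} {I Λ : Type} (x : Fin K) (i : I) (t : Fin s) (τ : Fin b2 → Λ) :
    Vy I Λ u K1 K s b2 r0 :=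
  Sum.inl (Sum.inr (x, i, t, τ))

/-- the sets of vertices that are consistent and have no missing tuple -/
def PresC (h : I → (Fin s × Fin b2) → V) (y : Cpy u K1 K s → Set (I × ((Fin s × Fin b2) → Λ)))
    (e : Finset (Vy I Λ u K1 K s b2 r0)) : Prop :=
  (∀ l a a', apx l a ∈ e → apx l a' ∈ e → a = a') ∧
  (∀ x i t τ x' i' t' τ', prt' x i t τ ∈ e → prt' x' i' t' τ' ∈ e →
    (t = t' → x = x') ∧ (i = i' → t = t' → τ = τ') ∧
      ∀ c c', h i (t, c) = h i' (t', c') → τ c = τ' c') ∧
  ∀ (J : Cpy u K1 K s) (i : I) (σ : (Fin s × Fin b2) → Λ),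
    (∀ l, apx l (J.1 l) ∈ e) → (∀ t, prt' (J.2 t) i t (fun c => σ (t, c)) ∈ e) → (i, σ) ∈ y J

open Classical in
/-- the hypergraph -/
noncomputable def encC (ι : Vy I Λ u K1 K s b2 r0 ↪ Fin n) (h : I → (Fin s × Fin b2) → V)
    (y : Cpy u K1 K s → Set (I × ((Fin s × Fin b2) → Λ))) :
    {e : Finset (Fin n) // e.card = u + s} → Bool :=
  fun e => decide (∃ e' : Finset (Vy I Λ u K1 K s b2 r0), e'.map ι = e.1 ∧ PresC h y e')

variable {ι : Vy I Λ u K1 K s b2 r0 ↪ Fin n} {h : I → (Fin s × Fin b2) → V}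

lemma encC_mono {y y' : Cpy u K1 K s → Set (I × ((Fin s × Fin b2) → Λ))}
    (hy : ∀ j, y j ⊆ y' j) : encC ι h y ≤ encC ι h y' := by
  classical
  intro e
  rcases hx : encC ι h y e with _ | _
  · exact Bool.false_le _
  · have h1 : ∃ e' : Finset (Vy I Λ u K1 K s b2 r0), e'.map ι = e.1 ∧ PresC h y e' := by
      unfold encC at hx
      exact of_decide_eq_true hx
    obtain ⟨e', he, hp⟩ := h1
    have h2 : encC ι h y' e = true := by
      unfold encC
      exact decide_eq_true ⟨e', he, hp.1, hp.2.1, fun j i σ hs1 hs2 => hy j (hp.2.2 j i σ hs1 hs2)⟩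
    rw [h2]

/-- the vertices of a tuple in a copy -/
def slotE (J : Cpy u K1 K s) (i : I) (σ : (Fin s × Fin b2) → Λ) :
    Fin u ⊕ Fin s → Vy I Λ u K1 K s b2 r0 :=
  Sum.elim (fun l => apx l (J.1 l)) (fun t => prt' (J.2 t) i t (fun c => σ (t, c)))

lemma slotE_inj (J : Cpy u K1 K s) (i : I) (σ : (Fin s × Fin b2) → Λ) :
    Function.Injective (slotE (r0 := r0) J i σ) := by
  rintro (l | t) (l' | t') hh
  · have h1 := Sum.inl.inj (Sum.inl.inj hh)
    simp only [Prod.mk.injEq] at h1
    rw [h1.1]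
  · have h1 := Sum.inl.inj hh
    simp at h1
  · have h1 := Sum.inl.inj hh
    simp at h1
  · have h1 := Sum.inr.inj (Sum.inl.inj hh)
    simp only [Prod.mk.injEq] at h1
    rw [h1.2.2.1]

lemma encC_uniq (hs : 0 < s) {e : Finset (Vy I Λ u K1 K s b2 r0)} (he : e.card = u + s)
    {J J' : Cpy u K1 K s} {i i' : I} {σ σ' : (Fin s × Fin b2) → Λ}
    (h1 : ∀ l, apx l (J.1 l) ∈ e) (h2 : ∀ t, prt' (J.2 t) i t (fun c => σ (t, c)) ∈ e)
    (h1' : ∀ l, apx l (J'.1 l) ∈ e) (h2' : ∀ t, prt' (J'.2 t) i' t (fun c => σ' (t, c)) ∈ e) :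
    J = J' ∧ (i, σ) = (i', σ') := by
  classical
  have himg : univ.image (slotE (r0 := r0) J i σ) = e := by
    apply Finset.eq_of_subset_of_card_le
    · intro x hx
      obtain ⟨z, -, rfl⟩ := Finset.mem_image.mp hx
      rcases z with l | t
      · exact h1 l
      · exact h2 t
    · rw [Finset.card_image_of_injective _ (slotE_inj J i σ), Finset.card_univ,
        Fintype.card_sum, Fintype.card_fin, Fintype.card_fin, he]
  have ka : ∀ l, J.1 l = J'.1 l := by
    intro l
    have h3 := h1' l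
    rw [← himg] at h3
    obtain ⟨z, -, h4⟩ := Finset.mem_image.mp h3
    rcases z with l1 | t1
    · have h5 := Sum.inl.inj (Sum.inl.inj h4)
      simp only [Prod.mk.injEq] at h5
      obtain ⟨rfl, h6⟩ := h5
      exact h6
    · have h5 := Sum.inl.inj h4
      simp at h5
  have kb : ∀ t, J.2 t = J'.2 t ∧ i = i' ∧ (fun c => σ (t, c)) = fun c => σ' (t, c) := by
    intro t
    have h3 := h2' t
    rw [← himg] at h3
    obtain ⟨z, -, h4⟩ := Finset.mem_image.mp h3
    rcases z with l1 | t1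
    · have h5 := Sum.inl.inj h4
      simp at h5
    · have h5 := Sum.inr.inj (Sum.inl.inj h4)
      simp only [Prod.mk.injEq] at h5
      obtain ⟨h6, h7, rfl, h8⟩ := h5
      exact ⟨h6, h7, h8⟩
  refine ⟨Prod.ext (funext ka) (funext fun t => (kb t).1), Prod.ext (kb ⟨0, hs⟩).2.1 ?_⟩
  funext tc
  exact congrFun (kb tc.1).2.2 tc.2

lemma encC_narrow (hs : 0 < s) (y : Cpy u K1 K s → Set (I × ((Fin s × Fin b2) → Λ)))
    (J : Cpy u K1 K s) (e : {e : Finset (Fin n) // e.card = u + s}) :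
    ∃ T' : Finset (I × ((Fin s × Fin b2) → Λ)), T'.card ≤ 1 ∧
      ∀ x x' : Set (I × ((Fin s × Fin b2) → Λ)), (∀ v ∈ T', v ∈ x → v ∈ x') →
        encC ι h (Function.update y J x) e = true →
        encC ι h (Function.update y J x') e = true := by
  classical
  by_cases hex : ∃ (e' : Finset (Vy I Λ u K1 K s b2 r0)) (i : I) (σ : (Fin s × Fin b2) → Λ),
      e'.map ι = e.1 ∧ (∀ l, apx l (J.1 l) ∈ e') ∧
        ∀ t, prt' (J.2 t) i t (fun c => σ (t, c)) ∈ e'
  · obtain ⟨e0, i0, σ0, he0, hs0, hs1⟩ := hex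
    refine ⟨{(i0, σ0)}, by simp, fun x x' hx henc => ?_⟩
    have h1 : ∃ e' : Finset (Vy I Λ u K1 K s b2 r0), e'.map ι = e.1 ∧
        PresC h (Function.update y J x) e' := of_decide_eq_true henc
    obtain ⟨e', he', hp⟩ := h1
    refine decide_eq_true ⟨e', he', hp.1, hp.2.1, fun j i σ ha hb => ?_⟩
    have hee : e' = e0 := by
      apply Finset.map_injective ι
      rw [he', he0]
    have h2 := hp.2.2 j i σ ha hb
    by_cases hj : j = J
    · subst hj
      rw [Function.update_self] at h2 ⊢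
      have hc : e'.card = u + s := by
        rw [← Finset.card_map ι, he']
        exact e.2
      have h3 := (encC_uniq hs hc ha hb (by rw [hee]; exact hs0) (by rw [hee]; exact hs1)).2
      rw [h3] at h2 ⊢
      exact hx _ (Finset.mem_singleton_self _) h2
    · rw [Function.update_of_ne hj] at h2 ⊢
      exact h2
  · refine ⟨∅, by simp, fun x x' hx henc => ?_⟩
    have h1 : ∃ e' : Finset (Vy I Λ u K1 K s b2 r0), e'.map ι = e.1 ∧
        PresC h (Function.update y J x) e' := of_decide_eq_true henc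
    obtain ⟨e', he', hp⟩ := h1
    refine decide_eq_true ⟨e', he', hp.1, hp.2.1, fun j i σ ha hb => ?_⟩
    have h2 := hp.2.2 j i σ ha hb
    by_cases hj : j = J
    · subst hj
      exact absurd ⟨e', i, σ, he', ha, hb⟩ hex
    · rw [Function.update_of_ne hj] at h2 ⊢
      exact h2

/-- the embedding of a solution -/
def solC (h : I → (Fin s × Fin b2) → V) (J : Cpy u K1 K s) (p : V → Λ) :
    (Fin u ⊕ (I × Fin s)) ⊕ Fin r0 ↪ Vy I Λ u K1 K s b2 r0 where
  toFun := Sum.map (Sum.map (fun l => (l, J.1 l))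
    (fun it => (J.2 it.2, it.1, it.2, fun c => p (h it.1 (it.2, c))))) id
  inj' := by
    rintro ((l | ⟨i, t⟩) | c) ((l' | ⟨i', t'⟩) | c') hh
    · have h3 := Sum.inl.inj (Sum.inl.inj hh)
      simp only [Prod.mk.injEq] at h3
      rw [h3.1]
    · have h3 := Sum.inl.inj hh
      simp at h3
    · simp at hh
    · have h3 := Sum.inl.inj hh
      simp at h3
    · have h3 := Sum.inr.inj (Sum.inl.inj hh)
      simp only [Prod.mk.injEq] at h3
      rw [h3.2.1, h3.2.2.1]
    · simp at hh
    · simp at hh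
    · simp at hh
    · have h3 := Sum.inr.inj hh
      simp only [id] at h3
      rw [h3]

lemma mem_solC_apx {J : Cpy u K1 K s} {p : V → Λ} {l : Fin u} {a : Fin K1}
    (hx : (apx l a : Vy I Λ u K1 K s b2 r0) ∈ univ.map (solC h J p)) : a = J.1 l := by
  obtain ⟨z, -, hz⟩ := Finset.mem_map.mp hx
  rcases z with (l1 | ⟨i1, t1⟩) | c
  · have h3 := Sum.inl.inj (Sum.inl.inj hz)
    simp only [Prod.mk.injEq] at h3
    obtain ⟨rfl, rfl⟩ := h3
    rfl
  · have h3 := Sum.inl.inj hz
    simp at h3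
  · have h3 : (Sum.inr (id c) : Vy I Λ u K1 K s b2 r0) = apx l a := hz
    exact absurd h3 (by simp)

lemma mem_solC_prt {J : Cpy u K1 K s} {p : V → Λ} {x : Fin K} {i : I} {t : Fin s}
    {τ : Fin b2 → Λ}
    (hx : (prt' x i t τ : Vy I Λ u K1 K s b2 r0) ∈ univ.map (solC h J p)) :
    x = J.2 t ∧ τ = fun c => p (h i (t, c)) := by
  obtain ⟨z, -, hz⟩ := Finset.mem_map.mp hx
  rcases z with (l1 | ⟨i1, t1⟩) | c
  · have h3 := Sum.inl.inj hz
    simp at h3
  · have h3 := Sum.inr.inj (Sum.inl.inj hz)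
    simp only [Prod.mk.injEq] at h3
    obtain ⟨rfl, rfl, rfl, rfl⟩ := h3
    exact ⟨rfl, rfl⟩
  · have h3 : (Sum.inr (id c) : Vy I Λ u K1 K s b2 r0) = prt' x i t τ := hz
    exact absurd h3 (by simp)

lemma encC_clique (hr : 2 ≤ u + s) (hs : 0 < s) (hb2 : 0 < b2) (hI : 0 < Fintype.card I)
    (y : Cpy u K1 K s → Set (I × ((Fin s × Fin b2) → Λ))) :
    HasClq n (u + s) (u + s * Fintype.card I + r0) (encC ι h y) ↔
      ∃ J, ∃ p : V → Λ, (tu h (gr p) : Set (I × ((Fin s × Fin b2) → Λ))) ⊆ y J := by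
  classical
  constructor
  · rintro ⟨S, hS, hcl⟩
    have hSr : u + s ≤ S.card := by
      rw [hS]
      have : s * 1 ≤ s * Fintype.card I := Nat.mul_le_mul_left _ hI
      omega
    -- hyperedges inside `S`
    have hedge : ∀ F ⊆ S, F.card ≤ u + s → ∃ e' : Finset (Vy I Λ u K1 K s b2 r0),
        F ⊆ e'.map ι ∧ e'.map ι ⊆ S ∧ PresC h y e' := by
      intro F hF hFr
      obtain ⟨e, h1, h2, h3⟩ := Finset.exists_subsuperset_card_eq hF hFr hSr
      have h4 : ∃ e' : Finset (Vy I Λ u K1 K s b2 r0), e'.map ι = e ∧ PresC h y e' :=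
        of_decide_eq_true (hcl ⟨e, h3⟩ h2)
      obtain ⟨e', rfl, hp⟩ := h4
      exact ⟨e', h1, h2, hp⟩
    set S' : Finset (Vy I Λ u K1 K s b2 r0) := univ.filter (fun x => ι x ∈ S) with hS'
    have hmem : ∀ x, x ∈ S' ↔ ι x ∈ S := fun x => by
      rw [hS', Finset.mem_filter]
      exact ⟨fun hh => hh.2, fun hh => ⟨mem_univ _, hh⟩⟩
    have hmap : S'.map ι = S := by
      ext v
      rw [Finset.mem_map]
      constructor
      · rintro ⟨x, hx, rfl⟩
        exact (hmem x).mp hx
      · intro hv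
        obtain ⟨e', h1, -, -⟩ := hedge {v} (by simpa using hv) (by rw [Finset.card_singleton]; omega)
        obtain ⟨x, -, hx⟩ := Finset.mem_map.mp (h1 (Finset.mem_singleton_self v))
        exact ⟨x, (hmem x).mpr (by rw [hx]; exact hv), hx⟩
    have hcard : S'.card = u + s * Fintype.card I + r0 := by
      rw [← hS, ← hmap, Finset.card_map]
    -- pairs
    have hpair : ∀ x x', x ∈ S' → x' ∈ S' → ∃ e' : Finset (Vy I Λ u K1 K s b2 r0),
        x ∈ e' ∧ x' ∈ e' ∧ PresC h y e' := by
      intro x x' h1 h2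
      obtain ⟨e', h3, -, hp⟩ := hedge {ι x, ι x'} (by
        intro v hv
        rw [Finset.mem_insert, Finset.mem_singleton] at hv
        rcases hv with rfl | rfl
        · exact (hmem _).mp h1
        · exact (hmem _).mp h2) ((Finset.card_le_two).trans hr)
      refine ⟨e', ?_, ?_, hp⟩
      · have := h3 (Finset.mem_insert_self _ _)
        rwa [Finset.mem_map' ι] at this
      · have := h3 (Finset.mem_insert_of_mem (Finset.mem_singleton_self _))
        rwa [Finset.mem_map' ι] at this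
    have hpa : ∀ l a a', (apx l a : Vy I Λ u K1 K s b2 r0) ∈ S' →
        (apx l a' : Vy I Λ u K1 K s b2 r0) ∈ S' → a = a' := by
      intro l a a' h1 h2
      obtain ⟨e', h3, h4, hp⟩ := hpair _ _ h1 h2
      exact hp.1 _ _ _ h3 h4
    have hpb : ∀ x i t τ x' i' t' τ', (prt' x i t τ : Vy I Λ u K1 K s b2 r0) ∈ S' →
        (prt' x' i' t' τ' : Vy I Λ u K1 K s b2 r0) ∈ S' →
        (t = t' → x = x') ∧ (i = i' → t = t' → τ = τ') ∧
          ∀ c c', h i (t, c) = h i' (t', c') → τ c = τ' c' := by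
      intro x i t τ x' i' t' τ' h1 h2
      obtain ⟨e', h3, h4, hp⟩ := hpair _ _ h1 h2
      exact hp.2.1 _ _ _ _ _ _ _ _ h3 h4
    -- all parts are present
    let g : Vy I Λ u K1 K s b2 r0 → (Fin u ⊕ (I × Fin s)) ⊕ Fin r0 :=
      Sum.map (Sum.map (fun z => z.1) (fun z => (z.2.1, z.2.2.1))) id
    have hg : Set.InjOn g S' := by
      rintro ((⟨l, a⟩ | ⟨x, i, t, τ⟩) | c) hx ((⟨l', a'⟩ | ⟨x', i', t', τ'⟩) | c') hx' hh
      · have h3 := Sum.inl.inj (Sum.inl.inj hh)
        obtain rfl : l = l' := h3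
        rw [hpa _ _ _ (Finset.mem_coe.mp hx) (Finset.mem_coe.mp hx')]
      · have h3 := Sum.inl.inj hh
        simp at h3
      · simp [g] at hh
      · have h3 := Sum.inl.inj hh
        simp at h3
      · have h3 := Sum.inr.inj (Sum.inl.inj hh)
        simp only [Prod.mk.injEq] at h3
        obtain ⟨rfl, rfl⟩ := h3
        obtain ⟨h4, h5, -⟩ := hpb _ _ _ _ _ _ _ _ (Finset.mem_coe.mp hx) (Finset.mem_coe.mp hx')
        rw [h4 rfl, h5 rfl rfl]
      · simp [g] at hh
      · simp [g] at hh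
      · simp [g] at hh
      · have h3 := Sum.inr.inj hh
        simp only [id] at h3
        rw [h3]
    have himg : S'.image g = univ := by
      apply Finset.eq_univ_of_card
      rw [Finset.card_image_of_injOn hg, hcard, Fintype.card_sum, Fintype.card_sum,
        Fintype.card_prod, Fintype.card_fin, Fintype.card_fin, Fintype.card_fin, mul_comm]
    have halla : ∀ l, ∃ a, (apx l a : Vy I Λ u K1 K s b2 r0) ∈ S' := by
      intro l
      have h1 : (Sum.inl (Sum.inl l) : (Fin u ⊕ (I × Fin s)) ⊕ Fin r0) ∈ S'.image g := by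
        rw [himg]
        exact mem_univ _
      obtain ⟨x, hx, hgx⟩ := Finset.mem_image.mp h1
      rcases x with (⟨l', a'⟩ | ⟨x', i', t', τ'⟩) | c'
      · have h3 := Sum.inl.inj (Sum.inl.inj hgx)
        obtain rfl : l' = l := h3
        exact ⟨a', hx⟩
      · have h3 := Sum.inl.inj hgx
        simp at h3
      · simp [g] at hgx
    have hall : ∀ i t, ∃ x τ, (prt' x i t τ : Vy I Λ u K1 K s b2 r0) ∈ S' := by
      intro i t
      have h1 : (Sum.inl (Sum.inr (i, t)) : (Fin u ⊕ (I × Fin s)) ⊕ Fin r0) ∈ S'.image g := by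
        rw [himg]
        exact mem_univ _
      obtain ⟨x, hx, hgx⟩ := Finset.mem_image.mp h1
      rcases x with (⟨l', a'⟩ | ⟨x', i', t', τ'⟩) | c'
      · have h3 := Sum.inl.inj hgx
        simp at h3
      · have h3 := Sum.inr.inj (Sum.inl.inj hgx)
        simp only [Prod.mk.injEq] at h3
        obtain ⟨rfl, rfl⟩ := h3
        exact ⟨x', τ', hx⟩
      · simp [g] at hgx
    choose aa haa using halla
    choose xx τ hτ using hall
    obtain ⟨i0⟩ := Fintype.card_pos_iff.mp hI
    have hxx : ∀ i t, xx i t = xx i0 t := fun i t =>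
      (hpb _ _ _ _ _ _ _ _ (hτ i t) (hτ i0 t)).1 rfl
    -- the assignment
    have hΛ : Nonempty Λ := ⟨τ i0 ⟨0, hs⟩ ⟨0, hb2⟩⟩
    let p : V → Λ := fun v => if hv : ∃ z : I × (Fin s × Fin b2), h z.1 z.2 = v then
      τ hv.choose.1 hv.choose.2.1 hv.choose.2.2 else Classical.choice hΛ
    have hp : ∀ i t c, p (h i (t, c)) = τ i t c := by
      intro i t c
      have hv : ∃ z : I × (Fin s × Fin b2), h z.1 z.2 = h i (t, c) := ⟨(i, (t, c)), rfl⟩
      simp only [p, dif_pos hv]
      exact (hpb _ _ _ _ _ _ _ _ (hτ _ _) (hτ i t)).2.2 _ _ hv.choose_spec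
    refine ⟨(aa, xx i0), p, ?_⟩
    rintro ⟨i, σ⟩ hu
    have hu1 : ∀ st, p (h i st) = σ st := by
      intro st
      have h1 := (Finset.mem_filter.mp (Finset.mem_coe.mp hu)).2 st
      rw [mem_gr] at h1
      exact h1
    have hσ : ∀ t, τ i t = fun c => σ (t, c) := by
      intro t
      funext c
      rw [← hp, hu1]
    obtain ⟨e', h3, -, hpr⟩ := hedge (univ.image (fun z => ι (slotE (r0 := r0)
        ((aa, xx i0) : Cpy u K1 K s) i σ z))) (by
      intro v hv
      obtain ⟨z, -, rfl⟩ := Finset.mem_image.mp hv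
      rcases z with l | t
      · exact (hmem _).mp (haa l)
      · have h1 := hτ i t
        rw [hxx, hσ] at h1
        exact (hmem _).mp h1) (by
      refine Finset.card_image_le.trans ?_
      rw [Finset.card_univ, Fintype.card_sum, Fintype.card_fin, Fintype.card_fin])
    apply hpr.2.2
    · intro l
      have := h3 (Finset.mem_image_of_mem _ (mem_univ (Sum.inl l)))
      rwa [Finset.mem_map' ι] at this
    · intro t
      have := h3 (Finset.mem_image_of_mem _ (mem_univ (Sum.inr t)))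
      rwa [Finset.mem_map' ι] at this
  · rintro ⟨J, p, hjp⟩
    refine ⟨(univ.map (solC h J p)).map ι, ?_, ?_⟩
    · rw [Finset.card_map, Finset.card_map, Finset.card_univ, Fintype.card_sum, Fintype.card_sum,
        Fintype.card_prod, Fintype.card_fin, Fintype.card_fin, Fintype.card_fin, mul_comm]
    · rintro ⟨e, he⟩ heS
      apply decide_eq_true
      refine ⟨(univ.map (solC h J p)).filter (fun x => ι x ∈ e), ?_, ?_, ?_, ?_⟩
      · ext v
        rw [Finset.mem_map]
        constructor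
        · rintro ⟨x, hx, rfl⟩
          exact (Finset.mem_filter.mp hx).2
        · intro hv
          obtain ⟨x, hx, hxv⟩ := Finset.mem_map.mp (heS hv)
          exact ⟨x, Finset.mem_filter.mpr ⟨hx, by rw [hxv]; exact hv⟩, hxv⟩
      · intro l a a' h1 h2
        rw [mem_solC_apx (Finset.mem_filter.mp h1).1, mem_solC_apx (Finset.mem_filter.mp h2).1]
      · intro x i t τ x' i' t' τ' h1 h2
        obtain ⟨rfl, rfl⟩ := mem_solC_prt (Finset.mem_filter.mp h1).1
        obtain ⟨rfl, rfl⟩ := mem_solC_prt (Finset.mem_filter.mp h2).1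
        refine ⟨?_, ?_, ?_⟩
        · rintro rfl
          rfl
        · rintro rfl rfl
          rfl
        · intro c c' hc
          simp only
          rw [hc]
      · intro J1 i σ ha hb
        have h1 := fun l => mem_solC_apx (Finset.mem_filter.mp (ha l)).1
        have h2 := fun t => mem_solC_prt (Finset.mem_filter.mp (hb t)).1
        have hj : J1 = J := Prod.ext (funext h1) (funext fun t => (h2 t).1)
        subst hj
        apply hjp
        apply Finset.mem_coe.mpr
        unfold tu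
        rw [Finset.mem_filter]
        refine ⟨mem_univ _, ?_⟩
        rintro ⟨t, c⟩
        rw [mem_gr]
        exact (congrFun (h2 t).2 c).symm

end

end Pool.Agent.W969.MC
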