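import Pool.Agent.W969.MC.Clq3
import Pool.Agent.W969.MC.Avg4

/-! Randomised circuits for cliques, many copies: integer parameters. -/

set_option linter.unusedSectionVars false
set_option linter.unusedVariables false

namespace Pool.Agent.W969.MC

open Finset Pool.Agent.H560R2

/-- the randomised clique lower bound with integer parameters, many copies -/
theorem curve_param {n u s : ℕ} {R : Type} [Fintype R] [Nonempty R]
    {b2 b q M m sx w K1 K r0 : ℕ} (hr : 2 ≤ u + s) (hs : 0 < s) (P : Pars s b2 b q M m sx w)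
    (hn : u * K1 + K * (M * (s * q ^ b2)) + r0 ≤ n)
    (C : R → RC {e : Finset (Fin n) // e.card = u + s}) (A0 g : ℝ)
    (hyes : ∀ x, HasClq n (u + s) (u + s * M + r0) x →
      (A0 + g) * Fintype.card R ≤ ({ρ : R | (C ρ).acc x}.ncard : ℝ))
    (hno : ∀ x, ¬ HasClq n (u + s) (u + s * M + r0) x →
      ({ρ : R | (C ρ).acc x}.ncard : ℝ) ≤ A0 * Fintype.card R)
    (hfree : ∀ ρ, ((C ρ).free : ℝ) ≤ (g / 2) * (K1 ^ u * K ^ s : ℕ))
    (hlen : ∀ ρ, (C ρ).size ≤ (q + 1) ^ m) (hq : 16 / (q : ℝ) ≤ g)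
    (hlt : ∀ ρ, 16 * ((C ρ).size : ℝ) * 2 ^ (w / (2 * b) / b + 1) <
      g * (q : ℝ) ^ (w / (2 * b) / b + 1)) : False := by
  classical
  obtain ⟨h, hG⟩ := P.good
  have : Nonempty (Fin s × Fin b2) := ⟨(⟨0, hs⟩, ⟨0, P.hb2⟩)⟩
  have hcard : Fintype.card (Vy (Fin M) (Fin q) u K1 K s b2 r0) ≤ Fintype.card (Fin n) := by
    simp only [Fintype.card_sum, Fintype.card_prod, Fintype.card_fin, Fintype.card_fun]
    exact hn
  obtain ⟨ι⟩ := Function.Embedding.nonempty_of_card_le hcard
  have hMpos : 0 < M := by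
    have := P.hM
    have := P.hm
    omega
  have hcl := fun y => encC_clique (ι := ι) (h := h) (r0 := r0) (K1 := K1) (K := K) hr hs P.hb2
      (by rw [Fintype.card_fin]; exact hMpos) y
  simp only [Fintype.card_fin] at hcl
  have hcc : Fintype.card (Cpy u K1 K s) = K1 ^ u * K ^ s := by
    simp only [Fintype.card_prod, Fintype.card_fin, Fintype.card_fun]
  let e : Cpy u K1 K s ≃ Fin (K1 ^ u * K ^ s) := Fintype.equivFinOfCardEq hcc
  have hupd : ∀ (y : Fin (K1 ^ u * K ^ s) → Set (Fin M × ((Fin s × Fin b2) → Fin q)))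
      (J : Fin (K1 ^ u * K ^ s)) (x : Set (Fin M × ((Fin s × Fin b2) → Fin q))),
      (fun j => Function.update y J x (e j)) = Function.update (fun j => y (e j)) (e.symm J) x := by
    intro y J x
    funext j
    by_cases hj : e j = J
    · have hj' : j = e.symm J := by rw [← hj, Equiv.symm_apply_apply]
      subst hj'
      rw [Function.update_self, Equiv.apply_symm_apply, Function.update_self]
    · have hj' : j ≠ e.symm J := by
        rintro rfl
        exact hj (Equiv.apply_symm_apply _ _)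
      rw [Function.update_of_ne hj, Function.update_of_ne hj']
  refine csp_rand hG (m' := K1 ^ u * K ^ s) C (fun y => encC ι h (fun j => y (e j))) ?_ ?_ A0 g
    ?_ ?_ hfree
    (by rw [Fintype.card_fin, Fintype.card_fin]; exact hlen)
    (by rw [Fintype.card_fin]; exact hq)
    (by rw [Fintype.card_fin]; exact hlt)
  · intro y y' hy
    exact encC_mono (fun j => hy (e j))
  · intro y J p
    obtain ⟨T', h1, h2⟩ := encC_narrow (ι := ι) (h := h) hs (fun j => y (e j)) (e.symm J) p
    refine ⟨T', h1, fun x x' hx hh => ?_⟩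
    have h3 := h2 x x' hx (by rw [← hupd]; exact hh)
    rw [← hupd] at h3
    exact h3
  · rintro y ⟨j, p, hp⟩
    refine hyes _ ((hcl _).mpr ⟨e.symm j, p, ?_⟩)
    simp only [Equiv.apply_symm_apply]
    exact hp
  · intro y hy
    refine hno _ (fun hh => hy ?_)
    obtain ⟨j, p, hp⟩ := (hcl _).mp hh
    exact ⟨e j, p, hp⟩

end Pool.Agent.W969.MC
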