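import Pool.Agent.W969.MC.AvgG2

/-! The number of cliques of a uniform hypergraph. -/

set_option linter.unusedSectionVars false
set_option linter.unusedVariables false

namespace Pool.Agent.W969.MC

open Finset Pool.Agent.H560R2

section

variable {V I Λ : Type} [Fintype V] [DecidableEq V] [Fintype I] [DecidableEq I]
  [Fintype Λ] [DecidableEq Λ] {n m' r b2 : ℕ}

/-- the sets of vertices that are consistent and have no missing tuple -/
def PresU (h : I → (Fin r × Fin b2) → V) (π : Fin n → Option (Fin m' × I × Fin r × (Fin b2 → Λ)))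
    (y : Fin m' → Set (I × ((Fin r × Fin b2) → Λ))) (e : Finset (Fin n)) : Prop :=
  (∀ v ∈ e, π v ≠ none) ∧
  (∀ v ∈ e, ∀ v' ∈ e, ∀ j i s τ j' i' s' τ', π v = some (j, i, s, τ) →
    π v' = some (j', i', s', τ') → j = j' ∧ ∀ t t', h i (s, t) = h i' (s', t') → τ t = τ' t') ∧
  ∀ (j : Fin m') (i : I) (σ : (Fin r × Fin b2) → Λ),
    (∀ s, ∃ v ∈ e, π v = some (j, i, s, fun t => σ (s, t))) → (i, σ) ∈ y j

open Classical in
/-- the hypergraph -/
noncomputable def encU (h : I → (Fin r × Fin b2) → V)
    (π : Fin n → Option (Fin m' × I × Fin r × (Fin b2 → Λ)))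
    (y : Fin m' → Set (I × ((Fin r × Fin b2) → Λ))) : {e : Finset (Fin n) // e.card = r} → Bool :=
  fun e => decide (PresU h π y e.1)

/-- the number of sets of vertices all of whose `r`-element subsets are hyperedges -/
noncomputable def numClq (n r : ℕ) (x : {e : Finset (Fin n) // e.card = r} → Bool) : ℕ :=
  {S : Finset (Fin n) | ∀ e : {e : Finset (Fin n) // e.card = r}, e.1 ⊆ S → x e = true}.ncard

variable {h : I → (Fin r × Fin b2) → V}
  {π : Fin n → Option (Fin m' × I × Fin r × (Fin b2 → Λ))}

lemma encU_iff {y : Fin m' → Set (I × ((Fin r × Fin b2) → Λ))}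
    {e : {e : Finset (Fin n) // e.card = r}} : encU h π y e = true ↔ PresU h π y e.1 := by
  classical
  unfold encU
  exact decide_eq_true_iff

lemma encU_mono {y y' : Fin m' → Set (I × ((Fin r × Fin b2) → Λ))} (hy : ∀ j, y j ⊆ y' j) :
    encU h π y ≤ encU h π y' := by
  intro e
  rcases hx : encU h π y e with _ | _
  · exact Bool.false_le _
  · have h1 := encU_iff.mp hx
    have h2 : encU h π y' e = true :=
      encU_iff.mpr ⟨h1.1, h1.2.1, fun j i σ hs => hy j (h1.2.2 j i σ hs)⟩
    rw [h2]

/-- elements with different parts form a set with `r` elements -/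
lemma parts_card {j : Fin m'} {i : I} {σ : Fin r → (Fin b2 → Λ)} {v : Fin r → Fin n}
    (hv : ∀ s, π (v s) = some (j, i, s, σ s)) : Function.Injective v := by
  intro s s' hs
  have h1 := hv s
  rw [hs, hv s'] at h1
  have h2 := Option.some.inj h1
  simp only [Prod.mk.injEq, true_and] at h2
  exact h2.1.symm

lemma encU_uniq (hr : 0 < r) {e : Finset (Fin n)} (he : e.card = r) {J : Fin m'}
    {i i' : I} {σ σ' : (Fin r × Fin b2) → Λ}
    (h1 : ∀ s, ∃ v ∈ e, π v = some (J, i, s, fun t => σ (s, t)))
    (h2 : ∀ s, ∃ v ∈ e, π v = some (J, i', s, fun t => σ' (s, t))) : (i, σ) = (i', σ') := by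
  classical
  choose v hv1 hv2 using h1
  have hinj := parts_card (σ := fun s t => σ (s, t)) hv2
  have himg : univ.image v = e := by
    apply Finset.eq_of_subset_of_card_le
    · intro x hx
      obtain ⟨s, -, rfl⟩ := Finset.mem_image.mp hx
      exact hv1 s
    · rw [Finset.card_image_of_injective _ hinj, Finset.card_univ, Fintype.card_fin, he]
  have key : ∀ s, i = i' ∧ (fun t => σ (s, t)) = fun t => σ' (s, t) := by
    intro s
    obtain ⟨v', hv', hv''⟩ := h2 s
    rw [← himg] at hv'
    obtain ⟨s1, -, rfl⟩ := Finset.mem_image.mp hv'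
    rw [hv2 s1] at hv''
    have h5 := Option.some.inj hv''
    simp only [Prod.mk.injEq, true_and] at h5
    obtain ⟨h6, rfl, h7⟩ := h5
    exact ⟨h6, h7⟩
  refine Prod.ext (key ⟨0, hr⟩).1 ?_
  funext st
  exact congrFun (key st.1).2 st.2

lemma encU_narrow (hr : 0 < r) (y : Fin m' → Set (I × ((Fin r × Fin b2) → Λ))) (J : Fin m')
    (e : {e : Finset (Fin n) // e.card = r}) :
    ∃ T' : Finset (I × ((Fin r × Fin b2) → Λ)), T'.card ≤ 1 ∧
      ∀ x x' : Set (I × ((Fin r × Fin b2) → Λ)), (∀ u ∈ T', u ∈ x → u ∈ x') →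
        encU h π (Function.update y J x) e = true →
        encU h π (Function.update y J x') e = true := by
  classical
  by_cases hex : ∃ (i : I) (σ : (Fin r × Fin b2) → Λ),
      ∀ s, ∃ v ∈ e.1, π v = some (J, i, s, fun t => σ (s, t))
  · obtain ⟨i0, σ0, hs0⟩ := hex
    refine ⟨{(i0, σ0)}, by simp, fun x x' hx henc => ?_⟩
    have hp := encU_iff.mp henc
    refine encU_iff.mpr ⟨hp.1, hp.2.1, fun j i σ hs => ?_⟩
    have h2 := hp.2.2 j i σ hs
    by_cases hj : j = J
    · subst hj
      rw [Function.update_self] at h2 ⊢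
      have h3 := encU_uniq hr e.2 hs hs0
      rw [h3] at h2 ⊢
      exact hx _ (Finset.mem_singleton_self _) h2
    · rw [Function.update_of_ne hj] at h2 ⊢
      exact h2
  · refine ⟨∅, by simp, fun x x' hx henc => ?_⟩
    have hp := encU_iff.mp henc
    refine encU_iff.mpr ⟨hp.1, hp.2.1, fun j i σ hs => ?_⟩
    have h2 := hp.2.2 j i σ hs
    by_cases hj : j = J
    · subst hj
      exact absurd ⟨i, σ, hs⟩ hex
    · rw [Function.update_of_ne hj] at h2 ⊢
      exact h2

/-- many cliques in the positive case -/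
lemma count_yes [Nonempty (Fin r × Fin b2)] (hr : 0 < r) {Bt : ℕ} (hπ : ∀ c, (univ.filter (fun v => π v = some c)).card = Bt)
    {y : Fin m' → Set (I × ((Fin r × Fin b2) → Λ))} {j : Fin m'} {p : V → Λ}
    (hp : (tu h (gr p) : Set (I × ((Fin r × Fin b2) → Λ))) ⊆ y j) :
    2 ^ (Bt * (r * Fintype.card I)) ≤ numClq n r (encU h π y) := by
  classical
  set U : Finset (Fin n) := univ.filter (fun v => ∃ is : I × Fin r,
    π v = some (j, is.1, is.2, fun t => p (h is.1 (is.2, t)))) with hU
  have hUc : U.card = Bt * (r * Fintype.card I) := by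
    have h1 : U = (univ : Finset (I × Fin r)).biUnion (fun is =>
        univ.filter (fun v => π v = some (j, is.1, is.2, fun t => p (h is.1 (is.2, t))))) := by
      ext v
      simp [hU]
    rw [h1, Finset.card_biUnion]
    · rw [Finset.sum_congr rfl (fun is _ => hπ _), Finset.sum_const, Finset.card_univ,
        Fintype.card_prod, Fintype.card_fin, smul_eq_mul]
      ring
    · rintro ⟨i, s⟩ _ ⟨i', s'⟩ _ hne
      rw [Function.onFun, Finset.disjoint_left]
      intro v hv hv'
      have h2 := (Finset.mem_filter.mp hv).2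
      have h3 := (Finset.mem_filter.mp hv').2
      rw [h2] at h3
      have h4 := Option.some.inj h3
      simp only [Prod.mk.injEq, true_and] at h4
      exact hne (Prod.ext h4.1 h4.2.1)
  have hsub : (U.powerset : Set (Finset (Fin n))) ⊆ {S : Finset (Fin n) |
      ∀ e : {e : Finset (Fin n) // e.card = r}, e.1 ⊆ S → encU h π y e = true} := by
    intro S hS e he
    have hSU : S ⊆ U := Finset.mem_powerset.mp (Finset.mem_coe.mp hS)
    have heU : e.1 ⊆ U := he.trans hSU
    refine encU_iff.mpr ⟨?_, ?_, ?_⟩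
    · intro v hv
      obtain ⟨is, h2⟩ := (Finset.mem_filter.mp (heU hv)).2
      rw [h2]
      simp
    · intro v hv v' hv' j1 i s τ j' i' s' τ' h2 h3
      obtain ⟨is, h4⟩ := (Finset.mem_filter.mp (heU hv)).2
      obtain ⟨is', h5⟩ := (Finset.mem_filter.mp (heU hv')).2
      rw [h4] at h2
      rw [h5] at h3
      have h6 := Option.some.inj h2
      have h7 := Option.some.inj h3
      simp only [Prod.mk.injEq] at h6 h7
      obtain ⟨h61, h62, h63, h64⟩ := h6
      obtain ⟨h71, h72, h73, h74⟩ := h7
      refine ⟨h61.symm.trans h71, ?_⟩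
      intro t t' ht
      rw [← h64, ← h74]
      simp only
      rw [h62, h63, h72, h73, ht]
    · intro j1 i σ hs
      have h1 : ∀ s, j = j1 ∧ (fun t => p (h i (s, t))) = fun t => σ (s, t) := by
        intro s
        obtain ⟨v, hv, h2⟩ := hs s
        obtain ⟨is, h4⟩ := (Finset.mem_filter.mp (heU hv)).2
        rw [h4] at h2
        have h6 := Option.some.inj h2
        simp only [Prod.mk.injEq] at h6
        obtain ⟨h61, h62, h63, h64⟩ := h6
        refine ⟨h61, ?_⟩
        rw [← h64, h62, h63]
      rw [← (h1 ⟨0, hr⟩).1]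
      apply hp
      apply Finset.mem_coe.mpr
      rw [mem_tu]
      rintro ⟨s, t⟩
      rw [mem_gr]
      exact congrFun (h1 s).2 t
  have h2 := Set.ncard_le_ncard hsub (Set.toFinite _)
  rw [Set.ncard_coe_finset, Finset.card_powerset, hUc] at h2
  exact h2

/-- few cliques in the negative case -/
lemma count_no (hr : 2 ≤ r) (hb2 : 0 < b2) {Bt : ℕ}
    (hπ : ∀ c, (univ.filter (fun v => π v = some c)).card = Bt)
    {y : Fin m' → Set (I × ((Fin r × Fin b2) → Λ))}
    (hy : ∀ j, ∀ p : V → Λ, sc h p (y j) ≤ Fintype.card I / 2) :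
    numClq n r (encU h π y) ≤ r * (n + 1) ^ r +
      (m' * (Fintype.card Λ ^ Fintype.card V * 2 ^ (r * Fintype.card I))) *
        2 ^ (Bt * (r * Fintype.card I - (Fintype.card I - Fintype.card I / 2))) := by
  classical
  set g0 := r * Fintype.card I - (Fintype.card I - Fintype.card I / 2) with hg0
  set U : Fin m' × (V → Λ) × Finset (I × Fin r) → Finset (Fin n) := fun z =>
    univ.filter (fun v => ∃ is ∈ z.2.2,
      π v = some (z.1, is.1, is.2, fun t => z.2.1 (h is.1 (is.2, t)))) with hU
  have hUc : ∀ z, (U z).card ≤ Bt * z.2.2.card := by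
    intro z
    have h1 : U z ⊆ z.2.2.biUnion (fun is =>
        univ.filter (fun v => π v = some (z.1, is.1, is.2, fun t => z.2.1 (h is.1 (is.2, t))))) := by
      intro v hv
      obtain ⟨is, h1, h2⟩ := (Finset.mem_filter.mp hv).2
      exact Finset.mem_biUnion.mpr ⟨is, h1, Finset.mem_filter.mpr ⟨mem_univ _, h2⟩⟩
    refine (Finset.card_le_card h1).trans (Finset.card_biUnion_le.trans ?_)
    rw [Finset.sum_congr rfl (fun is _ => hπ _), Finset.sum_const, smul_eq_mul, mul_comm]
  set Z := (univ : Finset (Fin m' × (V → Λ) × Finset (I × Fin r))).filter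
    (fun z => z.2.2.card ≤ g0) with hZ
  have hcov : {S : Finset (Fin n) | ∀ e : {e : Finset (Fin n) // e.card = r}, e.1 ⊆ S →
      encU h π y e = true} ⊆ (((range r).biUnion (fun k => (univ : Finset (Fin n)).powersetCard k) ∪
        Z.biUnion (fun z => (U z).powerset) : Finset (Finset (Fin n))) : Set (Finset (Fin n))) := by
    intro S hS
    rw [Set.mem_setOf_eq] at hS
    rw [Finset.mem_coe, Finset.mem_union]
    by_cases hSr : S.card < r
    · left
      exact Finset.mem_biUnion.mpr ⟨S.card, Finset.mem_range.mpr hSr,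
        Finset.mem_powersetCard.mpr ⟨Finset.subset_univ _, rfl⟩⟩
    right
    push Not at hSr
    have hedge : ∀ F ⊆ S, F.card ≤ r → ∃ e : Finset (Fin n), F ⊆ e ∧ e ⊆ S ∧ PresU h π y e := by
      intro F hF hFr
      obtain ⟨e, h1, h2, h3⟩ := Finset.exists_subsuperset_card_eq hF hFr hSr
      exact ⟨e, h1, h2, encU_iff.mp (hS ⟨e, h3⟩ h2)⟩
    have hnn : ∀ v ∈ S, π v ≠ none := by
      intro v hv
      obtain ⟨e, h1, -, hp⟩ := hedge {v} (by simpa using hv) (by rw [Finset.card_singleton]; omega)
      exact hp.1 v (h1 (Finset.mem_singleton_self v))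
    have hpair : ∀ v ∈ S, ∀ v' ∈ S, ∀ j i s τ j' i' s' τ', π v = some (j, i, s, τ) →
        π v' = some (j', i', s', τ') → j = j' ∧ ∀ t t', h i (s, t) = h i' (s', t') → τ t = τ' t' := by
      intro v hv v' hv'
      obtain ⟨e, h1, -, hp⟩ := hedge {v, v'} (by
        intro u hu
        rw [Finset.mem_insert, Finset.mem_singleton] at hu
        rcases hu with rfl | rfl
        · exact hv
        · exact hv') ((Finset.card_le_two).trans hr)
      exact hp.2.1 v (h1 (Finset.mem_insert_self _ _)) v'
        (h1 (Finset.mem_insert_of_mem (Finset.mem_singleton_self _)))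
    -- the copy
    obtain ⟨v0, hv0⟩ : S.Nonempty := Finset.card_pos.mp (by omega)
    obtain ⟨⟨j0, i0, s0, τ0⟩, hc0⟩ := Option.ne_none_iff_exists'.mp (hnn v0 hv0)
    have hΛ : Nonempty Λ := ⟨τ0 ⟨0, hb2⟩⟩
    -- the assignment
    let p : V → Λ := fun w => if hw : ∃ (v : Fin n) (i : I) (s : Fin r) (τ : Fin b2 → Λ) (t : Fin b2),
        v ∈ S ∧ π v = some (j0, i, s, τ) ∧ h i (s, t) = w then
      hw.choose_spec.choose_spec.choose_spec.choose hw.choose_spec.choose_spec.choose_spec.choose_spec.choose
      else Classical.choice hΛ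
    have hp : ∀ v ∈ S, ∀ i s τ, π v = some (j0, i, s, τ) → τ = fun t => p (h i (s, t)) := by
      intro v hv i s τ hπv
      funext t
      have hw : ∃ (v' : Fin n) (i' : I) (s' : Fin r) (τ' : Fin b2 → Λ) (t' : Fin b2),
          v' ∈ S ∧ π v' = some (j0, i', s', τ') ∧ h i' (s', t') = h i (s, t) :=
        ⟨v, i, s, τ, t, hv, hπv, rfl⟩
      simp only [p, dif_pos hw]
      have hsp := hw.choose_spec.choose_spec.choose_spec.choose_spec.choose_spec
      exact ((hpair _ hsp.1 _ hv _ _ _ _ _ _ _ _ hsp.2.1 hπv).2 _ _ hsp.2.2).symm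
    set G : Finset (I × Fin r) := univ.filter (fun is => ∃ v ∈ S, ∃ τ, π v = some (j0, is.1, is.2, τ))
      with hG
    have hjj : ∀ v ∈ S, ∀ j i s τ, π v = some (j, i, s, τ) → j = j0 := by
      intro v hv j i s τ hπv
      exact (hpair v hv v0 hv0 _ _ _ _ _ _ _ _ hπv hc0).1
    have hSU : S ⊆ U (j0, p, G) := by
      intro v hv
      obtain ⟨⟨j, i, s, τ⟩, hc⟩ := Option.ne_none_iff_exists'.mp (hnn v hv)
      have hj := hjj v hv j i s τ hc
      subst hj
      refine Finset.mem_filter.mpr ⟨mem_univ _, (i, s), Finset.mem_filter.mpr ⟨mem_univ _, v, hv, τ, hc⟩,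
        ?_⟩
      rw [hc, hp v hv i s τ hc]
    -- the constraints all of whose parts are hit
    have hfull : (univ.filter (fun i : I => ∀ s, (i, s) ∈ G)).card ≤ Fintype.card I / 2 := by
      refine le_trans ?_ (hy j0 p)
      unfold sc
      rw [← Set.ncard_coe_finset]
      apply Set.ncard_le_ncard _ (Set.toFinite _)
      intro i hi
      have hi' : ∀ s, (i, s) ∈ G := (Finset.mem_filter.mp (Finset.mem_coe.mp hi)).2
      have h1 : ∀ s, ∃ v, v ∈ S ∧ π v = some (j0, i, s, fun t => p (h i (s, t))) := by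
        intro s
        obtain ⟨v, hv, τ, hτ⟩ := (Finset.mem_filter.mp (hi' s)).2
        have h2 := hp v hv i s τ hτ
        exact ⟨v, hv, by rw [hτ, h2]⟩
      choose v hv1 hv2 using h1
      have hinj := parts_card (σ := fun s t => p (h i (s, t))) hv2
      obtain ⟨e, h3, -, hpr⟩ := hedge (univ.image v) (by
        intro u hu
        obtain ⟨s, -, rfl⟩ := Finset.mem_image.mp hu
        exact hv1 s) (by
        rw [Finset.card_image_of_injective _ hinj, Finset.card_univ, Fintype.card_fin])
      exact hpr.2.2 j0 i (fun st => p (h i st))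
        (fun s => ⟨v s, h3 (Finset.mem_image_of_mem _ (mem_univ s)), hv2 s⟩)
    have hGc : G.card ≤ g0 := by
      have h1 : (univ.filter (fun i : I => ¬ ∀ s, (i, s) ∈ G)).card ≤ Gᶜ.card := by
        have h2 : ∀ i : I, ∃ s : Fin r, (¬ ∀ s, (i, s) ∈ G) → (i, s) ∉ G := by
          intro i
          by_cases hh : ∀ s, (i, s) ∈ G
          · exact ⟨⟨0, by omega⟩, fun h => absurd hh h⟩
          · push Not at hh
            obtain ⟨s, hs⟩ := hh
            exact ⟨s, fun _ => hs⟩
        choose f hf using h2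
        apply Finset.card_le_card_of_injOn (fun i => (i, f i))
        · intro i hi
          have hi' := (Finset.mem_filter.mp (Finset.mem_coe.mp hi)).2
          exact Finset.mem_coe.mpr (Finset.mem_compl.mpr (hf i hi'))
        · intro i _ i' _ hh
          exact (Prod.ext_iff.mp hh).1
      have h3 := Finset.card_filter_add_card_filter_not (s := (univ : Finset I))
        (p := fun i => ∀ s, (i, s) ∈ G)
      rw [Finset.card_univ] at h3
      have h4 := Finset.card_compl_add_card G
      rw [Fintype.card_prod, Fintype.card_fin] at h4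
      have h5 : r * Fintype.card I = Fintype.card I * r := mul_comm _ _
      rw [hg0, h5]
      omega
    exact Finset.mem_biUnion.mpr ⟨(j0, p, G), Finset.mem_filter.mpr ⟨mem_univ _, hGc⟩,
      Finset.mem_powerset.mpr hSU⟩
  have h1 := Set.ncard_le_ncard hcov (Set.toFinite _)
  rw [Set.ncard_coe_finset] at h1
  refine h1.trans ((Finset.card_union_le _ _).trans (Nat.add_le_add ?_ ?_))
  · refine Finset.card_biUnion_le.trans ?_
    have h2 : ∀ k ∈ range r, ((univ : Finset (Fin n)).powersetCard k).card ≤ (n + 1) ^ r := by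
      intro k hk
      rw [Finset.card_powersetCard, Finset.card_univ, Fintype.card_fin]
      calc n.choose k ≤ n ^ k := Nat.choose_le_pow _ _
        _ ≤ (n + 1) ^ k := Nat.pow_le_pow_left (Nat.le_succ n) _
        _ ≤ (n + 1) ^ r := Nat.pow_le_pow_right (by omega) (Finset.mem_range.mp hk).le
    refine (Finset.sum_le_sum h2).trans ?_
    rw [Finset.sum_const, Finset.card_range, smul_eq_mul]
  · refine Finset.card_biUnion_le.trans ?_
    have h2 : ∀ z ∈ Z, ((U z).powerset).card ≤ 2 ^ (Bt * g0) := by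
      intro z hz
      rw [Finset.card_powerset]
      exact Nat.pow_le_pow_right (by norm_num)
        ((hUc z).trans (Nat.mul_le_mul_left _ (Finset.mem_filter.mp hz).2))
    refine (Finset.sum_le_sum h2).trans ?_
    rw [Finset.sum_const, smul_eq_mul]
    apply Nat.mul_le_mul_right
    refine (Finset.card_filter_le _ _).trans ?_
    rw [Finset.card_univ, Fintype.card_prod, Fintype.card_prod, Fintype.card_fun,
      Fintype.card_finset, Fintype.card_prod, Fintype.card_fin, Fintype.card_fin,
      mul_comm (Fintype.card I) r]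

end

end Pool.Agent.W969.MC
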