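import Pool.Agent.W969.MC.Avg4

/-! The choice of the parameters, with room for a polylogarithmic factor, for randomised circuits. -/

set_option linter.unusedSectionVars false
set_option linter.unusedVariables false

namespace Pool.Agent.W969.MC

open Finset

theorem graph_pars (r : ℕ) (hr : 2 ≤ r) (ε : ℝ) (hε : 0 < ε) (c0 : ℕ) :
    ∃ κ : ℝ, 0 < κ ∧ ∃ n0 : ℕ, ∀ n : ℕ, n0 ≤ n → ∃ b2 b q M m s w m' : ℕ,
      Pars r b2 b q M m s w ∧ m' * (M * (r * q ^ b2)) * (c0 * (Nat.log 2 n + 1)) ≤ n ∧ 1 ≤ m' ∧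
      m' * (M * (r * q ^ b2)) ≤ n ∧
      (n : ℝ) ^ ((r : ℝ) / (r + 1) - ε) ≤ M ∧ (n : ℝ) ^ κ ≤ (n : ℝ) ^ (-κ) / 2 * m' ∧
      16 / (q : ℝ) ≤ (n : ℝ) ^ (-κ) ∧
      ∀ z : ℕ, (z : ℝ) < Real.exp ((n : ℝ) ^ ((r : ℝ) / (r + 1) - ε)) → z ≤ (q + 1) ^ m ∧
        16 * (z : ℝ) * 2 ^ (w / (2 * b) / b + 1) <
          (n : ℝ) ^ (-κ) * (q : ℝ) ^ (w / (2 * b) / b + 1) := by
  -- it suffices to consider small ε
  wlog hε1 : ε ≤ 1 / 2 with Hw
  · obtain ⟨κ, hκ, n0, H⟩ := Hw r hr (1 / 2) (by norm_num) c0 le_rfl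
    refine ⟨κ, hκ, max n0 1, ?_⟩
    intro n hn
    obtain ⟨b2, b, q, M, m, s, w, m', h1, h2, h3, h3', h4, h5, h6, h7⟩ :=
      H n ((le_max_left _ _).trans hn)
    have hle : (n : ℝ) ^ ((r : ℝ) / (r + 1) - ε) ≤ (n : ℝ) ^ ((r : ℝ) / (r + 1) - 1 / 2) := by
      apply Real.rpow_le_rpow_of_exponent_le
      · exact_mod_cast (le_max_right _ _).trans hn
      · push Not at hε1
        linarith
    exact ⟨b2, b, q, M, m, s, w, m', h1, h2, h3, h3', hle.trans h4, h5, h6, fun z hz =>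
      h7 z (lt_of_lt_of_le hz (Real.exp_le_exp.mpr hle))⟩
  have hkR : (2 : ℝ) ≤ r := by exact_mod_cast hr
  have hkpos : (0 : ℝ) < r := by linarith
  obtain ⟨b2, hb2, δ, hδ, l0, H⟩ := pars_exist2 r hr (ε / 4) (by positivity)
  obtain ⟨l1, Hab⟩ := absorb hδ
  set a0 : ℝ := 1 + 1 / (r : ℝ) with ha0
  have ha1 : 1 < a0 := by
    have : 0 < 1 / (r : ℝ) := by positivity
    rw [ha0]; linarith
  have hinv : 1 / a0 = (r : ℝ) / (r + 1) := by
    rw [ha0]
    field_simp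
  have hg0 : (2 : ℝ) / 3 ≤ (r : ℝ) / (r + 1) := by
    rw [le_div_iff₀ (by positivity)]
    linarith
  set g : ℝ := (r : ℝ) / (r + 1) - ε with hg
  have hgpos : 0 < g + ε / 2 := by rw [hg]; linarith
  set C1 : ℝ := c0 * (2 / (ε / 8) + 1) with hC1
  obtain ⟨n1, hn1⟩ := ev_rpow (η := ε / 8) (by positivity) C1
  obtain ⟨n2, hn2⟩ := ev_rpow (η := g + ε / 2) hgpos (l0 + l1 + 2)
  obtain ⟨n3, hn3⟩ := ev_rpow (η := ε / 2) (by positivity) (2 / (δ / 4))
  obtain ⟨n4, hn4⟩ := ev_rpow (η := 1 - ε / 4) (by linarith) 4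
  refine ⟨δ / 8, by positivity, max (max n1 n2) (max (max n3 n4) 4), ?_⟩
  intro n hn
  have hnn1 : n1 ≤ n := (le_max_left _ _).trans ((le_max_left _ _).trans hn)
  have hnn2 : n2 ≤ n := (le_max_right _ _).trans ((le_max_left _ _).trans hn)
  have hnn3 : n3 ≤ n := (le_max_left _ _).trans
    ((le_max_left _ _).trans ((le_max_right _ _).trans hn))
  have hnn4 : n4 ≤ n := (le_max_right _ _).trans
    ((le_max_left _ _).trans ((le_max_right _ _).trans hn))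
  have hnn5 : 4 ≤ n := (le_max_right _ _).trans ((le_max_right _ _).trans hn)
  have hnR : (4 : ℝ) ≤ n := by exact_mod_cast hnn5
  have hnpos : (0 : ℝ) < n := by linarith
  have hn1R : (1 : ℝ) ≤ n := by linarith
  have e1 := hn1 n hnn1
  have e2 := hn2 n hnn2
  have e3 := hn3 n hnn3
  have e4 := hn4 n hnn4
  -- the numbers
  set N : ℕ := ⌈(n : ℝ) ^ (1 - ε / 4)⌉₊ with hN
  have hN1 : (n : ℝ) ^ (1 - ε / 4) ≤ N := Nat.le_ceil _
  have hN2 : (N : ℝ) ≤ 2 * (n : ℝ) ^ (1 - ε / 4) := by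
    have h1 : (N : ℝ) < (n : ℝ) ^ (1 - ε / 4) + 1 := Nat.ceil_lt_add_one (by positivity)
    linarith
  have hNR : (4 : ℝ) ≤ N := e4.trans hN1
  have hNpos : (0 : ℝ) < N := by linarith
  set l : ℕ := ⌊(n : ℝ) ^ (g + ε / 2)⌋₊ with hl
  have hl1 : (l : ℝ) ≤ (n : ℝ) ^ (g + ε / 2) := Nat.floor_le (by positivity)
  have hl2 : (n : ℝ) ^ (g + ε / 2) - 1 < l := Nat.sub_one_lt_floor _
  have hll01 : l0 + l1 ≤ l := by
    have : (l0 : ℝ) + l1 ≤ l := by linarith
    exact_mod_cast this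
  have hll0 : l0 ≤ l := by omega
  have hlN : (l : ℝ) ^ (1 + 1 / (r : ℝ) + ε / 4) ≤ N := by
    refine le_trans ?_ hN1
    calc (l : ℝ) ^ (1 + 1 / (r : ℝ) + ε / 4) ≤
          ((n : ℝ) ^ (g + ε / 2)) ^ (1 + 1 / (r : ℝ) + ε / 4) :=
          Real.rpow_le_rpow (Nat.cast_nonneg _) hl1 (by positivity)
      _ = (n : ℝ) ^ ((g + ε / 2) * (a0 + ε / 4)) := by
          rw [← Real.rpow_mul hnpos.le]
      _ ≤ (n : ℝ) ^ (1 - ε / 4) := by
          apply Real.rpow_le_rpow_of_exponent_le hn1R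
          have h1 : g + ε / 2 = 1 / a0 - ε / 2 := by rw [hinv, hg]; ring
          have h2 : 1 / a0 * a0 = 1 := one_div_mul_cancel (by linarith)
          have h3 : 1 / a0 ≤ 1 := by
            rw [div_le_one (by linarith)]
            exact ha1.le
          rw [h1]
          have h4 : (1 / a0 - ε / 2) * (a0 + ε / 4) =
            1 / a0 * a0 + (1 / a0) * (ε / 4) - ε / 2 * a0 - ε / 2 * (ε / 4) := by ring
          rw [h4, h2]
          have h5 : (1 / a0) * (ε / 4) ≤ 1 * (ε / 4) :=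
            mul_le_mul_of_nonneg_right h3 (by positivity)
          have h6 : ε / 2 * 1 ≤ ε / 2 * a0 := mul_le_mul_of_nonneg_left ha1.le (by positivity)
          have h7 : 0 ≤ ε / 2 * (ε / 4) := by positivity
          linarith
  obtain ⟨b, q, M, m, s, w, m', f1, f2, f3, f4, f5⟩ := H N l hll0 hlN
  obtain ⟨P, f6⟩ := f5 q le_rfl (by omega)
  have hdl : (n : ℝ) ^ g ≤ δ / 4 * l := by
    have h1 : (n : ℝ) ^ (g + ε / 2) = (n : ℝ) ^ (ε / 2) * (n : ℝ) ^ g := by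
      rw [← Real.rpow_add hnpos]
      congr 1
      ring
    have h2 : 0 < (n : ℝ) ^ g := by positivity
    have h3 : (n : ℝ) ^ (g + ε / 2) ≤ 2 * l := by
      have h4 : (0 : ℝ) ≤ l0 := Nat.cast_nonneg _
      have h4' : (0 : ℝ) ≤ l1 := Nat.cast_nonneg _
      linarith
    have h5 : 2 ≤ δ / 4 * (n : ℝ) ^ (ε / 2) := by
      rw [div_le_iff₀ (by positivity)] at e3
      linarith
    have h7 : 2 * (n : ℝ) ^ g ≤ 2 * (δ / 4 * l) := by
      calc 2 * (n : ℝ) ^ g ≤ (δ / 4 * (n : ℝ) ^ (ε / 2)) * (n : ℝ) ^ g :=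
            mul_le_mul_of_nonneg_right h5 h2.le
        _ = δ / 4 * (n : ℝ) ^ (g + ε / 2) := by rw [h1]; ring
        _ ≤ δ / 4 * (2 * l) := mul_le_mul_of_nonneg_left h3 (by positivity)
        _ = 2 * (δ / 4 * l) := by ring
    linarith
  have hlnN : l ≤ N := by
    have h1 : (l : ℝ) ≤ N := by
      refine le_trans ?_ hlN
      by_cases h0 : l = 0
      · rw [h0, Nat.cast_zero]
        positivity
      · have h2 : (1 : ℝ) ≤ l := by exact_mod_cast Nat.one_le_iff_ne_zero.mpr h0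
        calc (l : ℝ) = (l : ℝ) ^ (1 : ℝ) := (Real.rpow_one _).symm
          _ ≤ _ := by
            apply Real.rpow_le_rpow_of_exponent_le h2
            have h3 : 0 < 1 / (r : ℝ) := by positivity
            linarith
    exact_mod_cast h1
  obtain ⟨g1, g2, g3⟩ := Hab N l q m (w / (2 * b) / b + 1) (by omega) hlnN
    (Nat.le_add_left 1 _) (P.j0_le (by omega) f1) f6
  have hm'R : (1 : ℝ) ≤ m' := (Real.one_le_rpow (by linarith) hδ.le).trans f3
  have hm'1 : 1 ≤ m' := by exact_mod_cast hm'R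
  have hMpos : 1 ≤ M := by
    have := P.hm
    have := P.hM
    omega
  have hX : ((m' * (M * (r * q ^ b2)) : ℕ) : ℝ) ≤ (n : ℝ) ^ (1 - ε / 4) := by
    have h9 : ((2 * (m' * (M * (r * q ^ b2))) : ℕ) : ℝ) ≤ N := by exact_mod_cast f2
    have h10 : ((2 * (m' * (M * (r * q ^ b2))) : ℕ) : ℝ) =
        2 * ((m' * (M * (r * q ^ b2)) : ℕ) : ℝ) := by push_cast; ring
    rw [h10] at h9
    linarith
  have hsz0 : ∀ z : ℕ, (z : ℝ) < Real.exp ((n : ℝ) ^ g) → (z : ℝ) < (N : ℝ) ^ (δ / 4 * l) := by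
    intro z hz
    refine lt_of_lt_of_le hz ?_
    rw [Real.rpow_def_of_pos hNpos]
    apply Real.exp_le_exp.mpr
    have hlog : (1 : ℝ) ≤ Real.log N := by
      rw [Real.le_log_iff_exp_le hNpos]
      have := Real.exp_one_lt_d9
      linarith
    have h8 : 0 ≤ δ / 4 * l := by positivity
    calc (n : ℝ) ^ g ≤ 1 * (δ / 4 * l) := by rw [one_mul]; exact hdl
      _ ≤ Real.log N * (δ / 4 * l) := mul_le_mul_of_nonneg_right hlog h8
  have h10 : (n : ℝ) ^ (δ / 8) ≤ (N : ℝ) ^ (δ / 4) := by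
    calc (n : ℝ) ^ (δ / 8) = ((n : ℝ) ^ ((1 : ℝ) / 2)) ^ (δ / 4) := by
          rw [← Real.rpow_mul hnpos.le]
          congr 1
          ring
      _ ≤ (N : ℝ) ^ (δ / 4) := by
          apply Real.rpow_le_rpow (by positivity) _ (by positivity)
          refine le_trans ?_ hN1
          apply Real.rpow_le_rpow_of_exponent_le hn1R
          linarith
  have h11 : (N : ℝ) ^ (-(δ / 4)) ≤ (n : ℝ) ^ (-(δ / 8)) := by
    rw [Real.rpow_neg hNpos.le, Real.rpow_neg hnpos.le]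
    exact inv_anti₀ (by positivity) h10
  refine ⟨b2, b, q, M, m, s, w, m', P, ?_, hm'1, ?_, ?_, ?_, g1.trans h11, ?_⟩
  · -- the number of vertices
    have g4 : ((c0 * (Nat.log 2 n + 1) : ℕ) : ℝ) ≤ C1 * (n : ℝ) ^ (ε / 8) := by
      have h9 := natlog_le (η := ε / 8) (by positivity) (show 1 ≤ n by omega)
      push_cast
      calc (c0 : ℝ) * ((Nat.log 2 n : ℝ) + 1) ≤ c0 * ((2 / (ε / 8) + 1) * (n : ℝ) ^ (ε / 8)) :=
          mul_le_mul_of_nonneg_left h9 (Nat.cast_nonneg _)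
        _ = C1 * (n : ℝ) ^ (ε / 8) := by rw [hC1]; ring
    have g5 : ((m' * (M * (r * q ^ b2)) * (c0 * (Nat.log 2 n + 1)) : ℕ) : ℝ) ≤ n := by
      have h9 : 0 < (n : ℝ) ^ (ε / 8) := by positivity
      rw [Nat.cast_mul]
      calc ((m' * (M * (r * q ^ b2)) : ℕ) : ℝ) * ((c0 * (Nat.log 2 n + 1) : ℕ) : ℝ) ≤
            (n : ℝ) ^ (1 - ε / 4) * (C1 * (n : ℝ) ^ (ε / 8)) :=
            mul_le_mul hX g4 (Nat.cast_nonneg _) (by positivity)
        _ ≤ (n : ℝ) ^ (1 - ε / 4) * ((n : ℝ) ^ (ε / 8) * (n : ℝ) ^ (ε / 8)) := by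
            apply mul_le_mul_of_nonneg_left _ (by positivity)
            exact mul_le_mul_of_nonneg_right e1 h9.le
        _ = (n : ℝ) ^ (1 : ℝ) := by
            rw [← Real.rpow_add hnpos, ← Real.rpow_add hnpos]
            congr 1
            ring
        _ = n := Real.rpow_one _
    exact_mod_cast g5
  · have g6 : ((m' * (M * (r * q ^ b2)) : ℕ) : ℝ) ≤ n := by
      refine hX.trans ?_
      calc (n : ℝ) ^ (1 - ε / 4) ≤ (n : ℝ) ^ (1 : ℝ) :=
            Real.rpow_le_rpow_of_exponent_le hn1R (by linarith)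
        _ = n := Real.rpow_one _
    exact_mod_cast g6
  · -- the number of constraints
    have hqN : q + 1 ≤ N := by
      have h12 : q ≤ m' * (M * (r * q ^ b2)) := by
        calc q ≤ q ^ b2 := Nat.le_self_pow (by omega) _
          _ ≤ r * q ^ b2 := Nat.le_mul_of_pos_left _ (by omega)
          _ ≤ M * (r * q ^ b2) := Nat.le_mul_of_pos_left _ (by omega)
          _ ≤ m' * (M * (r * q ^ b2)) := Nat.le_mul_of_pos_left _ (by omega)
      generalize m' * (M * (r * q ^ b2)) = X at h12 f2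
      omega
    have hqNR : ((q : ℝ) + 1) ≤ N := by exact_mod_cast hqN
    set Y : ℝ := (N : ℝ) ^ (δ * l) with hY
    have hdl4 : (n : ℝ) ^ g ≤ δ * l := by
      refine hdl.trans ?_
      apply mul_le_mul_of_nonneg_right _ (Nat.cast_nonneg _)
      linarith
    have hg1 : 1 ≤ (n : ℝ) ^ g := by
      apply Real.one_le_rpow hn1R
      rw [hg]
      linarith
    have hY4 : 4 ≤ Y := by
      calc (4 : ℝ) ≤ N := hNR
        _ = (N : ℝ) ^ (1 : ℝ) := (Real.rpow_one _).symm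
        _ ≤ Y := Real.rpow_le_rpow_of_exponent_le (by linarith) (hg1.trans hdl4)
    have h13 := (f6 ⌊Y / 2⌋₊ (by
      have : ((⌊Y / 2⌋₊ : ℕ) : ℝ) ≤ Y / 2 := Nat.floor_le (by positivity)
      linarith)).1
    have h14 : ((⌊Y / 2⌋₊ : ℕ) : ℝ) ≤ ((q : ℝ) + 1) ^ m := by exact_mod_cast h13
    have h15 : Y / 2 - 1 < ((⌊Y / 2⌋₊ : ℕ) : ℝ) := Nat.sub_one_lt_floor _
    have h16 : Y ≤ (N : ℝ) ^ ((m : ℝ) + 1) := by
      rw [Real.rpow_add hNpos, Real.rpow_one, Real.rpow_natCast]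
      have h17 : ((q : ℝ) + 1) ^ m ≤ (N : ℝ) ^ m := pow_le_pow_left₀ (by positivity) hqNR _
      have h18 : 0 < (N : ℝ) ^ m := by positivity
      calc Y ≤ (N : ℝ) ^ m * 4 := by linarith
        _ ≤ (N : ℝ) ^ m * N := mul_le_mul_of_nonneg_left hNR h18.le
    have h19 : δ * l ≤ (m : ℝ) + 1 :=
      (Real.rpow_le_rpow_left_iff (by linarith)).mp h16
    have h20 : (m : ℝ) + 1 ≤ M := by
      have h21 : m + 1 ≤ M := by
        have := P.hm
        have := P.hM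
        omega
      exact_mod_cast h21
    linarith
  · refine h10.trans ((g2 m' f3).trans ?_)
    apply mul_le_mul_of_nonneg_right _ (Nat.cast_nonneg _)
    linarith
  · intro z hz
    obtain ⟨h21, h22⟩ := g3 z (hsz0 z hz)
    refine ⟨h21, lt_of_lt_of_le h22 ?_⟩
    exact mul_le_mul_of_nonneg_right h11 (by positivity)

end Pool.Agent.W969.MC
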