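import Pool.Agent.W969.MC.Cnt1
import Pool.Agent.W969.MC.ParG

/-! Approximate counting of cliques by randomised circuits. -/

set_option linter.unusedSectionVars false
set_option linter.unusedVariables false

namespace Pool.Agent.W969.MC

open Finset Pool.Agent.H560R2

/-- a map with `Bt` preimages for each element -/
lemma exists_pi {K : Type} [Fintype K] {n Bt : ℕ} (h : Fintype.card K * Bt ≤ n) :
    ∃ π : Fin n → Option K, ∀ c, {v | π v = some c}.ncard = Bt := by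
  classical
  have hcard : Fintype.card (K × Fin Bt) ≤ Fintype.card (Fin n) := by
    rw [Fintype.card_prod, Fintype.card_fin, Fintype.card_fin]
    exact h
  obtain ⟨ι⟩ := Function.Embedding.nonempty_of_card_le hcard
  refine ⟨fun v => if hv : ∃ z, ι z = v then some hv.choose.1 else none, fun c => ?_⟩
  have himg : {v | (if hv : ∃ z, ι z = v then some hv.choose.1 else none) = some c} =
      Set.range (fun β : Fin Bt => ι (c, β)) := by
    ext v
    constructor
    · intro hv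
      have hv' : (if hv : ∃ z, ι z = v then some hv.choose.1 else none) = some c := hv
      by_cases hex : ∃ z, ι z = v
      · rw [dif_pos hex] at hv'
        have h1 := Option.some.inj hv'
        refine ⟨hex.choose.2, ?_⟩
        have h2 := hex.choose_spec
        simp only
        rw [← h1]
        exact h2
      · rw [dif_neg hex] at hv'
        exact absurd hv' (by simp)
    · rintro ⟨β, rfl⟩
      have hex : ∃ z, ι z = ι (c, β) := ⟨_, rfl⟩
      show (if hv : ∃ z, ι z = ι (c, β) then some hv.choose.1 else none) = some c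
      rw [dif_pos hex, ι.injective hex.choose_spec]
  rw [himg, ← Set.image_univ, Set.ncard_image_of_injective _ (fun β β' hh => by
    have h1 := ι.injective hh
    exact (Prod.ext_iff.mp h1).2), Set.ncard_univ, Nat.card_eq_fintype_card, Fintype.card_fin]

lemma gap_num {n r q M m m' lam : ℕ} (hr : 2 ≤ r) (hM : 2 * m ≤ M) (hm : 0 < m)
    (hn : n + 1 ≤ 2 ^ lam) (hq : q ≤ n + 1) (hm' : m' ≤ n + 1) (hlam : 1 ≤ lam) :
    2 ^ M * (r * (n + 1) ^ r + (m' * (q ^ m * 2 ^ (r * M))) *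
      2 ^ ((2 * r + 6) * lam * (r * M - (M - M / 2)))) < 2 ^ ((2 * r + 6) * lam * (r * M)) := by
  set H := M - M / 2 with hH
  have hH1 : 1 ≤ H := by omega
  have hMH : M ≤ 2 * H := by omega
  have hmH : m ≤ H := by omega
  have hHrM : H ≤ r * M := by
    have : 1 * M ≤ r * M := Nat.mul_le_mul_right _ (by omega)
    omega
  set X := lam * H with hX
  have x1 : M ≤ 2 * X := by
    calc M ≤ 2 * H := hMH
      _ ≤ 2 * (lam * H) := Nat.mul_le_mul_left _ (Nat.le_mul_of_pos_left _ (by omega))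
  have x2 : lam ≤ X := Nat.le_mul_of_pos_right _ (by omega)
  have x3 : lam * m ≤ X := Nat.mul_le_mul_left _ hmH
  have x4 : r * M ≤ 2 * (r * X) := by
    calc r * M ≤ r * (2 * X) := Nat.mul_le_mul_left _ x1
      _ = 2 * (r * X) := by ring
  have x5 : 1 ≤ X := hlam.trans x2
  have x6 : r ≤ r * X := Nat.le_mul_of_pos_right _ (by omega)
  have x7 : lam * r ≤ r * X := by
    rw [mul_comm]
    exact Nat.mul_le_mul_left _ x2
  have x8 : (2 * r + 6) * lam * H = 2 * (r * X) + 6 * X := by rw [hX]; ring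
  set Bt := (2 * r + 6) * lam with hBt
  have x9 : Bt * (r * M - H) + Bt * H = Bt * (r * M) := by
    rw [← Nat.mul_add]
    congr 1
    omega
  have x10 : Bt * H ≤ Bt * (r * M) := Nat.mul_le_mul_left _ hHrM
  have hr2 : r ≤ 2 ^ r := Nat.lt_two_pow_self.le
  have t1 : 2 ^ M * (r * (n + 1) ^ r) * 4 ≤ 2 ^ (Bt * (r * M)) := by
    calc 2 ^ M * (r * (n + 1) ^ r) * 4 ≤ 2 ^ M * (2 ^ r * (2 ^ lam) ^ r) * 2 ^ 2 := by
          apply Nat.mul_le_mul_right
          apply Nat.mul_le_mul_left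
          exact Nat.mul_le_mul hr2 (Nat.pow_le_pow_left hn _)
      _ = 2 ^ (M + (r + lam * r) + 2) := by
          rw [← pow_mul, ← pow_add, ← pow_add, ← pow_add]
      _ ≤ 2 ^ (Bt * (r * M)) := by
          apply Nat.pow_le_pow_right (by norm_num)
          omega
  have t2 : 2 ^ M * ((m' * (q ^ m * 2 ^ (r * M))) * 2 ^ (Bt * (r * M - H))) * 4 ≤
      2 ^ (Bt * (r * M)) := by
    calc 2 ^ M * ((m' * (q ^ m * 2 ^ (r * M))) * 2 ^ (Bt * (r * M - H))) * 4 ≤
          2 ^ M * ((2 ^ lam * ((2 ^ lam) ^ m * 2 ^ (r * M))) * 2 ^ (Bt * (r * M - H))) * 2 ^ 2 := by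
          apply Nat.mul_le_mul_right
          apply Nat.mul_le_mul_left
          apply Nat.mul_le_mul_right
          apply Nat.mul_le_mul (hm'.trans hn)
          apply Nat.mul_le_mul_right
          exact Nat.pow_le_pow_left (hq.trans hn) _
      _ = 2 ^ (M + (lam + (lam * m + r * M) + Bt * (r * M - H)) + 2) := by
          rw [← pow_mul, ← pow_add, ← pow_add, ← pow_add, ← pow_add, ← pow_add]
      _ ≤ 2 ^ (Bt * (r * M)) := by
          apply Nat.pow_le_pow_right (by norm_num)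
          omega
  have t3 : 0 < 2 ^ (Bt * (r * M)) := by positivity
  rw [Nat.mul_add]
  omega

/-- approximate counting with integer parameters -/
theorem count_param {n r : ℕ} {R : Type} [Fintype R] [Nonempty R]
    {b2 b q M m s w m' lam : ℕ} (hr : 2 ≤ r) (P : Pars r b2 b q M m s w)
    (hlam : n + 1 ≤ 2 ^ lam) (hlam1 : 1 ≤ lam)
    (hn : m' * (M * (r * q ^ b2)) * ((2 * r + 6) * lam) ≤ n) (hm' : 1 ≤ m')
    (C : R → RC {e : Finset (Fin n) // e.card = r}) (g : ℝ) (hg : 0 ≤ g)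
    (happ : ∀ x, (1 / 2 + g) * Fintype.card R ≤ ({ρ : R | (numClq n r x : ℝ) ≤
      (C ρ).val x (C ρ).o ∧ (C ρ).val x (C ρ).o ≤ 2 ^ M * (numClq n r x : ℝ)}.ncard : ℝ))
    (hfree : ∀ ρ, ((C ρ).free : ℝ) ≤ (g / 2) * m')
    (hlen : ∀ ρ, (C ρ).size ≤ (q + 1) ^ m) (hq : 16 / (q : ℝ) ≤ g)
    (hlt : ∀ ρ, 16 * ((C ρ).size : ℝ) * 2 ^ (w / (2 * b) / b + 1) <
      g * (q : ℝ) ^ (w / (2 * b) / b + 1)) : False := by
  classical
  obtain ⟨h, hG⟩ := P.good
  have hrpos : 0 < r := by omega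
  haveI : Nonempty (Fin r × Fin b2) := ⟨(⟨0, hrpos⟩, ⟨0, P.hb2⟩)⟩
  set Bt := (2 * r + 6) * lam with hBt
  obtain ⟨π, hπ0⟩ := exists_pi (K := Fin m' × Fin M × Fin r × (Fin b2 → Fin q)) (n := n) (Bt := Bt)
    (by
      simp only [Fintype.card_prod, Fintype.card_fin, Fintype.card_fun]
      exact hn)
  have hπ : ∀ c, (univ.filter (fun v => π v = some c)).card = Bt := by
    intro c
    rw [← hπ0 c, Set.ncard_eq_toFinset_card']
    congr 1
    ext v
    simp
  have hMpos : 1 ≤ M := by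
    have := P.hM
    have := P.hm
    omega
  have hBt1 : 1 ≤ Bt := Nat.mul_pos (by omega) hlam1
  have hXn : m' * (M * (r * q ^ b2)) ≤ n := by
    refine le_trans ?_ hn
    exact Nat.le_mul_of_pos_right _ hBt1
  have hqpos : 1 ≤ q := by
    have := P.hq
    omega
  have hqb : 1 ≤ q ^ b2 := Nat.one_le_pow _ _ hqpos
  have hqn : q ≤ n + 1 := by
    have h12 : q ≤ m' * (M * (r * q ^ b2)) := by
      calc q ≤ q ^ b2 := Nat.le_self_pow (by have := P.hb2; omega) _
        _ ≤ r * q ^ b2 := Nat.le_mul_of_pos_left _ (by omega)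
        _ ≤ M * (r * q ^ b2) := Nat.le_mul_of_pos_left _ (by omega)
        _ ≤ m' * (M * (r * q ^ b2)) := Nat.le_mul_of_pos_left _ (by omega)
    omega
  have hm'n : m' ≤ n + 1 := by
    have h12 : m' ≤ m' * (M * (r * q ^ b2)) := Nat.le_mul_of_pos_right _ (by positivity)
    omega
  have hnum := gap_num hr P.hM P.hm hlam hqn hm'n hlam1
  rw [← hBt] at hnum
  -- the threshold
  set C' : R → RC {e : Finset (Fin n) // e.card = r} := fun ρ =>
    { C ρ with τ := (2 : ℝ) ^ (Bt * (r * M)) } with hC'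
  have hacc : ∀ ρ x, (C' ρ).acc x ↔ (2 : ℝ) ^ (Bt * (r * M)) ≤ (C ρ).val x (C ρ).o :=
    fun ρ x => Iff.rfl
  have hRpos : (0 : ℝ) < Fintype.card R := by exact_mod_cast Fintype.card_pos
  refine csp_randG hG (m' := m') C' (fun y => encU h π y) (fun y y' hy => encU_mono hy)
    (fun y J p => encU_narrow hrpos y J p) (1 / 2 - g) g ?_ ?_ hfree
    (by rw [Fintype.card_fin, Fintype.card_fin]; exact hlen)
    (by rw [Fintype.card_fin]; exact hq)
    (by rw [Fintype.card_fin]; exact hlt)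
  · rintro y ⟨j, p, hp⟩
    have h1 := count_yes hrpos hπ hp
    rw [Fintype.card_fin] at h1
    have h1R : (2 : ℝ) ^ (Bt * (r * M)) ≤ (numClq n r (encU h π y) : ℝ) := by exact_mod_cast h1
    have h2 := happ (encU h π y)
    have h3 : {ρ : R | (numClq n r (encU h π y) : ℝ) ≤ (C ρ).val (encU h π y) (C ρ).o ∧
        (C ρ).val (encU h π y) (C ρ).o ≤ 2 ^ M * (numClq n r (encU h π y) : ℝ)} ⊆
        {ρ : R | (C' ρ).acc (encU h π y)} := by
      intro ρ hρ
      exact (hacc ρ _).mpr (h1R.trans hρ.1)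
    have h4 : ({ρ : R | (numClq n r (encU h π y) : ℝ) ≤ (C ρ).val (encU h π y) (C ρ).o ∧
        (C ρ).val (encU h π y) (C ρ).o ≤ 2 ^ M * (numClq n r (encU h π y) : ℝ)}.ncard : ℝ) ≤
        ({ρ : R | (C' ρ).acc (encU h π y)}.ncard : ℝ) := by
      exact_mod_cast Set.ncard_le_ncard h3 (Set.toFinite _)
    refine le_trans ?_ (h2.trans h4)
    apply mul_le_mul_of_nonneg_right _ hRpos.le
    linarith
  · intro y hy
    have h1 := count_no hr P.hb2 hπ (y := y) (h := h) (fun j p => hy j p)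
    rw [Fintype.card_fin, Fintype.card_fin, Fintype.card_fin] at h1
    have h2 : 2 ^ M * numClq n r (encU h π y) < 2 ^ (Bt * (r * M)) :=
      lt_of_le_of_lt (Nat.mul_le_mul_left _ h1) hnum
    have h2R : (2 : ℝ) ^ M * (numClq n r (encU h π y) : ℝ) < (2 : ℝ) ^ (Bt * (r * M)) := by
      exact_mod_cast h2
    have h3 := happ (encU h π y)
    have h4 : {ρ : R | (C' ρ).acc (encU h π y)} ⊆
        {ρ : R | ¬ ((numClq n r (encU h π y) : ℝ) ≤ (C ρ).val (encU h π y) (C ρ).o ∧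
        (C ρ).val (encU h π y) (C ρ).o ≤ 2 ^ M * (numClq n r (encU h π y) : ℝ))} := by
      intro ρ hρ hh
      exact absurd ((hacc ρ _).mp hρ) (not_le.mpr (lt_of_le_of_lt hh.2 h2R))
    have h5 : ({ρ : R | (C' ρ).acc (encU h π y)}.ncard : ℝ) ≤
        ({ρ : R | ¬ ((numClq n r (encU h π y) : ℝ) ≤ (C ρ).val (encU h π y) (C ρ).o ∧
        (C ρ).val (encU h π y) (C ρ).o ≤ 2 ^ M * (numClq n r (encU h π y) : ℝ))}.ncard : ℝ) := by
      exact_mod_cast Set.ncard_le_ncard h4 (Set.toFinite _)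
    rw [ncard_not] at h5
    linarith

/-- approximate counting of cliques -/
theorem count_rand (r : ℕ) (hr : 2 ≤ r) (ε : ℝ) (hε : 0 < ε) :
    ∃ δ : ℝ, 0 < δ ∧ ∃ n0 : ℕ, ∀ n : ℕ, n0 ≤ n →
      ∀ (R : Type) [Fintype R] [Nonempty R] (C : R → RC {e : Finset (Fin n) // e.card = r}),
        (∀ x, (1 / 2 + (n : ℝ) ^ (-δ)) * Fintype.card R ≤ ({ρ : R | (numClq n r x : ℝ) ≤
          (C ρ).val x (C ρ).o ∧ (C ρ).val x (C ρ).o ≤
            (2 : ℝ) ^ ((n : ℝ) ^ ((r : ℝ) / (r + 1) - ε)) * (numClq n r x : ℝ)}.ncard : ℝ)) →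
        (∀ ρ, ((C ρ).free : ℝ) ≤ (n : ℝ) ^ δ) →
        ∃ ρ, Real.exp ((n : ℝ) ^ ((r : ℝ) / (r + 1) - ε)) ≤ ((C ρ).size : ℝ) := by
  obtain ⟨κ, hκ, n0, H⟩ := graph_pars r hr ε hε (2 * r + 6)
  refine ⟨κ, hκ, max n0 1, ?_⟩
  intro n hn R _ _ C happ hfree
  obtain ⟨b2, b, q, M, m, s, w, m', P, h1, h2, h3, h4, h5, h6, h7⟩ :=
    H n ((le_max_left _ _).trans hn)
  have hn1 : 1 ≤ n := (le_max_right _ _).trans hn
  by_contra hcon
  push Not at hcon
  refine count_param (m' := m') hr P (lam := Nat.log 2 n + 1) ?_ (Nat.le_add_left 1 _) h1 h2 C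
    ((n : ℝ) ^ (-κ)) (by positivity) ?_ (fun ρ => (hfree ρ).trans h5)
    (fun ρ => (h7 _ (hcon ρ)).1) h6 (fun ρ => (h7 _ (hcon ρ)).2)
  · exact Nat.lt_pow_succ_log_self (by norm_num) n
  · intro x
    refine (happ x).trans ?_
    have h8 : {ρ : R | (numClq n r x : ℝ) ≤ (C ρ).val x (C ρ).o ∧ (C ρ).val x (C ρ).o ≤
            (2 : ℝ) ^ ((n : ℝ) ^ ((r : ℝ) / (r + 1) - ε)) * (numClq n r x : ℝ)} ⊆
        {ρ : R | (numClq n r x : ℝ) ≤ (C ρ).val x (C ρ).o ∧ (C ρ).val x (C ρ).o ≤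
            2 ^ M * (numClq n r x : ℝ)} := by
      intro ρ hρ
      refine ⟨hρ.1, hρ.2.trans ?_⟩
      apply mul_le_mul_of_nonneg_right _ (Nat.cast_nonneg _)
      rw [← Real.rpow_natCast]
      exact Real.rpow_le_rpow_of_exponent_le (by norm_num) h4
    exact_mod_cast Set.ncard_le_ncard h8 (Set.toFinite _)

end Pool.Agent.W969.MC
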