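import Pool.Agent.W969.MC.Clq4
import Pool.Agent.W969.MC.Par4

/-! The trade-off between the size and the number of further gates for cliques. -/

set_option linter.unusedSectionVars false
set_option linter.unusedVariables false

namespace Pool.Agent.W969.MC

open Finset Pool.Agent.H560R2

theorem curve_rand (u s : ℕ) (hs : 1 ≤ s) (hr : 2 ≤ u + s) (ε : ℝ) (hε : 0 < ε) :
    ∃ δ : ℝ, 0 < δ ∧ ∃ k0 : ℕ, ∀ n k l : ℕ, k0 ≤ l → l ≤ k → 2 * k ≤ n + 1 →
      ∀ F : ℝ, (l : ℝ) ^ (s + 1) * max F ((n : ℝ) ^ u) ≤ (n : ℝ) ^ ((u : ℝ) + s - ε) →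
      ∀ (R : Type) [Fintype R] [Nonempty R] (C : R → RC {e : Finset (Fin n) // e.card = u + s})
        (A0 : ℝ),
        (∀ x, HasClq n (u + s) k x →
          (A0 + (n : ℝ) ^ (-δ)) * Fintype.card R ≤ ({ρ : R | (C ρ).acc x}.ncard : ℝ)) →
        (∀ x, ¬ HasClq n (u + s) k x →
          ({ρ : R | (C ρ).acc x}.ncard : ℝ) ≤ A0 * Fintype.card R) →
        (∀ ρ, ((C ρ).free : ℝ) ≤ F) →
        ∃ ρ, (n : ℝ) ^ (δ * l) ≤ ((C ρ).size : ℝ) := by
  -- it suffices to consider small ε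
  wlog hε1 : ε ≤ 1 with Hw
  · obtain ⟨δ, hδ, k0, H⟩ := Hw u s hs hr 1 one_pos le_rfl
    refine ⟨δ, hδ, max k0 1, ?_⟩
    intro n k l hl hlk hkn F hF
    refine H n k l ((le_max_left _ _).trans hl) hlk hkn F (hF.trans ?_)
    push Not at hε1
    apply Real.rpow_le_rpow_of_exponent_le
    · have h1 : 1 ≤ l := (le_max_right _ _).trans hl
      exact_mod_cast (by omega : 1 ≤ n)
    · linarith
  obtain ⟨δ, hδ, l0, H⟩ := pars_curve u s hs ε hε hε1
  obtain ⟨l1, Hab⟩ := absorb hδ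
  obtain ⟨l2, hl2⟩ := ev_rpow (η := 3 * δ / 4) (by positivity) 2
  refine ⟨δ / 4, by positivity, max (max l0 l1) (max l2 1), ?_⟩
  intro n k l hl hlk hkn F hF R _ _ C A0 hyes hno hfree
  have hll0 : l0 ≤ l := (le_max_left _ _).trans ((le_max_left _ _).trans hl)
  have hll1 : l1 ≤ l := (le_max_right _ _).trans ((le_max_left _ _).trans hl)
  have hll2 : l2 ≤ l := (le_max_left _ _).trans ((le_max_right _ _).trans hl)
  have hl1 : 1 ≤ l := (le_max_right _ _).trans ((le_max_right _ _).trans hl)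
  have hln : l ≤ n := by omega
  have hnR : (1 : ℝ) ≤ n := by exact_mod_cast (by omega : 1 ≤ n)
  have hnpos : (0 : ℝ) < n := by linarith
  obtain ⟨b2, b, q, M, m, sx, w, K1, K, P, h1, h2, h3, h4, h5⟩ := H n l F hll0 hln hF
  obtain ⟨g1, g2, g3⟩ := Hab n l q m (w / (2 * b) / b + 1) hll1 hln (Nat.le_add_left 1 _) h2 h5
  by_contra hcon
  push Not at hcon
  obtain ⟨r0, hr0⟩ : ∃ r0, k = u + s * M + r0 := ⟨k - (u + s * M), by omega⟩
  have hsM : 1 ≤ s * M := Nat.mul_pos (by omega) (by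
    have := P.hM
    have := P.hm
    omega)
  refine curve_param (r0 := r0) (K1 := K1) (K := K) hr hs P (by omega) C A0
    ((n : ℝ) ^ (-(δ / 4))) (by rw [← hr0]; exact hyes) (by rw [← hr0]; exact hno) ?_
    (fun ρ => (g3 _ (hcon ρ)).1) g1 (fun ρ => (g3 _ (hcon ρ)).2)
  intro ρ
  refine (hfree ρ).trans ?_
  have hF0 : 0 ≤ F := (Nat.cast_nonneg _).trans (hfree ρ)
  have h6 : (n : ℝ) ^ (-(δ / 4)) / 2 * ((n : ℝ) ^ δ * F) ≤
      (n : ℝ) ^ (-(δ / 4)) / 2 * ((K1 ^ u * K ^ s : ℕ) : ℝ) :=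
    mul_le_mul_of_nonneg_left h4 (by positivity)
  refine le_trans ?_ h6
  have h7 : (n : ℝ) ^ (-(δ / 4)) / 2 * ((n : ℝ) ^ δ * F) = (n : ℝ) ^ (3 * δ / 4) / 2 * F := by
    have h8 : (n : ℝ) ^ (3 * δ / 4) = (n : ℝ) ^ (-(δ / 4)) * (n : ℝ) ^ δ := by
      rw [← Real.rpow_add hnpos]
      congr 1
      ring
    rw [h8]
    ring
  rw [h7]
  have h8 : (2 : ℝ) ≤ (n : ℝ) ^ (3 * δ / 4) := by
    refine (hl2 l hll2).trans ?_
    apply Real.rpow_le_rpow (Nat.cast_nonneg _) _ (by positivity)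
    exact_mod_cast hln
  calc F = 1 * F := (one_mul _).symm
    _ ≤ (n : ℝ) ^ (3 * δ / 4) / 2 * F := by
      apply mul_le_mul_of_nonneg_right _ hF0
      linarith

end Pool.Agent.W969.MC
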