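import Pool.Agent.W969.MC.Cnt2

/-! Counting the models of DNF formulas with a small relative error. -/

set_option linter.unusedSectionVars false
set_option linter.unusedVariables false

namespace Pool.Agent.W969.MC

open Finset Pool.Agent.H560R2

/-- the dual circuit -/
theorem RC.exists_dual {Inp : Type} [Finite Inp] (C : RC Inp) :
    ∃ C' : RC Inp, C'.size = C.size ∧ C'.free = C.free ∧ ∀ x, C'.acc x ↔ ¬ C.acc (ng x) := by
  classical
  obtain ⟨S, T, wd, a, op, θ, val, o, τ, htop, hmon, hT, hval⟩ := C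
  set W : Set ℝ := Set.range (fun q : (Inp → Bool) × Fin S => val q.1 q.2) ∪ {0, 1} with hW
  have hWf : W.Finite := (Set.finite_range _).union (by simp)
  choose sp hsp using fun θ0 : ℝ => exists_sep W hWf θ0
  have hval0 : ∀ x i, val x i ∈ W := fun x i => Or.inl ⟨(x, i), rfl⟩
  have hwire : ∀ x (g : Inp ⊕ Fin S), Sum.elim (bit x) (val x) g ∈ W := by
    intro x g
    rcases g with p | k
    · right
      show bit x p ∈ ({0, 1} : Set ℝ)
      unfold bit
      split_ifs
      · right; rfl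
      · left; rfl
    · exact hval0 x k
  set val' : (Inp → Bool) → Fin S → ℝ := fun x i => - val (ng x) i with hval'
  have hdual : ∀ x (g : Inp ⊕ Fin S), Sum.elim (bit x) (val' x) g =
      cc g - Sum.elim (bit (ng x)) (val (ng x)) g := by
    intro x g
    rcases g with p | k
    · show bit x p = 1 - bit (ng x) p
      unfold bit ng
      cases x p <;> simp
    · show - val (ng x) k = 0 - val (ng x) k
      ring
  set θ' : ∀ i, Fin (wd i) → ℝ := fun i j => cc (a i j) + sp (θ i j) with hθ'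
  set op' : ∀ i, (Fin (wd i) → ℝ) → ℝ := fun i z =>
    if i ∈ T then - op i (fun j => if θ' i j ≤ z j then θ i j - 1 else θ i j)
    else - op i (fun j => cc (a i j) - z j) with hop'
  refine ⟨⟨S, T, wd, a, op', θ', val', o, sp τ, htop, ?_, ?_, ?_⟩, rfl, rfl, ?_⟩
  · intro i hi
    refine ⟨(hmon i hi).1, ?_⟩
    intro z z' hz
    simp only [hop', if_neg hi, neg_le_neg_iff]
    apply (hmon i hi).2
    intro j
    have := hz j
    simp only
    linarith
  · intro i hi z z' hz
    simp only [hop', if_pos hi]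
    congr 2
    funext j
    by_cases h1 : θ' i j ≤ z j
    · rw [if_pos h1, if_pos ((hz j).mp h1)]
    · rw [if_neg h1, if_neg (fun h2 => h1 ((hz j).mpr h2))]
  · intro x i
    by_cases hi : i ∈ T
    · simp only [hop', if_pos hi]
      show - val (ng x) i = _
      rw [hval (ng x) i]
      congr 1
      apply hT i hi
      intro j
      have h1 := hsp (θ i j) _ (hwire (ng x) (a i j))
      have h2 : (θ' i j ≤ Sum.elim (bit x) (val' x) (a i j)) ↔
          sp (θ i j) ≤ - Sum.elim (bit (ng x)) (val (ng x)) (a i j) := by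
        rw [hdual x (a i j)]
        simp only [hθ']
        constructor <;> intro h <;> linarith
      by_cases h3 : θ i j ≤ Sum.elim (bit (ng x)) (val (ng x)) (a i j)
      · have h4 : ¬ θ' i j ≤ Sum.elim (bit x) (val' x) (a i j) := by
          rw [h2, h1]
          exact fun h => h h3
        simp only [if_neg h4]
        exact ⟨fun _ => le_rfl, fun _ => h3⟩
      · have h4 : θ' i j ≤ Sum.elim (bit x) (val' x) (a i j) := by
          rw [h2, h1]
          exact h3
        simp only [if_pos h4]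
        constructor
        · intro h
          exact absurd h h3
        · intro h
          linarith
    · simp only [hop', if_neg hi]
      show - val (ng x) i = _
      rw [hval (ng x) i]
      congr 2
      funext j
      rw [hdual x (a i j)]
      ring
  · intro x
    exact hsp τ _ (hval0 (ng x) o)

/-- the terms -/
abbrev Trm (n r : ℕ) : Type := {e : Finset (Fin n) // e.card = r}

/-- the number of models of a monotone DNF -/
noncomputable def dnf (n r : ℕ) (x : Trm n r → Bool) : ℕ :=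
  {α : Fin n → Bool | ∃ e : Trm n r, x e = true ∧ ∀ v ∈ e.1, α v = true}.ncard

lemma dnf_add (n r : ℕ) (y : Trm n r → Bool) : dnf n r (ng y) + numClq n r y = 2 ^ n := by
  classical
  have h1 : numClq n r y =
      {α : Fin n → Bool | ∃ e : Trm n r, ng y e = true ∧ ∀ v ∈ e.1, α v = true}ᶜ.ncard := by
    unfold numClq
    rw [← Nat.card_coe_set_eq, ← Nat.card_coe_set_eq]
    refine Nat.card_congr ⟨fun S => ⟨fun v => decide (v ∈ S.1), ?_⟩,
      fun α => ⟨univ.filter (fun v => α.1 v = true), ?_⟩, ?_, ?_⟩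
    · rintro ⟨e, he, hα⟩
      have hsub : e.1 ⊆ S.1 := fun v hv => of_decide_eq_true (hα v hv)
      have h2 := S.2 e hsub
      simp only [ng, h2] at he
      exact Bool.noConfusion he
    · intro e he
      by_contra hcon
      rw [Bool.not_eq_true] at hcon
      exact α.2 ⟨e, by simp [ng, hcon], fun v hv => (Finset.mem_filter.mp (he hv)).2⟩
    · intro S
      apply Subtype.ext
      ext v
      simp
    · intro α
      apply Subtype.ext
      funext v
      simp
  rw [h1]
  unfold dnf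
  rw [Set.ncard_add_ncard_compl _ (Set.toFinite _) (Set.toFinite _), Nat.card_eq_fintype_card,
    Fintype.card_fun, Fintype.card_bool, Fintype.card_fin]

open Classical in
/-- terms with the first variables only -/
noncomputable def low (p k r : ℕ) (e : Trm (p + k) r) : Option (Trm p r) :=
  if h : ∃ e0 : Trm p r, e0.1.map (Fin.castAddEmb k) = e.1 then some h.choose else none

lemma low_map {p k r : ℕ} (e0 : Trm p r) (e : Trm (p + k) r)
    (h : e0.1.map (Fin.castAddEmb k) = e.1) : low p k r e = some e0 := by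
  classical
  have hex : ∃ e0 : Trm p r, e0.1.map (Fin.castAddEmb k) = e.1 := ⟨e0, h⟩
  unfold low
  rw [dif_pos hex]
  congr 1
  apply Subtype.ext
  apply Finset.map_injective (Fin.castAddEmb k)
  rw [hex.choose_spec, h]

lemma low_some {p k r : ℕ} {e : Trm (p + k) r} {e0 : Trm p r} (h : low p k r e = some e0) :
    e0.1.map (Fin.castAddEmb k) = e.1 := by
  classical
  unfold low at h
  by_cases hex : ∃ e0 : Trm p r, e0.1.map (Fin.castAddEmb k) = e.1
  · rw [dif_pos hex] at h
    rw [← Option.some.inj h]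
    exact hex.choose_spec
  · rw [dif_neg hex] at h
    exact absurd h (by simp)

/-- a DNF in the first variables as a DNF in all variables -/
noncomputable def ext (p k r : ℕ) (x : Trm p r → Bool) : Trm (p + k) r → Bool :=
  fun e => (low p k r e).elim false x

lemma dnf_ext (p k r : ℕ) (x : Trm p r → Bool) :
    dnf (p + k) r (ext p k r x) = dnf p r x * 2 ^ k := by
  classical
  unfold dnf
  rw [← Nat.card_coe_set_eq, ← Nat.card_coe_set_eq]
  have hk : 2 ^ k = Nat.card (Fin k → Bool) := by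
    rw [Nat.card_eq_fintype_card, Fintype.card_fun, Fintype.card_bool, Fintype.card_fin]
  rw [hk, ← Nat.card_prod]
  have hiff : ∀ α : Fin (p + k) → Bool,
      (∃ e : Trm (p + k) r, ext p k r x e = true ∧ ∀ v ∈ e.1, α v = true) ↔
      ∃ e : Trm p r, x e = true ∧ ∀ v ∈ e.1, α (Fin.castAdd k v) = true := by
    intro α
    constructor
    · rintro ⟨e, he, hα⟩
      unfold ext at he
      rcases hl : low p k r e with _ | e0
      · rw [hl] at he
        exact absurd he (by simp)
      · rw [hl] at he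
        refine ⟨e0, he, fun v hv => hα _ ?_⟩
        rw [← low_some hl]
        exact Finset.mem_map_of_mem _ hv
    · rintro ⟨e0, he, hα⟩
      have hc : (e0.1.map (Fin.castAddEmb k)).card = r := by
        rw [Finset.card_map]
        exact e0.2
      refine ⟨⟨e0.1.map (Fin.castAddEmb k), hc⟩, ?_, ?_⟩
      · unfold ext
        rw [low_map e0 _ rfl]
        exact he
      · intro v hv
        obtain ⟨u, hu, rfl⟩ := Finset.mem_map.mp hv
        exact hα u hu
  refine Nat.card_congr ⟨fun α => (⟨fun v => α.1 (Fin.castAdd k v), (hiff α.1).mp α.2⟩,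
      fun v => α.1 (Fin.natAdd p v)),
    fun β => ⟨Fin.append β.1.1 β.2, (hiff _).mpr ?_⟩, ?_, ?_⟩
  · obtain ⟨e, he, hβ⟩ := β.1.2
    refine ⟨e, he, fun v hv => ?_⟩
    rw [Fin.append_left]
    exact hβ v hv
  · intro α
    apply Subtype.ext
    funext v
    refine Fin.addCases (fun i => ?_) (fun i => ?_) v
    · exact Fin.append_left _ _ _
    · exact Fin.append_right _ _ _
  · intro β
    refine Prod.ext ?_ ?_
    · apply Subtype.ext
      funext v
      simp only [Fin.append_left]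
    · funext v
      simp only [Fin.append_right]

/-- counting with integer parameters -/
theorem dnf_param {p k r : ℕ} {R : Type} [Fintype R] [Nonempty R]
    {b2 b q M m s w m' lam : ℕ} (hr : 2 ≤ r) (P : Pars r b2 b q M m s w)
    (hlam : p + 1 ≤ 2 ^ lam) (hlam1 : 1 ≤ lam)
    (hn : m' * (M * (r * q ^ b2)) * ((2 * r + 6) * lam) ≤ p) (hm' : 1 ≤ m')
    (C : R → RC (Trm (p + k) r)) (g : ℝ) (hg : 0 ≤ g)
    (happ : ∀ x, (1 / 2 + g) * Fintype.card R ≤ ({ρ : R |
      |(C ρ).val x (C ρ).o - (dnf (p + k) r x : ℝ)| * 2 ^ p ≤ (dnf (p + k) r x : ℝ)}.ncard : ℝ))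
    (hfree : ∀ ρ, ((C ρ).free : ℝ) ≤ (g / 2) * m')
    (hlen : ∀ ρ, (C ρ).size ≤ (q + 1) ^ m) (hq : 16 / (q : ℝ) ≤ g)
    (hlt : ∀ ρ, 16 * ((C ρ).size : ℝ) * 2 ^ (w / (2 * b) / b + 1) <
      g * (q : ℝ) ^ (w / (2 * b) / b + 1)) : False := by
  classical
  obtain ⟨h, hG⟩ := P.good
  have hrpos : 0 < r := by omega
  haveI : Nonempty (Fin r × Fin b2) := ⟨(⟨0, hrpos⟩, ⟨0, P.hb2⟩)⟩
  set Bt := (2 * r + 6) * lam with hBt
  obtain ⟨π, hπ0⟩ := exists_pi (K := Fin m' × Fin M × Fin r × (Fin b2 → Fin q)) (n := p) (Bt := Bt)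
    (by
      simp only [Fintype.card_prod, Fintype.card_fin, Fintype.card_fun]
      exact hn)
  have hπ : ∀ c, (univ.filter (fun v => π v = some c)).card = Bt := by
    intro c
    rw [← hπ0 c, Set.ncard_eq_toFinset_card']
    congr 1
    ext v
    simp
  have hMpos : 1 ≤ M := by
    have := P.hM
    have := P.hm
    omega
  have hBt1 : 1 ≤ Bt := Nat.mul_pos (by omega) hlam1
  have hXn : m' * (M * (r * q ^ b2)) ≤ p := by
    refine le_trans ?_ hn
    exact Nat.le_mul_of_pos_right _ hBt1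
  have hqpos : 1 ≤ q := by
    have := P.hq
    omega
  have hqb : 1 ≤ q ^ b2 := Nat.one_le_pow _ _ hqpos
  have hqn : q ≤ p + 1 := by
    have h12 : q ≤ m' * (M * (r * q ^ b2)) := by
      calc q ≤ q ^ b2 := Nat.le_self_pow (by have := P.hb2; omega) _
        _ ≤ r * q ^ b2 := Nat.le_mul_of_pos_left _ (by omega)
        _ ≤ M * (r * q ^ b2) := Nat.le_mul_of_pos_left _ (by omega)
        _ ≤ m' * (M * (r * q ^ b2)) := Nat.le_mul_of_pos_left _ (by omega)
    omega
  have hm'n : m' ≤ p + 1 := by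
    have h12 : m' ≤ m' * (M * (r * q ^ b2)) := Nat.le_mul_of_pos_right _ (by positivity)
    omega
  have hnum := gap_num hr P.hM P.hm hlam hqn hm'n hlam1
  rw [← hBt] at hnum
  set t0 : ℕ := 2 ^ (Bt * (r * M)) with ht0
  have hM2 : 2 ≤ M := by
    have := P.hM
    have := P.hm
    omega
  have ht04 : (8 : ℝ) ≤ t0 := by
    have h1 : (2 : ℕ) ^ 3 ≤ t0 := by
      apply Nat.pow_le_pow_right (by norm_num)
      have h2 : 6 ≤ Bt := by
        rw [hBt]
        calc 6 ≤ (2 * r + 6) * 1 := by omega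
          _ ≤ (2 * r + 6) * lam := Nat.mul_le_mul_left _ hlam1
      have h3 : 1 ≤ r * M := Nat.mul_pos hrpos (by omega)
      calc 3 ≤ Bt * 1 := by omega
        _ ≤ Bt * (r * M) := Nat.mul_le_mul_left _ h3
    have h4 : 8 ≤ t0 := by
      have e : (2 : ℕ) ^ 3 = 8 := by norm_num
      omega
    exact_mod_cast h4
  -- the threshold
  set thr : ℝ := ((2 : ℝ) ^ p - t0 / 4 - 1) * 2 ^ k with hthr
  have hC'ex := fun ρ => RC.exists_dual ({ C ρ with τ := thr } : RC (Trm (p + k) r))
  choose C' hC'1 hC'2 hC'3 using hC'ex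
  have hacc : ∀ ρ x, (C' ρ).acc x ↔ (C ρ).val (ng x) (C ρ).o < thr := by
    intro ρ x
    rw [hC'3]
    show ¬ thr ≤ (C ρ).val (ng x) (C ρ).o ↔ _
    exact not_le
  have hsz : ∀ ρ, (C' ρ).size = (C ρ).size := fun ρ => hC'1 ρ
  have hfr : ∀ ρ, (C' ρ).free = (C ρ).free := fun ρ => hC'2 ρ
  have hRpos : (0 : ℝ) < Fintype.card R := by exact_mod_cast Fintype.card_pos
  set E : (Fin m' → Set (Fin M × ((Fin r × Fin b2) → Fin q))) → Trm (p + k) r → Bool :=
    fun y e => (low p k r e).elim true (encU h π y) with hE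
  have hngE : ∀ y, ng (E y) = ext p k r (ng (encU h π y)) := by
    intro y
    funext e
    simp only [hE, ng, ext]
    rcases low p k r e with _ | e0
    · rfl
    · rfl
  have hD : ∀ y, (dnf (p + k) r (ng (E y)) : ℝ) =
      ((2 : ℝ) ^ p - numClq p r (encU h π y)) * 2 ^ k := by
    intro y
    rw [hngE, dnf_ext]
    have h1 := dnf_add p r (encU h π y)
    have h2 : (dnf p r (ng (encU h π y)) : ℝ) + numClq p r (encU h π y) = 2 ^ p := by
      exact_mod_cast h1
    push_cast
    rw [← h2]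
    ring
  have h2k : (0 : ℝ) < 2 ^ k := by positivity
  have h2p : (0 : ℝ) < 2 ^ p := by positivity
  -- good circuits
  have hgood : ∀ ρ y, |(C ρ).val (ng (E y)) (C ρ).o - (dnf (p + k) r (ng (E y)) : ℝ)| * 2 ^ p ≤
      (dnf (p + k) r (ng (E y)) : ℝ) →
      (dnf (p + k) r (ng (E y)) : ℝ) - 2 ^ k ≤ (C ρ).val (ng (E y)) (C ρ).o ∧
      (C ρ).val (ng (E y)) (C ρ).o ≤ (dnf (p + k) r (ng (E y)) : ℝ) + 2 ^ k := by
    intro ρ y hh
    have h1 : (dnf (p + k) r (ng (E y)) : ℝ) ≤ 2 ^ p * 2 ^ k := by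
      rw [hD]
      apply mul_le_mul_of_nonneg_right _ h2k.le
      have : (0 : ℝ) ≤ numClq p r (encU h π y) := Nat.cast_nonneg _
      linarith
    have h2 : |(C ρ).val (ng (E y)) (C ρ).o - (dnf (p + k) r (ng (E y)) : ℝ)| * 2 ^ p ≤
        2 ^ k * 2 ^ p := by
      rw [mul_comm ((2 : ℝ) ^ k)]
      exact hh.trans h1
    have h3 := le_of_mul_le_mul_right h2 h2p
    have h4 := abs_le.mp h3
    constructor <;> linarith [h4.1, h4.2]
  refine csp_randG hG (m' := m') C' E ?_ ?_ (1 / 2 - g) g ?_ ?_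
    (by intro ρ; rw [hfr]; exact hfree ρ)
    (by intro ρ; rw [hsz, Fintype.card_fin, Fintype.card_fin]; exact hlen ρ)
    (by rw [Fintype.card_fin]; exact hq)
    (by intro ρ; rw [hsz, Fintype.card_fin]; exact hlt ρ)
  · intro y y' hy e
    show (low p k r e).elim true (encU h π y) ≤ (low p k r e).elim true (encU h π y')
    rcases low p k r e with _ | e0
    · exact le_rfl
    · exact encU_mono hy e0
  · intro y J e
    show ∃ T' : Finset (Fin M × ((Fin r × Fin b2) → Fin q)), T'.card ≤ 1 ∧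
      ∀ x x' : Set (Fin M × ((Fin r × Fin b2) → Fin q)), (∀ u ∈ T', u ∈ x → u ∈ x') →
        (low p k r e).elim true (encU h π (Function.update y J x)) = true →
        (low p k r e).elim true (encU h π (Function.update y J x')) = true
    rcases low p k r e with _ | e0
    · exact ⟨∅, by simp, fun x x' _ hh => hh⟩
    · exact encU_narrow hrpos y J e0
  · rintro y ⟨j, pp, hp⟩
    have h1 := count_yes hrpos hπ hp
    rw [Fintype.card_fin] at h1
    have h1R : (t0 : ℝ) ≤ (numClq p r (encU h π y) : ℝ) := by exact_mod_cast h1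
    have h2 := happ (ng (E y))
    have h3 : {ρ : R | |(C ρ).val (ng (E y)) (C ρ).o - (dnf (p + k) r (ng (E y)) : ℝ)| * 2 ^ p ≤
        (dnf (p + k) r (ng (E y)) : ℝ)} ⊆ {ρ : R | (C' ρ).acc (E y)} := by
      intro ρ hρ
      refine (hacc ρ _).mpr (lt_of_le_of_lt (hgood ρ y hρ).2 ?_)
      rw [hD, hthr]
      have h4 : ((2 : ℝ) ^ p - numClq p r (encU h π y)) * 2 ^ k + 2 ^ k =
          ((2 : ℝ) ^ p - numClq p r (encU h π y) + 1) * 2 ^ k := by ring
      rw [h4]
      apply mul_lt_mul_of_pos_right _ h2k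
      linarith
    have h5 : ({ρ : R | |(C ρ).val (ng (E y)) (C ρ).o - (dnf (p + k) r (ng (E y)) : ℝ)| * 2 ^ p ≤
        (dnf (p + k) r (ng (E y)) : ℝ)}.ncard : ℝ) ≤ ({ρ : R | (C' ρ).acc (E y)}.ncard : ℝ) := by
      exact_mod_cast Set.ncard_le_ncard h3 (Set.toFinite _)
    refine le_trans ?_ (h2.trans h5)
    apply mul_le_mul_of_nonneg_right _ hRpos.le
    linarith
  · intro y hy
    have h1 := count_no hr P.hb2 hπ (y := y) (h := h) (fun j p => hy j p)
    rw [Fintype.card_fin, Fintype.card_fin, Fintype.card_fin] at h1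
    have h2 : 2 ^ M * numClq p r (encU h π y) < t0 :=
      lt_of_le_of_lt (Nat.mul_le_mul_left _ h1) hnum
    have h2' : 4 * numClq p r (encU h π y) < t0 := by
      refine lt_of_le_of_lt (Nat.mul_le_mul_right _ ?_) h2
      calc 4 = 2 ^ 2 := by norm_num
        _ ≤ 2 ^ M := Nat.pow_le_pow_right (by norm_num) hM2
    have h2R : (4 : ℝ) * (numClq p r (encU h π y) : ℝ) < (t0 : ℝ) := by exact_mod_cast h2'
    have h3 := happ (ng (E y))
    have h4 : {ρ : R | (C' ρ).acc (E y)} ⊆ {ρ : R | ¬ (|(C ρ).val (ng (E y)) (C ρ).o -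
        (dnf (p + k) r (ng (E y)) : ℝ)| * 2 ^ p ≤ (dnf (p + k) r (ng (E y)) : ℝ))} := by
      intro ρ hρ hh
      refine absurd ((hacc ρ _).mp hρ) (not_lt.mpr (le_trans ?_ (hgood ρ y hh).1))
      rw [hD, hthr]
      have h4 : ((2 : ℝ) ^ p - numClq p r (encU h π y)) * 2 ^ k - 2 ^ k =
          ((2 : ℝ) ^ p - numClq p r (encU h π y) - 1) * 2 ^ k := by ring
      rw [h4]
      apply mul_le_mul_of_nonneg_right _ h2k.le
      linarith
    have h5 : ({ρ : R | (C' ρ).acc (E y)}.ncard : ℝ) ≤ ({ρ : R | ¬ (|(C ρ).val (ng (E y)) (C ρ).o -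
        (dnf (p + k) r (ng (E y)) : ℝ)| * 2 ^ p ≤ (dnf (p + k) r (ng (E y)) : ℝ))}.ncard : ℝ) := by
      exact_mod_cast Set.ncard_le_ncard h4 (Set.toFinite _)
    rw [ncard_not] at h5
    linarith

/-- counting models of DNFs with relative error `2 ^ (-p)` -/
theorem dnf_rand (r : ℕ) (hr : 2 ≤ r) (ε : ℝ) (hε : 0 < ε) :
    ∃ δ : ℝ, 0 < δ ∧ ∃ p0 : ℕ, ∀ p n : ℕ, p0 ≤ p → p ≤ n →
      ∀ (R : Type) [Fintype R] [Nonempty R] (C : R → RC (Trm n r)),
        (∀ x, (1 / 2 + (p : ℝ) ^ (-δ)) * Fintype.card R ≤ ({ρ : R |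
          |(C ρ).val x (C ρ).o - (dnf n r x : ℝ)| * 2 ^ p ≤ (dnf n r x : ℝ)}.ncard : ℝ)) →
        (∀ ρ, ((C ρ).free : ℝ) ≤ (p : ℝ) ^ δ) →
        ∃ ρ, Real.exp ((p : ℝ) ^ ((r : ℝ) / (r + 1) - ε)) ≤ ((C ρ).size : ℝ) := by
  obtain ⟨κ, hκ, n0, H⟩ := graph_pars r hr ε hε (2 * r + 6)
  refine ⟨κ, hκ, n0, ?_⟩
  intro p n hp hpn R _ _ C happ hfree
  obtain ⟨k, rfl⟩ := Nat.exists_eq_add_of_le hpn
  obtain ⟨b2, b, q, M, m, s, w, m', P, h1, h2, h3, h4, h5, h6, h7⟩ := H p hp
  by_contra hcon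
  push Not at hcon
  exact dnf_param (m' := m') hr P (lam := Nat.log 2 p + 1)
    (Nat.lt_pow_succ_log_self (by norm_num) p) (Nat.le_add_left 1 _) h1 h2 C
    ((p : ℝ) ^ (-κ)) (by positivity) happ (fun ρ => (hfree ρ).trans h5)
    (fun ρ => (h7 _ (hcon ρ)).1) h6 (fun ρ => (h7 _ (hcon ρ)).2)

end Pool.Agent.W969.MC
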