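import Pool.Agent.W969.MC.Dnf

/-! Counting the models of DNF formulas approximately: random samples. -/

set_option linter.unusedSectionVars false
set_option linter.unusedVariables false

namespace Pool.Agent.W969.MC

open Finset Pool.Agent.H560R2

/-- an instruction: read the input bit `inp`, and change the number in the register -/
structure Ins (Inp : Type) where
  inp : Inp
  f : ℝ → ℝ → ℝ
  mono : ∀ a a' b b', a ≤ a' → b ≤ b' → f a b ≤ f a' b'

section

variable {Inp : Type}

/-- run a list of instructions -/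
noncomputable def run (x : Inp → Bool) (L : List (Ins Inp)) (v : ℝ) : ℝ :=
  L.foldl (fun v J => J.f v (bit x J.inp)) v

lemma run_append (x : Inp → Bool) (L L' : List (Ins Inp)) (v : ℝ) :
    run x (L ++ L') v = run x L' (run x L v) := by
  unfold run
  rw [List.foldl_append]

/-- a list of instructions is a circuit -/
theorem exists_chain (L : List (Ins Inp)) (hL : L ≠ []) :
    ∃ C : RC Inp, C.S = L.length ∧ C.T = ∅ ∧ ∀ x, C.val x C.o = run x L 0 := by
  have hpos : 0 < L.length := List.length_pos_iff.mpr hL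
  have htake : ∀ (x : Inp → Bool) (i : Fin L.length), run x (L.take (i.val + 1)) 0 =
      (L.get i).f (run x (L.take i.val) 0) (bit x (L.get i).inp) := by
    intro x i
    have h1 : L.take (i.val + 1) = L.take i.val ++ [L.get i] := by
      simp
    rw [h1, run_append]
    rfl
  refine ⟨⟨L.length, ∅, fun _ => 2,
    fun i j => if j = 0 then (if h : i.val = 0 then Sum.inl (L.get i).inp else
      Sum.inr ⟨i.val - 1, by omega⟩) else Sum.inl (L.get i).inp,
    fun i z => if i.val = 0 then (L.get i).f 0 (z 1) else (L.get i).f (z 0) (z 1),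
    fun _ _ => 0, fun x i => run x (L.take (i.val + 1)) 0, ⟨L.length - 1, by omega⟩, 0,
    ?_, ?_, ?_, ?_⟩, rfl, rfl, ?_⟩
  · intro i j k hk
    by_cases hj : j = 0
    · rw [if_pos hj] at hk
      by_cases hi : i.val = 0
      · rw [dif_pos hi] at hk
        exact absurd hk (by simp)
      · rw [dif_neg hi] at hk
        have h1 := Sum.inr.inj hk
        rw [← h1]
        show i.val - 1 < i.val
        omega
    · rw [if_neg hj] at hk
      exact absurd hk (by simp)
  · intro i _
    refine ⟨le_rfl, ?_⟩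
    intro z z' hz
    by_cases hi : i.val = 0
    · simp only [if_pos hi]
      exact (L.get i).mono _ _ _ _ le_rfl (hz 1)
    · simp only [if_neg hi]
      exact (L.get i).mono _ _ _ _ (hz 0) (hz 1)
  · intro i hi
    exact absurd hi (Finset.notMem_empty i)
  · intro x i
    simp only
    rw [htake]
    by_cases hi : i.val = 0
    · rw [if_pos hi]
      have h1 : L.take i.val = [] := by rw [hi]; rfl
      rw [h1]
      simp [run]
    · rw [if_neg hi]
      have h1 : i.val - 1 + 1 = i.val := by omega
      simp [hi, h1]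
  · intro x
    show run x (L.take (L.length - 1 + 1)) 0 = run x L 0
    rw [Nat.sub_add_cancel hpos, List.take_length]

end

section

variable {n r : ℕ}

open Classical in
/-- OR with an input bit, in the fractional part -/
noncomputable def insOr (b : Prop) (e : Trm n r) : Ins (Trm n r) where
  inp := e
  f v y := if b then max v (⌊v⌋ + y / 2) else v
  mono := by
    intro a a' c c' ha hc
    split_ifs
    · apply max_le_max ha
      have h1 : (⌊a⌋ : ℝ) ≤ ⌊a'⌋ := by exact_mod_cast Int.floor_mono ha
      linarith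
    · exact ha

/-- round up -/
noncomputable def insCeil (e : Trm n r) : Ins (Trm n r) where
  inp := e
  f v y := ⌈v⌉
  mono := by
    intro a a' c c' ha hc
    exact_mod_cast Int.ceil_mono ha

/-- multiply by a constant -/
noncomputable def insScale (c : ℝ) (hc : 0 ≤ c) (e : Trm n r) : Ins (Trm n r) where
  inp := e
  f v y := c * v
  mono := by
    intro a a' b b' ha hb
    exact mul_le_mul_of_nonneg_left ha hc

open Classical in
/-- half if the statement holds -/
noncomputable def hf (m : Prop) : ℝ := if m then 1 / 2 else 0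

lemma floor_hf (s : ℕ) (m : Prop) : ⌊(s : ℝ) + hf m⌋ = s := by
  rw [Int.floor_eq_iff]
  unfold hf
  push_cast
  split_ifs <;> constructor <;> linarith

lemma ceil_hf (s : ℕ) (m : Prop) [Decidable m] : (⌈(s : ℝ) + hf m⌉ : ℝ) =
    s + (if m then 1 else 0) := by
  unfold hf
  by_cases hm : m
  · rw [if_pos hm, if_pos hm]
    have : ⌈(s : ℝ) + 1 / 2⌉ = (s : ℤ) + 1 := by
      rw [Int.ceil_eq_iff]
      push_cast
      constructor <;> linarith
    rw [this]
    push_cast
    ring
  · rw [if_neg hm, if_neg hm]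
    simp

open Classical in
lemma run_or (x : Trm n r → Bool) (b : Trm n r → Prop) (s : ℕ) : ∀ (l : List (Trm n r)) (m : Prop),
    run x (l.map (fun e => insOr (b e) e)) ((s : ℝ) + hf m) =
      s + hf (m ∨ ∃ e ∈ l, b e ∧ x e = true) := by
  intro l
  induction l with
  | nil =>
    intro m
    simp [run]
  | cons e l ih =>
    intro m
    have h1 : run x ((e :: l).map (fun e => insOr (b e) e)) ((s : ℝ) + hf m) =
        run x (l.map (fun e => insOr (b e) e)) ((s : ℝ) + hf (m ∨ (b e ∧ x e = true))) := by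
      rw [List.map_cons]
      show run x _ ((insOr (b e) e).f _ (bit x (insOr (b e) e).inp)) = _
      congr 1
      show (if b e then max ((s : ℝ) + hf m) (⌊(s : ℝ) + hf m⌋ + bit x e / 2) else (s : ℝ) + hf m) = _
      rw [floor_hf]
      unfold hf bit
      push_cast
      by_cases hb : b e <;> by_cases hm : m <;> by_cases hx : x e = true <;>
        simp [hb, hm, hx]
    rw [h1, ih]
    congr 2
    apply propext
    constructor
    · rintro ((h | h) | ⟨e', he', h⟩)
      · exact Or.inl h
      · exact Or.inr ⟨e, List.mem_cons_self, h⟩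
      · exact Or.inr ⟨e', List.mem_cons_of_mem _ he', h⟩
    · rintro (h | ⟨e', he', h⟩)
      · exact Or.inl (Or.inl h)
      · rcases List.mem_cons.mp he' with rfl | he'
        · exact Or.inl (Or.inr h)
        · exact Or.inr ⟨e', he', h⟩

/-- the set of models -/
def mods (n r : ℕ) (x : Trm n r → Bool) : Set (Fin n → Bool) :=
  {α | ∃ e : Trm n r, x e = true ∧ ∀ v ∈ e.1, α v = true}

open Classical in
/-- the sampling program -/
noncomputable def smp (e0 : Trm n r) (l : List (Fin n → Bool)) : List (Ins (Trm n r)) :=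
  l.flatMap (fun α => ((univ : Finset (Trm n r)).toList.map
    (fun e => insOr (∀ v ∈ e.1, α v = true) e)) ++ [insCeil e0])

open Classical in
lemma run_smp (x : Trm n r → Bool) (e0 : Trm n r) : ∀ (l : List (Fin n → Bool)) (s : ℕ),
    run x (smp e0 l) s = s + (l.map (fun α => if α ∈ mods n r x then (1 : ℝ) else 0)).sum := by
  intro l
  induction l with
  | nil =>
    intro s
    simp [smp, run]
  | cons α l ih =>
    intro s
    have h0 : smp e0 (α :: l) = (((univ : Finset (Trm n r)).toList.map
        (fun e => insOr (∀ v ∈ e.1, α v = true) e)) ++ [insCeil e0]) ++ smp e0 l := by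
      simp [smp]
    have h1 : run x (((univ : Finset (Trm n r)).toList.map
        (fun e => insOr (∀ v ∈ e.1, α v = true) e)) ++ [insCeil e0]) (s : ℝ) =
        ((s + (if α ∈ mods n r x then 1 else 0) : ℕ) : ℝ) := by
      rw [run_append]
      have h2 := run_or x (fun e => ∀ v ∈ e.1, α v = true) s (univ : Finset (Trm n r)).toList False
      have h3 : ((s : ℝ) + hf False) = s := by simp [hf]
      rw [h3] at h2
      rw [h2]
      show ((⌈(s : ℝ) + hf _⌉ : ℤ) : ℝ) = _
      rw [ceil_hf]
      push_cast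
      congr 1
      have h4 : (False ∨ ∃ e ∈ (univ : Finset (Trm n r)).toList,
          (∀ v ∈ e.1, α v = true) ∧ x e = true) ↔ α ∈ mods n r x := by
        unfold mods
        simp only [false_or, Finset.mem_toList, Finset.mem_univ, true_and]
        constructor
        · rintro ⟨e, h5, h6⟩
          exact ⟨e, h6, h5⟩
        · rintro ⟨e, h6, h5⟩
          exact ⟨e, h5, h6⟩
      by_cases hh : α ∈ mods n r x
      · rw [if_pos (h4.mpr hh), if_pos hh]
      · rw [if_neg (fun h => hh (h4.mp h)), if_neg hh]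
    rw [h0, run_append, h1, ih, List.map_cons, List.sum_cons]
    push_cast
    ring

lemma smp_length (e0 : Trm n r) (l : List (Fin n → Bool)) :
    (smp e0 l).length = l.length * (Fintype.card (Trm n r) + 1) := by
  classical
  unfold smp
  rw [List.length_flatMap]
  simp [Finset.card_univ]

end

section cheb

variable {Ω : Type} [Fintype Ω]

lemma sum_cons_eq {K : ℕ} (F : (Fin (K + 1) → Ω) → ℝ) :
    ∑ ω, F ω = ∑ a : Ω, ∑ ω : Fin K → Ω, F (Fin.cons a ω) := by
  rw [← (Fin.consEquiv (fun _ : Fin (K + 1) => Ω)).sum_comp, Fintype.sum_prod_type]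
  rfl

lemma sum_zero (f : Ω → ℝ) (h0 : ∑ a, f a = 0) : ∀ K : ℕ,
    ∑ ω : Fin K → Ω, (∑ j, f (ω j)) = 0 := by
  intro K
  induction K with
  | zero => simp
  | succ K ih =>
    rw [sum_cons_eq]
    simp only [Fin.sum_univ_succ, Fin.cons_zero, Fin.cons_succ, Finset.sum_add_distrib, ih,
      Finset.sum_const, add_zero, ← Finset.smul_sum, h0, smul_zero]

lemma sum_sq (f : Ω → ℝ) (h0 : ∑ a, f a = 0) : ∀ K : ℕ,
    (Fintype.card Ω : ℝ) * ∑ ω : Fin K → Ω, (∑ j, f (ω j)) ^ 2 =
      K * (Fintype.card Ω : ℝ) ^ K * ∑ a, f a ^ 2 := by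
  intro K
  induction K with
  | zero => simp
  | succ K ih =>
    have h1 : ∀ (a : Ω) (ω : Fin K → Ω),
        (∑ j : Fin (K + 1), f ((Fin.cons a ω : Fin (K + 1) → Ω) j)) ^ 2 =
        f a ^ 2 + 2 * f a * (∑ j, f (ω j)) + (∑ j, f (ω j)) ^ 2 := by
      intro a ω
      rw [Fin.sum_univ_succ]
      simp only [Fin.cons_zero, Fin.cons_succ]
      ring
    have h2 : ∑ ω : Fin (K + 1) → Ω, (∑ j, f (ω j)) ^ 2 =
        (Fintype.card Ω : ℝ) ^ K * ∑ a, f a ^ 2 +
          Fintype.card Ω * ∑ ω : Fin K → Ω, (∑ j, f (ω j)) ^ 2 := by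
      rw [sum_cons_eq]
      simp only [h1, Finset.sum_add_distrib, ← Finset.mul_sum, sum_zero f h0 K, mul_zero,
        Finset.sum_const, add_zero, Finset.card_univ, Fintype.card_fun, Fintype.card_fin,
        nsmul_eq_mul, Nat.cast_pow]
    rw [h2, mul_add, ih]
    push_cast
    ring

/-- Chebyshev -/
lemma cheb (A : Set Ω) (K : ℕ) (p r : ℕ) (hK : K = 4 ^ (p + 1) * 2 ^ r)
    (hA : A.Nonempty → Fintype.card Ω ≤ A.ncard * 2 ^ r) [Nonempty Ω] :
    3 / 4 * (Fintype.card (Fin K → Ω) : ℝ) ≤ ({ω : Fin K → Ω |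
      |(Fintype.card Ω : ℝ) / K * ({j | ω j ∈ A}.ncard : ℝ) - (A.ncard : ℝ)| * 2 ^ p ≤
        (A.ncard : ℝ)}.ncard : ℝ) := by
  classical
  set N0 : ℝ := (Fintype.card Ω : ℝ) with hN0
  set D : ℝ := (A.ncard : ℝ) with hD
  have hN0pos : 0 < N0 := by
    rw [hN0]
    exact_mod_cast Fintype.card_pos
  have hKpos : (0 : ℝ) < K := by
    rw [hK]
    push_cast
    positivity
  have hcardfun : (Fintype.card (Fin K → Ω) : ℝ) = N0 ^ K := by
    rw [Fintype.card_fun, Fintype.card_fin]
    push_cast
    rfl
  set P : (Fin K → Ω) → Prop := fun ω =>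
    |N0 / K * ({j | ω j ∈ A}.ncard : ℝ) - D| * 2 ^ p ≤ D with hP
  have hbad : ({ω : Fin K → Ω | ¬ P ω}.ncard : ℝ) ≤ N0 ^ K / 4 := by
    by_cases hne : A.Nonempty
    · have hDpos : 0 < D := by
        rw [hD]
        exact_mod_cast (Set.ncard_pos (Set.toFinite _)).mpr hne
      have hND : N0 ≤ D * 2 ^ r := by
        have h0 := hA hne
        have h0' : (Fintype.card Ω : ℝ) ≤ (A.ncard : ℝ) * 2 ^ r := by exact_mod_cast h0
        exact h0'
      set f : Ω → ℝ := fun a => (if a ∈ A then 1 else 0) - D / N0 with hf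
      have hsum1 : ∑ a : Ω, (if a ∈ A then (1 : ℝ) else 0) = D := by
        rw [Finset.sum_boole, hD, Set.ncard_eq_toFinset_card']
        congr 2
        ext a
        simp
      have hf0 : ∑ a, f a = 0 := by
        simp only [hf, Finset.sum_sub_distrib, hsum1, Finset.sum_const, Finset.card_univ,
          nsmul_eq_mul]
        rw [← hN0]
        field_simp
        ring
      have hf2 : ∑ a, f a ^ 2 ≤ D := by
        have h1 : ∀ a, f a ^ 2 = (if a ∈ A then (1 : ℝ) else 0) * (1 - 2 * (D / N0)) +
            (D / N0) ^ 2 := by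
          intro a
          simp only [hf]
          split_ifs <;> ring
        rw [Finset.sum_congr rfl (fun a _ => h1 a), Finset.sum_add_distrib, ← Finset.sum_mul,
          hsum1, Finset.sum_const, Finset.card_univ, nsmul_eq_mul, ← hN0]
        have h2 : N0 * (D / N0) ^ 2 = D * (D / N0) := by
          field_simp
        rw [h2]
        have h3 : 0 ≤ D * (D / N0) := by positivity
        linarith
      have hX : ∀ ω : Fin K → Ω, ∑ j, f (ω j) = ({j | ω j ∈ A}.ncard : ℝ) - K * (D / N0) := by
        intro ω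
        simp only [hf, Finset.sum_sub_distrib, Finset.sum_boole, Finset.sum_const,
          Finset.card_univ, Fintype.card_fin, nsmul_eq_mul]
        congr 1
        rw [Set.ncard_eq_toFinset_card']
        congr 2
        ext a
        simp
      have hsq := sum_sq f hf0 K
      rw [← hN0] at hsq
      -- the bad ones
      have h4 : ∀ ω : Fin K → Ω, (if ¬ P ω then (1 : ℝ) else 0) * D ^ 2 ≤
          (N0 / K) ^ 2 * 4 ^ p * (∑ j, f (ω j)) ^ 2 := by
        intro ω
        by_cases hh : P ω
        · rw [if_neg (not_not.mpr hh), zero_mul]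
          positivity
        · rw [if_pos hh, one_mul]
          have h5 : D < |N0 / K * ({j | ω j ∈ A}.ncard : ℝ) - D| * 2 ^ p := not_le.mp hh
          have h6 : N0 / K * ({j | ω j ∈ A}.ncard : ℝ) - D = N0 / K * (∑ j, f (ω j)) := by
            rw [hX]
            field_simp
          rw [h6] at h5
          have h7 : D ^ 2 ≤ (|N0 / K * (∑ j, f (ω j))| * 2 ^ p) ^ 2 :=
            pow_le_pow_left₀ hDpos.le h5.le 2
          refine h7.trans (le_of_eq ?_)
          rw [mul_pow, sq_abs, mul_pow]
          have h8 : ((2 : ℝ) ^ p) ^ 2 = 4 ^ p := by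
            rw [← pow_mul, mul_comm, pow_mul]
            norm_num
          rw [h8]
          ring
      have h9 := Finset.sum_le_sum (fun (ω : Fin K → Ω) (_ : ω ∈ univ) => h4 ω)
      rw [← Finset.sum_mul, Finset.sum_boole, ← Finset.mul_sum] at h9
      have h10 : ({ω : Fin K → Ω | ¬ P ω}.ncard : ℝ) =
          ((univ.filter (fun ω : Fin K → Ω => ¬ P ω)).card : ℝ) := by
        rw [Set.ncard_eq_toFinset_card']
        congr 2
        ext ω
        simp
      rw [h10]
      set Bd : ℝ := ((univ.filter (fun ω : Fin K → Ω => ¬ P ω)).card : ℝ) with hBd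
      -- multiply out
      have h11 : Bd * D ^ 2 * N0 ≤ (N0 / K) ^ 2 * 4 ^ p * (K * N0 ^ K * D) := by
        calc Bd * D ^ 2 * N0 ≤ ((N0 / K) ^ 2 * 4 ^ p * ∑ ω : Fin K → Ω, (∑ j, f (ω j)) ^ 2) * N0 :=
              mul_le_mul_of_nonneg_right h9 hN0pos.le
          _ = (N0 / K) ^ 2 * 4 ^ p * (N0 * ∑ ω : Fin K → Ω, (∑ j, f (ω j)) ^ 2) := by ring
          _ = (N0 / K) ^ 2 * 4 ^ p * (K * N0 ^ K * ∑ a, f a ^ 2) := by rw [hsq]
          _ ≤ _ := by
              apply mul_le_mul_of_nonneg_left _ (by positivity)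
              exact mul_le_mul_of_nonneg_left hf2 (by positivity)
      have h12 : (N0 / K) ^ 2 * 4 ^ p * (K * N0 ^ K * D) = (4 ^ p * N0 / K) * (N0 ^ K * D * N0) := by
        field_simp
      rw [h12] at h11
      have h13 : 4 ^ p * N0 / K ≤ D / 4 := by
        rw [div_le_div_iff₀ hKpos (by norm_num), hK]
        push_cast
        calc (4 : ℝ) ^ p * N0 * 4 ≤ 4 ^ p * (D * 2 ^ r) * 4 := by
              apply mul_le_mul_of_nonneg_right _ (by norm_num)
              exact mul_le_mul_of_nonneg_left hND (by positivity)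
          _ = D * (4 ^ (p + 1) * 2 ^ r) := by rw [pow_succ]; ring
      have h14 : Bd * D ^ 2 * N0 ≤ (N0 ^ K / 4) * (D ^ 2 * N0) := by
        calc Bd * D ^ 2 * N0 ≤ (4 ^ p * N0 / K) * (N0 ^ K * D * N0) := h11
          _ ≤ D / 4 * (N0 ^ K * D * N0) := mul_le_mul_of_nonneg_right h13 (by positivity)
          _ = (N0 ^ K / 4) * (D ^ 2 * N0) := by ring
      rw [mul_assoc] at h14
      exact le_of_mul_le_mul_right h14 (by positivity)
    · have hA0 : A = ∅ := Set.not_nonempty_iff_eq_empty.mp hne
      have hall : {ω : Fin K → Ω | ¬ P ω} = ∅ := by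
        ext ω
        simp only [Set.mem_setOf_eq, Set.mem_empty_iff_false, iff_false, not_not]
        simp only [hP, hD, hA0]
        simp
      rw [hall]
      simp only [Set.ncard_empty, Nat.cast_zero]
      positivity
  rw [ncard_not, hcardfun] at hbad
  rw [hcardfun]
  show 3 / 4 * N0 ^ K ≤ ({ω : Fin K → Ω | P ω}.ncard : ℝ)
  linarith

end cheb

/-- many models -/
lemma mods_card {n r : ℕ} (x : Trm n r → Bool) (h : (mods n r x).Nonempty) :
    Fintype.card (Fin n → Bool) ≤ (mods n r x).ncard * 2 ^ r := by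
  classical
  obtain ⟨α0, e, he, -⟩ := h
  have h1 : Function.Injective (fun α : Fin n → Bool =>
      ((fun v => if v ∈ e.1 then true else α v : Fin n → Bool),
        (fun v : {v // v ∈ e.1} => α v.1))) := by
    intro α β hh
    funext v
    by_cases hv : v ∈ e.1
    · have h2 := congrFun (Prod.ext_iff.mp hh).2 ⟨v, hv⟩
      exact h2
    · have h2 := congrFun (Prod.ext_iff.mp hh).1 v
      simp only [if_neg hv] at h2
      exact h2
  have h2 : Nat.card (Fin n → Bool) ≤ Nat.card (↥(mods n r x) × ({v // v ∈ e.1} → Bool)) := by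
    apply Nat.card_le_card_of_injective (fun α : Fin n → Bool =>
      ((⟨(fun v => if v ∈ e.1 then true else α v : Fin n → Bool), ⟨e, he, fun v hv => by simp [hv]⟩⟩ :
        ↥(mods n r x)), (fun v : {v // v ∈ e.1} => α v.1)))
    intro α β hh
    apply h1
    have h3 := Prod.ext_iff.mp hh
    exact Prod.ext (congrArg Subtype.val h3.1) h3.2
  rw [Nat.card_prod, Nat.card_coe_set_eq, Nat.card_eq_fintype_card, Nat.card_eq_fintype_card,
    Fintype.card_fun (α := {v // v ∈ e.1}), Fintype.card_bool, Fintype.card_coe, e.2] at h2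
  exact h2

/-- the upper bound -/
theorem dnf_upper (n r p : ℕ) (hr : r ≤ n) :
    ∃ (R : Type) (_ : Fintype R) (_ : Nonempty R) (C : R → RC (Trm n r)),
      (∀ ρ, (C ρ).T = ∅ ∧ (C ρ).size ≤ 4 ^ (p + 1) * 2 ^ r * (n ^ r + 1) + 1) ∧
      ∀ x, 3 / 4 * (Fintype.card R : ℝ) ≤ ({ρ : R |
        |(C ρ).val x (C ρ).o - (dnf n r x : ℝ)| * 2 ^ p ≤ (dnf n r x : ℝ)}.ncard : ℝ) := by
  classical
  obtain ⟨e0', -, he0'⟩ := Finset.exists_subset_card_eq
    (s := (univ : Finset (Fin n))) (n := r) (by rw [Finset.card_univ, Fintype.card_fin]; exact hr)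
  set e0 : Trm n r := ⟨e0', he0'⟩ with he0
  set K := 4 ^ (p + 1) * 2 ^ r with hK
  set c : ℝ := (Fintype.card (Fin n → Bool) : ℝ) / K with hc
  have hc0 : 0 ≤ c := by positivity
  set L : (Fin K → (Fin n → Bool)) → List (Ins (Trm n r)) := fun ω =>
    smp e0 ((List.finRange K).map ω) ++ [insScale c hc0 e0] with hL
  have hex := fun ω => exists_chain (L ω) (by simp [hL])
  choose C hC1 hC2 hC3 using hex
  refine ⟨Fin K → (Fin n → Bool), inferInstance, inferInstance, C, ?_, ?_⟩
  · intro ω
    refine ⟨hC2 ω, ?_⟩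
    unfold RC.size
    rw [hC2, Finset.sum_empty, add_zero, hC1]
    simp only [hL, List.length_append, smp_length, List.length_map, List.length_finRange,
      List.length_cons, List.length_nil, zero_add]
    apply Nat.add_le_add_right
    apply Nat.mul_le_mul_left
    apply Nat.add_le_add_right
    rw [Fintype.card_finset_len, Fintype.card_fin]
    exact Nat.choose_le_pow _ _
  · intro x
    have h1 := cheb (mods n r x) K p r hK (mods_card x)
    have hout : ∀ ω, (C ω).val x (C ω).o = c * ({j | ω j ∈ mods n r x}.ncard : ℝ) := by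
      intro ω
      rw [hC3]
      simp only [hL, run_append]
      have h2 := run_smp x e0 ((List.finRange K).map ω) 0
      rw [Nat.cast_zero] at h2
      rw [h2, zero_add]
      show c * _ = c * _
      congr 1
      rw [List.map_map, ← List.ofFn_eq_map, List.sum_ofFn]
      simp only [Function.comp]
      rw [Finset.sum_boole, Set.ncard_eq_toFinset_card']
      congr 2
      ext a
      simp
    simp only [hout]
    exact h1

end Pool.Agent.W969.MC
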