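import Pool.Agent.W969.MC.Exp
import Pool.Agent.H545R2.Expand

/-! Existence of expanding systems of bounded degree, from permutations. -/

set_option linter.unusedSectionVars false

namespace Pool.Agent.W969.MC

open Finset Pool.Agent.H545R2

section

variable {A : Type} [Fintype A] [DecidableEq A]

/-- the part of a set of edges in one half -/
def prt {m : ℕ} (T : Finset (Fin 2 × Fin m)) (e : Fin 2) : Finset (Fin m) :=
  univ.filter (fun x => (e, x) ∈ T)

lemma prt_card {m : ℕ} (T : Finset (Fin 2 × Fin m)) : ∑ e, (prt T e).card = T.card := by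
  classical
  have h1 : T = univ.biUnion (fun e : Fin 2 => (prt T e).image (fun x => (e, x))) := by
    ext ⟨e, x⟩
    simp only [Finset.mem_biUnion, Finset.mem_univ, true_and, Finset.mem_image, prt,
      Finset.mem_filter, Prod.mk.injEq]
    constructor
    · intro h
      exact ⟨e, x, h, rfl, rfl⟩
    · rintro ⟨e', x', h, rfl, rfl⟩
      exact h
  conv_rhs => rw [h1]
  rw [Finset.card_biUnion]
  · apply Finset.sum_congr rfl
    intro e _
    rw [Finset.card_image_of_injective]
    intro x x' h
    exact (Prod.ext_iff.mp h).2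
  · intro e _ e' _ hne
    rw [Function.onFun, Finset.disjoint_left]
    rintro ⟨e1, x1⟩ h2 h3
    obtain ⟨x2, _, h4⟩ := Finset.mem_image.mp h2
    obtain ⟨x3, _, h5⟩ := Finset.mem_image.mp h3
    exact hne ((Prod.ext_iff.mp h4).1.trans (Prod.ext_iff.mp h5).1.symm)

/-- the number of systems for which the edges in `T` are inside `W` -/
lemma count_perm (m : ℕ) (T : Finset (Fin 2 × Fin m)) (W : Finset (Fin m)) :
    (univ.filter (fun π : Fin 2 → A → Equiv.Perm (Fin m) =>
      ∀ e ∈ T, ∀ j, π e.1 j e.2 ∈ W)).card * m ^ (Fintype.card A * T.card) ≤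
      (m.factorial ^ Fintype.card A) ^ 2 * W.card ^ (Fintype.card A * T.card) := by
  classical
  have h : (univ.filter (fun π : Fin 2 → A → Equiv.Perm (Fin m) =>
      ∀ e ∈ T, ∀ j, π e.1 j e.2 ∈ W)) =
      Fintype.piFinset (fun e => Fintype.piFinset (fun _ : A => permInto (prt T e) W)) := by
    ext π
    simp only [Finset.mem_filter, Finset.mem_univ, true_and, Fintype.mem_piFinset, permInto, prt]
    constructor
    · intro h e j x hx
      exact h (e, x) hx j
    · rintro h ⟨e, x⟩ he j
      exact h e j x he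
  rw [h, Fintype.card_piFinset]
  have h2 : ∀ e : Fin 2, (Fintype.piFinset (fun _ : A => permInto (prt T e) W)).card =
      (permInto (prt T e) W).card ^ Fintype.card A := by
    intro e
    rw [Fintype.card_piFinset]
    simp
  rw [Finset.prod_congr rfl (fun e _ => h2 e)]
  have h3 : m ^ (Fintype.card A * T.card) = ∏ e : Fin 2, (m ^ (prt T e).card) ^ Fintype.card A := by
    rw [← prt_card T]
    simp only [← pow_mul]
    rw [Finset.prod_pow_eq_pow_sum, Finset.mul_sum]
    congr 1
    apply Finset.sum_congr rfl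
    intro e _
    ring
  have h4 : W.card ^ (Fintype.card A * T.card) =
      ∏ e : Fin 2, (W.card ^ (prt T e).card) ^ Fintype.card A := by
    rw [← prt_card T]
    simp only [← pow_mul]
    rw [Finset.prod_pow_eq_pow_sum, Finset.mul_sum]
    congr 1
    apply Finset.sum_congr rfl
    intro e _
    ring
  have h5 : (m.factorial ^ Fintype.card A) ^ 2 = ∏ _e : Fin 2, m.factorial ^ Fintype.card A := by
    rw [Finset.prod_const, Finset.card_univ, Fintype.card_fin]
  rw [h3, h4, h5, ← Finset.prod_mul_distrib, ← Finset.prod_mul_distrib]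
  apply Finset.prod_le_prod'
  intro e _
  rw [← mul_pow, ← mul_pow]
  apply Nat.pow_le_pow_left
  have := permInto_card (prt T e) W
  rw [Fintype.card_fin] at this
  exact this

/-- Expanding systems of bounded degree exist. -/
theorem exists_expd_perm (b s m : ℕ) (hb : 2 ≤ b)
    (hA : Fintype.card A = b + 2) (hs : 18 * 3 ^ b * b ^ 2 * s ≤ m)
    (hm : 0 < m) : ∃ π : Fin 2 → A → Equiv.Perm (Fin m),
      Expd (fun (x : Fin 2 × Fin m) (j : A) => π x.1 j x.2) (b - 1) s := by
  classical
  have hb1 : b - 1 + 1 = b := by omega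
  by_contra hcon
  push Not at hcon
  set F := (m.factorial ^ (b + 2)) ^ 2 with hF
  have hFpos : 0 < F := by rw [hF]; positivity
  -- all systems are bad
  let bad : ℕ → Finset (Fin 2 → A → Equiv.Perm (Fin m)) := fun t =>
    (univ.powersetCard t).biUnion (fun T : Finset (Fin 2 × Fin m) =>
      (univ.powersetCard (b * t)).biUnion (fun W : Finset (Fin m) =>
        univ.filter (fun π : Fin 2 → A → Equiv.Perm (Fin m) => ∀ e ∈ T, ∀ j, π e.1 j e.2 ∈ W)))
  have hbt : ∀ t ≤ s, b * t ≤ m := by
    intro t hts
    calc b * t = 1 * 1 * b * t := by ring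
      _ ≤ 18 * 3 ^ b * b ^ 2 * s := by
        apply Nat.mul_le_mul _ hts
        apply Nat.mul_le_mul
        · exact Nat.mul_le_mul (by norm_num) (Nat.one_le_pow _ _ (by norm_num))
        · nlinarith
      _ ≤ m := hs
  have hcardI : Fintype.card (Fin 2 × Fin m) = 2 * m := by
    rw [Fintype.card_prod, Fintype.card_fin, Fintype.card_fin]
  have hbad : ∀ t, 0 < t → t ≤ s → 2 ^ t * (bad t).card ≤ F := by
    intro t ht hts
    have hmp : 0 < m ^ ((b + 2) * t) := by positivity
    have h1 : (bad t).card * m ^ ((b + 2) * t) ≤ (2 * m).choose t * (m.choose (b * t) *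
        (F * (b * t) ^ ((b + 2) * t))) := by
      have h2 : (bad t).card ≤ ∑ T ∈ (univ : Finset (Fin 2 × Fin m)).powersetCard t,
          ∑ W ∈ (univ : Finset (Fin m)).powersetCard (b * t),
          (univ.filter (fun π : Fin 2 → A → Equiv.Perm (Fin m) =>
            ∀ e ∈ T, ∀ j, π e.1 j e.2 ∈ W)).card := by
        refine Finset.card_biUnion_le.trans ?_
        exact Finset.sum_le_sum (fun T _ => Finset.card_biUnion_le)
      refine (Nat.mul_le_mul_right _ h2).trans ?_
      rw [Finset.sum_mul]
      refine (Finset.sum_le_card_nsmul _ _ (m.choose (b * t) *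
        (F * (b * t) ^ ((b + 2) * t))) ?_).trans ?_
      · intro T hT
        rw [Finset.mem_powersetCard] at hT
        rw [Finset.sum_mul]
        refine (Finset.sum_le_card_nsmul _ _ (F * (b * t) ^ ((b + 2) * t)) ?_).trans ?_
        · intro W hW
          rw [Finset.mem_powersetCard] at hW
          have h3 := count_perm (A := A) m T W
          rw [hT.2, hW.2, hA] at h3
          exact h3
        · rw [Finset.card_powersetCard, Finset.card_univ, Fintype.card_fin, smul_eq_mul]
      · rw [Finset.card_powersetCard, Finset.card_univ, hcardI, smul_eq_mul]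
    have h2 := count_est' b m (2 * m) t (by omega) ht
      ((Nat.mul_le_mul_left _ hts).trans hs) (by omega)
    apply Nat.le_of_mul_le_mul_right _ hmp
    calc 2 ^ t * (bad t).card * m ^ ((b + 2) * t) = 2 ^ t * ((bad t).card * m ^ ((b + 2) * t)) := by
          ring
      _ ≤ 2 ^ t * ((2 * m).choose t * (m.choose (b * t) * (F * (b * t) ^ ((b + 2) * t)))) :=
          Nat.mul_le_mul_left _ h1
      _ = F * (2 ^ t * ((2 * m).choose t * (m.choose (b * t) * (b * t) ^ ((b + 2) * t)))) := by ring
      _ ≤ F * m ^ ((b + 2) * t) := Nat.mul_le_mul_left _ h2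
  have hcover : (univ : Finset (Fin 2 → A → Equiv.Perm (Fin m))) ⊆
      (Finset.Icc 1 s).biUnion bad := by
    intro ν _
    have hν := hcon ν
    unfold Expd at hν
    push Not at hν
    obtain ⟨T, hT2, hT3⟩ := hν
    rw [hb1] at hT3
    have hT1 : 0 < T.card := by
      rcases Nat.eq_zero_or_pos T.card with h0 | h0
      · rw [h0, Nat.mul_zero] at hT3
        omega
      · exact h0
    obtain ⟨W, hW1, hW2⟩ : ∃ W : Finset (Fin m),
        cv (fun (x : Fin 2 × Fin m) (j : A) => ν x.1 j x.2) T ⊆ W ∧ W.card = b * T.card := by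
      obtain ⟨W, h1, h2⟩ := Finset.exists_superset_card_eq hT3.le (by
        rw [Fintype.card_fin]; exact hbt _ hT2)
      exact ⟨W, h1, h2⟩
    rw [Finset.mem_biUnion]
    refine ⟨T.card, Finset.mem_Icc.mpr ⟨hT1, hT2⟩, ?_⟩
    simp only [bad, Finset.mem_biUnion, Finset.mem_powersetCard, Finset.mem_filter,
      Finset.mem_univ, true_and]
    refine ⟨T, ⟨Finset.subset_univ _, rfl⟩, W, ⟨Finset.subset_univ _, hW2⟩, ?_⟩
    intro e he j
    apply hW1
    exact mem_cv.mpr ⟨e, he, Finset.mem_image_of_mem _ (Finset.mem_univ j)⟩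
  have hsum : ∀ k ≤ s, 2 ^ k * ∑ t ∈ Finset.Icc 1 k, (bad t).card + F ≤ 2 ^ k * F := by
    intro k
    induction k with
    | zero =>
      intro _
      simp
    | succ k ih =>
      intro hk
      have h1 := ih (by omega)
      have h2 := hbad (k + 1) (by omega) hk
      rw [Finset.sum_Icc_succ_top (by omega)]
      have h3 : 2 ^ (k + 1) * (∑ t ∈ Finset.Icc 1 k, (bad t).card + (bad (k + 1)).card) + F =
          2 * (2 ^ k * ∑ t ∈ Finset.Icc 1 k, (bad t).card + F) +
          2 ^ (k + 1) * (bad (k + 1)).card - F := by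
        have : 2 ^ (k + 1) * (∑ t ∈ Finset.Icc 1 k, (bad t).card + (bad (k + 1)).card) =
          2 * (2 ^ k * ∑ t ∈ Finset.Icc 1 k, (bad t).card) +
          2 ^ (k + 1) * (bad (k + 1)).card := by ring
        omega
      rw [h3]
      have h4 : 2 ^ (k + 1) * F = 2 * (2 ^ k * F) := by ring
      omega
  have h1 := Finset.card_le_card hcover
  have h2 := h1.trans Finset.card_biUnion_le
  have h3 := hsum s le_rfl
  have h4 : (univ : Finset (Fin 2 → A → Equiv.Perm (Fin m))).card = F := by
    rw [Finset.card_univ, Fintype.card_fun, Fintype.card_fun, Fintype.card_perm]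
    simp only [Fintype.card_fin]
    rw [hA]
  rw [h4] at h2
  have h5 : 2 ^ s * F ≤ 2 ^ s * ∑ t ∈ Finset.Icc 1 s, (bad t).card :=
    Nat.mul_le_mul_left _ h2
  omega

end

end Pool.Agent.W969.MC
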