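import Pool.Agent.W969.MC.Circ
import Pool.Agent.W969.MC.ExpP
import Pool.Agent.H545R2.Gadget2

/-! Hamilton cycles: the gadget for many copies of the constraint satisfaction problem. -/

set_option linter.unusedSectionVars false
set_option linter.unusedVariables false

namespace Pool.Agent.W969.MC

open Finset Pool.Agent.H545R2

/-- indices of constraints -/
abbrev Iv (m : ℕ) : Type := Fin 2 × Fin m

/-- positions in a constraint -/
abbrev Av (b2 : ℕ) : Type := Fin 2 × Fin b2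

/-- tuples of values of one half of a constraint -/
abbrev Pt (b2 t : ℕ) : Type := Fin b2 → (Fin t → Bool)

/-- leaves -/
abbrev LeafT (m t b2 u : ℕ) : Type :=
  (Iv m × Fin 2 × Pt b2 t × (Fin u → Bool)) ⊕ (Iv m × Fin u × Bool)

instance instDL1 (m t b2 u : ℕ) : DecidableEq (Iv m × Fin 2 × Pt b2 t × (Fin u → Bool)) :=
  instDecidableEqProd

instance instDL (m t b2 u : ℕ) : DecidableEq (LeafT m t b2 u) := instDecidableEqSum

/-- rows -/
abbrev RowT (m t u : ℕ) : Type := (Fin m × Fin t) ⊕ (Iv m × Fin u)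

/-- positions of rows -/
abbrev PosT (b2 t u : ℕ) : Type :=
  (Fin 2 × Av b2 × Pt b2 t × (Fin u → Bool)) ⊕ (Bool × Bool)

/-- the cyclic order of the constraints -/
def nxt (m : ℕ) : Equiv.Perm (Iv m) :=
  finProdFinEquiv.trans ((finRotate (2 * m)).trans finProdFinEquiv.symm)

/-- the number of a constraint -/
def ord {m : ℕ} (i : Iv m) : ℕ := (finProdFinEquiv i).val

lemma ord_inj {m : ℕ} {i i' : Iv m} (h : ord i = ord i') : i = i' :=
  finProdFinEquiv.injective (Fin.ext h)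

lemma ord_lt {m : ℕ} (i : Iv m) : ord i < 2 * m := (finProdFinEquiv i).isLt

lemma rot_val (N n : ℕ) (hn : n + 1 < N) (hn' : n < N) : (finRotate N ⟨n, hn'⟩).val = n + 1 := by
  obtain ⟨k, rfl⟩ : ∃ k, N = k + 1 := ⟨N - 1, by omega⟩
  rw [finRotate_of_lt (by omega)]

lemma nxt_const {m : ℕ} {β : Type} (g : Iv m → β) (hg : ∀ i, g (nxt m i) = g i) (i i' : Iv m) :
    g i = g i' := by
  have hm : 0 < m := lt_of_le_of_lt (Nat.zero_le _) i.2.isLt
  have key : ∀ n : ℕ, ∀ hn : n < 2 * m, g (finProdFinEquiv.symm ⟨n, hn⟩) =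
      g (finProdFinEquiv.symm ⟨0, by omega⟩) := by
    intro n
    induction n with
    | zero => intro _; rfl
    | succ n ih =>
      intro hn
      rw [← ih (by omega), ← hg (finProdFinEquiv.symm ⟨n, by omega⟩)]
      congr 1
      unfold nxt
      simp only [Equiv.trans_apply, Equiv.apply_symm_apply]
      congr 1
      apply Fin.ext
      rw [rot_val _ _ hn]
  have h1 := key (finProdFinEquiv i).val (finProdFinEquiv i).isLt
  have h2 := key (finProdFinEquiv i').val (finProdFinEquiv i').isLt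
  have e1 : (⟨(finProdFinEquiv i).val, (finProdFinEquiv i).isLt⟩ : Fin (2 * m)) =
    finProdFinEquiv i := rfl
  have e2 : (⟨(finProdFinEquiv i').val, (finProdFinEquiv i').isLt⟩ : Fin (2 * m)) =
    finProdFinEquiv i' := rfl
  rw [e1, Equiv.symm_apply_apply] at h1
  rw [e2, Equiv.symm_apply_apply] at h2
  rw [h1, h2]

section

variable {m t b2 u : ℕ} (π : Fin 2 → Av b2 → Equiv.Perm (Fin m))

/-- the variables of a constraint -/
def hv (x : Iv m) (a : Av b2) : Fin m := π x.1 a x.2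

/-- attachments of leaves to rows -/
def att : RowT m t u → PosT b2 t u → Option (LeafT m t b2 u × Bool)
  | Sum.inl (v, jj), Sum.inl (e, a, ρ, j) =>
      some (Sum.inl ((e, (π e a).symm v), a.1, ρ, j), !(ρ a.2 jj))
  | Sum.inl _, Sum.inr _ => none
  | Sum.inr (i, c), Sum.inl (e, a, ρ, j) => some (Sum.inl (i, e, ρ, j), !(j c))
  | Sum.inr (i, c), Sum.inr (false, β) => some (Sum.inr (i, c, β), β)
  | Sum.inr (i, c), Sum.inr (true, β) => some (Sum.inr ((nxt m).symm i, c, β), !β)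

/-- a leaf is attached to a row of the right mode -/
def Cov (z : RowT m t u → Bool) (a : LeafT m t b2 u) : Prop :=
  ∃ r p, att π r p = some (a, z r)

lemma bne_of {a b : Bool} (h : (!a) = b) : b ≠ a := by
  cases a <;> cases b <;> simp_all

lemma of_bne {a b : Bool} (h : b ≠ a) : (!a) = b := by
  cases a <;> cases b <;> simp_all

lemma cov_leaf (z : RowT m t u → Bool) (i : Iv m) (s : Fin 2) (ρ : Pt b2 t) (j : Fin u → Bool) :
    Cov π z (Sum.inl (i, s, ρ, j)) ↔
      (∃ t' jj, z (Sum.inl (hv π i (s, t'), jj)) ≠ ρ t' jj) ∨ (b2 ≠ 0 ∧ ∃ c, z (Sum.inr (i, c)) ≠ j c) := by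
  constructor
  · rintro ⟨r, p, h⟩
    rcases r with ⟨v, jj⟩ | ⟨i', c⟩
    · rcases p with ⟨e, a, ρ', j'⟩ | ⟨β, β'⟩
      · left
        simp only [att, Option.some.injEq, Prod.mk.injEq, Sum.inl.injEq] at h
        obtain ⟨⟨h1, h2, h3, h4⟩, h5⟩ := h
        subst h3 h4
        refine ⟨a.2, jj, ?_⟩
        have h6 : hv π i (s, a.2) = v := by
          rw [← h1, ← h2]
          simp [hv]
        rw [h6]
        exact bne_of h5
      · simp [att] at h
    · rcases p with ⟨e, a, ρ', j'⟩ | ⟨β, β'⟩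
      · right
        simp only [att, Option.some.injEq, Prod.mk.injEq, Sum.inl.injEq] at h
        obtain ⟨⟨h1, h2, h3, h4⟩, h5⟩ := h
        subst h1 h3 h4
        refine ⟨?_, c, bne_of h5⟩
        rintro rfl
        exact a.2.elim0
      · cases β <;> simp [att] at h
  · rintro (⟨t', jj, h⟩ | ⟨hb, c, h⟩)
    · refine ⟨Sum.inl (hv π i (s, t'), jj), Sum.inl (i.1, (s, t'), ρ, j), ?_⟩
      show some (Sum.inl ((i.1, (π i.1 (s, t')).symm (hv π i (s, t'))), s, ρ, j), !(ρ t' jj)) =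
        some ((Sum.inl (i, s, ρ, j) : LeafT m t b2 u), z (Sum.inl (hv π i (s, t'), jj)))
      rw [of_bne h]
      unfold hv
      rw [Equiv.symm_apply_apply]
    · refine ⟨Sum.inr (i, c), Sum.inl (s, (0, ⟨0, Nat.pos_of_ne_zero hb⟩), ρ, j), ?_⟩
      simp only [att, Option.some.injEq, Prod.mk.injEq, true_and]
      exact of_bne h

lemma cov_eq (z : RowT m t u → Bool) (i : Iv m) (c : Fin u) (β : Bool) :
    Cov π z (Sum.inr (i, c, β)) ↔
      z (Sum.inr (i, c)) = β ∨ z (Sum.inr (nxt m i, c)) = !β := by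
  constructor
  · rintro ⟨r, p, h⟩
    rcases r with ⟨v, jj⟩ | ⟨i', c'⟩
    · rcases p with ⟨e, a, ρ', j'⟩ | ⟨β', β''⟩
      · simp [att] at h
      · simp [att] at h
    · rcases p with ⟨e, a, ρ', j'⟩ | ⟨β', β''⟩
      · simp [att] at h
      · cases β'
        · simp only [att, Option.some.injEq, Prod.mk.injEq, Sum.inr.injEq] at h
          obtain ⟨⟨h1, h2, h3⟩, h5⟩ := h
          subst h1 h2 h3
          exact Or.inl h5.symm
        · simp only [att, Option.some.injEq, Prod.mk.injEq, Sum.inr.injEq] at h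
          obtain ⟨⟨h1, h2, h3⟩, h5⟩ := h
          subst h2 h3
          right
          rw [← h1, Equiv.apply_symm_apply]
          exact h5.symm
  · rintro (h | h)
    · exact ⟨Sum.inr (i, c), Sum.inr (false, β), by simp [att, h]⟩
    · exact ⟨Sum.inr (nxt m i, c), Sum.inr (true, β), by simp [att, h]⟩

end

/-- join two halves -/
def jn {b2 t : ℕ} (ρ ρ' : Pt b2 t) : Av b2 → (Fin t → Bool) := fun a => if a.1 = 0 then ρ a.2 else ρ' a.2

section rel

variable {m t b2 u : ℕ} (y : (Fin u → Bool) → Set (Iv m × (Av b2 → (Fin t → Bool))))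

/-- steps of the path through the leaves -/
def Hh (a a' : LeafT m t b2 u) : Prop :=
  (∃ i ρ ρ' j, a = Sum.inl (i, 0, ρ, j) ∧ a' = Sum.inl (i, 1, ρ', j) ∧ (i, jn ρ ρ') ∈ y j) ∨
  ∃ i i' ρ ρ' j j', ord i' = ord i + 1 ∧ a = Sum.inl (i, 1, ρ, j) ∧ a' = Sum.inl (i', 0, ρ', j')

/-- first leaves -/
def Hs (a : LeafT m t b2 u) : Prop := ∃ i ρ j, ord i = 0 ∧ a = Sum.inl (i, 0, ρ, j)

/-- last leaves -/
def He (a : LeafT m t b2 u) : Prop := ∃ i ρ j, ord i + 1 = 2 * m ∧ a = Sum.inl (i, 1, ρ, j)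

end rel

end Pool.Agent.W969.MC
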