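import Pool.Agent.W969.MC.Ham2

/-! Hamilton cycles: graphs on `Fin n`, monotone and narrow encoding. -/

set_option linter.unusedSectionVars false
set_option linter.unusedVariables false

namespace Pool.Agent.W969.MC

open Finset Pool.Agent.H545R2 Pool.Agent.H560R2

/-- the graph coded by bits for unordered pairs -/
def grf {n : ℕ} (x : {e : Finset (Fin n) // e.card = 2} → Bool) : SimpleGraph (Fin n) where
  Adj a b := ∃ h : a ≠ b, x ⟨{a, b}, Finset.card_pair h⟩ = true
  symm := by
    refine ⟨?_⟩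
    rintro a b ⟨h, hx⟩
    refine ⟨h.symm, ?_⟩
    have e : (⟨{b, a}, Finset.card_pair h.symm⟩ : {e : Finset (Fin n) // e.card = 2}) =
        ⟨{a, b}, Finset.card_pair h⟩ := Subtype.ext (Finset.pair_comm b a)
    rw [e]
    exact hx
  loopless := ⟨fun a ⟨h, _⟩ => h rfl⟩

lemma ham_iso_aux {α β : Type} [Fintype α] [Fintype β] [DecidableEq α] [DecidableEq β]
    {G : SimpleGraph α} {H : SimpleGraph β} (e : G ≃g H) (h : G.IsHamiltonian) :
    H.IsHamiltonian := by
  intro hc
  obtain ⟨a, p, hp⟩ := h (by rw [Fintype.card_congr e.toEquiv]; exact hc)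
  exact ⟨_, _, SimpleGraph.Walk.IsHamiltonianCycle.map (f := e.toHom) e.bijective hp⟩

lemma ham_iso {α β : Type} [Fintype α] [Fintype β] [DecidableEq α] [DecidableEq β]
    {G : SimpleGraph α} {H : SimpleGraph β} (e : G ≃g H) :
    G.IsHamiltonian ↔ H.IsHamiltonian :=
  ⟨ham_iso_aux e, ham_iso_aux e.symm⟩

section congr

variable {b r l : ℕ} {L : Type} {atl : Fin b → Fin r → Option (L × Bool)}
    {ok : Fin b → ℕ → Bool → Prop} {hs he : L → Prop} {hh hh' : L → L → Prop} {se : Prop}

lemma GR_congr {p q : Sg b r l L × Bool} (h : GR atl ok hs he hh se p q)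
    (H : ∀ a a', p = (.leaf a, true) → q = (.leaf a', false) → hh a a' → hh' a a') :
    GR atl ok hs he hh' se p q := by
  cases h with
  | rail i x y s t h1 h2 => exact GR.rail i x y s t h1 h2
  | first i x t s h1 h2 => exact GR.first i x t s h1 h2
  | dd i i' t t' s h1 h2 h3 => exact GR.dd i i' t t' s h1 h2 h3
  | ddf i t s h1 h2 => exact GR.ddf i t s h1 h2
  | last i x t s h1 h2 => exact GR.last i x t s h1 h2
  | unit i t t' s s' h1 h2 => exact GR.unit i t t' s s' h1 h2
  | att0 i k x a m h1 h2 => exact GR.att0 i k x a m h1 h2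
  | att1 i k x a m h1 h2 => exact GR.att1 i k x a m h1 h2
  | hubS a h1 => exact GR.hubS a h1
  | hubL a a' h1 => exact GR.hubL a a' (H a a' rfl rfl h1)
  | hubE a i t h1 h2 h3 => exact GR.hubE a i t h1 h2 h3
  | sE i t h1 h2 h3 => exact GR.sE i t h1 h2 h3

lemma Seg_congr {M : Type} {R R' : M × Bool → M × Bool → Prop} {f : M} {z : ℕ} {v w : SegV M z}
    (h : SegRel R f z v w)
    (H : ∀ m m' β β', v = Sum.inl (m, some β) → w = Sum.inl (m', some β') → R (m, β) (m', β') →
      R' (m, β) (m', β')) : SegRel R' f z v w := by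
  cases h with
  | port m m' β β' h1 => exact SegRel.port m m' β β' (H m m' β β' rfl rfl h1)
  | mid m β h1 => exact SegRel.mid m β h1
  | midf j h1 => exact SegRel.midf j h1
  | ff j j' h1 => exact SegRel.ff j j' h1
  | fp j h1 => exact SegRel.fp j h1

/-- the only connections that change are those between leaves on the path -/
lemma Adj_congr {f : Sg b r l L} {z : ℕ} {v w : SegV (Sg b r l L) z}
    (h : (segGraph (GR atl ok hs he hh se) f z).Adj v w)
    (H : ∀ a a', ((v = Sum.inl (.leaf a, some true) ∧ w = Sum.inl (.leaf a', some false)) ∨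
      (w = Sum.inl (.leaf a, some true) ∧ v = Sum.inl (.leaf a', some false))) →
      hh a a' → hh' a a') :
    (segGraph (GR atl ok hs he hh' se) f z).Adj v w := by
  unfold segGraph at h ⊢
  rw [SimpleGraph.fromRel_adj] at h ⊢
  refine ⟨h.1, ?_⟩
  rcases h.2 with h | h
  · left
    refine Seg_congr h ?_
    rintro m m' β β' h1 h2 h3
    refine GR_congr h3 ?_
    rintro a a' h4 h5
    simp only [Prod.mk.injEq] at h4 h5
    rw [h4.1, h4.2] at h1
    rw [h5.1, h5.2] at h2
    exact H a a' (Or.inl ⟨h1, h2⟩)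
  · right
    refine Seg_congr h ?_
    rintro m m' β β' h1 h2 h3
    refine GR_congr h3 ?_
    rintro a a' h4 h5
    simp only [Prod.mk.injEq] at h4 h5
    rw [h4.1, h4.2] at h1
    rw [h5.1, h5.2] at h2
    exact H a a' (Or.inr ⟨h1, h2⟩)

end congr

section

variable {m t b2 u B R n zf : ℕ} (π : Fin 2 → Av b2 → Equiv.Perm (Fin m))
  (eR : RowT m t u ≃ Fin B) (eP : PosT b2 t u ≃ Fin R)
  (ι : SegV (Sg B R 1 (LeafT m t b2 u)) zf ≃ Fin n)

/-- the gadget graph -/
def gG (y : (Fin u → Bool) → Set (Iv m × (Av b2 → (Fin t → Bool)))) :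
    SimpleGraph (SegV (Sg B R 1 (LeafT m t b2 u)) zf) :=
  segGraph (GR (atn π eR eP) (fun _ _ _ => True) Hs He (Hh y) False) .fin zf

/-- the bits of the gadget graph -/
noncomputable def ench (y : (Fin u → Bool) → Set (Iv m × (Av b2 → (Fin t → Bool))))
    (e : {e : Finset (Fin n) // e.card = 2}) : Bool :=
  @decide (∃ v w, e.1 = {ι v, ι w} ∧ (gG π eR eP (zf := zf) y).Adj v w)
    (Classical.propDecidable _)

lemma ench_adj (y : (Fin u → Bool) → Set (Iv m × (Av b2 → (Fin t → Bool))))
    (v w : SegV (Sg B R 1 (LeafT m t b2 u)) zf) :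
    (grf (ench π eR eP ι y)).Adj (ι v) (ι w) ↔ (gG π eR eP (zf := zf) y).Adj v w := by
  classical
  constructor
  · rintro ⟨h, hx⟩
    obtain ⟨v', w', h1, h2⟩ := @of_decide_eq_true _ (Classical.propDecidable _) hx
    have h3 : ({ι v, ι w} : Finset (Fin n)) = {ι v', ι w'} := h1
    have h4 : ({v, w} : Finset (SegV (Sg B R 1 (LeafT m t b2 u)) zf)) = {v', w'} := by
      apply Finset.map_injective ι.toEmbedding
      rw [Finset.map_insert, Finset.map_singleton, Finset.map_insert, Finset.map_singleton]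
      exact h3
    have hv : v ∈ ({v', w'} : Finset (SegV (Sg B R 1 (LeafT m t b2 u)) zf)) := by
      rw [← h4]; exact Finset.mem_insert_self _ _
    have hw : w ∈ ({v', w'} : Finset (SegV (Sg B R 1 (LeafT m t b2 u)) zf)) := by
      rw [← h4]; exact Finset.mem_insert_of_mem (Finset.mem_singleton_self _)
    rw [Finset.mem_insert, Finset.mem_singleton] at hv hw
    have hne : v ≠ w := fun hh => h (by rw [hh])
    rcases hv with rfl | rfl <;> rcases hw with rfl | rfl
    · exact absurd rfl hne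
    · exact h2
    · exact h2.symm
    · exact absurd rfl hne
  · intro h
    refine ⟨fun hh => h.ne (ι.injective hh), ?_⟩
    exact @decide_eq_true _ (Classical.propDecidable _) ⟨v, w, rfl, h⟩

lemma ench_ham (y : (Fin u → Bool) → Set (Iv m × (Av b2 → (Fin t → Bool)))) :
    (grf (ench π eR eP ι y)).IsHamiltonian ↔ (gG π eR eP (zf := zf) y).IsHamiltonian := by
  symm
  apply ham_iso
  exact ⟨ι, fun {v w} => ench_adj π eR eP ι y v w⟩

lemma ench_mono {y y' : (Fin u → Bool) → Set (Iv m × (Av b2 → (Fin t → Bool)))}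
    (hy : ∀ j, y j ⊆ y' j) (e : {e : Finset (Fin n) // e.card = 2}) :
    ench π eR eP ι y e ≤ ench π eR eP ι y' e := by
  classical
  rw [Bool.le_iff_imp]
  intro h
  obtain ⟨v, w, h1, h2⟩ := @of_decide_eq_true _ (Classical.propDecidable _) h
  apply @decide_eq_true _ (Classical.propDecidable _)
  refine ⟨v, w, h1, Adj_congr h2 ?_⟩
  rintro a a' - (⟨i, ρ, ρ', j, g1, g2, g3⟩ | h)
  · exact Or.inl ⟨i, ρ, ρ', j, g1, g2, hy _ g3⟩
  · exact Or.inr h

lemma ench_narrow (y : (Fin u → Bool) → Set (Iv m × (Av b2 → (Fin t → Bool))))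
    (J : Fin u → Bool) (e : {e : Finset (Fin n) // e.card = 2}) :
    ∃ T' : Finset (Iv m × (Av b2 → (Fin t → Bool))), T'.card ≤ 1 ∧
      ∀ x x' : Set (Iv m × (Av b2 → (Fin t → Bool))), (∀ e ∈ T', e ∈ x → e ∈ x') →
        ench π eR eP ι (Function.update y J x) e = true →
        ench π eR eP ι (Function.update y J x') e = true := by
  classical
  -- the tuple of the pair
  let Q : (Iv m × (Av b2 → (Fin t → Bool))) → Prop := fun τ => ∃ i ρ ρ' j,
    τ = (i, jn ρ ρ') ∧ e.1 = {ι (Sum.inl (.leaf (Sum.inl (i, 0, ρ, j)), some true)),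
      ι (Sum.inl (.leaf (Sum.inl (i, 1, ρ', j)), some false))}
  have hQ : ∀ τ τ', Q τ → Q τ' → τ = τ' := by
    rintro _ _ ⟨i, ρ, ρ', j, rfl, h1⟩ ⟨i1, ρ1, ρ1', j1, rfl, h2⟩
    have h3 : ({ι (Sum.inl (.leaf (Sum.inl (i, 0, ρ, j)), some true)),
      ι (Sum.inl (.leaf (Sum.inl (i, 1, ρ', j)), some false))} : Finset (Fin n)) =
      {ι (Sum.inl (.leaf (Sum.inl (i1, 0, ρ1, j1)), some true)),
      ι (Sum.inl (.leaf (Sum.inl (i1, 1, ρ1', j1)), some false))} := h1.symm.trans h2
    have h4 : ({Sum.inl (.leaf (Sum.inl (i, 0, ρ, j)), some true),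
      Sum.inl (.leaf (Sum.inl (i, 1, ρ', j)), some false)} :
        Finset (SegV (Sg B R 1 (LeafT m t b2 u)) zf)) =
      {Sum.inl (.leaf (Sum.inl (i1, 0, ρ1, j1)), some true),
      Sum.inl (.leaf (Sum.inl (i1, 1, ρ1', j1)), some false)} := by
      apply Finset.map_injective ι.toEmbedding
      rw [Finset.map_insert, Finset.map_singleton, Finset.map_insert, Finset.map_singleton]
      exact h3
    have h5 : (Sum.inl (.leaf (Sum.inl (i, 0, ρ, j)), some true) :
        SegV (Sg B R 1 (LeafT m t b2 u)) zf) ∈ ({Sum.inl (.leaf (Sum.inl (i1, 0, ρ1, j1)),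
          some true), Sum.inl (.leaf (Sum.inl (i1, 1, ρ1', j1)), some false)} :
            Finset (SegV (Sg B R 1 (LeafT m t b2 u)) zf)) := by
      rw [← h4]; exact Finset.mem_insert_self _ _
    have h6 : (Sum.inl (.leaf (Sum.inl (i, 1, ρ', j)), some false) :
        SegV (Sg B R 1 (LeafT m t b2 u)) zf) ∈ ({Sum.inl (.leaf (Sum.inl (i1, 0, ρ1, j1)),
          some true), Sum.inl (.leaf (Sum.inl (i1, 1, ρ1', j1)), some false)} :
            Finset (SegV (Sg B R 1 (LeafT m t b2 u)) zf)) := by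
      rw [← h4]; exact Finset.mem_insert_of_mem (Finset.mem_singleton_self _)
    rw [Finset.mem_insert, Finset.mem_singleton] at h5 h6
    have h7 : i = i1 ∧ ρ = ρ1 := by
      rcases h5 with h5 | h5
      · have h8 := Sum.inl.inj h5
        simp only [Prod.mk.injEq, Sg.leaf.injEq, Sum.inl.injEq, true_and, and_true] at h8
        exact ⟨h8.1, h8.2.1⟩
      · exfalso
        have h8 := Sum.inl.inj h5
        simp only [Prod.mk.injEq, Option.some.injEq] at h8
        exact absurd h8.2 (by decide)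
    have h9 : ρ' = ρ1' := by
      rcases h6 with h6 | h6
      · exfalso
        have h8 := Sum.inl.inj h6
        simp only [Prod.mk.injEq, Option.some.injEq] at h8
        exact absurd h8.2 (by decide)
      · have h8 := Sum.inl.inj h6
        simp only [Prod.mk.injEq, Sg.leaf.injEq, Sum.inl.injEq, true_and, and_true] at h8
        exact h8.2.1
    rw [h7.1, h7.2, h9]
  refine ⟨if h : ∃ τ, Q τ then {h.choose} else ∅, ?_, ?_⟩
  · split_ifs
    · rw [Finset.card_singleton]
    · simp
  · intro x x' hxx h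
    obtain ⟨v, w, h1, h2⟩ := @of_decide_eq_true _ (Classical.propDecidable _) h
    apply @decide_eq_true _ (Classical.propDecidable _)
    refine ⟨v, w, h1, Adj_congr h2 ?_⟩
    rintro a a' hvw (⟨i, ρ, ρ', j, g1, g2, g3⟩ | h)
    · refine Or.inl ⟨i, ρ, ρ', j, g1, g2, ?_⟩
      by_cases hj : j = J
      · subst hj
        rw [Function.update_self] at g3 ⊢
        have hq : Q (i, jn ρ ρ') := by
          refine ⟨i, ρ, ρ', j, rfl, ?_⟩
          rw [h1]
          rcases hvw with ⟨rfl, rfl⟩ | ⟨rfl, rfl⟩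
          · rw [g1, g2]
          · rw [g1, g2]
            exact Finset.pair_comm _ _
        have hex : ∃ τ, Q τ := ⟨_, hq⟩
        apply hxx _ _ g3
        rw [dif_pos hex, Finset.mem_singleton]
        exact hQ _ _ hq hex.choose_spec
      · rw [Function.update_of_ne hj] at g3 ⊢
        exact g3
    · exact Or.inr h

end

end Pool.Agent.W969.MC
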