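import Pool.Agent.W969.MC.Ham3
import Pool.Agent.W969.MC.Clq2

/-! Hamilton cycles: the lower bound with integer parameters. -/

set_option linter.unusedSectionVars false
set_option linter.unusedVariables false

namespace Pool.Agent.W969.MC

open Finset Pool.Agent.H545R2 Pool.Agent.H560R2

/-- the number of segments of the gadget -/
def nseg (m t b2 u : ℕ) : ℕ :=
  (m * t + 2 * m * u) * (3 * (2 * (2 * b2) * (2 ^ t) ^ b2 * 2 ^ u + 4) + 1) +
    (m * t + 2 * m * u) * (2 * (1 + 1)) +
    (2 * m * 2 * (2 ^ t) ^ b2 * 2 ^ u + 2 * m * u * 2 + 1)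

lemma card_row (m t u : ℕ) : Fintype.card (RowT m t u) = m * t + 2 * m * u := by
  simp only [Fintype.card_sum, Fintype.card_prod, Fintype.card_fin]

lemma card_pos (b2 t u : ℕ) :
    Fintype.card (PosT b2 t u) = 2 * (2 * b2) * (2 ^ t) ^ b2 * 2 ^ u + 4 := by
  simp only [Fintype.card_sum, Fintype.card_prod, Fintype.card_fin, Fintype.card_bool,
    Fintype.card_fun]
  ring

lemma card_leaf (m t b2 u : ℕ) :
    Fintype.card (LeafT m t b2 u) = 2 * m * 2 * (2 ^ t) ^ b2 * 2 ^ u + 2 * m * u * 2 := by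
  simp only [Fintype.card_sum, Fintype.card_prod, Fintype.card_fin, Fintype.card_bool,
    Fintype.card_fun]
  ring

section

variable {n : ℕ} {Inp : Type} {S : ℕ} {T : Finset (Fin S)} {wd : Fin S → ℕ}
  {a : ∀ i, Fin (wd i) → Inp ⊕ Fin S}
  {op : ∀ i, (Fin (wd i) → ℝ) → ℝ} {θ : ∀ i, Fin (wd i) → ℝ}
  {val : (Inp → Bool) → Fin S → ℝ}

/-- the lower bound for Hamiltonicity with integer parameters -/
theorem ham_param {b2 b t u M m s w : ℕ} (P : Pars 2 b2 b (2 ^ t) M m s w)
    (hn : 3 * nseg m t b2 u ≤ n) (ht : 0 < t)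
    (htop : ∀ i j k, a i j = Sum.inr k → k < i)
    (hmon : ∀ i ∉ T, wd i ≤ 2 ∧ Monotone (op i))
    (hT : ∀ i ∈ T, ∀ z z' : Fin (wd i) → ℝ, (∀ j, θ i j ≤ z j ↔ θ i j ≤ z' j) → op i z = op i z')
    (hval : ∀ x i, val x i = op i (fun j => Sum.elim (bit x) (val x) (a i j)))
    (o : Fin S) (τ : ℝ) (d : Inp → Option {e : Finset (Fin n) // e.card = 2})
    (ho : ∀ x, τ ≤ val (pull d x) o ↔ (grf x).IsHamiltonian)
    (hlen : S + ∑ i ∈ T, wd i ≤ (2 ^ t + 1) ^ m)
    (hlt : 8 * (S + ∑ i ∈ T, wd i) * 2 ^ (w / (2 * b) / b + 1) <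
      (2 ^ t) ^ (w / (2 * b) / b + 1)) :
    2 ^ u < ∏ i ∈ T, (wd i + 1) := by
  classical
  have hcard : Fintype.card (Av b2) = b + 2 := by
    rw [Fintype.card_prod, Fintype.card_fin, Fintype.card_fin, P.hrb]
  obtain ⟨π, hπ⟩ := exists_expd_perm (A := Av b2) b s m P.hb hcard P.hs P.hm
  have hΛ : Fintype.card (Fin t → Bool) = 2 ^ t := by
    simp only [Fintype.card_fun, Fintype.card_fin, Fintype.card_bool]
  have hG : Good (hv π) (Fin t → Bool) b s w := by
    refine ⟨P.hb, hcard, hπ, P.hw, P.hws, ?_, ?_, ?_, ?_⟩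
    · rw [Fintype.card_fin]; exact P.hm
    · rw [Fintype.card_fin, Fintype.card_prod, Fintype.card_fin, Fintype.card_fin]
    · rw [hΛ]; exact P.hq
    · rw [Fintype.card_fin, hΛ]; exact P.hstar
  have hne : Nonempty (Av b2) := ⟨(0, ⟨0, P.hb2⟩)⟩
  obtain ⟨eR⟩ : Nonempty (RowT m t u ≃ Fin (Fintype.card (RowT m t u))) :=
    ⟨Fintype.equivFin _⟩
  obtain ⟨eP⟩ : Nonempty (PosT b2 t u ≃ Fin (Fintype.card (PosT b2 t u))) :=
    ⟨Fintype.equivFin _⟩
  set B := Fintype.card (RowT m t u) with hB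
  set R := Fintype.card (PosT b2 t u) with hR
  have hBpos : 0 < B := by
    rw [hB, card_row]
    have := Nat.mul_pos P.hm ht
    omega
  have hseg : Fintype.card (Sg B R 1 (LeafT m t b2 u)) = nseg m t b2 u := by
    rw [card_sg, hB, hR, card_row, card_pos, card_leaf]
    rfl
  set zf := n - 3 * nseg m t b2 u with hzf
  have hV : Fintype.card (SegV (Sg B R 1 (LeafT m t b2 u)) zf) = Fintype.card (Fin n) := by
    rw [Fintype.card_sum, Fintype.card_prod, Fintype.card_option, Fintype.card_bool, hseg,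
      Fintype.card_fin, Fintype.card_fin]
    omega
  obtain ⟨ι⟩ : Nonempty (SegV (Sg B R 1 (LeafT m t b2 u)) zf ≃ Fin n) :=
    ⟨Fintype.equivOfCardEq hV⟩
  obtain ⟨ej⟩ : Nonempty (Fin (2 ^ u) ≃ (Fin u → Bool)) :=
    ⟨Fintype.equivOfCardEq (by
      simp only [Fintype.card_fun, Fintype.card_fin, Fintype.card_bool])⟩
  refine csp_real hG (m' := 2 ^ u) htop hmon hT hval o τ
    (fun y => pull d (ench π eR eP ι (fun j => y (ej.symm j)))) ?_ ?_ ?_
    (by rw [hΛ, Fintype.card_fin]; exact hlen)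
    (by rw [hΛ]; exact hlt)
  · intro y y' hy p
    show (d p).elim false (ench π eR eP ι (fun j => y (ej.symm j))) ≤
      (d p).elim false (ench π eR eP ι (fun j => y' (ej.symm j)))
    rcases d p with _ | e
    · exact le_rfl
    · exact ench_mono π eR eP ι (fun j => hy (ej.symm j)) e
  · intro y
    rw [ho, ench_ham]
    constructor
    · intro h
      obtain ⟨js, x, hx⟩ := ham_fwd π _ eR eP P.hb2.ne' zf h P.hm
      refine ⟨ej.symm js, x, ?_⟩
      rintro ⟨i, f⟩ hf
      rw [Finset.mem_coe, mem_tu] at hf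
      have e : f = fun a => x (hv π i a) := by
        funext a
        have := hf a
        rw [mem_gr] at this
        exact this.symm
      rw [e]
      exact hx i
    · rintro ⟨j, x, hx⟩
      refine ham_back π _ eR eP P.hb2.ne' P.hm hBpos zf (ej j) x ?_
      intro i
      show (i, fun a => x (hv π i a)) ∈ y (ej.symm (ej j))
      rw [Equiv.symm_apply_apply]
      apply hx
      rw [Finset.mem_coe, mem_tu]
      intro a
      rw [mem_gr]
  · intro y J p
    show ∃ T' : Finset (Iv m × (Av b2 → (Fin t → Bool))), T'.card ≤ 1 ∧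
      ∀ x x' : Set (Iv m × (Av b2 → (Fin t → Bool))), (∀ e ∈ T', e ∈ x → e ∈ x') →
        (d p).elim false (ench π eR eP ι (fun j => Function.update y J x (ej.symm j))) = true →
        (d p).elim false (ench π eR eP ι (fun j => Function.update y J x' (ej.symm j))) = true
    rcases d p with _ | e
    · exact ⟨∅, by simp, fun x x' _ hh => absurd hh Bool.false_ne_true⟩
    · have hup : ∀ x : Set (Iv m × (Av b2 → (Fin t → Bool))),
          (fun j => Function.update y J x (ej.symm j)) =
          Function.update (fun j => y (ej.symm j)) (ej J) x := by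
        intro x
        funext j
        by_cases hj : j = ej J
        · subst hj
          rw [Function.update_self, Equiv.symm_apply_apply, Function.update_self]
        · rw [Function.update_of_ne hj, Function.update_of_ne]
          intro h
          exact hj (by rw [← h, Equiv.apply_symm_apply])
      obtain ⟨T', h1, h2⟩ := ench_narrow π eR eP ι (fun j => y (ej.symm j)) (ej J) e
      refine ⟨T', h1, fun x x' hxx => ?_⟩
      rw [hup, hup]
      exact h2 x x' hxx

end

end Pool.Agent.W969.MC
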