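import Pool.Agent.W969.MC.Ham4
import Pool.Agent.W969.MC.Par2

/-! The main bound for Hamiltonicity. -/

set_option linter.unusedSectionVars false
set_option linter.unusedVariables false

namespace Pool.Agent.W969.MC

open Finset Pool.Agent.H560R2

lemma nseg_le {m t b2 u : ℕ} (hm : 0 < m) (hb2 : 0 < b2) :
    nseg m t b2 u ≤ 63 * b2 * (t + u + 1) * (m * ((2 ^ t) ^ b2 * 2 ^ u)) := by
  unfold nseg
  set X := (2 ^ t) ^ b2 * 2 ^ u with hX
  have hXpos : 1 ≤ X := Nat.mul_pos (by positivity) (by positivity)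
  have e1 : 2 * (2 * b2) * (2 ^ t) ^ b2 * 2 ^ u = 4 * b2 * X := by rw [hX]; ring
  have e2 : 2 * m * 2 * (2 ^ t) ^ b2 * 2 ^ u = 4 * m * X := by rw [hX]; ring
  rw [e1, e2]
  have h1 : 3 * (4 * b2 * X + 4) + 1 + 2 * (1 + 1) ≤ 29 * (b2 * X) := by
    have h3 : 1 ≤ b2 * X := Nat.mul_pos hb2 hXpos
    have h4 : 3 * (4 * b2 * X + 4) + 1 + 2 * (1 + 1) = 12 * (b2 * X) + 17 := by ring
    omega
  have h2 : m * t + 2 * m * u ≤ 2 * m * (t + u + 1) := by nlinarith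
  have h3 : (m * t + 2 * m * u) * (3 * (4 * b2 * X + 4) + 1) + (m * t + 2 * m * u) * (2 * (1 + 1)) ≤
      58 * (b2 * (t + u + 1) * (m * X)) := by
    calc (m * t + 2 * m * u) * (3 * (4 * b2 * X + 4) + 1) + (m * t + 2 * m * u) * (2 * (1 + 1)) =
        (m * t + 2 * m * u) * (3 * (4 * b2 * X + 4) + 1 + 2 * (1 + 1)) := by ring
      _ ≤ (2 * m * (t + u + 1)) * (29 * (b2 * X)) := Nat.mul_le_mul h2 h1
      _ = 58 * (b2 * (t + u + 1) * (m * X)) := by ring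
  have h4 : 4 * m * X + 2 * m * u * 2 + 1 ≤ 5 * ((t + u + 1) * (m * X)) := by
    have h5 : 1 ≤ m * X := Nat.mul_pos hm hXpos
    have h6 : m * u ≤ m * X * u := by
      calc m * u = m * 1 * u := by ring
        _ ≤ m * X * u := Nat.mul_le_mul_right _ (Nat.mul_le_mul_left _ hXpos)
    have h7 : 0 ≤ t * (m * X) := Nat.zero_le _
    nlinarith
  have h5 : 5 * ((t + u + 1) * (m * X)) ≤ 5 * (b2 * (t + u + 1) * (m * X)) := by
    apply Nat.mul_le_mul_left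
    apply Nat.mul_le_mul_right
    exact Nat.le_mul_of_pos_left _ hb2
  calc _ ≤ 58 * (b2 * (t + u + 1) * (m * X)) + 5 * (b2 * (t + u + 1) * (m * X)) :=
        Nat.add_le_add h3 (h4.trans h5)
    _ = _ := by ring

/-- The main bound. -/
theorem ham_main (ε : ℝ) (hε : 0 < ε) :
    ∃ δ : ℝ, 0 < δ ∧ ∃ n1 : ℕ, ∀ n : ℕ, n1 ≤ n →
      ∀ {Inp : Type} {S : ℕ} {T : Finset (Fin S)} {wd : Fin S → ℕ}
        {a : ∀ i, Fin (wd i) → Inp ⊕ Fin S}
        {op : ∀ i, (Fin (wd i) → ℝ) → ℝ} {θ : ∀ i, Fin (wd i) → ℝ}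
        {val : (Inp → Bool) → Fin S → ℝ}
        (_ : ∀ i j k, a i j = Sum.inr k → k < i)
        (_ : ∀ i ∉ T, wd i ≤ 2 ∧ Monotone (op i))
        (_ : ∀ i ∈ T, ∀ z z' : Fin (wd i) → ℝ, (∀ j, θ i j ≤ z j ↔ θ i j ≤ z' j) →
          op i z = op i z')
        (_ : ∀ x i, val x i = op i (fun j => Sum.elim (bit x) (val x) (a i j)))
        (o : Fin S) (τ : ℝ) (d : Inp → Option {e : Finset (Fin n) // e.card = 2})
        (_ : ∀ x, τ ≤ val (pull d x) o ↔ (grf x).IsHamiltonian),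
        ((∏ i ∈ T, (wd i + 1) : ℕ) : ℝ) ≤ (n : ℝ) ^ δ →
        Real.exp ((n : ℝ) ^ ((2 : ℝ) / 3 - ε)) ≤ ((S + ∑ i ∈ T, wd i : ℕ) : ℝ) := by
  -- it suffices to consider small ε
  wlog hε1 : ε ≤ 1 / 3 with Hw
  · obtain ⟨δ, hδ, n1, H⟩ := Hw (1 / 3) (by norm_num) le_rfl
    refine ⟨δ, hδ, max n1 1, ?_⟩
    intro n hn Inp S T wd a op θ val htop hmon hT hval o τ d ho hprod
    refine le_trans ?_ (H n ((le_max_left _ _).trans hn) htop hmon hT hval o τ d ho hprod)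
    apply Real.exp_le_exp.mpr
    apply Real.rpow_le_rpow_of_exponent_le
    · exact_mod_cast (le_max_right _ _).trans hn
    · push Not at hε1
      linarith
  obtain ⟨b2, hb2, δ, hδ, l0, H⟩ := pars_exist2 2 le_rfl (ε / 2) (by positivity)
  obtain ⟨n1, hn1⟩ := ev_rpow (η := 1 / 2) (by norm_num) (l0 + 3)
  obtain ⟨n2, hn2⟩ := ev_rpow (η := ε / 6) (by positivity) 2
  obtain ⟨n3, hn3⟩ := ev_rpow (η := ε / 8) (by positivity) (48 * b2 * (2 / (ε / 8) + 1))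
  obtain ⟨n4, hn4⟩ := ev_rpow (η := δ / 4) (by positivity) 2
  obtain ⟨n5, hn5⟩ := ev_rpow (η := ε / 2) (by positivity) (2 / δ)
  obtain ⟨n6, hn6⟩ := ev_rpow (η := 1 / 4) (by norm_num) 2
  refine ⟨δ / 4, by positivity, max (max (max n1 n2) (max n3 n4)) (max (max n5 n6) 1), ?_⟩
  intro n hn Inp S T wd a op θ val htop hmon hT hval o τ d ho hprod
  have g1 := hn1 n ((le_max_left _ _).trans ((le_max_left _ _).trans ((le_max_left _ _).trans hn)))
  have g2 := hn2 n ((le_max_right _ _).trans ((le_max_left _ _).trans ((le_max_left _ _).trans hn)))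
  have g3 := hn3 n ((le_max_left _ _).trans ((le_max_right _ _).trans ((le_max_left _ _).trans hn)))
  have g4 := hn4 n ((le_max_right _ _).trans ((le_max_right _ _).trans
    ((le_max_left _ _).trans hn)))
  have g5 := hn5 n ((le_max_left _ _).trans ((le_max_left _ _).trans ((le_max_right _ _).trans hn)))
  have g6 := hn6 n ((le_max_right _ _).trans ((le_max_left _ _).trans ((le_max_right _ _).trans hn)))
  have g7 : 1 ≤ n := (le_max_right _ _).trans ((le_max_right _ _).trans hn)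
  have hnR : (1 : ℝ) ≤ n := by exact_mod_cast g7
  have hnpos : (0 : ℝ) < n := by linarith
  set n0 : ℕ := ⌊(n : ℝ) ^ (1 - ε / 4)⌋₊ with hn0
  have k1 : (n0 : ℝ) ≤ (n : ℝ) ^ (1 - ε / 4) := Nat.floor_le (by positivity)
  have k2 : (n : ℝ) ^ (1 - ε / 4) - 1 < n0 := Nat.sub_one_lt_floor _
  set l : ℕ := ⌊(n : ℝ) ^ ((2 : ℝ) / 3 - ε / 2)⌋₊ with hl
  have k3 : (l : ℝ) ≤ (n : ℝ) ^ ((2 : ℝ) / 3 - ε / 2) := Nat.floor_le (by positivity)
  have k4 : (n : ℝ) ^ ((2 : ℝ) / 3 - ε / 2) - 1 < l := Nat.sub_one_lt_floor _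
  have hl0R : (0 : ℝ) ≤ l0 := Nat.cast_nonneg _
  have k5 : (n : ℝ) ^ ((1 : ℝ) / 2) ≤ (n : ℝ) ^ ((2 : ℝ) / 3 - ε / 2) :=
    Real.rpow_le_rpow_of_exponent_le hnR (by linarith)
  have hl0 : l0 ≤ l := by
    have : (l0 : ℝ) ≤ l := by linarith
    exact_mod_cast this
  -- the size of n0
  have k6 : 2 * (n : ℝ) ^ (1 - 5 * ε / 12) ≤ (n : ℝ) ^ (1 - ε / 4) := by
    have h1 : (n : ℝ) ^ (1 - ε / 4) = (n : ℝ) ^ (ε / 6) * (n : ℝ) ^ (1 - 5 * ε / 12) := by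
      rw [← Real.rpow_add hnpos]
      congr 1
      ring
    rw [h1]
    exact mul_le_mul_of_nonneg_right g2 (by positivity)
  have k7 : (1 : ℝ) ≤ (n : ℝ) ^ (1 - 5 * ε / 12) := Real.one_le_rpow hnR (by linarith)
  have k8 : (n : ℝ) ^ (1 - 5 * ε / 12) ≤ n0 := by linarith
  have hll : (l : ℝ) ^ (1 + 1 / ((2 : ℕ) : ℝ) + ε / 2) ≤ n0 := by
    refine le_trans ?_ k8
    calc (l : ℝ) ^ (1 + 1 / ((2 : ℕ) : ℝ) + ε / 2) ≤
          ((n : ℝ) ^ ((2 : ℝ) / 3 - ε / 2)) ^ (1 + 1 / ((2 : ℕ) : ℝ) + ε / 2) := by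
          apply Real.rpow_le_rpow (Nat.cast_nonneg _) k3
          positivity
      _ = (n : ℝ) ^ (((2 : ℝ) / 3 - ε / 2) * (1 + 1 / ((2 : ℕ) : ℝ) + ε / 2)) := by
          rw [← Real.rpow_mul hnpos.le]
      _ ≤ (n : ℝ) ^ (1 - 5 * ε / 12) := by
          apply Real.rpow_le_rpow_of_exponent_le hnR
          push_cast
          nlinarith [mul_pos hε hε]
  obtain ⟨b, q, M, m, s, w, m', h1, h2, h3, h4, h5⟩ := H n0 l hl0 hll
  have hm'pos : 0 < m' := by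
    have h6 : (0 : ℝ) < (n0 : ℝ) ^ δ := by
      apply Real.rpow_pos_of_pos
      linarith
    have h7 : (0 : ℝ) < m' := by linarith
    exact_mod_cast h7
  set t := Nat.log 2 q with ht
  set u := Nat.log 2 m' with hu
  have t1 : 2 ^ t ≤ q := Nat.pow_log_le_self 2 (by omega)
  have t2 : q < 2 ^ (t + 1) := Nat.lt_pow_succ_log_self (by norm_num) q
  have u1 : 2 ^ u ≤ m' := Nat.pow_log_le_self 2 (by omega)
  have u2 : m' < 2 ^ (u + 1) := Nat.lt_pow_succ_log_self (by norm_num) m'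
  have tpos : 0 < t := by
    rw [ht]
    apply Nat.log_pos (by norm_num)
    omega
  obtain ⟨P, h6⟩ := h5 (2 ^ t) t1 (by rw [pow_succ] at t2; omega)
  have hmpos := P.hm
  have hM := P.hM
  -- the number of vertices
  have hmX : 8 * (m * ((2 ^ t) ^ b2 * 2 ^ u)) ≤ n0 := by
    have e1 : m * ((2 ^ t) ^ b2 * 2 ^ u) ≤ m * (q ^ b2 * m') := by
      apply Nat.mul_le_mul_left
      exact Nat.mul_le_mul (Nat.pow_le_pow_left t1 _) u1
    have e2 : 8 * (m * (q ^ b2 * m')) ≤ 2 * (m' * (M * (2 * q ^ b2))) := by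
      calc 8 * (m * (q ^ b2 * m')) = 4 * ((2 * m) * (q ^ b2 * m')) := by ring
        _ ≤ 4 * (M * (q ^ b2 * m')) := Nat.mul_le_mul_left _ (Nat.mul_le_mul_right _ hM)
        _ = 2 * (m' * (M * (2 * q ^ b2))) := by ring
    omega
  have hn0n : n0 ≤ n := by
    have h7 : (n0 : ℝ) ≤ n := by
      refine k1.trans ?_
      calc (n : ℝ) ^ (1 - ε / 4) ≤ (n : ℝ) ^ (1 : ℝ) :=
            Real.rpow_le_rpow_of_exponent_le hnR (by linarith)
        _ = n := Real.rpow_one _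
    exact_mod_cast h7
  have hMpos : 0 < M := by omega
  have hqb : q ≤ q ^ b2 := Nat.le_self_pow (by omega) q
  have hqpos : 0 < q ^ b2 := Nat.pow_pos (by omega)
  have hqn : q ≤ n := by
    have h7 : q ^ b2 ≤ 2 * (m' * (M * (2 * q ^ b2))) := by
      calc q ^ b2 = 1 * (1 * (1 * (1 * q ^ b2))) := by ring
        _ ≤ 2 * (m' * (M * (2 * q ^ b2))) := Nat.mul_le_mul (by omega)
          (Nat.mul_le_mul hm'pos (Nat.mul_le_mul hMpos (Nat.mul_le_mul (by omega) le_rfl)))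
    omega
  have hm'n : m' ≤ n := by
    have h7 : m' ≤ 2 * (m' * (M * (2 * q ^ b2))) := by
      calc m' = 1 * (m' * (1 * (1 * 1))) := by ring
        _ ≤ 2 * (m' * (M * (2 * q ^ b2))) := Nat.mul_le_mul (by omega)
          (Nat.mul_le_mul le_rfl (Nat.mul_le_mul hMpos (Nat.mul_le_mul (by omega) hqpos)))
    omega
  have htn : t ≤ Nat.log 2 n := Nat.log_mono_right hqn
  have hun : u ≤ Nat.log 2 n := Nat.log_mono_right hm'n
  have hseg : 3 * nseg m t b2 u ≤ n := by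
    have h7 : 3 * nseg m t b2 u ≤ (24 * b2 * (2 * (Nat.log 2 n + 1))) * n0 := by
      calc 3 * nseg m t b2 u ≤
            3 * (63 * b2 * (t + u + 1) * (m * ((2 ^ t) ^ b2 * 2 ^ u))) :=
            Nat.mul_le_mul_left _ (nseg_le hmpos hb2)
        _ ≤ (24 * b2 * (t + u + 1)) * (8 * (m * ((2 ^ t) ^ b2 * 2 ^ u))) := by
            have h8 : 3 * (63 * b2 * (t + u + 1) * (m * ((2 ^ t) ^ b2 * 2 ^ u))) =
              189 * (b2 * (t + u + 1) * (m * ((2 ^ t) ^ b2 * 2 ^ u))) := by ring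
            have h9 : (24 * b2 * (t + u + 1)) * (8 * (m * ((2 ^ t) ^ b2 * 2 ^ u))) =
              192 * (b2 * (t + u + 1) * (m * ((2 ^ t) ^ b2 * 2 ^ u))) := by ring
            rw [h8, h9]
            exact Nat.mul_le_mul_right _ (by norm_num)
        _ ≤ (24 * b2 * (2 * (Nat.log 2 n + 1))) * n0 := by
            apply Nat.mul_le_mul _ hmX
            apply Nat.mul_le_mul_left
            omega
    have h8 : ((24 * b2 * (2 * (Nat.log 2 n + 1)) * n0 : ℕ) : ℝ) ≤ n := by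
      push_cast
      have h9 := natlog_le (η := ε / 8) (by positivity) g7
      have h10 : (n : ℝ) = (n : ℝ) ^ (ε / 8) * ((n : ℝ) ^ (ε / 8) * (n : ℝ) ^ (1 - ε / 4)) := by
        rw [← Real.rpow_add hnpos, ← Real.rpow_add hnpos]
        have : ε / 8 + (ε / 8 + (1 - ε / 4)) = 1 := by ring
        rw [this, Real.rpow_one]
      calc 24 * (b2 : ℝ) * (2 * ((Nat.log 2 n : ℝ) + 1)) * n0 ≤
            24 * (b2 : ℝ) * (2 * ((2 / (ε / 8) + 1) * (n : ℝ) ^ (ε / 8))) *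
              (n : ℝ) ^ (1 - ε / 4) := by
            apply mul_le_mul _ k1 (Nat.cast_nonneg _) (by positivity)
            apply mul_le_mul_of_nonneg_left _ (by positivity)
            linarith
        _ = (48 * b2 * (2 / (ε / 8) + 1)) * ((n : ℝ) ^ (ε / 8) * (n : ℝ) ^ (1 - ε / 4)) := by ring
        _ ≤ (n : ℝ) ^ (ε / 8) * ((n : ℝ) ^ (ε / 8) * (n : ℝ) ^ (1 - ε / 4)) :=
            mul_le_mul_of_nonneg_right g3 (by positivity)
        _ = n := h10.symm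
    have h9 : 24 * b2 * (2 * (Nat.log 2 n + 1)) * n0 ≤ n := by exact_mod_cast h8
    exact h7.trans h9
  -- lower bound for n0
  have k9 : (n : ℝ) ^ ((1 : ℝ) / 2) ≤ n0 := by
    have h7 : (n : ℝ) ^ ((1 : ℝ) / 2) ≤ (n : ℝ) ^ (1 - 5 * ε / 12) :=
      Real.rpow_le_rpow_of_exponent_le hnR (by linarith)
    linarith
  have k10 : (3 : ℝ) ≤ n0 := by linarith
  have hmain : (n0 : ℝ) ^ (δ * l) ≤ ((S + ∑ i ∈ T, wd i : ℕ) : ℝ) := by
    by_contra hcon
    push Not at hcon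
    obtain ⟨h7, h8⟩ := h6 _ hcon
    have h9 := ham_param P hseg tpos htop hmon hT hval o τ d ho h7 h8
    have h10 : ((2 ^ u : ℕ) : ℝ) < ((∏ i ∈ T, (wd i + 1) : ℕ) : ℝ) := by exact_mod_cast h9
    have h11 : (m' : ℝ) < 2 * ((2 ^ u : ℕ) : ℝ) := by
      have : m' < 2 * 2 ^ u := by rw [pow_succ] at u2; omega
      exact_mod_cast this
    have h12 : (n : ℝ) ^ (δ / 4) * (n : ℝ) ^ (δ / 4) ≤ (n0 : ℝ) ^ δ := by
      calc (n : ℝ) ^ (δ / 4) * (n : ℝ) ^ (δ / 4) = ((n : ℝ) ^ ((1 : ℝ) / 2)) ^ δ := by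
            rw [← Real.rpow_add hnpos, ← Real.rpow_mul hnpos.le]
            congr 1
            ring
        _ ≤ (n0 : ℝ) ^ δ := Real.rpow_le_rpow (by positivity) k9 hδ.le
    have h13 : 2 * (n : ℝ) ^ (δ / 4) ≤ (n : ℝ) ^ (δ / 4) * (n : ℝ) ^ (δ / 4) :=
      mul_le_mul_of_nonneg_right g4 (by positivity)
    linarith
  refine le_trans ?_ hmain
  rw [Real.rpow_def_of_pos (by linarith : (0 : ℝ) < n0)]
  apply Real.exp_le_exp.mpr
  have hlog : (1 : ℝ) ≤ Real.log n0 := by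
    rw [Real.le_log_iff_exp_le (by linarith)]
    have := Real.exp_one_lt_d9
    linarith
  have h7 : (n : ℝ) ^ ((2 : ℝ) / 3 - ε / 2) / 2 ≤ l := by
    have h8 : (2 : ℝ) ≤ (n : ℝ) ^ ((2 : ℝ) / 3 - ε / 2) := by linarith
    linarith
  have h8 : (n : ℝ) ^ ((2 : ℝ) / 3 - ε / 2) = (n : ℝ) ^ (ε / 2) * (n : ℝ) ^ ((2 : ℝ) / 3 - ε) := by
    rw [← Real.rpow_add hnpos]
    congr 1
    ring
  have h9 : 2 ≤ δ * (n : ℝ) ^ (ε / 2) := by
    rw [div_le_iff₀ hδ] at g5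
    linarith
  have h10 : (n : ℝ) ^ ((2 : ℝ) / 3 - ε) ≤ δ * l := by
    calc (n : ℝ) ^ ((2 : ℝ) / 3 - ε) = 2 * (n : ℝ) ^ ((2 : ℝ) / 3 - ε) / 2 := by ring
      _ ≤ (δ * (n : ℝ) ^ (ε / 2)) * (n : ℝ) ^ ((2 : ℝ) / 3 - ε) / 2 := by
          apply div_le_div_of_nonneg_right _ (by norm_num)
          exact mul_le_mul_of_nonneg_right h9 (by positivity)
      _ = δ * ((n : ℝ) ^ ((2 : ℝ) / 3 - ε / 2) / 2) := by rw [h8]; ring
      _ ≤ δ * l := mul_le_mul_of_nonneg_left h7 hδ.le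
  calc (n : ℝ) ^ ((2 : ℝ) / 3 - ε) ≤ δ * l := h10
    _ = 1 * (δ * l) := (one_mul _).symm
    _ ≤ Real.log n0 * (δ * l) := mul_le_mul_of_nonneg_right hlog (by positivity)

end Pool.Agent.W969.MC
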