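import Mathlib

/-! Finite automata that read lists of numbers in unary. -/

set_option linter.unusedSectionVars false
set_option linter.unusedVariables false

namespace Pool.Agent.W969.MC

/-- one step of the decoder: the number of complete numbers, and the numbers -/
def dstep (x : ℕ × (ℕ → ℕ)) (b : Bool) : ℕ × (ℕ → ℕ) :=
  if b = true then (x.1, Function.update x.2 x.1 (x.2 x.1 + 1)) else (x.1 + 1, x.2)

/-- the decoder -/
def dec (w : List Bool) : ℕ × (ℕ → ℕ) := w.foldl dstep (0, fun _ => 0)

lemma dec_nil : dec [] = (0, fun _ => 0) := rfl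

lemma dec_snoc (w : List Bool) (b : Bool) : dec (w ++ [b]) = dstep (dec w) b := by
  unfold dec
  rw [List.foldl_append]
  rfl

lemma dec_zero (w : List Bool) : ∀ s, (dec w).1 < s → (dec w).2 s = 0 := by
  induction w using List.reverseRecOn with
  | nil => intro s _; rfl
  | append_singleton w b ih =>
    intro s hs
    rw [dec_snoc] at hs ⊢
    unfold dstep at hs ⊢
    rcases b with _ | _
    · rw [if_neg (by simp)] at hs ⊢
      exact ih s (by simp only at hs; omega)
    · rw [if_pos rfl] at hs ⊢
      simp only at hs ⊢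
      rw [Function.update_of_ne (by omega)]
      exact ih s hs

lemma dec_true (w : List Bool) (k : ℕ) :
    dec (w ++ List.replicate k true) =
      ((dec w).1, Function.update (dec w).2 (dec w).1 ((dec w).2 (dec w).1 + k)) := by
  induction k with
  | zero =>
    rw [List.replicate_zero, List.append_nil, Nat.add_zero, Function.update_eq_self]
  | succ k ih =>
    rw [List.replicate_succ', ← List.append_assoc, dec_snoc, ih]
    unfold dstep
    rw [if_pos rfl]
    simp only [Function.update_self, Function.update_idem]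
    rfl

lemma dec_exists (u : ℕ → ℕ) : ∀ r : ℕ, ∃ w, dec w = (r, fun s => if s < r then u s else 0) := by
  intro r
  induction r with
  | zero => exact ⟨[], by rw [dec_nil]; simp⟩
  | succ r ih =>
    obtain ⟨w, hw⟩ := ih
    refine ⟨(w ++ List.replicate (u r) true) ++ [false], ?_⟩
    rw [dec_snoc, dec_true, hw]
    unfold dstep
    rw [if_neg (by simp)]
    ext1
    · rfl
    · funext s
      show Function.update (fun s => if s < r then u s else 0) r
        ((if r < r then u r else 0) + u r) s = if s < r + 1 then u s else 0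
      by_cases hs : s = r
      · subst hs
        rw [Function.update_self]
        simp
      · rw [Function.update_of_ne hs]
        by_cases h1 : s < r
        · rw [if_pos h1, if_pos (by omega)]
        · rw [if_neg h1, if_neg (by omega)]

section

variable {S : Type}

/-- the states that can be reached by reading a word -/
inductive Rch (S0 : S → Prop) (Stp : S → Bool → S → Prop) : List Bool → S → Prop
  | nil (s : S) (h : S0 s) : Rch S0 Stp [] s
  | snoc (w : List Bool) (b : Bool) (s s' : S) (h : Rch S0 Stp w s) (hs : Stp s b s') :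
      Rch S0 Stp (w ++ [b]) s'

variable {S0 : S → Prop} {Stp : S → Bool → S → Prop}

lemma rch_nil {s : S} : Rch S0 Stp [] s ↔ S0 s := by
  constructor
  · intro h
    generalize hw : ([] : List Bool) = w at h
    cases h with
    | nil _ h => exact h
    | snoc w b s s' h hs => simp at hw
  · exact fun h => Rch.nil s h

lemma rch_snoc {w : List Bool} {b : Bool} {s' : S} :
    Rch S0 Stp (w ++ [b]) s' ↔ ∃ s, Rch S0 Stp w s ∧ Stp s b s' := by
  constructor
  · intro h
    generalize hw : w ++ [b] = w' at h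
    cases h with
    | nil _ h => simp at hw
    | snoc w1 b1 s s' h hs =>
      have h1 := List.append_inj' hw rfl
      obtain ⟨h2, h3⟩ := h1
      subst h2
      have h4 : b = b1 := by simpa using h3
      subst h4
      exact ⟨s, h, hs⟩
  · rintro ⟨s, h, hs⟩
    exact Rch.snoc w b s s' h hs

/-- reachability in terms of the decoded word -/
lemma rch_sem (Sem : ℕ × (ℕ → ℕ) → S → Prop) (h0 : ∀ s, S0 s ↔ Sem (0, fun _ => 0) s)
    (hstep : ∀ r u, (∀ s, r < s → u s = 0) → ∀ b s', (∃ s, Sem (r, u) s ∧ Stp s b s') ↔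
      Sem (dstep (r, u) b) s') (w : List Bool) (s : S) :
    Rch S0 Stp w s ↔ Sem (dec w) s := by
  induction w using List.reverseRecOn generalizing s with
  | nil => rw [rch_nil, dec_nil]; exact h0 s
  | append_singleton w b ih =>
    rw [rch_snoc, dec_snoc, ← hstep (dec w).1 (dec w).2 (dec_zero w) b s]
    constructor
    · rintro ⟨s', h1, h2⟩
      exact ⟨s', (ih s').mp h1, h2⟩
    · rintro ⟨s', h1, h2⟩
      exact ⟨s', (ih s').mpr h1, h2⟩

end

/-- the input bits that describe an automaton -/
abbrev Bt (T : ℕ) : Type := (Fin T × Bool × Fin T) ⊕ (Fin T ⊕ Fin T)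

/-- the automaton -/
def nfa {T : ℕ} (x : Bt T → Bool) : NFA Bool (Fin T) where
  step p c := {q | x (Sum.inl (p, c, q)) = true}
  start := {q | x (Sum.inr (Sum.inl q)) = true}
  accept := {q | x (Sum.inr (Sum.inr q)) = true}

section

variable {S : Type} {T : ℕ} (ι : S ↪ Fin T) (S0 : S → Prop) (Stp : S → Bool → S → Prop)
  (Ac : S → Prop)

/-- the bits of an automaton with abstract states -/
def btP : Bt T → Prop
  | .inl (p, c, p') => ∃ s s', ι s = p ∧ ι s' = p' ∧ Stp s c s'
  | .inr (.inl p) => ∃ s, ι s = p ∧ S0 s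
  | .inr (.inr p) => ∃ s, ι s = p ∧ Ac s

variable {ι S0 Stp Ac}

lemma eval_bt {x : Bt T → Bool} (hx : ∀ e, x e = true ↔ btP ι S0 Stp Ac e) (w : List Bool)
    (p : Fin T) : p ∈ (nfa x).eval w ↔ ∃ s, ι s = p ∧ Rch S0 Stp w s := by
  induction w using List.reverseRecOn generalizing p with
  | nil =>
    rw [NFA.eval_nil]
    show x (Sum.inr (Sum.inl p)) = true ↔ _
    rw [hx]
    constructor
    · rintro ⟨s, h1, h2⟩
      exact ⟨s, h1, Rch.nil s h2⟩
    · rintro ⟨s, h1, h2⟩
      exact ⟨s, h1, rch_nil.mp h2⟩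
  | append_singleton w b ih =>
    rw [NFA.eval_append_singleton, NFA.mem_stepSet]
    constructor
    · rintro ⟨p0, h1, h2⟩
      obtain ⟨s, h3, h4⟩ := (ih p0).mp h1
      obtain ⟨s1, s2, h5, h6, h7⟩ := (hx _).mp h2
      have h8 : s = s1 := ι.injective (h3.trans h5.symm)
      subst h8
      exact ⟨s2, h6, rch_snoc.mpr ⟨s, h4, h7⟩⟩
    · rintro ⟨s2, h1, h2⟩
      obtain ⟨s, h3, h4⟩ := rch_snoc.mp h2
      exact ⟨ι s, (ih _).mpr ⟨s, rfl, h3⟩, (hx _).mpr ⟨s, s2, rfl, h1, h4⟩⟩

lemma accepts_bt {x : Bt T → Bool} (hx : ∀ e, x e = true ↔ btP ι S0 Stp Ac e) (w : List Bool) :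
    w ∈ (nfa x).accepts ↔ ∃ s, Ac s ∧ Rch S0 Stp w s := by
  rw [NFA.mem_accepts]
  constructor
  · rintro ⟨p, h1, h2⟩
    obtain ⟨s, h3, h4⟩ := (hx _).mp h1
    obtain ⟨s', h5, h6⟩ := (eval_bt hx w p).mp h2
    have h7 : s = s' := ι.injective (h3.trans h5.symm)
    subst h7
    exact ⟨s, h4, h6⟩
  · rintro ⟨s, h1, h2⟩
    exact ⟨ι s, (hx _).mpr ⟨s, rfl, h1⟩, (eval_bt hx w _).mpr ⟨s, rfl, h2⟩⟩

lemma accepts_all {x : Bt T → Bool} (hT : 0 < T) (hx : ∀ e, x e = true) (w : List Bool) :
    w ∈ (nfa x).accepts := by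
  have key : ∀ (w : List Bool) (p : Fin T), p ∈ (nfa x).eval w := by
    intro w
    induction w using List.reverseRecOn with
    | nil =>
      intro p
      rw [NFA.eval_nil]
      exact hx _
    | append_singleton w b ih =>
      intro p
      rw [NFA.eval_append_singleton, NFA.mem_stepSet]
      exact ⟨p, ih p, hx _⟩
  rw [NFA.mem_accepts]
  exact ⟨⟨0, hT⟩, hx _, key w _⟩

end

end Pool.Agent.W969.MC
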