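import Pool.Agent.W969.MC.Int1

/-! The automata that check an assignment: one for each constraint and one for each variable. -/

set_option linter.unusedSectionVars false
set_option linter.unusedVariables false

namespace Pool.Agent.W969.MC

section

variable {K M q m B : ℕ}

/-- the states of the automaton of a constraint -/
abbrev SB (K M q B : ℕ) : Type := (Fin K × Fin (1 + M * B + 1)) ⊕ (Fin K × Fin B × (Fin B → Fin q))

/-- the states of the automaton of a variable -/
abbrev SA (M q B : ℕ) : Type := Fin (1 + M * B + 1) × Fin q × Fin q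

/-- the transitions of the automaton of a constraint -/
inductive StpB (i : Fin M) (Y : Fin K → (Fin B → Fin q) → Prop) :
    SB K M q B → Bool → SB K M q B → Prop
  | z1 (j j' : Fin K) (r : Fin (1 + M * B + 1)) (hr : r.val = 0) (hj : j'.val = j.val + 1) :
      StpB i Y (Sum.inl (j, r)) true (Sum.inl (j', r))
  | o1 (j : Fin K) (r : Fin (1 + M * B + 1)) (hr : r.val ≠ 0) (hL : r.val ≠ 1 + M * B) :
      StpB i Y (Sum.inl (j, r)) true (Sum.inl (j, r))
  | o0 (j : Fin K) (r r' : Fin (1 + M * B + 1)) (hr : r'.val = r.val + 1)
      (hn : r'.val ≠ 1 + i.val * B) : StpB i Y (Sum.inl (j, r)) false (Sum.inl (j, r'))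
  | en (j : Fin K) (r : Fin (1 + M * B + 1)) (t : Fin B) (σ : Fin B → Fin q)
      (hr : r.val + 1 = 1 + i.val * B) (ht : t.val = 0) (hσ : ∀ t, (σ t).val = 0) :
      StpB i Y (Sum.inl (j, r)) false (Sum.inr (j, t, σ))
  | i1 (j : Fin K) (t : Fin B) (σ σ' : Fin B → Fin q) (ht : (σ' t).val = (σ t).val + 1)
      (hn : ∀ t', t' ≠ t → σ' t' = σ t') :
      StpB i Y (Sum.inr (j, t, σ)) true (Sum.inr (j, t, σ'))
  | i0 (j : Fin K) (t t' : Fin B) (σ : Fin B → Fin q) (ht : t'.val = t.val + 1) :
      StpB i Y (Sum.inr (j, t, σ)) false (Sum.inr (j, t', σ))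
  | ex (j : Fin K) (t : Fin B) (σ : Fin B → Fin q) (r : Fin (1 + M * B + 1))
      (ht : t.val + 1 = B) (hr : r.val = 1 + i.val * B + B) (hY : Y j σ) :
      StpB i Y (Sum.inr (j, t, σ)) false (Sum.inl (j, r))

/-- the meaning of the states of the automaton of a constraint -/
def SemB (i : Fin M) (Y : Fin K → (Fin B → Fin q) → Prop) (x : ℕ × (ℕ → ℕ)) : SB K M q B → Prop
  | .inl (j, r) => r.val = x.1 ∧ x.2 0 = j.val ∧ (x.1 < 1 + i.val * B ∨
      (1 + i.val * B + B ≤ x.1 ∧ ∃ σ : Fin B → Fin q,
        (∀ t : Fin B, (σ t).val = x.2 (1 + i.val * B + t.val)) ∧ Y j σ)) ∧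
      (x.1 = 1 + M * B → x.2 (1 + M * B) = 0)
  | .inr (j, t, σ) => x.1 = 1 + i.val * B + t.val ∧ x.2 0 = j.val ∧
      ∀ t' : Fin B, (σ t').val = x.2 (1 + i.val * B + t'.val)

/-- the start state of the automaton of a constraint -/
def S0B : SB K M q B → Prop
  | .inl (j, r) => j.val = 0 ∧ r.val = 0
  | .inr _ => False

/-- the accepting states of the automaton of a constraint -/
def AcB : SB K M q B → Prop
  | .inl (_, r) => r.val = 1 + M * B
  | .inr _ => False

lemma blk_le (i : Fin M) : 1 + i.val * B + B ≤ 1 + M * B := by
  have h1 : (i.val + 1) * B ≤ M * B := Nat.mul_le_mul_right _ i.isLt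
  have h2 : (i.val + 1) * B = i.val * B + B := by ring
  omega

lemma semB_zero (i : Fin M) (Y : Fin K → (Fin B → Fin q) → Prop) (s : SB K M q B) :
    S0B s ↔ SemB i Y (0, fun _ => 0) s := by
  rcases s with ⟨j, r⟩ | ⟨j, t, σ⟩
  · constructor
    · rintro ⟨h1, h2⟩
      exact ⟨h2, h1.symm, Or.inl (by show 0 < _; omega), fun _ => rfl⟩
    · rintro ⟨h1, h2, -⟩
      exact ⟨h2.symm, h1⟩
  · constructor
    · intro h
      exact h.elim
    · rintro ⟨h1, -⟩
      have h2 : 0 = 1 + i.val * B + t.val := h1
      omega

lemma semB_step (hB : 0 < B) (i : Fin M) (Y : Fin K → (Fin B → Fin q) → Prop) (r : ℕ) (u : ℕ → ℕ)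
    (hu : ∀ s, r < s → u s = 0) (b : Bool) (s' : SB K M q B) :
    (∃ s, SemB i Y (r, u) s ∧ StpB i Y s b s') ↔ SemB i Y (dstep (r, u) b) s' := by
  have hle := blk_le (B := B) i
  rcases b with _ | _
  · -- a number is complete
    have hd : dstep (r, u) false = (r + 1, u) := by simp [dstep]
    rw [hd]
    rcases s' with ⟨j, r'⟩ | ⟨j, t, σ⟩
    · constructor
      · rintro ⟨s, hs, hst⟩
        cases hst with
        | o0 _ r0 _ hr hn =>
          obtain ⟨h1, h2, h3, h4⟩ := hs
          simp only at h1 h2 h3 h4
          refine ⟨by show r'.val = r + 1; omega, h2, ?_, ?_⟩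
          · show r + 1 < _ ∨ (_ ≤ r + 1 ∧ _)
            rcases h3 with h3 | ⟨h3, h5⟩
            · left
              omega
            · exact Or.inr ⟨by omega, h5⟩
          · intro h5
            have h5' : r + 1 = 1 + M * B := h5
            exact hu _ (by omega)
        | ex _ t σ _ ht hr hY =>
          obtain ⟨h1, h2, h3⟩ := hs
          simp only at h1 h2 h3
          refine ⟨by show r'.val = r + 1; omega, h2, Or.inr ⟨?_, σ, h3, hY⟩, ?_⟩
          · show _ ≤ r + 1
            omega
          · intro h5
            have h5' : r + 1 = 1 + M * B := h5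
            exact hu _ (by omega)
      · rintro ⟨h1, h2, h3, h4⟩
        simp only at h1 h2 h3 h4
        have hr' := r'.isLt
        rcases h3 with h3 | ⟨h3, σ, h5, h6⟩
        · refine ⟨Sum.inl (j, ⟨r, by omega⟩), ⟨rfl, h2, Or.inl ?_, ?_⟩,
            StpB.o0 _ _ _ h1 (by omega)⟩
          · show r < _
            omega
          · intro h7
            have h7' : r = 1 + M * B := h7
            omega
        · by_cases h7 : 1 + i.val * B + B = r + 1
          · refine ⟨Sum.inr (j, ⟨B - 1, by omega⟩, σ), ⟨?_, h2, h5⟩,
              StpB.ex _ _ _ _ ?_ (by omega) h6⟩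
            · show r = 1 + i.val * B + (B - 1)
              omega
            · show B - 1 + 1 = B
              omega
          · refine ⟨Sum.inl (j, ⟨r, by omega⟩), ⟨rfl, h2, Or.inr ⟨?_, σ, h5, h6⟩, ?_⟩,
              StpB.o0 _ _ _ h1 (by omega)⟩
            · show _ ≤ r
              omega
            · intro h8
              have h8' : r = 1 + M * B := h8
              omega
    · constructor
      · rintro ⟨s, hs, hst⟩
        cases hst with
        | en _ r0 _ _ hr ht hσ =>
          obtain ⟨h1, h2, h3, h4⟩ := hs
          simp only at h1 h2 h3 h4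
          refine ⟨?_, h2, ?_⟩
          · show r + 1 = _
            omega
          · intro t'
            show (σ t').val = u (1 + i.val * B + t'.val)
            rw [hσ t', hu _ (by omega)]
        | i0 _ t0 _ _ ht =>
          obtain ⟨h1, h2, h3⟩ := hs
          simp only at h1 h2 h3
          refine ⟨?_, h2, h3⟩
          show r + 1 = _
          omega
      · rintro ⟨h1, h2, h3⟩
        simp only at h1 h2 h3
        have htl := t.isLt
        by_cases ht : t.val = 0
        · refine ⟨Sum.inl (j, ⟨r, by omega⟩), ⟨rfl, h2, Or.inl ?_, ?_⟩,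
            StpB.en _ _ _ _ ?_ ht ?_⟩
          · show r < _
            omega
          · intro h8
            have h8' : r = 1 + M * B := h8
            omega
          · show r + 1 = _
            omega
          · intro t'
            rw [h3 t', hu _ (by omega)]
        · refine ⟨Sum.inr (j, ⟨t.val - 1, by omega⟩, σ), ⟨?_, h2, h3⟩, StpB.i0 _ _ _ _ ?_⟩
          · show r = 1 + i.val * B + (t.val - 1)
            omega
          · show t.val = t.val - 1 + 1
            omega
  · -- a one
    have hd : dstep (r, u) true = (r, Function.update u r (u r + 1)) := by simp [dstep]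
    rw [hd]
    rcases s' with ⟨j, r'⟩ | ⟨j, t, σ⟩
    · constructor
      · rintro ⟨s, hs, hst⟩
        cases hst with
        | z1 j0 _ _ hr hj =>
          obtain ⟨h1, h2, h3, h4⟩ := hs
          simp only at h1 h2 h3 h4
          have hr0 : r = 0 := by omega
          subst hr0
          refine ⟨h1, ?_, Or.inl ?_, ?_⟩
          · show Function.update u 0 (u 0 + 1) 0 = _
            rw [Function.update_self]
            omega
          · show 0 < _
            omega
          · intro h5
            have h5' : 0 = 1 + M * B := h5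
            omega
        | o1 _ _ hr hL =>
          obtain ⟨h1, h2, h3, h4⟩ := hs
          simp only at h1 h2 h3 h4
          refine ⟨h1, ?_, ?_, ?_⟩
          · show Function.update u r (u r + 1) 0 = _
            rw [Function.update_of_ne (by omega)]
            exact h2
          · show r < _ ∨ (_ ≤ r ∧ _)
            rcases h3 with h3 | ⟨h3, σ, h5, h6⟩
            · exact Or.inl h3
            · refine Or.inr ⟨h3, σ, fun t => ?_, h6⟩
              show _ = Function.update u r (u r + 1) _
              have htl := t.isLt
              rw [Function.update_of_ne (by omega)]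
              exact h5 t
          · intro h5
            have h5' : r = 1 + M * B := h5
            omega
      · rintro ⟨h1, h2, h3, h4⟩
        simp only at h1 h2 h3 h4
        have hr' := r'.isLt
        have hjl := j.isLt
        by_cases hr0 : r = 0
        · subst hr0
          rw [Function.update_self] at h2
          refine ⟨Sum.inl (⟨u 0, by omega⟩, r'), ⟨h1, rfl, Or.inl ?_, ?_⟩,
            StpB.z1 _ _ _ h1 ?_⟩
          · show 0 < _
            omega
          · intro h5
            have h5' : 0 = 1 + M * B := h5
            omega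
          · show j.val = u 0 + 1
            omega
        · have hrL : r ≠ 1 + M * B := by
            intro h5
            have h6 := h4 h5
            rw [← h5, Function.update_self] at h6
            omega
          rw [Function.update_of_ne (by omega)] at h2
          refine ⟨Sum.inl (j, r'), ⟨h1, h2, ?_, ?_⟩, StpB.o1 _ _ (by omega) (by omega)⟩
          · show r < _ ∨ (_ ≤ r ∧ _)
            rcases h3 with h3 | ⟨h3, σ, h5, h6⟩
            · exact Or.inl h3
            · refine Or.inr ⟨h3, σ, fun t => ?_, h6⟩
              have htl := t.isLt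
              have h7 := h5 t
              rw [Function.update_of_ne (by omega)] at h7
              exact h7
          · intro h5
            exact absurd h5 hrL
    · constructor
      · rintro ⟨s, hs, hst⟩
        cases hst with
        | i1 _ _ σ0 _ ht hn =>
          obtain ⟨h1, h2, h3⟩ := hs
          simp only at h1 h2 h3
          refine ⟨h1, ?_, ?_⟩
          · show Function.update u r (u r + 1) 0 = _
            rw [Function.update_of_ne (by omega)]
            exact h2
          · intro t'
            show _ = Function.update u r (u r + 1) _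
            by_cases htt : t' = t
            · subst htt
              rw [← h1, Function.update_self, ht, h3 t', ← h1]
            · have h5 : t'.val ≠ t.val := fun hh => htt (Fin.ext hh)
              rw [Function.update_of_ne (by omega), hn t' htt]
              exact h3 t'
      · rintro ⟨h1, h2, h3⟩
        simp only at h1 h2 h3
        rw [Function.update_of_ne (by omega)] at h2
        have hlt : ∀ t' : Fin B, u (1 + i.val * B + t'.val) < q := by
          intro t'
          have h5 := h3 t'
          have h6 := (σ t').isLt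
          by_cases htt : t' = t
          · subst htt
            rw [← h1, Function.update_self] at h5
            rw [← h1]
            omega
          · have h7 : t'.val ≠ t.val := fun hh => htt (Fin.ext hh)
            rw [Function.update_of_ne (by omega)] at h5
            omega
        refine ⟨Sum.inr (j, t, fun t' => ⟨u (1 + i.val * B + t'.val), hlt t'⟩),
          ⟨h1, h2, fun t' => rfl⟩, StpB.i1 _ _ _ _ ?_ ?_⟩
        · show (σ t).val = u (1 + i.val * B + t.val) + 1
          rw [h3 t, ← h1, Function.update_self]
        · intro t' htt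
          have h7 : t'.val ≠ t.val := fun hh => htt (Fin.ext hh)
          apply Fin.ext
          show (σ t').val = u (1 + i.val * B + t'.val)
          rw [h3 t', Function.update_of_ne (by omega)]

variable (h : Fin M → Fin B → Fin m)

/-- the number at the place `s` is the value of the variable `v` -/
def isV (v : Fin m) (s : ℕ) : Prop := ∃ (i : Fin M) (t : Fin B), s = 1 + i.val * B + t.val ∧ h i t = v

/-- the transitions of the automaton of a variable -/
inductive StpA (v : Fin m) : SA M q B → Bool → SA M q B → Prop
  | a1 (r : Fin (1 + M * B + 1)) (a c c' : Fin q) (hV : isV h v r.val) (hc : c'.val = c.val + 1) :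
      StpA v (r, a, c) true (r, a, c')
  | s1 (r : Fin (1 + M * B + 1)) (a c : Fin q) (hV : ¬ isV h v r.val) (hL : r.val ≠ 1 + M * B) :
      StpA v (r, a, c) true (r, a, c)
  | a0 (r r' : Fin (1 + M * B + 1)) (a c c' : Fin q) (hr : r'.val = r.val + 1)
      (hV : isV h v r.val → c = a) (hc : c'.val = 0) : StpA v (r, a, c) false (r', a, c')

/-- the meaning of the states of the automaton of a variable -/
def SemA (v : Fin m) (x : ℕ × (ℕ → ℕ)) (s : SA M q B) : Prop :=
  s.1.val = x.1 ∧ (∀ k, k < x.1 → isV h v k → x.2 k = s.2.1.val) ∧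
    (isV h v x.1 → s.2.2.val = x.2 x.1) ∧ (¬ isV h v x.1 → s.2.2.val = 0) ∧
      (x.1 = 1 + M * B → x.2 (1 + M * B) = 0)

/-- the start states of the automaton of a variable -/
def S0A (s : SA M q B) : Prop := s.1.val = 0 ∧ s.2.2.val = 0

/-- the accepting states of the automaton of a variable -/
def AcA (s : SA M q B) : Prop := s.1.val = 1 + M * B

variable {h}

lemma isV_lt {v : Fin m} {s : ℕ} (hs : isV h v s) : 0 < s ∧ s < 1 + M * B := by
  obtain ⟨i, t, h1, -⟩ := hs
  have h2 := blk_le (B := B) i
  have h3 := t.isLt
  omega

lemma semA_zero (v : Fin m) (s : SA M q B) : S0A s ↔ SemA h v (0, fun _ => 0) s := by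
  obtain ⟨r, a, c⟩ := s
  constructor
  · rintro ⟨h1, h2⟩
    exact ⟨h1, fun k hk => absurd hk (Nat.not_lt_zero _), fun _ => h2, fun _ => h2, fun _ => rfl⟩
  · rintro ⟨h1, -, -, h2, -⟩
    refine ⟨h1, h2 ?_⟩
    intro h3
    exact absurd (isV_lt h3).1 (lt_irrefl _)

lemma semA_step (v : Fin m) (r : ℕ) (u : ℕ → ℕ) (hu : ∀ s, r < s → u s = 0) (b : Bool)
    (s' : SA M q B) :
    (∃ s, SemA h v (r, u) s ∧ StpA h v s b s') ↔ SemA h v (dstep (r, u) b) s' := by
  classical
  obtain ⟨r', a', c'⟩ := s'
  rcases b with _ | _
  · have hd : dstep (r, u) false = (r + 1, u) := by simp [dstep]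
    rw [hd]
    constructor
    · rintro ⟨s, hs, hst⟩
      cases hst with
      | a0 r0 _ _ c _ hr hV hc =>
        obtain ⟨h1, h2, h3, h4, h5⟩ := hs
        simp only at h1 h2 h3 h4 h5
        refine ⟨?_, ?_, ?_, fun _ => hc, ?_⟩
        · show r'.val = r + 1
          omega
        · intro k hk hkV
          show u k = a'.val
          rcases Nat.lt_succ_iff_lt_or_eq.mp hk with h6 | h6
          · exact h2 k h6 hkV
          · subst h6
            rw [← h3 hkV, hV (by rw [h1]; exact hkV)]
        · intro _
          show c'.val = u (r + 1)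
          rw [hc, hu _ (Nat.lt_succ_self r)]
        · intro h6
          have h6' : r + 1 = 1 + M * B := h6
          exact hu _ (by omega)
    · rintro ⟨h1, h2, h3, h4, h5⟩
      simp only at h1 h2 h3 h4 h5
      have hr' := r'.isLt
      have hc' : c'.val = 0 := by
        by_cases hV : isV h v (r + 1)
        · rw [h3 hV, hu _ (Nat.lt_succ_self r)]
        · exact h4 hV
      by_cases hV : isV h v r
      · refine ⟨(⟨r, by omega⟩, a', a'), ⟨rfl, fun k hk => h2 k (by simp only at hk; omega), ?_, ?_, ?_⟩,
          StpA.a0 _ _ _ _ _ h1 (fun _ => rfl) hc'⟩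
        · intro _
          exact (h2 r (Nat.lt_succ_self r) hV).symm
        · intro h6
          exact absurd hV h6
        · intro h6
          have h6' : r = 1 + M * B := h6
          omega
      · refine ⟨(⟨r, by omega⟩, a', c'), ⟨rfl, fun k hk => h2 k (by simp only at hk; omega), ?_, ?_, ?_⟩,
          StpA.a0 _ _ _ _ _ h1 (fun h6 => absurd h6 hV) hc'⟩
        · intro h6
          exact absurd h6 hV
        · intro _
          exact hc'
        · intro h6
          have h6' : r = 1 + M * B := h6
          omega
  · have hd : dstep (r, u) true = (r, Function.update u r (u r + 1)) := by simp [dstep]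
    rw [hd]
    constructor
    · rintro ⟨s, hs, hst⟩
      cases hst with
      | a1 _ _ c _ hV hc =>
        obtain ⟨h1, h2, h3, h4, h5⟩ := hs
        simp only at h1 h2 h3 h4 h5
        rw [h1] at hV
        refine ⟨h1, ?_, ?_, ?_, ?_⟩
        · intro k hk hkV
          have hk' : k < r := hk
          show Function.update u r (u r + 1) k = _
          rw [Function.update_of_ne (by omega)]
          exact h2 k hk hkV
        · intro _
          show _ = Function.update u r (u r + 1) r
          rw [Function.update_self, hc, h3 hV]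
        · intro h6
          exact absurd hV h6
        · intro h6
          have h6' : r = 1 + M * B := h6
          have h7 := (isV_lt hV).2
          omega
      | s1 _ _ _ hV hL =>
        obtain ⟨h1, h2, h3, h4, h5⟩ := hs
        simp only at h1 h2 h3 h4 h5
        rw [h1] at hV
        refine ⟨h1, ?_, ?_, ?_, ?_⟩
        · intro k hk hkV
          have hk' : k < r := hk
          show Function.update u r (u r + 1) k = _
          rw [Function.update_of_ne (by omega)]
          exact h2 k hk hkV
        · intro h6
          exact absurd h6 hV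
        · intro _
          exact h4 hV
        · intro h6
          have h6' : r = 1 + M * B := h6
          omega
    · rintro ⟨h1, h2, h3, h4, h5⟩
      simp only at h1 h2 h3 h4 h5
      have h2' : ∀ k, k < r → isV h v k → u k = a'.val := by
        intro k hk hkV
        have h6 := h2 k hk hkV
        rw [Function.update_of_ne (by omega)] at h6
        exact h6
      by_cases hV : isV h v r
      · have h6 := h3 hV
        rw [Function.update_self] at h6
        have h7 := c'.isLt
        refine ⟨(r', a', ⟨u r, by omega⟩), ⟨h1, h2', fun _ => rfl, fun h8 => absurd hV h8, ?_⟩,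
          StpA.a1 _ _ _ _ (by rw [h1]; exact hV) h6⟩
        intro h8
        have h8' : r = 1 + M * B := h8
        have h9 := (isV_lt hV).2
        omega
      · have hrL : r ≠ 1 + M * B := by
          intro h6
          have h7 := h5 h6
          rw [← h6, Function.update_self] at h7
          omega
        refine ⟨(r', a', c'), ⟨h1, h2', fun h8 => absurd h8 hV, h4, fun h8 => absurd h8 hrL⟩,
          StpA.s1 _ _ _ (by rw [h1]; exact hV) (by rw [h1]; exact hrL)⟩

/-- the words that the automata of the constraints and of the variables accept -/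
lemma inter_iff (hB : 0 < B) (hM : 0 < M) (Y : Fin M → Fin K → (Fin B → Fin q) → Prop) :
    (∃ w : List Bool, (∀ i, ∃ s, AcB s ∧ Rch S0B (StpB i (Y i)) w s) ∧
      ∀ v, ∃ s : SA M q B, AcA s ∧ Rch S0A (StpA h v) w s) ↔
    ∃ (j : Fin K) (p : Fin m → Fin q), ∀ i, Y i j (fun t => p (h i t)) := by
  have hBs : ∀ (i : Fin M) (w : List Bool) (s : SB K M q B),
      Rch S0B (StpB i (Y i)) w s ↔ SemB i (Y i) (dec w) s := fun i w s =>
    rch_sem (SemB i (Y i)) (semB_zero i (Y i)) (fun r u hu b s' => semB_step hB i (Y i) r u hu b s')
      w s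
  have hAs : ∀ (v : Fin m) (w : List Bool) (s : SA M q B),
      Rch S0A (StpA h v) w s ↔ SemA h v (dec w) s := fun v w s =>
    rch_sem (SemA h v) (semA_zero v) (fun r u hu b s' => semA_step v r u hu b s') w s
  constructor
  · rintro ⟨w, hw1, hw2⟩
    have h1 : ∀ v, ∃ a : Fin q, ∀ k, isV h v k → (dec w).2 k = a.val := by
      intro v
      obtain ⟨s, h2, h3⟩ := hw2 v
      obtain ⟨h4, h5, -⟩ := (hAs v w s).mp h3
      refine ⟨s.2.1, fun k hk => h5 k ?_ hk⟩
      have h6 := (isV_lt hk).2
      have h7 : s.1.val = 1 + M * B := h2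
      omega
    choose p hp using h1
    have h2 : ∀ i, ∃ (j : Fin K) (σ : Fin B → Fin q), (dec w).2 0 = j.val ∧
        (∀ t, (σ t).val = (dec w).2 (1 + i.val * B + t.val)) ∧ Y i j σ := by
      intro i
      obtain ⟨s, h3, h4⟩ := hw1 i
      have h5 := (hBs i w s).mp h4
      rcases s with ⟨j, r⟩ | s
      · obtain ⟨h6, h7, h8, -⟩ := h5
        have h9 : r.val = 1 + M * B := h3
        have h10 := blk_le (B := B) i
        rcases h8 with h8 | ⟨-, σ, h11, h12⟩
        · omega
        · exact ⟨j, σ, h7, h11, h12⟩
      · exact absurd h3 id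
    obtain ⟨j, -, hj, -⟩ := h2 ⟨0, hM⟩
    refine ⟨j, p, fun i => ?_⟩
    obtain ⟨j', σ, h3, h4, h5⟩ := h2 i
    have h6 : j' = j := Fin.ext (by omega)
    rw [h6] at h5
    have h7 : σ = fun t => p (h i t) := by
      funext t
      apply Fin.ext
      rw [h4 t]
      exact hp (h i t) _ ⟨i, t, rfl, rfl⟩
    rw [← h7]
    exact h5
  · rintro ⟨j, p, hp⟩
    -- the numbers
    let u : ℕ → ℕ := fun k => if k = 0 then j.val else
      if hk : (k - 1) / B < M then (p (h ⟨(k - 1) / B, hk⟩ ⟨(k - 1) % B, Nat.mod_lt _ hB⟩)).val else 0
    have hu0 : u 0 = j.val := by simp [u]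
    have hui : ∀ (i : Fin M) (t : Fin B), u (1 + i.val * B + t.val) = (p (h i t)).val := by
      intro i t
      have h1 : (1 + i.val * B + t.val - 1) / B = i.val := by
        have h2 : 1 + i.val * B + t.val - 1 = t.val + B * i.val := by
          rw [mul_comm]; omega
        rw [h2, Nat.add_mul_div_left _ _ hB, Nat.div_eq_of_lt t.isLt, Nat.zero_add]
      have h3 : (1 + i.val * B + t.val - 1) % B = t.val := by
        have h2 : 1 + i.val * B + t.val - 1 = t.val + B * i.val := by
          rw [mul_comm]; omega
        rw [h2, Nat.add_mul_mod_self_left, Nat.mod_eq_of_lt t.isLt]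
      show (if 1 + i.val * B + t.val = 0 then j.val else
        if hk : (1 + i.val * B + t.val - 1) / B < M then
          (p (h ⟨(1 + i.val * B + t.val - 1) / B, hk⟩
            ⟨(1 + i.val * B + t.val - 1) % B, Nat.mod_lt _ hB⟩)).val else 0) = _
      rw [if_neg (by omega), dif_pos (by rw [h1]; exact i.isLt)]
      congr 3
      · exact Fin.ext h1
      · exact Fin.ext h3
    obtain ⟨w, hw⟩ := dec_exists u (1 + M * B)
    have hq : ∀ v : Fin m, 0 < q := fun v => (Nat.zero_le _).trans_lt (p v).isLt
    refine ⟨w, fun i => ?_, fun v => ?_⟩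
    · refine ⟨Sum.inl (j, ⟨1 + M * B, Nat.lt_succ_self _⟩), rfl, (hBs i w _).mpr ?_⟩
      rw [hw]
      refine ⟨rfl, ?_, Or.inr ⟨blk_le i, fun t => p (h i t), fun t => ?_, hp i⟩, fun _ => ?_⟩
      · show (if 0 < 1 + M * B then u 0 else 0) = _
        rw [if_pos (by omega), hu0]
      · show _ = if 1 + i.val * B + t.val < 1 + M * B then u (1 + i.val * B + t.val) else 0
        have h1 := blk_le (B := B) i
        have h2 := t.isLt
        rw [if_pos (by omega), hui]
      · show (if 1 + M * B < 1 + M * B then u (1 + M * B) else 0) = 0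
        rw [if_neg (lt_irrefl _)]
    · refine ⟨(⟨1 + M * B, Nat.lt_succ_self _⟩, p v, ⟨0, hq v⟩), rfl, (hAs v w _).mpr ?_⟩
      rw [hw]
      refine ⟨rfl, ?_, ?_, fun _ => rfl, fun _ => ?_⟩
      · intro k hk hkV
        show (if k < 1 + M * B then u k else 0) = (p v).val
        obtain ⟨i, t, h1, h2⟩ := hkV
        have hk' : k < 1 + M * B := hk
        rw [if_pos hk', h1, hui, h2]
      · intro h1
        exact absurd (isV_lt h1).2 (lt_irrefl _)
      · show (if 1 + M * B < 1 + M * B then u (1 + M * B) else 0) = 0
        rw [if_neg (lt_irrefl _)]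

end

end Pool.Agent.W969.MC
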