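import Pool.Agent.W969.MC.Int2
import Pool.Agent.W969.MC.Avg3
import Pool.Agent.W969.MC.Clq2

/-! Intersection nonemptiness for nondeterministic automata: the lower bound with parameters. -/

set_option linter.unusedSectionVars false
set_option linter.unusedVariables false

namespace Pool.Agent.W969.MC

open Finset Pool.Agent.H560R2

section

variable {K M q m b2 k T : ℕ}

lemma stpB_change {B : ℕ} {i : Fin M} {Y Y' : Fin K → (Fin B → Fin q) → Prop} {s s' : SB K M q B}
    {c : Bool} (hs : StpB i Y s c s')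
    (hY : ∀ j t σ, s = Sum.inr (j, t, σ) → Y j σ → Y' j σ) : StpB i Y' s c s' := by
  cases hs with
  | z1 j j' r hr hj => exact StpB.z1 j j' r hr hj
  | o1 j r hr hL => exact StpB.o1 j r hr hL
  | o0 j r r' hr hn => exact StpB.o0 j r r' hr hn
  | en j r t σ hr ht hσ => exact StpB.en j r t σ hr ht hσ
  | i1 j t σ σ' ht hn => exact StpB.i1 j t σ σ' ht hn
  | i0 j t t' σ ht => exact StpB.i0 j t t' σ ht
  | ex j t σ r ht hr h => exact StpB.ex j t σ r ht hr (hY j t σ rfl h)

/-- the allowed tuples -/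
def Yi (y : Fin K → Set (Fin M × ((Fin 1 × Fin b2) → Fin q))) (i : Fin M) (j : Fin K)
    (σ : Fin b2 → Fin q) : Prop := (i, fun a : Fin 1 × Fin b2 => σ a.2) ∈ y j

/-- the bits of the automata -/
def encP (ιB : SB K M q b2 ↪ Fin T) (ιA : SA M q b2 ↪ Fin T) (h : Fin M → Fin b2 → Fin m)
    (y : Fin K → Set (Fin M × ((Fin 1 × Fin b2) → Fin q))) (a : ℕ) (e : Bt T) : Prop :=
  if ha : a < M then btP ιB S0B (StpB ⟨a, ha⟩ (Yi y ⟨a, ha⟩)) AcB e
  else if ha' : a - M < m then btP ιA S0A (StpA h ⟨a - M, ha'⟩) AcA e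
  else True

open Classical in
/-- the bits of the automata -/
noncomputable def encI (ιB : SB K M q b2 ↪ Fin T) (ιA : SA M q b2 ↪ Fin T)
    (h : Fin M → Fin b2 → Fin m)
    (y : Fin K → Set (Fin M × ((Fin 1 × Fin b2) → Fin q))) : Fin k × Bt T → Bool :=
  fun e => decide (encP ιB ιA h y e.1.val e.2)

variable {ιB : SB K M q b2 ↪ Fin T} {ιA : SA M q b2 ↪ Fin T} {h : Fin M → Fin b2 → Fin m}

lemma encI_iff' (y : Fin K → Set (Fin M × ((Fin 1 × Fin b2) → Fin q))) (e : Fin k × Bt T) :
    encI ιB ιA h y e = true ↔ encP ιB ιA h y e.1.val e.2 := by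
  classical
  unfold encI
  exact decide_eq_true_iff

lemma encI_mono {y y' : Fin K → Set (Fin M × ((Fin 1 × Fin b2) → Fin q))}
    (hy : ∀ j, y j ⊆ y' j) :
    (encI ιB ιA h y : Fin k × Bt T → Bool) ≤ encI ιB ιA h y' := by
  rintro ⟨a, e⟩
  rcases hx : encI ιB ιA h y (a, e) with _ | _
  · exact Bool.false_le _
  · have h1 := (encI_iff' y (a, e)).mp hx
    have h2 : encI ιB ιA h y' (a, e) = true := by
      rw [encI_iff']
      unfold encP at h1 ⊢
      by_cases ha : a.val < M
      · rw [dif_pos ha] at h1 ⊢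
        rcases e with ⟨p, c, p'⟩ | p | p
        · obtain ⟨s, s', h3, h4, h5⟩ := h1
          exact ⟨s, s', h3, h4, stpB_change h5 (fun j t σ _ hh => hy j hh)⟩
        · exact h1
        · exact h1
      · rw [dif_neg ha] at h1 ⊢
        exact h1
    rw [h2]

lemma encI_narrow (y : Fin K → Set (Fin M × ((Fin 1 × Fin b2) → Fin q))) (J : Fin K)
    (e : Fin k × Bt T) :
    ∃ T' : Finset (Fin M × ((Fin 1 × Fin b2) → Fin q)), T'.card ≤ 1 ∧
      ∀ x x' : Set (Fin M × ((Fin 1 × Fin b2) → Fin q)), (∀ v ∈ T', v ∈ x → v ∈ x') →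
        encI ιB ιA h (Function.update y J x) e = true →
        encI ιB ιA h (Function.update y J x') e = true := by
  classical
  obtain ⟨a, e⟩ := e
  by_cases hex : ∃ (ha : a.val < M) (p p' : Fin T) (c : Bool) (j : Fin K) (t : Fin b2)
      (σ : Fin b2 → Fin q), e = Sum.inl (p, c, p') ∧ ιB (Sum.inr (j, t, σ)) = p
  · obtain ⟨ha, p, p', c, j, t, σ, he, hp⟩ := hex
    subst he
    refine ⟨{(⟨a.val, ha⟩, fun a => σ a.2)}, by simp, fun x x' hx henc => ?_⟩
    rw [encI_iff'] at henc ⊢
    unfold encP at henc ⊢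
    rw [dif_pos ha] at henc ⊢
    obtain ⟨s, s', h3, h4, h5⟩ := henc
    have hs : s = Sum.inr (j, t, σ) := ιB.injective (h3.trans hp.symm)
    refine ⟨s, s', h3, h4, stpB_change h5 ?_⟩
    intro j' t' σ' hs' hh
    have h6 : (j', t', σ') = (j, t, σ) := Sum.inr.inj (hs'.symm.trans hs)
    simp only [Prod.mk.injEq] at h6
    obtain ⟨rfl, rfl, rfl⟩ := h6
    unfold Yi at hh ⊢
    by_cases hj : j' = J
    · subst hj
      rw [Function.update_self] at hh ⊢
      exact hx _ (Finset.mem_singleton_self _) hh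
    · rw [Function.update_of_ne hj] at hh ⊢
      exact hh
  · refine ⟨∅, by simp, fun x x' hx henc => ?_⟩
    rw [encI_iff'] at henc ⊢
    unfold encP at henc ⊢
    by_cases ha : a.val < M
    · rw [dif_pos ha] at henc ⊢
      rcases e with ⟨p, c, p'⟩ | p | p
      · obtain ⟨s, s', h3, h4, h5⟩ := henc
        refine ⟨s, s', h3, h4, stpB_change h5 ?_⟩
        intro j t σ hs
        subst hs
        exact absurd ⟨ha, p, p', c, j, t, σ, rfl, h3⟩ hex
      · exact henc
      · exact henc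
    · rw [dif_neg ha] at henc ⊢
      exact henc

/-- some word is accepted by all automata -/
def Inx {k T : ℕ} (x : Fin k × Bt T → Bool) : Prop :=
  ∃ w : List Bool, ∀ a : Fin k, w ∈ (nfa (fun e => x (a, e))).accepts

lemma encI_iff (hT : 0 < T) (hb2 : 0 < b2) (hM : 0 < M) (hk : M + m ≤ k)
    (h' : Fin M → (Fin 1 × Fin b2) → Fin m)
    (y : Fin K → Set (Fin M × ((Fin 1 × Fin b2) → Fin q))) :
    Inx (encI ιB ιA (fun i t => h' i (0, t)) y : Fin k × Bt T → Bool) ↔
      ∃ j, ∃ p : Fin m → Fin q, (tu h' (gr p) : Set (Fin M × ((Fin 1 × Fin b2) → Fin q))) ⊆ y j := by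
  have hkey : Inx (encI ιB ιA (fun i t => h' i (0, t)) y : Fin k × Bt T → Bool) ↔
      (∃ w : List Bool, (∀ i, ∃ s, AcB s ∧ Rch S0B (StpB i (Yi y i)) w s) ∧
        ∀ v, ∃ s : SA M q b2, AcA s ∧ Rch S0A (StpA (fun i t => h' i (0, t)) v) w s) := by
    constructor
    · rintro ⟨w, hw⟩
      refine ⟨w, fun i => ?_, fun v => ?_⟩
      · have hi : i.val < k := by
          have := i.isLt
          omega
        refine (accepts_bt (ι := ιB) (x := fun e => encI ιB ιA (fun i t => h' i (0, t)) y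
          ((⟨i.val, hi⟩ : Fin k), e)) (fun e => ?_) w).mp (hw ⟨i.val, hi⟩)
        rw [encI_iff']
        unfold encP
        rw [dif_pos i.isLt]
      · have hi : M + v.val < k := by
          have := v.isLt
          omega
        refine (accepts_bt (ι := ιA) (x := fun e => encI ιB ιA (fun i t => h' i (0, t)) y
          ((⟨M + v.val, hi⟩ : Fin k), e)) (fun e => ?_) w).mp (hw ⟨M + v.val, hi⟩)
        rw [encI_iff']
        unfold encP
        rw [dif_neg (by simp only; omega), dif_pos (by simp only; have := v.isLt; omega)]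
        have h1 : (⟨M + v.val - M, by have := v.isLt; omega⟩ : Fin m) = v := Fin.ext (by
          show M + v.val - M = v.val
          omega)
        rw [h1]
    · rintro ⟨w, hw1, hw2⟩
      refine ⟨w, fun a => ?_⟩
      by_cases ha : a.val < M
      · refine (accepts_bt (ι := ιB) (fun e => ?_) w).mpr (hw1 ⟨a.val, ha⟩)
        rw [encI_iff']
        unfold encP
        rw [dif_pos ha]
      · by_cases ha' : a.val - M < m
        · refine (accepts_bt (ι := ιA) (fun e => ?_) w).mpr (hw2 ⟨a.val - M, ha'⟩)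
          rw [encI_iff']
          unfold encP
          rw [dif_neg ha, dif_pos ha']
        · refine accepts_all hT (fun e => ?_) w
          rw [encI_iff']
          unfold encP
          rw [dif_neg ha, dif_neg ha']
          trivial
  rw [hkey, inter_iff hb2 hM]
  have hfun : ∀ (p : Fin m → Fin q) (i : Fin M), (fun a : Fin 1 × Fin b2 => p (h' i (0, a.2))) =
      fun a => p (h' i a) := by
    intro p i
    funext a
    obtain ⟨a1, a2⟩ := a
    have : a1 = 0 := Subsingleton.elim _ _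
    rw [this]
  constructor
  · rintro ⟨j, p, hp⟩
    refine ⟨j, p, ?_⟩
    rintro ⟨i, σ⟩ hu
    have hu1 : (fun t => p (h' i t)) = σ := by
      funext t
      have h1 := (Finset.mem_filter.mp (Finset.mem_coe.mp hu)).2 t
      rw [mem_gr] at h1
      exact h1
    have h2 := hp i
    unfold Yi at h2
    rw [hfun, hu1] at h2
    exact h2
  · rintro ⟨j, p, hp⟩
    refine ⟨j, p, fun i => ?_⟩
    unfold Yi
    rw [hfun]
    apply hp
    apply Finset.mem_coe.mpr
    unfold tu
    rw [Finset.mem_filter]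
    refine ⟨mem_univ _, fun t => ?_⟩
    rw [mem_gr]

/-- the lower bound with integer parameters -/
theorem int_param {b sx w : ℕ} {R : Type} [Fintype R] [Nonempty R]
    (P : Pars 1 b2 b q M m sx w) (hk : M + m ≤ k)
    (hTB : K * (1 + M * b2 + 1) + K * (b2 * q ^ b2) ≤ T)
    (hTA : (1 + M * b2 + 1) * (q * q) ≤ T)
    (C : R → RC (Fin k × Bt T)) (A0 g : ℝ)
    (hyes : ∀ x, Inx x → (A0 + g) * Fintype.card R ≤ ({ρ : R | (C ρ).acc x}.ncard : ℝ))
    (hno : ∀ x, ¬ Inx x → ({ρ : R | (C ρ).acc x}.ncard : ℝ) ≤ A0 * Fintype.card R)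
    (hfree : ∀ ρ, ((C ρ).free : ℝ) ≤ (g / 2) * K)
    (hlen : ∀ ρ, (C ρ).size ≤ (q + 1) ^ m) (hq : 16 / (q : ℝ) ≤ g)
    (hlt : ∀ ρ, 16 * ((C ρ).size : ℝ) * 2 ^ (w / (2 * b) / b + 1) <
      g * (q : ℝ) ^ (w / (2 * b) / b + 1)) : False := by
  classical
  obtain ⟨h', hG⟩ := P.good
  have : Nonempty (Fin 1 × Fin b2) := ⟨(⟨0, one_pos⟩, ⟨0, P.hb2⟩)⟩
  have hMpos : 0 < M := by
    have := P.hM
    have := P.hm
    omega
  have hqpos : 0 < q := by
    have := P.hq
    omega
  have hcB : Fintype.card (SB K M q b2) ≤ Fintype.card (Fin T) := by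
    simp only [Fintype.card_sum, Fintype.card_prod, Fintype.card_fin, Fintype.card_fun]
    exact hTB
  have hcA : Fintype.card (SA M q b2) ≤ Fintype.card (Fin T) := by
    simp only [Fintype.card_prod, Fintype.card_fin]
    exact hTA
  obtain ⟨ιB⟩ := Function.Embedding.nonempty_of_card_le hcB
  obtain ⟨ιA⟩ := Function.Embedding.nonempty_of_card_le hcA
  have hT : 0 < T := by
    have : 0 < (1 + M * b2 + 1) * (q * q) := by positivity
    omega
  refine csp_rand hG (m' := K) C (fun y => encI ιB ιA (fun i t => h' i (0, t)) y)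
    (fun y y' hy => encI_mono hy) (fun y J p => encI_narrow y J p) A0 g
    (fun y hy => hyes _ ((encI_iff hT P.hb2 hMpos hk h' y).mpr hy))
    (fun y hy => hno _ (fun hh => hy ((encI_iff hT P.hb2 hMpos hk h' y).mp hh)))
    hfree (by rw [Fintype.card_fin, Fintype.card_fin]; exact hlen)
    (by rw [Fintype.card_fin]; exact hq)
    (by rw [Fintype.card_fin]; exact hlt)

end

end Pool.Agent.W969.MC
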