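import Pool.Agent.W969.MC.Int3
import Pool.Agent.W969.MC.Par6

/-! Intersection nonemptiness for nondeterministic automata: the lower bound. -/

set_option linter.unusedSectionVars false
set_option linter.unusedVariables false

namespace Pool.Agent.W969.MC

open Finset Pool.Agent.H560R2

theorem int_main (ε : ℝ) (hε : 0 < ε) :
    ∃ δ : ℝ, 0 < δ ∧ ∃ k0 : ℕ, ∀ (k' k T : ℕ) (F : ℝ), k0 ≤ k → k ≤ k' → 1 ≤ F →
      (k : ℝ) * F ≤ (T : ℝ) ^ (1 - ε) →
      ∀ (R : Type) [Fintype R] [Nonempty R] (C : R → RC (Fin k' × Bt T)) (A0 : ℝ),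
        (∀ x, Inx x → (A0 + (T : ℝ) ^ (-δ)) * Fintype.card R ≤
          ({ρ : R | (C ρ).acc x}.ncard : ℝ)) →
        (∀ x, ¬ Inx x → ({ρ : R | (C ρ).acc x}.ncard : ℝ) ≤ A0 * Fintype.card R) →
        (∀ ρ, ((C ρ).free : ℝ) ≤ F) →
        ∃ ρ, (T : ℝ) ^ (δ * k) ≤ ((C ρ).size : ℝ) := by
  -- it suffices to consider small ε
  wlog hε1 : ε ≤ 1 with Hw
  · obtain ⟨δ, hδ, k0, H⟩ := Hw 1 one_pos le_rfl
    refine ⟨δ, hδ, max k0 1, ?_⟩
    intro k' k T F hk hkk' hF hkF
    push Not at hε1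
    have hk1 : (1 : ℝ) ≤ k := by exact_mod_cast (le_max_right _ _).trans hk
    have hT1 : (1 : ℝ) ≤ T := by
      by_contra hcon
      push Not at hcon
      have h0 : T = 0 := by
        have : T < 1 := by exact_mod_cast hcon
        omega
      rw [h0, Nat.cast_zero, Real.zero_rpow (by linarith)] at hkF
      nlinarith
    refine H k' k T F ((le_max_left _ _).trans hk) hkk' hF (hkF.trans ?_)
    apply Real.rpow_le_rpow_of_exponent_le hT1
    linarith
  obtain ⟨b2, Cc, hb2, δ, hδ, l0, H⟩ := pars6 (ε / 2) (by positivity) (by linarith)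
  set δ' : ℝ := min δ ε with hδ'
  have hδ'pos : 0 < δ' := lt_min hδ hε
  have hδ'1 : δ' ≤ δ := min_le_left _ _
  have hδ'2 : δ' ≤ ε := min_le_right _ _
  obtain ⟨l1, Hab⟩ := absorb hδ'pos
  obtain ⟨l2, hl2⟩ := ev_rpow (η := ε / 4) (by positivity) (8 * b2 * (Cc + 2))
  refine ⟨δ' / 4, by positivity, max (max l0 l1) (max l2 1), ?_⟩
  intro k' k T F hk hkk' hF1 hkF R _ _ C A0 hyes hno hfree
  have hkl0 : l0 ≤ k := (le_max_left _ _).trans ((le_max_left _ _).trans hk)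
  have hkl1 : l1 ≤ k := (le_max_right _ _).trans ((le_max_left _ _).trans hk)
  have hkl2 : l2 ≤ k := (le_max_left _ _).trans ((le_max_right _ _).trans hk)
  have hk1 : 1 ≤ k := (le_max_right _ _).trans ((le_max_right _ _).trans hk)
  have hkR : (1 : ℝ) ≤ k := by exact_mod_cast hk1
  have hkpos : (0 : ℝ) < k := by linarith
  have hkT' : (k : ℝ) ≤ (T : ℝ) ^ (1 - ε) := by
    refine le_trans ?_ hkF
    calc (k : ℝ) = k * 1 := (mul_one _).symm
      _ ≤ k * F := mul_le_mul_of_nonneg_left hF1 hkpos.le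
  have hkn : k < 0 + k + 1 := by omega
  -- the degenerate case
  by_cases hT0 : T = 0
  · subst hT0
    obtain ⟨ρ⟩ := ‹Nonempty R›
    refine ⟨ρ, ?_⟩
    rw [Nat.cast_zero, Real.zero_rpow (by
      have : 0 < δ' / 4 * k := by positivity
      linarith)]
    exact Nat.cast_nonneg _
  have hTR : (1 : ℝ) ≤ T := by exact_mod_cast Nat.one_le_iff_ne_zero.mpr hT0
  have hTpos : (0 : ℝ) < T := by linarith
  have hkTR : (k : ℝ) ≤ T := by
    refine hkT'.trans ?_
    calc (T : ℝ) ^ (1 - ε) ≤ (T : ℝ) ^ (1 : ℝ) :=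
          Real.rpow_le_rpow_of_exponent_le hTR (by linarith)
      _ = T := Real.rpow_one _
  have hkT : k ≤ T := by exact_mod_cast hkTR
  obtain ⟨b, q, M, m, sx, w, P, h1, h2, h3, h4, h5⟩ := H T k hkl0 hkT
  have h5' : ∀ z : ℕ, (z : ℝ) < (T : ℝ) ^ (δ' * k) → z ≤ (q + 1) ^ m ∧
        8 * z * 2 ^ (w / (2 * b) / b + 1) < q ^ (w / (2 * b) / b + 1) := by
    intro z hz
    refine h5 z (lt_of_lt_of_le hz ?_)
    apply Real.rpow_le_rpow_of_exponent_le hTR
    exact mul_le_mul_of_nonneg_right hδ'1 hkpos.le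
  obtain ⟨g1, g2, g3⟩ := Hab T k q m (w / (2 * b) / b + 1) hkl1 hkT (Nat.le_add_left 1 _) h2 h5'
  by_contra hcon
  push Not at hcon
  have hPM := P.hM
  have hPm := P.hm
  have hqpos : 0 < q := by
    have := P.hq
    omega
  -- the number of states
  have hbig : (8 * b2 * (Cc + 2) : ℝ) ≤ (T : ℝ) ^ (ε / 4) :=
    (hl2 k hkl2).trans (Real.rpow_le_rpow hkpos.le hkTR (by positivity))
  have hTe : (1 : ℝ) ≤ (T : ℝ) ^ (ε / 2) := Real.one_le_rpow hTR (by positivity)
  have hb2R : (2 : ℝ) ≤ b2 := by exact_mod_cast hb2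
  have hL : ((1 + M * b2 + 1 : ℕ) : ℝ) ≤ 2 * b2 * k := by
    have h6 : 1 + M * b2 + 1 ≤ 2 * b2 * k := by
      have h7 : M ≤ k := by omega
      have h8 : M * b2 ≤ k * b2 := Nat.mul_le_mul_right _ h7
      have h9 : b2 * 1 ≤ b2 * k := Nat.mul_le_mul_left _ hk1
      calc 1 + M * b2 + 1 ≤ k * b2 + b2 * k := by omega
        _ = 2 * b2 * k := by ring
    exact_mod_cast h6
  obtain ⟨D, hD⟩ : ∃ D : ℕ, D = (1 + M * b2 + 1) + b2 * q ^ b2 := ⟨_, rfl⟩
  have hDpos : 0 < D := by omega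
  have hDR : (D : ℝ) ≤ b2 * (Cc + 2) * (k * (T : ℝ) ^ (ε / 2)) := by
    rw [hD]
    push_cast at hL ⊢
    calc (1 + (M : ℝ) * b2 + 1) + b2 * (q : ℝ) ^ b2 ≤
          2 * b2 * k + b2 * (Cc * (k * (T : ℝ) ^ (ε / 2))) := by
          apply add_le_add hL
          exact mul_le_mul_of_nonneg_left h3 (by linarith)
      _ ≤ 2 * b2 * (k * (T : ℝ) ^ (ε / 2)) + b2 * (Cc * (k * (T : ℝ) ^ (ε / 2))) := by
          apply add_le_add _ le_rfl
          apply mul_le_mul_of_nonneg_left _ (by positivity)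
          calc (k : ℝ) = k * 1 := (mul_one _).symm
            _ ≤ k * (T : ℝ) ^ (ε / 2) := mul_le_mul_of_nonneg_left hTe hkpos.le
      _ = b2 * (Cc + 2) * (k * (T : ℝ) ^ (ε / 2)) := by ring
  have hpow : (T : ℝ) ^ (ε / 4) * ((T : ℝ) ^ (1 - ε) * (T : ℝ) ^ (ε / 2)) ≤ T := by
    rw [← Real.rpow_add hTpos, ← Real.rpow_add hTpos]
    calc (T : ℝ) ^ (ε / 4 + (1 - ε + ε / 2)) ≤ (T : ℝ) ^ (1 : ℝ) :=
          Real.rpow_le_rpow_of_exponent_le hTR (by linarith)
      _ = T := Real.rpow_one _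
  have hDT : D ≤ T := by
    have h6 : (D : ℝ) ≤ T := by
      refine hDR.trans (le_trans ?_ hpow)
      apply mul_le_mul _ _ (by positivity) (by positivity)
      · refine le_trans ?_ hbig
        have : (0 : ℝ) ≤ b2 * (Cc + 2) := by positivity
        linarith
      · exact mul_le_mul_of_nonneg_right hkT' (by positivity)
    exact_mod_cast h6
  have hTA : (1 + M * b2 + 1) * (q * q) ≤ T := by
    have h6 : (((1 + M * b2 + 1) * (q * q) : ℕ) : ℝ) ≤ T := by
      refine le_trans ?_ hpow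
      rw [Nat.cast_mul]
      calc ((1 + M * b2 + 1 : ℕ) : ℝ) * ((q * q : ℕ) : ℝ) ≤
            (2 * b2 * k) * (Cc * (T : ℝ) ^ (ε / 2)) := by
            apply mul_le_mul hL _ (Nat.cast_nonneg _) (by positivity)
            push_cast
            calc (q : ℝ) * q = (q : ℝ) ^ 2 := by ring
              _ ≤ _ := h4
        _ = (2 * b2 * Cc) * (k * (T : ℝ) ^ (ε / 2)) := by ring
        _ ≤ (T : ℝ) ^ (ε / 4) * ((T : ℝ) ^ (1 - ε) * (T : ℝ) ^ (ε / 2)) := by
            apply mul_le_mul _ _ (by positivity) (by positivity)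
            · refine le_trans ?_ hbig
              have h7 : (0 : ℝ) ≤ b2 * Cc := by positivity
              have h8 : (0 : ℝ) ≤ (b2 : ℝ) := by positivity
              nlinarith
            · exact mul_le_mul_of_nonneg_right hkT' (by positivity)
    exact_mod_cast h6
  obtain ⟨K, hK⟩ : ∃ K, K = T / D := ⟨_, rfl⟩
  have hKlow : (T : ℝ) / (2 * D) ≤ K := by
    have h6 := div_half hDpos hDT
    rw [← hK] at h6
    exact h6
  refine int_param (K := K) P (by omega) ?_ hTA C A0 ((T : ℝ) ^ (-(δ' / 4))) hyes hno ?_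
    (fun ρ => (g3 _ (hcon ρ)).1) g1 (fun ρ => (g3 _ (hcon ρ)).2)
  · have h6 : K * D ≤ T := by
      rw [hK]
      exact Nat.div_mul_le_self _ _
    calc K * (1 + M * b2 + 1) + K * (b2 * q ^ b2) = K * D := by rw [hD]; ring
      _ ≤ T := h6
  · intro ρ
    refine (hfree ρ).trans ?_
    refine le_trans ?_ (mul_le_mul_of_nonneg_left hKlow (by positivity))
    rw [Real.rpow_neg hTpos.le]
    have hDposR : (0 : ℝ) < D := by exact_mod_cast hDpos
    have h9 : ((T : ℝ) ^ (δ' / 4))⁻¹ / 2 * ((T : ℝ) / (2 * D)) =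
        (T : ℝ) / (4 * (T : ℝ) ^ (δ' / 4) * D) := by
      field_simp
      ring
    rw [h9, le_div_iff₀ (by positivity)]
    have hF0 : 0 ≤ F := by linarith
    calc F * (4 * (T : ℝ) ^ (δ' / 4) * D) ≤
          F * (4 * (T : ℝ) ^ (ε / 4) * (b2 * (Cc + 2) * (k * (T : ℝ) ^ (ε / 2)))) := by
          apply mul_le_mul_of_nonneg_left _ hF0
          apply mul_le_mul _ hDR (by positivity) (by positivity)
          apply mul_le_mul_of_nonneg_left _ (by norm_num)
          apply Real.rpow_le_rpow_of_exponent_le hTR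
          linarith
      _ = (4 * (b2 * (Cc + 2))) * (T : ℝ) ^ (ε / 4) * ((k * F) * (T : ℝ) ^ (ε / 2)) := by ring
      _ ≤ (4 * (b2 * (Cc + 2))) * (T : ℝ) ^ (ε / 4) * ((T : ℝ) ^ (1 - ε) * (T : ℝ) ^ (ε / 2)) := by
          apply mul_le_mul_of_nonneg_left _ (by positivity)
          exact mul_le_mul_of_nonneg_right hkF (by positivity)
      _ ≤ (T : ℝ) ^ (ε / 4) * (T : ℝ) ^ (ε / 4) * ((T : ℝ) ^ (1 - ε) * (T : ℝ) ^ (ε / 2)) := by
          apply mul_le_mul_of_nonneg_right _ (by positivity)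
          apply mul_le_mul_of_nonneg_right _ (by positivity)
          refine le_trans ?_ hbig
          have h7 : (0 : ℝ) ≤ b2 * (Cc + 2) := by positivity
          linarith
      _ = (T : ℝ) ^ (ε / 4 + ε / 4 + (1 - ε + ε / 2)) := by
          rw [← Real.rpow_add hTpos, ← Real.rpow_add hTpos, ← Real.rpow_add hTpos]
      _ = (T : ℝ) ^ (1 : ℝ) := by
          congr 1
          ring
      _ = T := Real.rpow_one _

end Pool.Agent.W969.MC
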