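import Pool.Agent.W969.MC.Avg2
import Pool.Agent.H630VC.Avg2
import Pool.Agent.H630VC.Gap

/-! Linear feasibility: programs on graphs. -/

set_option linter.unusedSectionVars false
set_option linter.unusedVariables false

namespace Pool.Agent.W969.MC

open Finset Pool.Agent.H560R2

lemma prog_add {Y : Type} {inp : Set (Y → ℝ)} {l : List (Y → ℝ)} (hl : H630VC.Prog inp l)
    (f : Y → ℝ) (hf : f ∈ inp ∨ f ∈ l) :
    ∃ l' : List (Y → ℝ), H630VC.Prog inp l' ∧ f ∈ l' ∧ (∀ g ∈ l, g ∈ l') ∧
      l'.length ≤ l.length + 1 := by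
  rcases hf with hf | hf
  · exact ⟨f :: l, H630VC.Prog.input hl hf, List.mem_cons_self, fun g hg => List.mem_cons_of_mem _ hg,
      by simp⟩
  · exact ⟨l, hl, hf, fun g hg => hg, by omega⟩

/-- the two kinds of programs -/
lemma prog_of_rprog {X Y : Type} {B : Set (X → ℝ)} {inp : Set (Y → ℝ)} (S : Y → X)
    (hB : ∀ b ∈ B, (fun y => b (S y)) ∈ inp) (hc : ∀ c : ℝ, (fun _ : Y => c) ∈ inp)
    {L : List (X → ℝ)} (h : RProg B L) :
    ∃ l : List (Y → ℝ), H630VC.Prog inp l ∧ (∀ f ∈ L, (fun y => f (S y)) ∈ l) ∧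
      l.length ≤ 3 * L.length := by
  induction h with
  | nil => exact ⟨[], H630VC.Prog.nil, by simp, by simp⟩
  | @gate L w hw φ hφ f hL hf ih =>
    obtain ⟨l, h1, h2, h3⟩ := ih
    have hf' : ∀ j, (fun y => f j (S y)) ∈ inp ∨ (fun y => f j (S y)) ∈ l := by
      intro j
      rcases hf j with h | h
      · exact Or.inl (hB _ h)
      · exact Or.inr (h2 _ h)
    rcases w with _ | _ | _ | w
    · refine ⟨(fun y => φ (fun j => f j (S y))) :: l, ?_, ?_, ?_⟩
      · apply H630VC.Prog.input h1
        have e : (fun y : Y => φ (fun j => f j (S y))) = fun _ => φ (fun j => j.elim0) := by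
          funext y
          congr 1
          funext j
          exact j.elim0
        rw [e]
        exact hc _
      · intro g hg
        rcases List.mem_cons.mp hg with rfl | hg
        · exact List.mem_cons_self
        · exact List.mem_cons_of_mem _ (h2 g hg)
      · simp only [List.length_cons]
        omega
    · obtain ⟨l1, a1, a2, a3, a4⟩ := prog_add h1 _ (hf' 0)
      have hgate := H630VC.Prog.gate (φ := fun a _ => φ (fun _ => a)) a1
        (fun a a' b b' haa _ => hφ (fun _ => haa)) a2 a2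
      refine ⟨_, hgate, ?_, ?_⟩
      · intro g hg
        rcases List.mem_cons.mp hg with rfl | hg
        · have e : (fun y : Y => φ (fun j => f j (S y))) = fun y => φ (fun _ => f 0 (S y)) := by
            funext y
            congr 1
            funext j
            have hj : j = 0 := by
              apply Fin.ext
              have := j.isLt
              simp only [Fin.val_zero]
              omega
            rw [hj]
          rw [e]
          exact List.mem_cons_self
        · exact List.mem_cons_of_mem _ (a3 _ (h2 g hg))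
      · simp only [List.length_cons]
        omega
    · obtain ⟨l1, a1, a2, a3, a4⟩ := prog_add h1 _ (hf' 0)
      obtain ⟨l2, b1, b2, b3, b4⟩ := prog_add a1 (fun y => f 1 (S y)) (by
        rcases hf' 1 with h | h
        · exact Or.inl h
        · exact Or.inr (a3 _ h))
      have hgate := H630VC.Prog.gate (φ := fun a b => φ ![a, b]) b1
        (fun a a' b b' haa hbb => hφ (by
          intro j
          fin_cases j
          · exact haa
          · exact hbb)) (b3 _ a2) b2
      refine ⟨_, hgate, ?_, ?_⟩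
      · intro g hg
        rcases List.mem_cons.mp hg with rfl | hg
        · have e : (fun y : Y => φ (fun j => f j (S y))) =
              fun y => φ ![f 0 (S y), f 1 (S y)] := by
            funext y
            congr 1
            funext j
            fin_cases j
            · rfl
            · rfl
          rw [e]
          exact List.mem_cons_self
        · exact List.mem_cons_of_mem _ (b3 _ (a3 _ (h2 g hg)))
      · simp only [List.length_cons]
        omega
    · omega

/-- the pairs of adjacent vertices -/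
def prs {n : ℕ} (G : SimpleGraph (Fin n)) : Set (Fin n × Fin n) := {z | G.Adj z.1 z.2}

lemma card_natcard {X : Type} {i : Fintype X} : @Fintype.card X i = Nat.card X :=
  (@Nat.card_eq_fintype_card X i).symm

lemma filter_ncard {X : Type} {_ : Fintype X} {p : X → Prop} {_ : DecidablePred p} :
    (univ.filter p).card = {x | p x}.ncard := by
  rw [← Set.ncard_coe_finset]
  congr 1
  ext x
  simp

/-- Markov -/
lemma markov_avg {Ω : Type} {_ : Fintype Ω} [Nonempty Ω] (F : Ω → ℕ) (t : ℕ) (μ : ℝ)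
    (h : H630VC.avg (fun ω => (F ω : ℝ)) ≤ μ) (hμ : 2 * μ ≤ t + 1) :
    {ω | t + 1 ≤ F ω}.ncard * 2 ≤ Nat.card Ω := by
  classical
  unfold H630VC.avg at h
  have hpos : (0 : ℝ) < Fintype.card Ω := by exact_mod_cast Fintype.card_pos
  rw [div_le_iff₀ hpos] at h
  have h1 : ((univ.filter fun ω => t + 1 ≤ F ω).card : ℝ) * (t + 1) ≤ ∑ ω, (F ω : ℝ) := by
    calc ((univ.filter fun ω => t + 1 ≤ F ω).card : ℝ) * (t + 1)
        = ∑ ω ∈ univ.filter (fun ω => t + 1 ≤ F ω), ((t : ℝ) + 1) := by
          rw [Finset.sum_const, nsmul_eq_mul]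
      _ ≤ ∑ ω ∈ univ.filter (fun ω => t + 1 ≤ F ω), (F ω : ℝ) := by
          apply Finset.sum_le_sum
          intro ω hω
          have := (Finset.mem_filter.mp hω).2
          exact_mod_cast this
      _ ≤ ∑ ω, (F ω : ℝ) :=
          Finset.sum_le_sum_of_subset_of_nonneg (Finset.subset_univ _)
            (fun _ _ _ => Nat.cast_nonneg _)
  rw [filter_ncard] at h1
  rw [Nat.card_eq_fintype_card]
  have h2 : (({ω | t + 1 ≤ F ω}.ncard * 2 : ℕ) : ℝ) * (t + 1) ≤ (Fintype.card Ω : ℝ) * (t + 1) := by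
    push_cast
    have h3 : μ * Fintype.card Ω * 2 ≤ Fintype.card Ω * ((t : ℝ) + 1) := by
      calc μ * Fintype.card Ω * 2 = Fintype.card Ω * (2 * μ) := by ring
        _ ≤ _ := mul_le_mul_of_nonneg_left hμ hpos.le
    calc ({ω | t + 1 ≤ F ω}.ncard : ℝ) * 2 * (t + 1) =
        ({ω | t + 1 ≤ F ω}.ncard : ℝ) * (t + 1) * 2 := by ring
      _ ≤ (∑ ω, (F ω : ℝ)) * 2 := by linarith
      _ ≤ μ * Fintype.card Ω * 2 := by linarith
      _ ≤ _ := h3
  have h4 : (0 : ℝ) < (t : ℝ) + 1 := by positivity
  have h5 := le_of_mul_le_mul_right h2 h4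
  exact_mod_cast h5

/-- the average case bound for graphs -/
theorem vc_avg {n L m Q S : ℕ} (hn : 1 ≤ n) (hL : 1 ≤ L) (hm1 : 1 ≤ m) (hQ : 1 ≤ Q)
    (h8 : 8 * (3 * S + 1) ≤ 2 ^ L) (h16 : 16 * (3 * S + 1) * n ^ (4 * L) ≤ 2 ^ m)
    {B : Set (Set (Fin n × Fin n) → ℝ)}
    (hB : ∀ b ∈ B, (fun G : SimpleGraph (Fin n) => b (prs G)) ∈ H630VC.graphInputs (Fin n))
    {l : List (Set (Fin n × Fin n) → ℝ)} (hl : RProg B l) (hlS : l.length ≤ S)
    (f : Set (Fin n × Fin n) → ℝ) (hf : f ∈ B ∨ f ∈ l) (τ : ℝ) :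
    {β : Fin n → Fin (H630VC.cols L Q) | τ ≤ f (prs (H630VC.classGraph β))}.ncard * 8
        ≤ H630VC.cols L Q ^ n ∨
      {ω : H630VC.Om (Fin n) m Q |
        ¬ τ ≤ f (prs (H630VC.touchGraph (H630VC.marked ω)))}.ncard * 16
        ≤ Nat.card (H630VC.Om (Fin n) m Q) := by
  have hne : Nonempty (Fin n) := ⟨⟨0, hn⟩⟩
  obtain ⟨l1, h1, h2, h3⟩ := prog_of_rprog (inp := H630VC.graphInputs (Fin n)) prs hB
    (fun c => Or.inr ⟨c, rfl⟩) hl
  obtain ⟨l2, a1, a2, a3, a4⟩ := prog_add h1 (fun G => f (prs G)) (by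
    rcases hf with h | h
    · exact Or.inl (hB _ h)
    · exact Or.inr (h2 _ h))
  have hlen : l2.length ≤ 3 * S + 1 := by omega
  have e8 : 8 * l2.length ≤ 2 ^ L := (Nat.mul_le_mul_left 8 hlen).trans h8
  have e16 : 16 * l2.length * Fintype.card (Fin n) ^ (4 * L) ≤ 2 ^ m := by
    rw [Fintype.card_fin]
    exact (Nat.mul_le_mul_right _ (Nat.mul_le_mul_left 16 hlen)).trans h16
  have hcore := H630VC.core_avg L m Q hL hm1 hQ a1 a2 τ e8 e16
  rw [filter_ncard, filter_ncard, Fintype.card_fin, card_natcard] at hcore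
  exact hcore

end Pool.Agent.W969.MC
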