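import Pool.Agent.W969.MC.Lp1

/-! Linear feasibility: the systems. -/

set_option linter.unusedSectionVars false
set_option linter.unusedVariables false

namespace Pool.Agent.W969.MC

open Finset Pool.Agent.H560R2

/-- the inequalities of a block -/
abbrev Rw (n : ℕ) : Type := (Fin n × Fin n) ⊕ (Fin n ⊕ Unit)

/-- coefficients in a block -/
def cf0 {n : ℕ} : Rw n → Fin n → ℤ
  | .inl uv, w => if w = uv.1 ∨ w = uv.2 then 1 else 0
  | .inr (.inl v), w => if w = v then 1 else 0
  | .inr (.inr _), _ => -1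

/-- coefficients -/
def cf {K n : ℕ} (z : Fin K × Rw n) (w : Fin K × Fin n) : ℤ :=
  if w.1 = z.1 then cf0 z.2 w.2 else 0

/-- right sides -/
def rh {n : ℕ} (t : ℕ) : Rw n → ℤ
  | .inl _ => 1
  | .inr (.inl _) => 0
  | .inr (.inr _) => -t

/-- the present inequalities have a solution -/
def Fsb {m n : ℕ} (A : Fin m → Fin n → ℤ) (b : Fin m → ℤ) (x : Fin m → Bool) : Prop :=
  ∃ y : Fin n → ℝ, ∀ i, x i = true → (b i : ℝ) ≤ ∑ j, (A i j : ℝ) * y j

section

variable {K n m N t : ℕ} (e : (Fin K × Rw n) ↪ Fin m) (φ : Fin N ≃ Fin K × Fin n)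

open Classical in
/-- the matrix -/
noncomputable def bigA : Fin m → Fin N → ℤ :=
  fun i j => if h : ∃ z, e z = i then cf h.choose (φ j) else 0

open Classical in
/-- the right side -/
noncomputable def bigb (t : ℕ) : Fin m → ℤ :=
  fun i => if h : ∃ z, e z = i then rh t h.choose.2 else 0

lemma bigA_e (z : Fin K × Rw n) (j : Fin N) : bigA e φ (e z) j = cf z (φ j) := by
  classical
  have h : ∃ z', e z' = e z := ⟨z, rfl⟩
  have h2 : h.choose = z := e.injective h.choose_spec
  unfold bigA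
  rw [dif_pos h, h2]

lemma bigb_e (z : Fin K × Rw n) : bigb e t (e z) = rh t z.2 := by
  classical
  have h : ∃ z', e z' = e z := ⟨z, rfl⟩
  have h2 : h.choose = z := e.injective h.choose_spec
  unfold bigb
  rw [dif_pos h, h2]

lemma abs_bigA (i : Fin m) (j : Fin N) : |bigA e φ i j| ≤ 1 := by
  classical
  unfold bigA
  split_ifs with h
  · unfold cf
    split_ifs
    · rcases h.choose.2 with uv | v | u
      · simp only [cf0]
        split_ifs <;> norm_num
      · simp only [cf0]
        split_ifs <;> norm_num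
      · simp [cf0]
    · norm_num
  · norm_num

lemma abs_bigb (i : Fin m) (D : ℕ) (hD : 1 ≤ D) (ht : t ≤ D) : |bigb e t i| ≤ D := by
  classical
  unfold bigb
  split_ifs with h
  · rcases h.choose.2 with uv | v | u
    · simp only [rh]
      rw [abs_one]
      exact_mod_cast hD
    · simp only [rh]
      rw [abs_zero]
      exact_mod_cast Nat.zero_le D
    · simp only [rh]
      rw [abs_neg, Nat.abs_cast]
      exact_mod_cast ht
  · rw [abs_zero]
    exact_mod_cast Nat.zero_le D

open Classical in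
/-- the input bits -/
noncomputable def encL (y : Fin K → Set (Fin n × Fin n)) : Fin m → Bool :=
  fun i => decide (∃ z, e z = i ∧ ∀ uv, z.2 = Sum.inl uv → uv ∈ y z.1)

lemma encL_e (y : Fin K → Set (Fin n × Fin n)) (z : Fin K × Rw n) :
    encL e y (e z) = true ↔ ∀ uv, z.2 = Sum.inl uv → uv ∈ y z.1 := by
  classical
  unfold encL
  rw [decide_eq_true_iff]
  constructor
  · rintro ⟨z', h1, h2⟩
    rw [e.injective h1] at h2
    exact h2
  · intro h
    exact ⟨z, rfl, h⟩

lemma encL_mono {y y' : Fin K → Set (Fin n × Fin n)} (hy : ∀ j, y j ⊆ y' j) :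
    encL e y ≤ encL e y' := by
  classical
  intro i
  rcases hx : encL e y i with _ | _
  · exact Bool.false_le _
  · obtain ⟨z, h1, h2⟩ : ∃ z, e z = i ∧ ∀ uv, z.2 = Sum.inl uv → uv ∈ y z.1 :=
      of_decide_eq_true hx
    have h3 : encL e y' i = true := decide_eq_true ⟨z, h1, fun uv huv => hy _ (h2 uv huv)⟩
    rw [h3]

lemma encL_inputs (y : Fin K → Set (Fin n × Fin n)) (J : Fin K) (b : (Fin m → Bool) → ℝ)
    (hb : b ∈ RB (Fin m)) :
    (fun G : SimpleGraph (Fin n) => b (encL e (Function.update y J (prs G)))) ∈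
      H630VC.graphInputs (Fin n) := by
  classical
  rcases hb with ⟨c, rfl⟩ | ⟨p, rfl⟩
  · exact Or.inr ⟨c, rfl⟩
  by_cases hex : ∃ z, e z = p
  · obtain ⟨z, rfl⟩ := hex
    by_cases hc : ∃ uv : Fin n × Fin n, z.2 = Sum.inl uv ∧ z.1 = J
    · obtain ⟨uv, h1, h2⟩ := hc
      refine Or.inl ⟨uv.1, uv.2, ?_⟩
      funext G
      show (if encL e (Function.update y J (prs G)) (e z) = true then (1 : ℝ) else 0) =
        if G.Adj uv.1 uv.2 then 1 else 0
      have e1 : (encL e (Function.update y J (prs G)) (e z) = true) ↔ G.Adj uv.1 uv.2 := by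
        rw [encL_e, h2, Function.update_self]
        constructor
        · intro h
          exact h uv h1
        · intro h uv' h'
          rw [h1] at h'
          rw [← Sum.inl_injective h']
          exact h
      by_cases hG : G.Adj uv.1 uv.2
      · rw [if_pos (e1.mpr hG), if_pos hG]
      · rw [if_neg (fun h => hG (e1.mp h)), if_neg hG]
    · refine Or.inr ⟨bit (encL e y) (e z), ?_⟩
      funext G
      show (if encL e (Function.update y J (prs G)) (e z) = true then (1 : ℝ) else 0) =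
        if encL e y (e z) = true then 1 else 0
      have e1 : (encL e (Function.update y J (prs G)) (e z) = true) ↔
          (encL e y (e z) = true) := by
        rw [encL_e, encL_e]
        constructor
        · intro h uv huv
          have h3 := h uv huv
          have h4 : z.1 ≠ J := fun h5 => hc ⟨uv, huv, h5⟩
          rwa [Function.update_of_ne h4] at h3
        · intro h uv huv
          have h3 := h uv huv
          have h4 : z.1 ≠ J := fun h5 => hc ⟨uv, huv, h5⟩
          rwa [Function.update_of_ne h4]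
      by_cases hG : encL e y (e z) = true
      · rw [if_pos (e1.mpr hG), if_pos hG]
      · rw [if_neg (fun h => hG (e1.mp h)), if_neg hG]
  · refine Or.inr ⟨0, ?_⟩
    funext G
    show (if encL e (Function.update y J (prs G)) p = true then (1 : ℝ) else 0) = 0
    rw [if_neg]
    intro h
    obtain ⟨z, h1, -⟩ : ∃ z, e z = p ∧ ∀ uv, z.2 = Sum.inl uv →
        uv ∈ Function.update y J (prs G) z.1 := of_decide_eq_true h
    exact hex ⟨z, h1⟩

/-- the sums -/
lemma sum_row (z : Fin K × Rw n) (Y : Fin K × Fin n → ℝ) :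
    ∑ j, (bigA e φ (e z) j : ℝ) * Y (φ j) = ∑ v : Fin n, (cf0 z.2 v : ℝ) * Y (z.1, v) := by
  classical
  simp only [bigA_e]
  rw [Equiv.sum_comp φ (fun w => (cf z w : ℝ) * Y w), Fintype.sum_prod_type]
  rw [Finset.sum_eq_single z.1]
  · apply Finset.sum_congr rfl
    intro v _
    simp [cf]
  · intro k _ hk
    apply Finset.sum_eq_zero
    intro v _
    simp [cf, hk]
  · intro h
    exact absurd (mem_univ _) h

lemma cf_pair (Y : Fin n → ℝ) {u v : Fin n} (h : u ≠ v) :
    ∑ w, (cf0 (Sum.inl (u, v)) w : ℝ) * Y w = Y u + Y v := by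
  classical
  have e1 : ∀ w, (cf0 (Sum.inl (u, v)) w : ℝ) * Y w = (if w = u then Y w else 0) +
      (if w = v then Y w else 0) := by
    intro w
    simp only [cf0]
    by_cases h1 : w = u
    · have h2 : w ≠ v := fun h3 => h (h1.symm.trans h3)
      simp [h1, h]
    · by_cases h2 : w = v
      · simp [h2, h1, h.symm]
      · simp [h1, h2]
  rw [Finset.sum_congr rfl fun w _ => e1 w, Finset.sum_add_distrib]
  simp

lemma cf_var (Y : Fin n → ℝ) (v : Fin n) :
    ∑ w, (cf0 (Sum.inr (Sum.inl v)) w : ℝ) * Y w = Y v := by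
  classical
  simp [cf0]

lemma cf_last (Y : Fin n → ℝ) (u : Unit) :
    ∑ w, (cf0 (Sum.inr (Sum.inr u)) w : ℝ) * Y w = -∑ w, Y w := by
  simp [cf0]

/-- small covers give solutions -/
lemma fsb_of (T : Fin K → Finset (Fin n)) (hT : ∀ k, (T k).card ≤ t)
    (y : Fin K → Set (Fin n × Fin n))
    (hy : ∀ k, ∀ uv ∈ y k, uv.1 ≠ uv.2 ∧ (uv.1 ∈ T k ∨ uv.2 ∈ T k)) :
    Fsb (bigA e φ) (bigb e t) (encL e y) := by
  classical
  set Y : Fin K × Fin n → ℝ := fun w => if w.2 ∈ T w.1 then 1 else 0 with hY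
  have hY0 : ∀ w, 0 ≤ Y w := by
    intro w
    simp only [hY]
    split_ifs <;> norm_num
  refine ⟨fun j => Y (φ j), ?_⟩
  intro i hi
  obtain ⟨z, rfl, hz⟩ : ∃ z, e z = i ∧ ∀ uv, z.2 = Sum.inl uv → uv ∈ y z.1 :=
    of_decide_eq_true hi
  rw [sum_row e φ z Y, bigb_e]
  obtain ⟨k, r⟩ := z
  rcases r with ⟨u, v⟩ | v | u
  · obtain ⟨h1, h2⟩ := hy k _ (hz (u, v) rfl)
    have h3 := cf_pair (fun w => Y (k, w)) h1
    simp only at h3 ⊢
    rw [h3]
    simp only [rh, Int.cast_one]
    rcases h2 with h2 | h2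
    · have : Y (k, u) = 1 := by
        simp only [hY]
        rw [if_pos h2]
      linarith [hY0 (k, v)]
    · have : Y (k, v) = 1 := by
        simp only [hY]
        rw [if_pos h2]
      linarith [hY0 (k, u)]
  · have h3 := cf_var (fun w => Y (k, w)) v
    simp only at h3 ⊢
    rw [h3]
    simp only [rh, Int.cast_zero]
    exact hY0 _
  · have h3 := cf_last (fun w => Y (k, w)) u
    simp only at h3 ⊢
    rw [h3]
    simp only [rh, Int.cast_neg, Int.cast_natCast]
    have h4 : ∑ w : Fin n, Y (k, w) = (T k).card := by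
      simp [hY]
    rw [h4]
    have : ((T k).card : ℝ) ≤ t := by exact_mod_cast hT k
    linarith

/-- unions of few cliques give no solutions -/
lemma not_fsb {B : ℕ} (J : Fin K) (β : Fin n → Fin B) (hB : 2 * t + B < n)
    (y : Fin K → Set (Fin n × Fin n)) (hy : ∀ u v, u ≠ v → β u = β v → (u, v) ∈ y J) :
    ¬ Fsb (bigA e φ) (bigb e t) (encL e y) := by
  classical
  rintro ⟨Y, hY⟩
  set Z : Fin K × Fin n → ℝ := fun w => Y (φ.symm w) with hZ
  have hYZ : ∀ j, Y j = Z (φ j) := by
    intro j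
    simp [hZ]
  have hrow : ∀ z : Fin K × Rw n, (∀ uv, z.2 = Sum.inl uv → uv ∈ y z.1) →
      (rh t z.2 : ℝ) ≤ ∑ v : Fin n, (cf0 z.2 v : ℝ) * Z (z.1, v) := by
    intro z hz
    have h1 := hY (e z) ((encL_e e y z).mpr hz)
    rw [bigb_e] at h1
    simp only [hYZ] at h1
    rwa [sum_row e φ z Z] at h1
  have h0 : ∀ v, 0 ≤ Z (J, v) := by
    intro v
    have h1 := hrow (J, Sum.inr (Sum.inl v)) (by simp)
    have h2 := cf_var (fun w => Z (J, w)) v
    simp only at h1 h2
    rw [h2] at h1
    simpa [rh] using h1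
  have hsum : ∑ v, Z (J, v) ≤ t := by
    have h1 := hrow (J, Sum.inr (Sum.inr ())) (by simp)
    have h2 := cf_last (fun w => Z (J, w)) ()
    simp only at h1 h2
    rw [h2] at h1
    simp only [rh, Int.cast_neg, Int.cast_natCast] at h1
    linarith
  have hcov : H630VC.IsCover (H630VC.classGraph β) (univ.filter fun v => 1 / 2 ≤ Z (J, v)) := by
    intro u v huv
    have h1 := hrow (J, Sum.inl (u, v)) (by
      intro uv huv'
      have := Sum.inl_injective huv'
      rw [← this]
      exact hy u v huv.1 huv.2)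
    have h2 := cf_pair (fun w => Z (J, w)) huv.1
    simp only at h1 h2
    rw [h2] at h1
    simp only [rh, Int.cast_one] at h1
    by_contra hcon
    push Not at hcon
    have h3 : ¬ 1 / 2 ≤ Z (J, u) := fun h => hcon.1 (Finset.mem_filter.2 ⟨mem_univ _, h⟩)
    have h4 : ¬ 1 / 2 ≤ Z (J, v) := fun h => hcon.2 (Finset.mem_filter.2 ⟨mem_univ _, h⟩)
    push Not at h3 h4
    linarith
  have hcard := H630VC.card_cover_classGraph β _ hcov
  rw [Fintype.card_fin] at hcard
  have h1 : ((univ.filter fun v => 1 / 2 ≤ Z (J, v)).card : ℝ) / 2 ≤ ∑ v, Z (J, v) := by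
    calc ((univ.filter fun v => 1 / 2 ≤ Z (J, v)).card : ℝ) / 2
        = ∑ v ∈ univ.filter (fun v => 1 / 2 ≤ Z (J, v)), (1 / 2 : ℝ) := by
          rw [Finset.sum_const, nsmul_eq_mul]
          ring
      _ ≤ ∑ v ∈ univ.filter (fun v => 1 / 2 ≤ Z (J, v)), Z (J, v) :=
          Finset.sum_le_sum fun v hv => (Finset.mem_filter.1 hv).2
      _ ≤ ∑ v, Z (J, v) := Finset.sum_le_sum_of_subset_of_nonneg (Finset.subset_univ _)
          fun v _ _ => h0 v
  have h2 : ((univ.filter fun v => 1 / 2 ≤ Z (J, v)).card : ℝ) ≤ 2 * t := by linarith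
  have h3 : (univ.filter fun v => 1 / 2 ≤ Z (J, v)).card ≤ 2 * t := by exact_mod_cast h2
  omega

end

end Pool.Agent.W969.MC
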