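import Pool.Agent.W969.MC.Lp2

/-! Linear feasibility: the lower bound with integer parameters. -/

set_option linter.unusedSectionVars false
set_option linter.unusedVariables false

namespace Pool.Agent.W969.MC

open Finset Pool.Agent.H560R2

theorem lp_param {K n m N L mm Q S t : ℕ} (hn : 1 ≤ n) (hL : 1 ≤ L) (hm1 : 1 ≤ mm) (hQ : 1 ≤ Q)
    (h8 : 8 * (3 * S + 1) ≤ 2 ^ L) (h16 : 16 * (3 * S + 1) * n ^ (4 * L) ≤ 2 ^ mm)
    (ht : 2 * ((n : ℝ) * mm / Q) ≤ t + 1) (hcols : 2 * t + H630VC.cols L Q < n)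
    (e : (Fin K × Rw n) ↪ Fin m) (φ : Fin N ≃ Fin K × Fin n)
    {R : Type} [Fintype R] [Nonempty R] (C : R → RC (Fin m)) (A0 : ℝ)
    (hyes : ∀ x, ¬ Fsb (bigA e φ) (bigb e t) x →
      (A0 + 1 / 3) * Fintype.card R ≤ ({r : R | (C r).acc x}.ncard : ℝ))
    (hno : ∀ x, Fsb (bigA e φ) (bigb e t) x →
      ({r : R | (C r).acc x}.ncard : ℝ) ≤ A0 * Fintype.card R)
    (hfree : ∀ r, ((C r).free : ℝ) ≤ (1 / 6) * K)
    (hsize : ∀ r, (C r).size ≤ S) : False := by
  classical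
  have hO : Nonempty (H630VC.Om (Fin n) mm Q) := H630VC.nonempty_om mm Q hQ
  have hmk := markov_avg (fun ω : H630VC.Om (Fin n) mm Q => (H630VC.marked ω).card) t _
    (H630VC.avg_marked mm Q hQ) (by rw [Fintype.card_fin]; exact ht)
  set g0 : Set (H630VC.Om (Fin n) mm Q) := {ω | (H630VC.marked ω).card ≤ t} with hg0
  have hcompl : g0ᶜ = {ω | t + 1 ≤ (H630VC.marked ω).card} := by
    ext ω
    simp only [hg0, Set.mem_compl_iff, Set.mem_ofPred_eq]
    omega
  have hadd := Set.ncard_add_ncard_compl g0 (Set.toFinite _)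
  rw [hcompl] at hadd
  have hOpos : 0 < Nat.card (H630VC.Om (Fin n) mm Q) := Nat.card_pos
  have hg2 : Nat.card (H630VC.Om (Fin n) mm Q) ≤ 2 * g0.ncard := by omega
  have hgpos : 0 < g0.ncard := by omega
  have hgne : Nonempty g0 := by
    rw [← Nat.card_coe_set_eq] at hgpos
    exact (Nat.card_pos_iff.mp hgpos).1
  letI : Fintype g0 := Fintype.ofFinite g0
  have hgcard : Fintype.card g0 = g0.ncard := by
    rw [← Nat.card_eq_fintype_card, Nat.card_coe_set_eq]
  have hc1 : 0 < H630VC.cols L Q := by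
    unfold H630VC.cols
    positivity
  have hpne : Nonempty (Fin n → Fin (H630VC.cols L Q)) := ⟨fun _ => ⟨0, hc1⟩⟩
  obtain ⟨r, y, J, L', G, h1, h2, h3, h4⟩ := rand_core (Ωn := g0)
    (Ωp := Fin n → Fin (H630VC.cols L Q)) C (fun y => encL e y)
    (fun y y' hy => encL_mono e hy)
    (fun ω => prs (H630VC.touchGraph (H630VC.marked ω.1)))
    (fun β => prs (H630VC.classGraph β)) A0 (1 / 3) (by norm_num)
    (by
      intro y J β _
      apply hyes
      refine not_fsb e φ J β hcols _ ?_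
      intro u v huv hβ
      rw [Function.update_self]
      exact ⟨huv, hβ⟩)
    (by
      intro y hy
      apply hno
      have hy' : ∀ k, ∃ T : Finset (Fin n), T.card ≤ t ∧
          ∀ uv ∈ y k, uv.1 ≠ uv.2 ∧ (uv.1 ∈ T ∨ uv.2 ∈ T) := by
        intro k
        rcases hy k with h | ⟨ω, h⟩
        · refine ⟨∅, by simp, ?_⟩
          intro uv huv
          rw [h] at huv
          exact absurd huv (Set.notMem_empty _)
        · refine ⟨H630VC.marked ω.1, ω.2, ?_⟩
          intro uv huv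
          rw [h] at huv
          exact huv
      choose T hT1 hT2 using hy'
      exact fsb_of e φ T hT1 y hT2)
    (by
      intro r
      refine (hfree r).trans (le_of_eq ?_)
      ring)
  have hv := vc_avg hn hL hm1 hQ h8 h16
    (B := {h | ∃ b ∈ RB (Fin m), h = fun X => b (encL e (Function.update y J X))})
    (by
      rintro b ⟨b0, hb0, rfl⟩
      exact encL_inputs e y J b0 hb0) h1 (h3.trans (hsize r)) G h2 ((C r).τ)
  have hgR : (0 : ℝ) < Fintype.card g0 := by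
    rw [hgcard]
    exact_mod_cast hgpos
  have hpR : (0 : ℝ) < Fintype.card (Fin n → Fin (H630VC.cols L Q)) := by
    exact_mod_cast Fintype.card_pos
  rcases hv with hv | hv
  · have h5 : ({p : Fin n → Fin (H630VC.cols L Q) |
        (C r).τ ≤ G (prs (H630VC.classGraph p))}.ncard : ℝ) /
        Fintype.card (Fin n → Fin (H630VC.cols L Q)) ≤ 1 / 8 := by
      rw [div_le_iff₀ hpR]
      have h6 : Fintype.card (Fin n → Fin (H630VC.cols L Q)) = H630VC.cols L Q ^ n := by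
        rw [Fintype.card_fun, Fintype.card_fin, Fintype.card_fin]
      rw [h6]
      have h7 : (({p : Fin n → Fin (H630VC.cols L Q) |
        (C r).τ ≤ G (prs (H630VC.classGraph p))}.ncard * 8 : ℕ) : ℝ) ≤
          ((H630VC.cols L Q ^ n : ℕ) : ℝ) := by exact_mod_cast hv
      rw [Nat.cast_mul] at h7
      have h8' : ((8 : ℕ) : ℝ) = 8 := by norm_num
      rw [h8'] at h7
      linarith
    have h6 : (0 : ℝ) ≤ ({ω : g0 | (C r).τ ≤
        G (prs (H630VC.touchGraph (H630VC.marked ω.1)))}.ncard : ℝ) / Fintype.card g0 := by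
      positivity
    linarith
  · have h5 : ({p : Fin n → Fin (H630VC.cols L Q) |
        (C r).τ ≤ G (prs (H630VC.classGraph p))}.ncard : ℝ) /
        Fintype.card (Fin n → Fin (H630VC.cols L Q)) ≤ 1 := by
      rw [div_le_one hpR]
      have h6 := Set.ncard_le_ncard (Set.subset_univ {p : Fin n → Fin (H630VC.cols L Q) |
        (C r).τ ≤ G (prs (H630VC.classGraph p))}) (Set.toFinite _)
      rw [Set.ncard_univ, Nat.card_eq_fintype_card] at h6
      exact_mod_cast h6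
    have h6 : {ω : g0 | ¬ (C r).τ ≤
        G (prs (H630VC.touchGraph (H630VC.marked ω.1)))}.ncard ≤
        {ω : H630VC.Om (Fin n) mm Q | ¬ (C r).τ ≤
          G (prs (H630VC.touchGraph (H630VC.marked ω)))}.ncard := by
      refine Set.ncard_le_ncard_of_injOn (fun ω : g0 => ω.1) ?_ ?_ (Set.toFinite _)
      · intro ω hω
        exact hω
      · intro ω _ ω' _ hh
        exact Subtype.ext hh
    have h7 := Set.ncard_add_ncard_compl {ω : g0 | (C r).τ ≤
        G (prs (H630VC.touchGraph (H630VC.marked ω.1)))} (Set.toFinite _)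
    have e7 : {ω : g0 | (C r).τ ≤ G (prs (H630VC.touchGraph (H630VC.marked ω.1)))}ᶜ =
      {ω : g0 | ¬ (C r).τ ≤ G (prs (H630VC.touchGraph (H630VC.marked ω.1)))} := rfl
    rw [e7, Nat.card_coe_set_eq] at h7
    have h8' : 7 * g0.ncard ≤ 8 * {ω : g0 | (C r).τ ≤
        G (prs (H630VC.touchGraph (H630VC.marked ω.1)))}.ncard := by omega
    have h9 : (7 : ℝ) / 8 ≤ ({ω : g0 | (C r).τ ≤
        G (prs (H630VC.touchGraph (H630VC.marked ω.1)))}.ncard : ℝ) / Fintype.card g0 := by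
      rw [le_div_iff₀ hgR, hgcard]
      have h10 : (7 : ℝ) * g0.ncard ≤ 8 * ({ω : g0 | (C r).τ ≤
        G (prs (H630VC.touchGraph (H630VC.marked ω.1)))}.ncard : ℝ) := by exact_mod_cast h8'
      linarith
    linarith

/-- an elementary estimate -/
lemma sq_le_two_pow (s : ℕ) : (s + 1) ^ 2 ≤ 2 ^ (s + 2) := by
  induction s with
  | zero => norm_num
  | succ s ih =>
    rcases s with _ | _ | s
    · norm_num
    · norm_num
    · have h1 : (s + 1 + 1 + 1 + 1) ^ 2 ≤ 2 * (s + 1 + 1 + 1) ^ 2 := by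
        have e : 2 * (s + 1 + 1 + 1) ^ 2 = (s + 1 + 1 + 1 + 1) ^ 2 + (s ^ 2 + 4 * s + 2) := by ring
        rw [e]
        exact Nat.le_add_right _ _
      calc (s + 1 + 1 + 1 + 1) ^ 2 ≤ 2 * (s + 1 + 1 + 1) ^ 2 := h1
        _ ≤ 2 * 2 ^ (s + 1 + 1 + 2) := Nat.mul_le_mul_left 2 ih
        _ = 2 ^ (s + 1 + 1 + 1 + 2) := by
          rw [show s + 1 + 1 + 1 + 2 = (s + 1 + 1 + 2) + 1 by ring, pow_succ]
          ring

/-- the number of colours is small -/
lemma cols_le (L s : ℕ) (hL : 1 ≤ L) (hs : L ≤ 2 ^ s) :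
    H630VC.cols L (16 * (4 * L * (7 * s + 44) + L + 1)) ≤ 2 ^ (7 * s + 43) := by
  set lam := 7 * s + 44 with hlam
  have h1 : 4 * L * lam + L + 1 ≤ 6 * L * lam := by
    have : 1 * (2 * L) ≤ lam * (2 * L) := Nat.mul_le_mul_right _ (by omega)
    nlinarith
  have h2 : 4 * (4 * (2 * L) * (2 * L + 1) * (16 * (4 * L * lam + L + 1))) ≤
      9216 * (L ^ 3 * lam) := by
    calc 4 * (4 * (2 * L) * (2 * L + 1) * (16 * (4 * L * lam + L + 1)))
        ≤ 4 * (4 * (2 * L) * (3 * L) * (16 * (6 * L * lam))) := by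
          apply Nat.mul_le_mul_left
          apply Nat.mul_le_mul
          · exact Nat.mul_le_mul_left _ (by omega)
          · exact Nat.mul_le_mul_left _ h1
      _ = 9216 * (L ^ 3 * lam) := by ring
  unfold H630VC.cols
  calc (4 * (4 * (2 * L) * (2 * L + 1) * (16 * (4 * L * lam + L + 1)))) ^ 2
      ≤ (9216 * (L ^ 3 * lam)) ^ 2 := Nat.pow_le_pow_left h2 2
    _ = 84934656 * (L ^ 6 * lam ^ 2) := by ring
    _ ≤ 2 ^ 27 * ((2 ^ s) ^ 6 * (2 ^ 11 * 2 ^ (s + 2))) := by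
        apply Nat.mul_le_mul (by norm_num)
        apply Nat.mul_le_mul (Nat.pow_le_pow_left hs 6)
        have h3 : lam ^ 2 ≤ 2 ^ 11 * (s + 1) ^ 2 := by
          have h4 : lam ≤ 44 * (s + 1) := by omega
          calc lam ^ 2 ≤ (44 * (s + 1)) ^ 2 := Nat.pow_le_pow_left h4 2
            _ = 1936 * (s + 1) ^ 2 := by ring
            _ ≤ 2 ^ 11 * (s + 1) ^ 2 := Nat.mul_le_mul_right _ (by norm_num)
        exact h3.trans (Nat.mul_le_mul_left _ (sq_le_two_pow s))
    _ = 2 ^ (7 * s + 40) := by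
        rw [← pow_mul, ← pow_add, ← pow_add, ← pow_add]
        congr 1
        ring
    _ ≤ 2 ^ (7 * s + 43) := Nat.pow_le_pow_right (by norm_num) (by omega)

/-- the main theorem -/
theorem lp_main : ∃ Cst : ℕ, 0 < Cst ∧ ∀ m l : ℕ, 1 ≤ l → ∀ F : ℝ, 1 ≤ F →
    (Cst : ℝ) * l ^ 14 * F ≤ m →
    ∃ (N : ℕ) (A : Fin m → Fin N → ℤ) (b : Fin m → ℤ), N ≤ m ∧ (∀ i j, |A i j| ≤ 1) ∧
      (∀ i, |b i| ≤ N) ∧
      ∀ (R : Type) [Fintype R] [Nonempty R] (C : R → RC (Fin m)) (A0 : ℝ),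
        (∀ x, ¬ Fsb A b x → (A0 + 1 / 3) * Fintype.card R ≤ ({r : R | (C r).acc x}.ncard : ℝ)) →
        (∀ x, Fsb A b x → ({r : R | (C r).acc x}.ncard : ℝ) ≤ A0 * Fintype.card R) →
        (∀ r, ((C r).free : ℝ) ≤ F) →
        ∃ r, 2 ^ l < (C r).size := by
  classical
  obtain ⟨c0, hc0, hc1⟩ : ∃ c0 : ℕ, 0 < c0 ∧ ∀ l : ℕ, 2 ^ 88 * (2 * (6 * l)) ^ 14 ≤ c0 * l ^ 14 := by
    refine ⟨2 ^ 88 * (2 * 6) ^ 14, by positivity, fun l => le_of_eq ?_⟩
    rw [← mul_assoc 2 6 l, mul_pow, mul_assoc]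
  refine ⟨21 * c0, by positivity, ?_⟩
  intro m l hl F hF hm
  obtain ⟨L, hL⟩ : ∃ L, L = l + 5 := ⟨_, rfl⟩
  obtain ⟨s, hs⟩ : ∃ s, s = Nat.clog 2 L := ⟨_, rfl⟩
  obtain ⟨lam, hlam⟩ : ∃ lam, lam = 7 * s + 44 := ⟨_, rfl⟩
  obtain ⟨n, hn⟩ : ∃ n, n = 2 ^ lam := ⟨_, rfl⟩
  obtain ⟨mm, hmm⟩ : ∃ mm, mm = 4 * L * lam + L + 1 := ⟨_, rfl⟩
  obtain ⟨Q, hQ⟩ : ∃ Q, Q = 16 * mm := ⟨_, rfl⟩
  obtain ⟨t, ht⟩ : ∃ t, t = 2 ^ (lam - 3) := ⟨_, rfl⟩
  have hLs : L ≤ 2 ^ s := by
    rw [hs]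
    exact Nat.le_pow_clog (by norm_num) L
  have hs2 : 2 ^ s ≤ 2 * L := by
    have h1 : 1 < L := by omega
    have h2 := Nat.pow_pred_clog_lt_self (b := 2) (by norm_num) h1
    rw [← hs] at h2
    clear hmm hn ht
    have h3 : 1 ≤ s := by
      by_contra h0
      have h00 : s = 0 := by omega
      rw [h00] at hLs
      omega
    obtain ⟨s', hs'⟩ : ∃ s', s = s' + 1 := ⟨s - 1, by omega⟩
    rw [hs'] at h2 ⊢
    rw [Nat.pred_succ] at h2
    rw [pow_succ]
    omega
  have hn1 : 1 ≤ n := by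
    rw [hn]
    exact Nat.one_le_two_pow
  have hn8 : n = 8 * t := by
    rw [hn, ht]
    obtain ⟨lam', hlam'⟩ : ∃ lam', lam = lam' + 3 := ⟨lam - 3, by omega⟩
    rw [hlam', Nat.add_sub_cancel, pow_add]
    ring
  have ht1 : 1 ≤ t := by
    rw [ht]
    exact Nat.one_le_two_pow
  have hrows : n * n + (n + 1) ≤ 3 * (n * n) := by nlinarith
  have hn2 : (n * n : ℕ) ≤ c0 * l ^ 14 := by
    calc n * n = 2 ^ 88 * (2 ^ s) ^ 14 := by
          rw [hn, ← pow_add, ← pow_mul, ← pow_add]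
          congr 1
          omega
      _ ≤ 2 ^ 88 * (2 * (6 * l)) ^ 14 := by
          apply Nat.mul_le_mul_left
          apply Nat.pow_le_pow_left
          omega
      _ ≤ c0 * l ^ 14 := hc1 l
  obtain ⟨K, hK⟩ : ∃ K, K = m / (n * n + (n + 1)) := ⟨_, rfl⟩
  have hKm : K * (n * n + (n + 1)) ≤ m := by
    rw [hK]
    exact Nat.div_mul_le_self _ _
  have hK2 : (m : ℝ) < (K + 1) * (n * n + (n + 1) : ℕ) := by
    have h1 : m < (K + 1) * (n * n + (n + 1)) := by
      have := Nat.lt_div_mul_add (a := m) (b := n * n + (n + 1)) (by positivity)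
      rw [← hK] at this
      calc m < K * (n * n + (n + 1)) + (n * n + (n + 1)) := this
        _ = _ := by ring
    exact_mod_cast h1
  have hK6 : 6 * F ≤ K := by
    have h1 : 21 * ((n * n : ℕ) : ℝ) * F ≤ m := by
      refine le_trans ?_ hm
      have h2 : ((n * n : ℕ) : ℝ) ≤ ((c0 * l ^ 14 : ℕ) : ℝ) := by exact_mod_cast hn2
      calc 21 * ((n * n : ℕ) : ℝ) * F ≤ 21 * ((c0 * l ^ 14 : ℕ) : ℝ) * F := by
            apply mul_le_mul_of_nonneg_right _ (by linarith)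
            linarith
        _ = ((21 * c0 : ℕ) : ℝ) * l ^ 14 * F := by
            push_cast
            ring
    have h2 : ((n * n + (n + 1) : ℕ) : ℝ) ≤ 3 * ((n * n : ℕ) : ℝ) := by exact_mod_cast hrows
    have h3 : (0 : ℝ) < ((n * n : ℕ) : ℝ) := by
      have : 0 < n * n := by positivity
      exact_mod_cast this
    have h4 : 21 * ((n * n : ℕ) : ℝ) * F < (K + 1) * (3 * ((n * n : ℕ) : ℝ)) := by
      calc 21 * ((n * n : ℕ) : ℝ) * F ≤ m := h1
        _ < (K + 1) * (n * n + (n + 1) : ℕ) := hK2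
        _ ≤ _ := mul_le_mul_of_nonneg_left h2 (by positivity)
    have h5 : 7 * F * (3 * ((n * n : ℕ) : ℝ)) < (K + 1) * (3 * ((n * n : ℕ) : ℝ)) := by linarith
    have h6 := lt_of_mul_lt_mul_right h5 (by positivity)
    linarith
  have hK1 : 1 ≤ K := by
    have : (1 : ℝ) ≤ K := by linarith
    exact_mod_cast this
  -- the rows
  have hcard : Fintype.card (Fin K × Rw n) ≤ Fintype.card (Fin m) := by
    simp only [Fintype.card_prod, Fintype.card_sum, Fintype.card_fin, Fintype.card_unit]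
    exact hKm
  obtain ⟨e⟩ := Function.Embedding.nonempty_of_card_le hcard
  have φ : Fin (K * n) ≃ Fin K × Fin n := finProdFinEquiv.symm
  have hnKn : n ≤ K * n := Nat.le_mul_of_pos_left _ hK1
  refine ⟨K * n, bigA e φ, bigb e t, ?_, fun i j => abs_bigA e φ i j,
    fun i => abs_bigb e i (K * n) (by omega) (by omega), ?_⟩
  · refine le_trans (Nat.mul_le_mul_left K ?_) hKm
    omega
  intro R _ _ C A0 hyes hno hfree
  by_contra hcon
  push Not at hcon
  have hS : 3 * 2 ^ l + 1 ≤ 2 ^ (l + 2) := by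
    have : 1 ≤ 2 ^ l := Nat.one_le_two_pow
    rw [pow_add]
    omega
  refine lp_param (K := K) (n := n) (m := m) (N := K * n) (L := L) (mm := mm) (Q := Q)
    (S := 2 ^ l) (t := t) hn1 (by omega) (by omega) (by omega) ?_ ?_ ?_ ?_ e φ C A0 hyes hno ?_ hcon
  · calc 8 * (3 * 2 ^ l + 1) ≤ 8 * 2 ^ (l + 2) := Nat.mul_le_mul_left _ hS
      _ = 2 ^ L := by
        rw [hL, show l + 5 = (l + 2) + 3 by ring, pow_add _ (l + 2)]
        ring
  · calc 16 * (3 * 2 ^ l + 1) * n ^ (4 * L) ≤ 16 * 2 ^ (l + 2) * n ^ (4 * L) :=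
        Nat.mul_le_mul_right _ (Nat.mul_le_mul_left _ hS)
      _ = 2 ^ mm := by
        rw [hn, ← pow_mul, show (16 : ℕ) = 2 ^ 4 by norm_num, ← pow_add, ← pow_add]
        congr 1
        rw [hmm, hL]
        ring
  · have h1 : (n : ℝ) * mm / Q = t / 2 := by
      have h2 : (0 : ℝ) < mm := by
        have : 0 < mm := by omega
        exact_mod_cast this
      rw [hQ, hn8]
      push_cast
      field_simp
      norm_num
    rw [h1]
    linarith
  · have h1 := cols_le L s (by omega) hLs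
    have h2 : 2 ^ (7 * s + 43) = 4 * t := by
      rw [ht, show 7 * s + 43 = (lam - 3) + 2 by omega, pow_add]
      ring
    have h3 : H630VC.cols L Q ≤ 4 * t := by
      rw [← h2, hQ, hmm, hlam]
      exact h1
    omega
  · intro r
    refine (hfree r).trans ?_
    linarith

end Pool.Agent.W969.MC
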