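import Pool.Agent.W969.MC.Par4

/-! The choice of the parameters for many copies, the block length first. -/

namespace Pool.Agent.W969.MC

open Finset

theorem pars_curve5 (u s : ℕ) (hs : 1 ≤ s) (ε : ℝ) (hε : 0 < ε) (hε1 : ε ≤ 1) :
    ∃ b2 : ℕ, ∃ δ : ℝ, 0 < δ ∧ ∃ l0 : ℕ, ∀ (n l : ℕ) (F : ℝ), l0 ≤ l → l ≤ n →
      (l : ℝ) ^ (s + 1) * max F ((n : ℝ) ^ u) ≤ (n : ℝ) ^ ((u : ℝ) + s - ε) →
    ∃ b q M m sx w K1 K : ℕ, Pars s b2 b q M m sx w ∧ 2 ≤ b2 ∧ u + s * M ≤ l ∧
      w / (2 * b) / b + 1 ≤ l ∧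
      2 * (u * K1 + K * (M * (s * q ^ b2))) ≤ n ∧
      (n : ℝ) ^ δ * F ≤ ((K1 ^ u * K ^ s : ℕ) : ℝ) ∧
      ∀ z : ℕ, (z : ℝ) < (n : ℝ) ^ (δ * l) → z ≤ (q + 1) ^ m ∧
        8 * z * 2 ^ (w / (2 * b) / b + 1) < q ^ (w / (2 * b) / b + 1) := by
  have hsR : (1 : ℝ) ≤ s := by exact_mod_cast hs
  obtain ⟨b2, hb2⟩ := exists_nat_ge (40 / ε + 10)
  have h40 : 0 < 40 / ε := by positivity
  have hb2R : (10 : ℝ) ≤ b2 := by linarith
  have hb2N : 10 ≤ b2 := by exact_mod_cast hb2R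
  have hsb : b2 ≤ s * b2 := Nat.le_mul_of_pos_left _ hs
  obtain ⟨b3, hb3⟩ : ∃ b3, s * b2 = b3 + 5 := ⟨s * b2 - 5, by omega⟩
  obtain ⟨b, hb⟩ : ∃ b, b = b3 + 3 := ⟨_, rfl⟩
  have hb3R : 40 / ε + 5 ≤ (b3 : ℝ) := by
    have h1 : (b2 : ℝ) ≤ b3 + 5 := by exact_mod_cast (by omega : b2 ≤ b3 + 5)
    linarith
  have hb3pos : (0 : ℝ) < b3 := by linarith
  have hb3e : 10 / (b3 : ℝ) ≤ ε / 4 := by
    rw [div_le_iff₀ hb3pos]
    have h1 : 40 / ε ≤ (b3 : ℝ) := by linarith
    rw [div_le_iff₀ hε] at h1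
    linarith
  have hb8 : 8 ≤ b := by
    have h1 : (5 : ℝ) ≤ b3 := by linarith
    have h2 : 5 ≤ b3 := by exact_mod_cast h1
    omega
  obtain ⟨Kc, hKc⟩ : ∃ Kc, Kc = 18 * 3 ^ b * b ^ 2 := ⟨_, rfl⟩
  have hKpos : 0 < Kc := by rw [hKc]; positivity
  set r : ℕ := s + 1 with hr
  have hrR : (2 : ℝ) ≤ r := by
    rw [hr]; push_cast; linarith
  set θ1 : ℝ := ε / 4 with hθ1
  set θ2 : ℝ := θ1 + 10 / b3 with hθ2
  have hθ2e : θ2 ≤ ε / 2 := by rw [hθ2, hθ1]; linarith
  set θ : ℝ := θ1 / b3 with hθ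
  have hθ1pos : 0 < θ1 := by rw [hθ1]; positivity
  have hθpos : 0 < θ := by rw [hθ]; positivity
  set D : ℝ := 32 * r * Kc * b ^ 2 with hD
  have hbpos : (0 : ℝ) < b := by
    have : 0 < b := by omega
    exact_mod_cast this
  have hKR : (1 : ℝ) ≤ Kc := by exact_mod_cast hKpos
  have hDpos : 0 < D := by rw [hD]; positivity
  set C0 : ℝ := 2 ^ (b3 + 5) with hC0
  have hC0pos : 0 < C0 := by rw [hC0]; positivity
  set C1 : ℝ := 4 ^ s * C0 with hC1
  set C2 : ℝ := (8 * ((u : ℝ) + 1)) ^ u * 8 ^ s * C0 with hC2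
  obtain ⟨l1, hl1⟩ := ev_rpow (η := θ / 2) (by positivity) 16
  obtain ⟨l2, hl2⟩ := ev_rpow (η := θ1 / 2) (by positivity) (1024 * (2 / (θ1 / 2) + 1))
  obtain ⟨l3, hl3⟩ := ev_rpow (η := ε / 2) (by positivity) C1
  obtain ⟨l4, hl4⟩ := ev_rpow (η := ε / 4) (by positivity) C2
  refine ⟨b2, min (ε / 4) (θ / D), lt_min (by positivity) (by positivity),
    max (max (max l1 l2) (max l3 l4)) (4 * r * Kc * (b * (b + 2) + 1) + 4 * r * (u + 1)), ?_⟩
  intro n l F hl hln' hmain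
  have hll1 : l1 ≤ l := (le_max_left _ _).trans ((le_max_left _ _).trans
    ((le_max_left _ _).trans hl))
  have hll2 : l2 ≤ l := (le_max_right _ _).trans ((le_max_left _ _).trans
    ((le_max_left _ _).trans hl))
  have hll3 : l3 ≤ l := (le_max_left _ _).trans ((le_max_right _ _).trans
    ((le_max_left _ _).trans hl))
  have hll4 : l4 ≤ l := (le_max_right _ _).trans ((le_max_right _ _).trans
    ((le_max_left _ _).trans hl))
  have hll5 : 4 * r * Kc * (b * (b + 2) + 1) + 4 * r * (u + 1) ≤ l := (le_max_right _ _).trans hl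
  obtain ⟨M, m, sx, w, j0, f1, f2, f3, f4, f5, f6, f7, f8, f9, f10, f11, hj0⟩ :=
    floors' (r := r) (by omega) (by omega : 2 ≤ b) hKpos
      ((Nat.le_add_right _ _).trans hll5)
  have hl0 : 0 < l := by
    have : 0 < 4 * r * (u + 1) := by positivity
    omega
  have hlR : (1 : ℝ) ≤ l := by exact_mod_cast hl0
  have hlpos : (0 : ℝ) < l := by linarith
  have hnl : (l : ℝ) ≤ n := by exact_mod_cast hln'
  have hnR : (1 : ℝ) ≤ n := hlR.trans hnl
  have hnpos : (0 : ℝ) < n := by linarith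
  -- u ≤ M
  have hum : u + 1 ≤ m := by
    have h1 : 4 * r * (u + 1) ≤ 4 * r * m := by
      have : 4 * r * (u + 1) ≤ l := (Nat.le_add_left _ _).trans hll5
      exact this.trans f8
    exact Nat.le_of_mul_le_mul_left h1 (by positivity)
  have husM : u + s * M ≤ l := by
    have h1 : u ≤ M := by omega
    calc u + s * M ≤ M + s * M := Nat.add_le_add_right h1 _
      _ = r * M := by rw [hr]; ring
      _ ≤ l := f4
  have hsM : s * M ≤ l := by omega
  -- powers of n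
  have hnr : (l : ℝ) ^ (s + 1) ≤ (n : ℝ) ^ ((s : ℝ) - ε) := by
    have h1 : (l : ℝ) ^ (s + 1) * (n : ℝ) ^ u ≤ (n : ℝ) ^ ((u : ℝ) + s - ε) := by
      refine le_trans ?_ hmain
      exact mul_le_mul_of_nonneg_left (le_max_right _ _) (by positivity)
    have h2 : (n : ℝ) ^ ((u : ℝ) + s - ε) = (n : ℝ) ^ ((s : ℝ) - ε) * (n : ℝ) ^ u := by
      rw [← Real.rpow_natCast (n : ℝ) u, ← Real.rpow_add hnpos]
      congr 1
      ring
    rw [h2] at h1
    exact le_of_mul_le_mul_right h1 (by positivity)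
  -- the alphabet
  set X : ℝ := l * (n : ℝ) ^ θ1 with hX
  have hnθ1 : (1 : ℝ) ≤ (n : ℝ) ^ θ1 := Real.one_le_rpow hnR hθ1pos.le
  have hX1 : 1 ≤ X := by
    rw [hX]
    calc (1 : ℝ) = 1 * 1 := by ring
      _ ≤ l * (n : ℝ) ^ θ1 := mul_le_mul hlR hnθ1 (by norm_num) (by positivity)
  have hXpos : 0 < X := by linarith
  have hX2 : X ≤ (n : ℝ) ^ (2 : ℝ) := by
    rw [hX]
    have h1 : (n : ℝ) ^ θ1 ≤ (n : ℝ) ^ (1 : ℝ) := by
      apply Real.rpow_le_rpow_of_exponent_le hnR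
      rw [hθ1]; linarith
    rw [Real.rpow_one] at h1
    calc (l : ℝ) * (n : ℝ) ^ θ1 ≤ n * n := mul_le_mul hnl h1 (by positivity) hnpos.le
      _ = (n : ℝ) ^ (2 : ℝ) := by
        rw [Real.rpow_two]
        ring
  set Z : ℝ := X ^ (1 / (b3 : ℝ)) with hZ
  have hZ1 : 1 ≤ Z := Real.one_le_rpow hX1 (by positivity)
  have hZb : Z ^ b3 = X := by
    rw [hZ, ← Real.rpow_natCast, ← Real.rpow_mul hXpos.le, one_div_mul_cancel hb3pos.ne',
      Real.rpow_one]
  have hZ5 : Z ^ 5 ≤ (n : ℝ) ^ (10 / (b3 : ℝ)) := by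
    rw [hZ, ← Real.rpow_natCast, ← Real.rpow_mul hXpos.le]
    calc X ^ (1 / (b3 : ℝ) * ((5 : ℕ) : ℝ)) ≤ ((n : ℝ) ^ (2 : ℝ)) ^ (1 / (b3 : ℝ) * ((5 : ℕ) : ℝ)) :=
          Real.rpow_le_rpow hXpos.le hX2 (by positivity)
      _ = (n : ℝ) ^ (10 / (b3 : ℝ)) := by
        rw [← Real.rpow_mul hnpos.le]
        congr 1
        push_cast
        ring
  set q : ℕ := ⌈Z⌉₊ with hq
  have hq1 : Z ≤ q := Nat.le_ceil _
  have hq2 : (q : ℝ) ≤ 2 * Z := by
    have h1 : (q : ℝ) < Z + 1 := Nat.ceil_lt_add_one (by linarith)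
    linarith
  have hqpos : (0 : ℝ) < q := by linarith
  have hqX : X ≤ (q : ℝ) ^ b3 := by
    rw [← hZb]
    exact pow_le_pow_left₀ (by linarith) hq1 _
  have hqY : (q : ℝ) ^ (b3 + 5) ≤ C0 * (l * (n : ℝ) ^ θ2) := by
    calc (q : ℝ) ^ (b3 + 5) ≤ (2 * Z) ^ (b3 + 5) := pow_le_pow_left₀ hqpos.le hq2 _
      _ = C0 * (Z ^ b3 * Z ^ 5) := by rw [mul_pow, hC0, pow_add Z]
      _ = C0 * (X * Z ^ 5) := by rw [hZb]
      _ ≤ C0 * (X * (n : ℝ) ^ (10 / (b3 : ℝ))) := by
        apply mul_le_mul_of_nonneg_left _ hC0pos.le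
        exact mul_le_mul_of_nonneg_left hZ5 hXpos.le
      _ = C0 * (l * (n : ℝ) ^ θ2) := by
        rw [hX, hθ2, Real.rpow_add hnpos]
        ring
  have hnθ2' : (16 : ℝ) ≤ (n : ℝ) ^ (θ / 2) :=
    (hl1 l hll1).trans (Real.rpow_le_rpow hlpos.le hnl (by positivity))
  have hqn : 16 * (n : ℝ) ^ (θ / 2) ≤ q := by
    refine le_trans ?_ hq1
    have h1 : (n : ℝ) ^ θ ≤ Z := by
      rw [hZ, hθ]
      have h2 : (n : ℝ) ^ (θ1 / b3) = ((n : ℝ) ^ θ1) ^ (1 / (b3 : ℝ)) := by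
        rw [← Real.rpow_mul hnpos.le]
        congr 1
        ring
      rw [h2]
      apply Real.rpow_le_rpow (by positivity) _ (by positivity)
      rw [hX]
      calc (n : ℝ) ^ θ1 = 1 * (n : ℝ) ^ θ1 := (one_mul _).symm
        _ ≤ l * (n : ℝ) ^ θ1 := mul_le_mul_of_nonneg_right hlR (by positivity)
    refine le_trans ?_ h1
    have h2 : (n : ℝ) ^ θ = (n : ℝ) ^ (θ / 2) * (n : ℝ) ^ (θ / 2) := by
      rw [← Real.rpow_add hnpos]
      congr 1
      ring
    rw [h2]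
    exact mul_le_mul_of_nonneg_right hnθ2' (by positivity)
  have hq16 : 16 ≤ q := by
    have h1 : (16 : ℝ) ≤ q := by
      have : (1 : ℝ) ≤ (n : ℝ) ^ (θ / 2) := by linarith
      linarith
    exact_mod_cast h1
  -- the condition on the alphabet
  have hstar' : 1024 * (m * (Nat.log 2 w + 1)) ≤ q ^ b3 := by
    have h1 : (1024 : ℝ) * (m * ((Nat.log 2 w : ℝ) + 1)) ≤ (q : ℝ) ^ b3 := by
      have h2 : (m : ℝ) ≤ l := by exact_mod_cast f11
      have h3 : (Nat.log 2 w : ℝ) + 1 ≤ (2 / (θ1 / 2) + 1) * (l : ℝ) ^ (θ1 / 2) := by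
        refine le_trans ?_ (natlog_le (by positivity) hl0)
        have : Nat.log 2 w ≤ Nat.log 2 l := Nat.log_mono_right f10
        have : (Nat.log 2 w : ℝ) ≤ Nat.log 2 l := by exact_mod_cast this
        linarith
      have h4 : 1024 * (2 / (θ1 / 2) + 1) ≤ (l : ℝ) ^ (θ1 / 2) := hl2 l hll2
      have h5 : (l : ℝ) ^ (θ1 / 2) ≤ (n : ℝ) ^ (θ1 / 2) :=
        Real.rpow_le_rpow hlpos.le hnl (by positivity)
      refine le_trans ?_ hqX
      have h6 : (n : ℝ) ^ θ1 = (n : ℝ) ^ (θ1 / 2) * (n : ℝ) ^ (θ1 / 2) := by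
        rw [← Real.rpow_add hnpos]
        congr 1
        ring
      calc (1024 : ℝ) * (m * ((Nat.log 2 w : ℝ) + 1)) ≤
            1024 * (l * ((2 / (θ1 / 2) + 1) * (l : ℝ) ^ (θ1 / 2))) := by
            apply mul_le_mul_of_nonneg_left _ (by norm_num)
            exact mul_le_mul h2 h3 (by positivity) (by positivity)
        _ = l * ((1024 * (2 / (θ1 / 2) + 1)) * (l : ℝ) ^ (θ1 / 2)) := by ring
        _ ≤ l * ((n : ℝ) ^ (θ1 / 2) * (n : ℝ) ^ (θ1 / 2)) := by
            apply mul_le_mul_of_nonneg_left _ hlpos.le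
            exact mul_le_mul (h4.trans h5) h5 (by positivity) (by positivity)
        _ = X := by rw [hX, h6]
    exact_mod_cast h1
  have hstar : 256 * (q * ((2 * (m * Nat.clog 2 (q + 1)) + 2) * (Nat.log 2 w + 1))) ≤
      q ^ (b - 1) := by
    have h1 : Nat.clog 2 (q + 1) ≤ q := Nat.clog_le_of_le_pow (Nat.lt_two_pow_self)
    have h2 : 2 * (m * Nat.clog 2 (q + 1)) + 2 ≤ 4 * (m * q) := by
      have h3 : m * Nat.clog 2 (q + 1) ≤ m * q := Nat.mul_le_mul_left _ h1
      have h4 : 1 ≤ m * q := Nat.mul_pos f1 (by omega)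
      omega
    have hb1 : b - 1 = b3 + 2 := by omega
    rw [hb1]
    calc 256 * (q * ((2 * (m * Nat.clog 2 (q + 1)) + 2) * (Nat.log 2 w + 1))) ≤
          256 * (q * ((4 * (m * q)) * (Nat.log 2 w + 1))) :=
          Nat.mul_le_mul_left _ (Nat.mul_le_mul_left _ (Nat.mul_le_mul_right _ h2))
      _ = (1024 * (m * (Nat.log 2 w + 1))) * q ^ 2 := by ring
      _ ≤ q ^ b3 * q ^ 2 := Nat.mul_le_mul_right _ hstar'
      _ = q ^ (b3 + 2) := by rw [pow_add]
  -- the number of copies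
  set Y : ℝ := (q : ℝ) ^ b2 with hY
  have hYpos : 0 < Y := by rw [hY]; positivity
  have hYs : Y ^ s = (q : ℝ) ^ (b3 + 5) := by
    rw [hY, ← pow_mul, ← hb3, mul_comm]
  have h4lY : 4 * l * Y ≤ n := by
    have h1 : (4 * l * Y) ^ s ≤ (n : ℝ) ^ s := by
      calc (4 * l * Y) ^ s = 4 ^ s * (l : ℝ) ^ s * (q : ℝ) ^ (b3 + 5) := by
            rw [mul_pow, mul_pow, hYs]
        _ ≤ 4 ^ s * (l : ℝ) ^ s * (C0 * (l * (n : ℝ) ^ θ2)) :=
            mul_le_mul_of_nonneg_left hqY (by positivity)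
        _ = C1 * ((l : ℝ) ^ (s + 1) * (n : ℝ) ^ θ2) := by
            rw [hC1, pow_succ]
            ring
        _ ≤ (n : ℝ) ^ (ε / 2) * ((n : ℝ) ^ ((s : ℝ) - ε) * (n : ℝ) ^ θ2) := by
            apply mul_le_mul _ _ (by positivity) (by positivity)
            · exact (hl3 l hll3).trans (Real.rpow_le_rpow hlpos.le hnl (by positivity))
            · exact mul_le_mul_of_nonneg_right hnr (by positivity)
        _ = (n : ℝ) ^ (ε / 2 + ((s : ℝ) - ε + θ2)) := by
            rw [← Real.rpow_add hnpos, ← Real.rpow_add hnpos]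
        _ ≤ (n : ℝ) ^ (s : ℝ) := by
            apply Real.rpow_le_rpow_of_exponent_le hnR
            linarith
        _ = (n : ℝ) ^ s := Real.rpow_natCast _ _
    exact le_of_pow_le_pow_left₀ (by omega) hnpos.le h1
  have hq4 : 0 < 4 * l * q ^ b2 := by
    have : 0 < q := by omega
    positivity
  have h4lYn : 4 * l * q ^ b2 ≤ n := by
    rw [hY] at h4lY
    exact_mod_cast h4lY
  have hu4 : 4 * (u + 1) ≤ n := by
    have h1 : 4 * (u + 1) ≤ 4 * r * (u + 1) := by
      apply Nat.mul_le_mul_right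
      omega
    omega
  obtain ⟨K, hK⟩ : ∃ K, K = n / (4 * l * q ^ b2) := ⟨_, rfl⟩
  obtain ⟨K1, hK1⟩ : ∃ K1, K1 = n / (4 * (u + 1)) := ⟨_, rfl⟩
  have hKlow : (n : ℝ) / (8 * l * Y) ≤ K := by
    have h1 := div_half hq4 h4lYn
    rw [← hK] at h1
    refine le_trans (le_of_eq ?_) h1
    rw [hY]
    push_cast
    ring
  have hK1low : (n : ℝ) / (8 * ((u : ℝ) + 1)) ≤ K1 := by
    have h1 := div_half (by positivity : 0 < 4 * (u + 1)) hu4
    rw [← hK1] at h1
    refine le_trans (le_of_eq ?_) h1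
    push_cast
    ring
  refine ⟨b, q, M, m, sx, w, K1, K,
    ⟨by omega, by omega, by omega, f7, f6, by rw [← hKc]; exact f5, f1, f2, f3, hq16, hstar⟩,
    by omega, husM, ?_, ?_, ?_, ?_⟩
  · have h1 : w / (2 * b) / b ≤ w := (Nat.div_le_self _ _).trans (Nat.div_le_self _ _)
    have h2 : sx ≤ m := by
      refine le_trans ?_ f5
      exact Nat.le_mul_of_pos_left _ hKpos
    have h3 : 2 * M ≤ r * M := Nat.mul_le_mul_right _ (by omega)
    omega
  · -- the number of vertices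
    have h1 : K * (4 * l * q ^ b2) ≤ n := by
      rw [hK]
      exact Nat.div_mul_le_self _ _
    have h2 : K1 * (4 * (u + 1)) ≤ n := by
      rw [hK1]
      exact Nat.div_mul_le_self _ _
    have h3 : 4 * (K * (M * (s * q ^ b2))) ≤ K * (4 * l * q ^ b2) := by
      calc 4 * (K * (M * (s * q ^ b2))) = K * (4 * (s * M) * q ^ b2) := by ring
        _ ≤ K * (4 * l * q ^ b2) := by
          apply Nat.mul_le_mul_left
          apply Nat.mul_le_mul_right
          exact Nat.mul_le_mul_left _ hsM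
    have h4 : 4 * (u * K1) ≤ K1 * (4 * (u + 1)) := by
      calc 4 * (u * K1) = K1 * (4 * u) := by ring
        _ ≤ K1 * (4 * (u + 1)) := Nat.mul_le_mul_left _ (by omega)
    omega
  · -- the number of copies
    by_cases hF : F ≤ 0
    · refine le_trans ?_ (Nat.cast_nonneg _)
      exact mul_nonpos_of_nonneg_of_nonpos (by positivity) hF
    · push Not at hF
      have hlF : (l : ℝ) ^ (s + 1) * F ≤ (n : ℝ) ^ ((u : ℝ) + s - ε) := by
        refine le_trans ?_ hmain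
        exact mul_le_mul_of_nonneg_left (le_max_left _ _) (by positivity)
      have h1 : ((n : ℝ) / (8 * ((u : ℝ) + 1))) ^ u * ((n : ℝ) / (8 * l * Y)) ^ s ≤
          ((K1 ^ u * K ^ s : ℕ) : ℝ) := by
        push_cast
        apply mul_le_mul _ _ (by positivity) (by positivity)
        · exact pow_le_pow_left₀ (by positivity) hK1low _
        · exact pow_le_pow_left₀ (by positivity) hKlow _
      refine le_trans ?_ h1
      have h2 : ((n : ℝ) / (8 * ((u : ℝ) + 1))) ^ u * ((n : ℝ) / (8 * l * Y)) ^ s =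
          (n : ℝ) ^ ((u : ℝ) + s) / ((8 * ((u : ℝ) + 1)) ^ u * (8 ^ s * (l : ℝ) ^ s * Y ^ s)) := by
        rw [Real.rpow_add hnpos, Real.rpow_natCast, Real.rpow_natCast, div_pow, div_pow,
          mul_pow (8 * (l : ℝ)), mul_pow (8 : ℝ) (l : ℝ), div_mul_div_comm]
      rw [h2, le_div_iff₀ (by positivity), hYs]
      have h3 : (n : ℝ) ^ (min (ε / 4) (θ / D)) ≤ (n : ℝ) ^ (ε / 4) :=
        Real.rpow_le_rpow_of_exponent_le hnR (min_le_left _ _)
      have h4 : C2 ≤ (n : ℝ) ^ (ε / 4) :=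
        (hl4 l hll4).trans (Real.rpow_le_rpow hlpos.le hnl (by positivity))
      have hC2pos : 0 < C2 := by rw [hC2]; positivity
      calc (n : ℝ) ^ (min (ε / 4) (θ / D)) * F *
            ((8 * ((u : ℝ) + 1)) ^ u * (8 ^ s * (l : ℝ) ^ s * (q : ℝ) ^ (b3 + 5))) ≤
            (n : ℝ) ^ (ε / 4) * F *
            ((8 * ((u : ℝ) + 1)) ^ u * (8 ^ s * (l : ℝ) ^ s * (C0 * (l * (n : ℝ) ^ θ2)))) := by
            apply mul_le_mul (mul_le_mul_of_nonneg_right h3 hF.le) _ (by positivity)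
              (by positivity)
            apply mul_le_mul_of_nonneg_left _ (by positivity)
            exact mul_le_mul_of_nonneg_left hqY (by positivity)
        _ = C2 * ((n : ℝ) ^ (ε / 4) * ((l : ℝ) ^ (s + 1) * F) * (n : ℝ) ^ θ2) := by
            rw [hC2, pow_succ (l : ℝ)]
            ring
        _ ≤ (n : ℝ) ^ (ε / 4) * ((n : ℝ) ^ (ε / 4) * (n : ℝ) ^ ((u : ℝ) + s - ε) *
              (n : ℝ) ^ θ2) := by
            apply mul_le_mul h4 _ (by positivity) (by positivity)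
            apply mul_le_mul_of_nonneg_right _ (by positivity)
            exact mul_le_mul_of_nonneg_left hlF (by positivity)
        _ = (n : ℝ) ^ (ε / 4 + (ε / 4 + ((u : ℝ) + s - ε) + θ2)) := by
            rw [← Real.rpow_add hnpos, ← Real.rpow_add hnpos, ← Real.rpow_add hnpos]
        _ ≤ (n : ℝ) ^ ((u : ℝ) + s) := by
            apply Real.rpow_le_rpow_of_exponent_le hnR
            linarith
  · intro z hz
    rw [← hj0]
    have hδ : min (ε / 4) (θ / D) ≤ θ / D := min_le_right _ _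
    have hrpos : (0 : ℝ) < r := by linarith
    have hf9 : (l : ℝ) ≤ 8 * r * Kc * b ^ 2 * j0 := by exact_mod_cast f9
    have hf8 : (l : ℝ) ≤ 4 * r * m := by exact_mod_cast f8
    constructor
    · have h1 : (z : ℝ) ≤ ((q : ℝ) + 1) ^ m := by
        refine hz.le.trans ?_
        have h2 : (n : ℝ) ^ (min (ε / 4) (θ / D) * l) ≤ ((n : ℝ) ^ (θ / 2)) ^ m := by
          rw [← Real.rpow_natCast, ← Real.rpow_mul hnpos.le]
          apply Real.rpow_le_rpow_of_exponent_le hnR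
          have h3 : θ / D ≤ θ / (8 * r) := by
            apply div_le_div_of_nonneg_left hθpos.le (by positivity)
            rw [hD]
            have h4 : (1 : ℝ) ≤ Kc * b ^ 2 := by
              have h5 : (1 : ℝ) ≤ (b : ℝ) ^ 2 := by
                have : (1 : ℝ) ≤ b := by exact_mod_cast (by omega : 1 ≤ b)
                exact one_le_pow₀ this
              calc (1 : ℝ) = 1 * 1 := by ring
                _ ≤ Kc * b ^ 2 := mul_le_mul hKR h5 (by norm_num) (by positivity)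
            calc 8 * (r : ℝ) = 8 * r * 1 := by ring
              _ ≤ 32 * r * (Kc * b ^ 2) :=
                mul_le_mul (by linarith) h4 (by norm_num) (by positivity)
              _ = 32 * r * Kc * b ^ 2 := by ring
          calc min (ε / 4) (θ / D) * l ≤ θ / (8 * r) * (4 * r * m) :=
                mul_le_mul (hδ.trans h3) hf8 hlpos.le (by positivity)
            _ = θ / 2 * m := by
                field_simp
                ring
        refine h2.trans ?_
        apply pow_le_pow_left₀ (by positivity)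
        have : 0 < (n : ℝ) ^ (θ / 2) := by positivity
        linarith
      exact_mod_cast h1
    · have h1 : (8 : ℝ) * z * 2 ^ j0 < (q : ℝ) ^ j0 := by
        have hj1 : 1 ≤ j0 := hj0 ▸ Nat.le_add_left 1 _
        have h2 : (n : ℝ) ^ (min (ε / 4) (θ / D) * l) ≤ ((n : ℝ) ^ (θ / 2)) ^ j0 := by
          rw [← Real.rpow_natCast, ← Real.rpow_mul hnpos.le]
          apply Real.rpow_le_rpow_of_exponent_le hnR
          calc min (ε / 4) (θ / D) * l ≤ θ / D * (8 * r * Kc * b ^ 2 * j0) :=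
                mul_le_mul hδ hf9 hlpos.le (by positivity)
            _ = θ / 4 * j0 := by
                rw [hD]
                field_simp
                ring
            _ ≤ θ / 2 * j0 := by
                apply mul_le_mul_of_nonneg_right _ (Nat.cast_nonneg _)
                linarith
        have h3 : (8 : ℝ) ≤ 8 ^ j0 := by
          calc (8 : ℝ) = 8 ^ 1 := (pow_one _).symm
            _ ≤ 8 ^ j0 := pow_le_pow_right₀ (by norm_num) hj1
        calc (8 : ℝ) * z * 2 ^ j0 < 8 * (n : ℝ) ^ (min (ε / 4) (θ / D) * l) * 2 ^ j0 := by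
              apply mul_lt_mul_of_pos_right _ (by positivity)
              exact mul_lt_mul_of_pos_left hz (by norm_num)
          _ ≤ 8 ^ j0 * ((n : ℝ) ^ (θ / 2)) ^ j0 * 2 ^ j0 := by
              apply mul_le_mul_of_nonneg_right _ (by positivity)
              exact mul_le_mul h3 h2 (by positivity) (by positivity)
          _ = (16 * (n : ℝ) ^ (θ / 2)) ^ j0 := by
              rw [← mul_pow, ← mul_pow]
              congr 1
              ring
          _ ≤ (q : ℝ) ^ j0 := pow_le_pow_left₀ (by positivity) hqn _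
      exact_mod_cast h1

end Pool.Agent.W969.MC
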