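import Pool.Agent.W969.MC.Avg3
import Pool.Agent.W969.MC.Par5

/-! Functions with small nondeterministic circuits (projections of CNFs of linear size). -/

set_option linter.unusedSectionVars false
set_option linter.unusedVariables false

namespace Pool.Agent.W969.MC

open Finset Pool.Agent.H560R2

section

variable {A : Type} [Fintype A] [DecidableEq A] {K M q m N : ℕ}

/-- the further variables: the copy, the tuple of each constraint, the values of the variables -/
abbrev Fv (A : Type) (K M q m : ℕ) : Type :=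
  (Fin K ⊕ (Fin K × Fin M × (A → Fin q))) ⊕ (Fin m × Fin q)

/-- the clauses, over `N` input variables and the further variables -/
noncomputable def ndc (e : (Fin K × Fin M × (A → Fin q)) ↪ Fin N) (h : Fin M → A → Fin m) :
    List (List ((Fin N ⊕ Fv A K M q m) × Bool)) :=
  [(univ : Finset (Fin K)).toList.map fun j => (Sum.inr (Sum.inl (Sum.inl j)), true)] ++
  ((univ : Finset (Fin K × Fin M)).toList.map fun z =>
    (Sum.inr (Sum.inl (Sum.inl z.1)), false) ::
      (univ : Finset (A → Fin q)).toList.map fun σ =>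
        (Sum.inr (Sum.inl (Sum.inr (z.1, z.2, σ))), true)) ++
  ((univ : Finset (Fin K × Fin M × (A → Fin q))).toList.map fun z =>
    [(Sum.inr (Sum.inl (Sum.inr z)), false), (Sum.inl (e z), true)]) ++
  ((univ : Finset ((Fin K × Fin M × (A → Fin q)) × A)).toList.map fun z =>
    [(Sum.inr (Sum.inl (Sum.inr z.1)), false),
      (Sum.inr (Sum.inr (h z.1.2.1 z.2, z.1.2.2 z.2)), true)]) ++
  ((univ : Finset (Fin m × Fin q × Fin q)).toList.map fun z =>
    [(Sum.inr (Sum.inr (z.1, z.2.1)), false),
      (Sum.inr (Sum.inr (z.1, z.2.2)), if z.2.1 = z.2.2 then true else false)])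

/-- a list of clauses holds -/
def hld {X D : Type} (L : List (List ((X ⊕ D) × Bool))) (x : X → Bool) (y : D → Bool) : Prop :=
  ∀ c ∈ L, ∃ l ∈ c, Sum.elim x y l.1 = l.2

variable {e : (Fin K × Fin M × (A → Fin q)) ↪ Fin N} {h : Fin M → A → Fin m}

lemma ndc_iff (hq : 0 < q) (x : Fin N → Bool) :
    (∃ y : Fv A K M q m → Bool, hld (ndc e h) x y) ↔
      ∃ (j : Fin K) (p : Fin m → Fin q), ∀ i, x (e (j, i, fun t => p (h i t))) = true := by
  classical
  constructor
  · rintro ⟨y, hy⟩
    obtain ⟨l, hl, hl2⟩ := hy ((univ : Finset (Fin K)).toList.map fun j =>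
      (Sum.inr (Sum.inl (Sum.inl j)), true)) (by simp [ndc])
    obtain ⟨j, -, rfl⟩ := List.mem_map.mp hl
    have hj : y (Sum.inl (Sum.inl j)) = true := hl2
    have h1 : ∀ i, ∃ σ, y (Sum.inl (Sum.inr (j, i, σ))) = true := by
      intro i
      obtain ⟨l, hl, hl2⟩ := hy ((Sum.inr (Sum.inl (Sum.inl (j, i).1)), false) ::
        (univ : Finset (A → Fin q)).toList.map fun σ =>
          (Sum.inr (Sum.inl (Sum.inr ((j, i).1, (j, i).2, σ))), true)) (by
        unfold ndc
        simp only [List.mem_append, List.mem_map]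
        exact Or.inl (Or.inl (Or.inl (Or.inr ⟨(j, i), by simp, rfl⟩))))
      rcases List.mem_cons.mp hl with rfl | hl
      · have h2 : y (Sum.inl (Sum.inl j)) = false := hl2
        rw [hj] at h2
        exact absurd h2 (by simp)
      · obtain ⟨σ, -, rfl⟩ := List.mem_map.mp hl
        exact ⟨σ, hl2⟩
    choose σ hσ using h1
    have h2 : ∀ i, x (e (j, i, σ i)) = true := by
      intro i
      obtain ⟨l, hl, hl2⟩ := hy [(Sum.inr (Sum.inl (Sum.inr (j, i, σ i))), false),
        (Sum.inl (e (j, i, σ i)), true)] (by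
        unfold ndc
        simp only [List.mem_append, List.mem_map]
        exact Or.inl (Or.inl (Or.inr ⟨(j, i, σ i), by simp, rfl⟩)))
      simp only [List.mem_cons, List.not_mem_nil, or_false] at hl
      rcases hl with rfl | rfl
      · have h3 : y (Sum.inl (Sum.inr (j, i, σ i))) = false := hl2
        rw [hσ] at h3
        exact absurd h3 (by simp)
      · exact hl2
    have h3 : ∀ i t, y (Sum.inr (h i t, σ i t)) = true := by
      intro i t
      obtain ⟨l, hl, hl2⟩ := hy [(Sum.inr (Sum.inl (Sum.inr (j, i, σ i))), false),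
        (Sum.inr (Sum.inr (h i t, σ i t)), true)] (by
        unfold ndc
        simp only [List.mem_append, List.mem_map]
        exact Or.inl (Or.inr ⟨((j, i, σ i), t), by simp, rfl⟩))
      simp only [List.mem_cons, List.not_mem_nil, or_false] at hl
      rcases hl with rfl | rfl
      · have h4 : y (Sum.inl (Sum.inr (j, i, σ i))) = false := hl2
        rw [hσ] at h4
        exact absurd h4 (by simp)
      · exact hl2
    have h4 : ∀ v a a', y (Sum.inr (v, a)) = true → y (Sum.inr (v, a')) = true → a = a' := by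
      intro v a a' ha ha'
      by_contra hne
      obtain ⟨l, hl, hl2⟩ := hy [(Sum.inr (Sum.inr (v, a)), false),
        (Sum.inr (Sum.inr (v, a')), if a = a' then true else false)] (by
        unfold ndc
        simp only [List.mem_append, List.mem_map]
        exact Or.inr ⟨(v, a, a'), by simp, rfl⟩)
      rw [if_neg hne] at hl
      simp only [List.mem_cons, List.not_mem_nil, or_false] at hl
      rcases hl with rfl | rfl
      · have h5 : y (Sum.inr (v, a)) = false := hl2
        rw [ha] at h5
        exact absurd h5 (by simp)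
      · have h5 : y (Sum.inr (v, a')) = false := hl2
        rw [ha'] at h5
        exact absurd h5 (by simp)
    let p : Fin m → Fin q := fun v => if hv : ∃ a, y (Sum.inr (v, a)) = true then hv.choose
      else ⟨0, hq⟩
    have hp : ∀ v a, y (Sum.inr (v, a)) = true → p v = a := by
      intro v a ha
      have hv : ∃ a, y (Sum.inr (v, a)) = true := ⟨a, ha⟩
      simp only [p, dif_pos hv]
      exact h4 _ _ _ hv.choose_spec ha
    refine ⟨j, p, fun i => ?_⟩
    have h5 : (fun t => p (h i t)) = σ i := by
      funext t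
      exact hp _ _ (h3 i t)
    rw [h5]
    exact h2 i
  · rintro ⟨j, p, hx⟩
    let y : Fv A K M q m → Bool := Sum.elim
      (Sum.elim (fun j' => decide (j' = j))
        (fun z => decide (z.1 = j ∧ z.2.2 = fun t => p (h z.2.1 t))))
      (fun z => decide (p z.1 = z.2))
    refine ⟨y, ?_⟩
    intro c hc
    unfold ndc at hc
    simp only [List.mem_append, List.mem_map, List.mem_singleton] at hc
    rcases hc with (((rfl | ⟨z, -, rfl⟩) | ⟨z, -, rfl⟩) | ⟨z, -, rfl⟩) | ⟨z, -, rfl⟩
    · refine ⟨(Sum.inr (Sum.inl (Sum.inl j)), true), List.mem_map.mpr ⟨j, by simp, rfl⟩, ?_⟩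
      show decide (j = j) = true
      simp
    · by_cases hz : z.1 = j
      · refine ⟨(Sum.inr (Sum.inl (Sum.inr (z.1, z.2, fun t => p (h z.2 t)))), true),
          List.mem_cons_of_mem _ (List.mem_map.mpr ⟨_, by simp, rfl⟩), ?_⟩
        show decide (z.1 = j ∧ (fun t => p (h z.2 t)) = fun t => p (h z.2 t)) = true
        simp [hz]
      · refine ⟨(Sum.inr (Sum.inl (Sum.inl z.1)), false), List.mem_cons_self, ?_⟩
        show decide (z.1 = j) = false
        simp [hz]
    · by_cases hz : z.1 = j ∧ z.2.2 = fun t => p (h z.2.1 t)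
      · refine ⟨(Sum.inl (e z), true), by simp, ?_⟩
        show x (e z) = true
        have hz2 : z = (j, z.2.1, fun t => p (h z.2.1 t)) :=
          Prod.ext hz.1 (Prod.ext rfl hz.2)
        rw [hz2]
        exact hx _
      · refine ⟨(Sum.inr (Sum.inl (Sum.inr z)), false), by simp, ?_⟩
        show decide (z.1 = j ∧ z.2.2 = fun t => p (h z.2.1 t)) = false
        exact decide_eq_false hz
    · by_cases hz : z.1.1 = j ∧ z.1.2.2 = fun t => p (h z.1.2.1 t)
      · refine ⟨(Sum.inr (Sum.inr (h z.1.2.1 z.2, z.1.2.2 z.2)), true), by simp, ?_⟩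
        show decide (p (h z.1.2.1 z.2) = z.1.2.2 z.2) = true
        rw [hz.2]
        simp
      · refine ⟨(Sum.inr (Sum.inl (Sum.inr z.1)), false), by simp, ?_⟩
        show decide (z.1.1 = j ∧ z.1.2.2 = fun t => p (h z.1.2.1 t)) = false
        exact decide_eq_false hz
    · by_cases hz : p z.1 = z.2.1
      · by_cases hz2 : z.2.1 = z.2.2
        · refine ⟨(Sum.inr (Sum.inr (z.1, z.2.2)), if z.2.1 = z.2.2 then true else false),
            by simp, ?_⟩
          show decide (p z.1 = z.2.2) = if z.2.1 = z.2.2 then true else false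
          rw [if_pos hz2, ← hz2, hz]
          simp
        · refine ⟨(Sum.inr (Sum.inr (z.1, z.2.2)), if z.2.1 = z.2.2 then true else false),
            by simp, ?_⟩
          show decide (p z.1 = z.2.2) = if z.2.1 = z.2.2 then true else false
          rw [if_neg hz2]
          exact decide_eq_false (by rw [hz]; exact hz2)
      · refine ⟨(Sum.inr (Sum.inr (z.1, z.2.1)), false), by simp, ?_⟩
        show decide (p z.1 = z.2.1) = false
        exact decide_eq_false hz

/-- the size of a list of clauses -/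
def csz {Y : Type} (L : List (List Y)) : ℕ := (L.map fun c => c.length + 1).sum

lemma csz_append {Y : Type} (L L' : List (List Y)) : csz (L ++ L') = csz L + csz L' := by
  unfold csz
  rw [List.map_append, List.sum_append]

lemma csz_map {Y Z : Type} [Fintype Z] (f : Z → List Y) (c : ℕ) (hf : ∀ z, (f z).length + 1 ≤ c) :
    csz ((univ : Finset Z).toList.map f) ≤ Fintype.card Z * c := by
  classical
  unfold csz
  rw [List.map_map]
  refine (List.sum_le_card_nsmul _ c ?_).trans (le_of_eq ?_)
  · intro a ha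
    obtain ⟨z, -, rfl⟩ := List.mem_map.mp ha
    exact hf z
  · rw [List.length_map, Finset.length_toList, Finset.card_univ, smul_eq_mul]

lemma ndc_size {b2 : ℕ} (hA : Fintype.card A = b2) (hb : 2 ≤ b2) (hmM : m ≤ M) (hK : 1 ≤ K)
    (hM : 1 ≤ M) (hq : 1 ≤ q) (hN : K * (M * q ^ b2) ≤ N) :
    csz (ndc e h) ≤ (3 * b2 + 12) * N := by
  classical
  have hQ : 1 ≤ q ^ b2 := Nat.one_le_pow _ _ hq
  have hKM : K * M ≤ N := by
    refine le_trans ?_ hN
    rw [← mul_assoc]
    exact Nat.le_mul_of_pos_right _ hQ
  have hKN : K ≤ N := (Nat.le_mul_of_pos_right _ hM).trans hKM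
  have hmq : m * (q * q) ≤ N := by
    refine le_trans ?_ hN
    calc m * (q * q) ≤ M * q ^ b2 := by
          apply Nat.mul_le_mul hmM
          calc q * q = q ^ 2 := by ring
            _ ≤ q ^ b2 := Nat.pow_le_pow_right hq hb
      _ ≤ K * (M * q ^ b2) := Nat.le_mul_of_pos_left _ hK
  unfold ndc
  rw [csz_append, csz_append, csz_append, csz_append]
  have h1 : csz [(univ : Finset (Fin K)).toList.map fun j =>
      ((Sum.inr (Sum.inl (Sum.inl j)) : Fin N ⊕ Fv A K M q m), true)] ≤ 2 * N := by
    unfold csz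
    simp only [List.map_cons, List.map_nil, List.sum_cons, List.sum_nil, List.length_map,
      Finset.length_toList, Finset.card_univ, Fintype.card_fin]
    omega
  have h2 := csz_map (fun z : Fin K × Fin M =>
    ((Sum.inr (Sum.inl (Sum.inl z.1)) : Fin N ⊕ Fv A K M q m), false) ::
      (univ : Finset (A → Fin q)).toList.map fun σ =>
        (Sum.inr (Sum.inl (Sum.inr (z.1, z.2, σ))), true)) (q ^ b2 + 2) (fun z => by
      simp only [List.length_cons, List.length_map, Finset.length_toList, Finset.card_univ,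
        Fintype.card_fun, Fintype.card_fin, hA]
      omega)
  have h3 := csz_map (fun z : Fin K × Fin M × (A → Fin q) =>
    [((Sum.inr (Sum.inl (Sum.inr z)) : Fin N ⊕ Fv A K M q m), false), (Sum.inl (e z), true)]) 3
    (fun z => le_rfl)
  have h4 := csz_map (fun z : (Fin K × Fin M × (A → Fin q)) × A =>
    [((Sum.inr (Sum.inl (Sum.inr z.1)) : Fin N ⊕ Fv A K M q m), false),
      (Sum.inr (Sum.inr (h z.1.2.1 z.2, z.1.2.2 z.2)), true)]) 3 (fun z => le_rfl)
  have h5 := csz_map (fun z : Fin m × Fin q × Fin q =>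
    [((Sum.inr (Sum.inr (z.1, z.2.1)) : Fin N ⊕ Fv A K M q m), false),
      (Sum.inr (Sum.inr (z.1, z.2.2)), if z.2.1 = z.2.2 then true else false)]) 3
    (fun z => le_rfl)
  simp only [Fintype.card_prod, Fintype.card_fin, Fintype.card_fun, hA] at h2 h3 h4 h5
  have g2 : K * M * (q ^ b2 + 2) ≤ 3 * N := by
    calc K * M * (q ^ b2 + 2) = K * (M * q ^ b2) + 2 * (K * M) := by ring
      _ ≤ N + 2 * N := Nat.add_le_add hN (Nat.mul_le_mul_left _ hKM)
      _ = 3 * N := by ring
  have g3 : K * (M * q ^ b2) * 3 ≤ 3 * N := by omega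
  have g4 : K * (M * q ^ b2) * b2 * 3 ≤ 3 * b2 * N := by
    calc K * (M * q ^ b2) * b2 * 3 = 3 * b2 * (K * (M * q ^ b2)) := by ring
      _ ≤ 3 * b2 * N := Nat.mul_le_mul_left _ hN
  have g5 : m * (q * q) * 3 ≤ 3 * N := by omega
  have g6 : (3 * b2 + 12) * N = 2 * N + 3 * N + 3 * N + 3 * b2 * N + 3 * N + N := by ring
  rw [g6]
  have := h2.trans g2
  have := h3.trans g3
  have := h4.trans g4
  have := h5.trans g5
  omega

end

end Pool.Agent.W969.MC
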