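import Pool.Agent.W969.MC.Nd
import Pool.Agent.W969.MC.Avg4

/-! Functions with small nondeterministic circuits: the lower bound. -/

set_option linter.unusedSectionVars false
set_option linter.unusedVariables false

namespace Pool.Agent.W969.MC

open Finset Pool.Agent.H560R2

section

variable {A : Type} [Fintype A] [DecidableEq A] {K M q m N : ℕ}

open Classical in
/-- the input bits -/
noncomputable def encN (e : (Fin K × Fin M × (A → Fin q)) ↪ Fin N)
    (y : Fin K → Set (Fin M × (A → Fin q))) : Fin N → Bool :=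
  fun n => decide (∃ z : Fin K × Fin M × (A → Fin q), e z = n ∧ (z.2.1, z.2.2) ∈ y z.1)

variable {e : (Fin K × Fin M × (A → Fin q)) ↪ Fin N} {h : Fin M → A → Fin m}

lemma encN_mono {y y' : Fin K → Set (Fin M × (A → Fin q))} (hy : ∀ j, y j ⊆ y' j) :
    encN e y ≤ encN e y' := by
  classical
  intro n
  rcases hx : encN e y n with _ | _
  · exact Bool.false_le _
  · obtain ⟨z, h1, h2⟩ : ∃ z : Fin K × Fin M × (A → Fin q), e z = n ∧ (z.2.1, z.2.2) ∈ y z.1 :=
      of_decide_eq_true hx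
    have h3 : encN e y' n = true := decide_eq_true ⟨z, h1, hy _ h2⟩
    rw [h3]

lemma encN_narrow (y : Fin K → Set (Fin M × (A → Fin q))) (J : Fin K) (n : Fin N) :
    ∃ T' : Finset (Fin M × (A → Fin q)), T'.card ≤ 1 ∧
      ∀ x x' : Set (Fin M × (A → Fin q)), (∀ v ∈ T', v ∈ x → v ∈ x') →
        encN e (Function.update y J x) n = true → encN e (Function.update y J x') n = true := by
  classical
  by_cases hex : ∃ z : Fin K × Fin M × (A → Fin q), e z = n
  · obtain ⟨z0, hz0⟩ := hex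
    refine ⟨{(z0.2.1, z0.2.2)}, by simp, fun x x' hx henc => ?_⟩
    obtain ⟨z, h1, h2⟩ : ∃ z : Fin K × Fin M × (A → Fin q), e z = n ∧
        (z.2.1, z.2.2) ∈ Function.update y J x z.1 := of_decide_eq_true henc
    have hz : z = z0 := e.injective (h1.trans hz0.symm)
    refine decide_eq_true ⟨z, h1, ?_⟩
    by_cases hj : z.1 = J
    · rw [hj, Function.update_self] at h2 ⊢
      rw [hz] at h2 ⊢
      exact hx _ (Finset.mem_singleton_self _) h2
    · rw [Function.update_of_ne hj] at h2 ⊢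
      exact h2
  · refine ⟨∅, by simp, fun x x' hx henc => ?_⟩
    obtain ⟨z, h1, h2⟩ : ∃ z : Fin K × Fin M × (A → Fin q), e z = n ∧
        (z.2.1, z.2.2) ∈ Function.update y J x z.1 := of_decide_eq_true henc
    exact absurd ⟨z, h1⟩ hex

lemma encN_iff (hq : 0 < q) (y : Fin K → Set (Fin M × (A → Fin q))) :
    (∃ w : Fv A K M q m → Bool, hld (ndc e h) (encN e y) w) ↔
      ∃ j, ∃ p : Fin m → Fin q, (tu h (gr p) : Set (Fin M × (A → Fin q))) ⊆ y j := by
  classical
  rw [ndc_iff hq]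
  constructor
  · rintro ⟨j, p, hp⟩
    refine ⟨j, p, ?_⟩
    rintro ⟨i, σ⟩ hu
    have hu1 : (fun t => p (h i t)) = σ := by
      funext t
      have h1 := (Finset.mem_filter.mp (Finset.mem_coe.mp hu)).2 t
      rw [mem_gr] at h1
      exact h1
    obtain ⟨z, h1, h2⟩ : ∃ z : Fin K × Fin M × (A → Fin q),
        e z = e (j, i, fun t => p (h i t)) ∧ (z.2.1, z.2.2) ∈ y z.1 := of_decide_eq_true (hp i)
    have hz := e.injective h1
    rw [hz] at h2
    rw [← hu1]
    exact h2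
  · rintro ⟨j, p, hp⟩
    refine ⟨j, p, fun i => decide_eq_true ⟨_, rfl, hp ?_⟩⟩
    apply Finset.mem_coe.mpr
    unfold tu
    rw [Finset.mem_filter]
    refine ⟨mem_univ _, fun t => ?_⟩
    rw [mem_gr]

end

/-- rename the further variables -/
def rnm {X D D' : Type} (φ : D → D') (L : List (List ((X ⊕ D) × Bool))) :
    List (List ((X ⊕ D') × Bool)) :=
  L.map fun c => c.map fun l => (Sum.map id φ l.1, l.2)

lemma csz_rnm {X D D' : Type} (φ : D → D') (L : List (List ((X ⊕ D) × Bool))) :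
    csz (rnm φ L) = csz L := by
  unfold csz rnm
  rw [List.map_map]
  congr 1
  apply List.map_congr_left
  intro c _
  simp

lemma hld_rnm {X D D' : Type} (φ : D ≃ D') (L : List (List ((X ⊕ D) × Bool))) (x : X → Bool) :
    (∃ y : D' → Bool, hld (rnm φ L) x y) ↔ ∃ y : D → Bool, hld L x y := by
  have key : ∀ (y : D' → Bool) (l : (X ⊕ D) × Bool),
      Sum.elim x y (Sum.map id φ l.1) = Sum.elim x (fun d => y (φ d)) l.1 := by
    rintro y ⟨l | l, b⟩ <;> rfl
  constructor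
  · rintro ⟨y, hy⟩
    refine ⟨fun d => y (φ d), fun c hc => ?_⟩
    obtain ⟨l', hl', hl2⟩ := hy (c.map fun l => (Sum.map id φ l.1, l.2))
      (List.mem_map.mpr ⟨c, hc, rfl⟩)
    obtain ⟨l, hl, rfl⟩ := List.mem_map.mp hl'
    exact ⟨l, hl, by rw [← key]; exact hl2⟩
  · rintro ⟨y, hy⟩
    refine ⟨fun d => y (φ.symm d), fun c' hc' => ?_⟩
    obtain ⟨c, hc, rfl⟩ := List.mem_map.mp hc'
    obtain ⟨l, hl, hl2⟩ := hy c hc
    refine ⟨_, List.mem_map.mpr ⟨l, hl, rfl⟩, ?_⟩
    show Sum.elim x (fun d => y (φ.symm d)) (Sum.map id φ l.1) = l.2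
    rw [key]
    simp only [Equiv.symm_apply_apply]
    exact hl2

theorem nd_main (ε : ℝ) (hε : 0 < ε) :
    ∃ Cst : ℕ, ∃ δ : ℝ, 0 < δ ∧ ∃ l0 : ℕ, ∀ (N l : ℕ) (F : ℝ), l0 ≤ l → 1 ≤ F →
      (l : ℝ) ^ 2 * F ≤ (N : ℝ) ^ (1 - ε) →
      ∃ (d : ℕ) (L : List (List ((Fin N ⊕ Fin d) × Bool))), csz L ≤ Cst * N ∧
        (∀ x x' : Fin N → Bool, x ≤ x' → (∃ y, hld L x y) → ∃ y, hld L x' y) ∧
        ∀ (R : Type) [Fintype R] [Nonempty R] (C : R → RC (Fin N)) (A0 : ℝ),
          (∀ x, (∃ y, hld L x y) →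
            (A0 + (N : ℝ) ^ (-δ)) * Fintype.card R ≤ ({ρ : R | (C ρ).acc x}.ncard : ℝ)) →
          (∀ x, (¬ ∃ y, hld L x y) →
            ({ρ : R | (C ρ).acc x}.ncard : ℝ) ≤ A0 * Fintype.card R) →
          (∀ ρ, ((C ρ).free : ℝ) ≤ F) →
          ∃ ρ, (N : ℝ) ^ (δ * l) ≤ ((C ρ).size : ℝ) := by
  classical
  -- it suffices to consider small ε
  wlog hε1 : ε ≤ 1 with Hw
  · obtain ⟨Cst, δ, hδ, l0, H⟩ := Hw 1 one_pos le_rfl
    refine ⟨Cst, δ, hδ, max l0 1, ?_⟩
    intro N l F hl hF hF2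
    refine H N l F ((le_max_left _ _).trans hl) hF (hF2.trans ?_)
    push Not at hε1
    have hl1 : (1 : ℝ) ≤ l := by exact_mod_cast (le_max_right _ _).trans hl
    have hN1 : (1 : ℝ) ≤ N := by
      by_contra hcon
      push Not at hcon
      have h0 : N = 0 := by
        have : N < 1 := by exact_mod_cast hcon
        omega
      rw [h0, Nat.cast_zero, Real.zero_rpow (by linarith)] at hF2
      have : (1 : ℝ) ≤ (l : ℝ) ^ 2 * F := by
        calc (1 : ℝ) = 1 ^ 2 * 1 := by ring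
          _ ≤ (l : ℝ) ^ 2 * F := by
            apply mul_le_mul _ hF (by norm_num) (by positivity)
            exact pow_le_pow_left₀ (by norm_num) hl1 _
      linarith
    apply Real.rpow_le_rpow_of_exponent_le hN1
    linarith
  obtain ⟨b2, δ, hδ, l0, H⟩ := pars_curve5 0 1 le_rfl ε hε hε1
  obtain ⟨l1, Hab⟩ := absorb hδ
  obtain ⟨l2, hl2⟩ := ev_rpow (η := 3 * δ / 4) (by positivity) 2
  refine ⟨3 * b2 + 12, δ / 4, by positivity, max (max l0 l1) (max l2 1), ?_⟩
  intro n l F hl hF1 hF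
  have hll0 : l0 ≤ l := (le_max_left _ _).trans ((le_max_left _ _).trans hl)
  have hll1 : l1 ≤ l := (le_max_right _ _).trans ((le_max_left _ _).trans hl)
  have hll2 : l2 ≤ l := (le_max_left _ _).trans ((le_max_right _ _).trans hl)
  have hl1 : 1 ≤ l := (le_max_right _ _).trans ((le_max_right _ _).trans hl)
  have hlR : (1 : ℝ) ≤ l := by exact_mod_cast hl1
  have hbig : (1 : ℝ) ≤ (n : ℝ) ^ (1 - ε) := by
    refine le_trans ?_ hF
    calc (1 : ℝ) = 1 ^ 2 * 1 := by ring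
      _ ≤ (l : ℝ) ^ 2 * F := by
        apply mul_le_mul _ hF1 (by norm_num) (by positivity)
        exact pow_le_pow_left₀ (by norm_num) hlR _
  -- l ≤ n
  have hlsq : (l : ℝ) ≤ (n : ℝ) ^ (1 - ε) := by
    refine le_trans ?_ hF
    calc (l : ℝ) = l * 1 * 1 := by ring
      _ ≤ (l : ℝ) * l * F := by
        apply mul_le_mul _ hF1 (by norm_num) (by positivity)
        exact mul_le_mul_of_nonneg_left hlR (by linarith)
      _ = (l : ℝ) ^ 2 * F := by ring
  have hnR0 : n ≠ 0 ∨ ε = 1 := by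
    by_contra hcon
    push Not at hcon
    obtain ⟨h0, h1⟩ := hcon
    rw [h0, Nat.cast_zero, Real.zero_rpow (by
      intro h2
      exact h1 (by linarith))] at hbig
    norm_num at hbig
  by_cases hn0 : n = 0
  · -- degenerate case
    subst hn0
    refine ⟨0, [], by simp [csz], fun x x' _ _ => ⟨fun _ => false, by simp [hld]⟩, ?_⟩
    intro R _ _ C A0 _ _ _
    exact ⟨Classical.arbitrary R, by
      rw [Nat.cast_zero, Real.zero_rpow (by
        have : 0 < δ / 4 * l := by positivity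
        linarith)]
      exact Nat.cast_nonneg _⟩
  have hnR : (1 : ℝ) ≤ n := by exact_mod_cast Nat.one_le_iff_ne_zero.mpr hn0
  have hnpos : (0 : ℝ) < n := by linarith
  have hln : l ≤ n := by
    have h1 : (l : ℝ) ≤ n := by
      refine hlsq.trans ?_
      calc (n : ℝ) ^ (1 - ε) ≤ (n : ℝ) ^ (1 : ℝ) :=
            Real.rpow_le_rpow_of_exponent_le hnR (by linarith)
        _ = n := Real.rpow_one _
    exact_mod_cast h1
  obtain ⟨b, q, M, m, sx, w, K1, K, P, hb2, h1, h2, h3, h4, h5⟩ := H n l F hll0 hln (by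
    have e1 : ((0 : ℕ) : ℝ) + ((1 : ℕ) : ℝ) - ε = 1 - ε := by push_cast; ring
    rw [e1, pow_zero, max_eq_left hF1]
    exact hF)
  obtain ⟨g1, g2, g3⟩ := Hab n l q m (w / (2 * b) / b + 1) hll1 hln (Nat.le_add_left 1 _) h2 h5
  obtain ⟨h, hG⟩ := P.good
  have : Nonempty (Fin 1 × Fin b2) := ⟨(⟨0, one_pos⟩, ⟨0, P.hb2⟩)⟩
  have hq1 : 0 < q := by
    have := P.hq
    omega
  have hm1 := P.hm
  have hM1 := P.hM
  have hK1 : 1 ≤ K := by
    by_contra hcon
    have h0 : K = 0 := by omega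
    rw [h0] at h4
    have h6 : (1 : ℝ) ≤ (n : ℝ) ^ δ * F := by
      calc (1 : ℝ) = 1 * 1 := by ring
        _ ≤ (n : ℝ) ^ δ * F :=
          mul_le_mul (Real.one_le_rpow hnR hδ.le) hF1 (by norm_num) (by positivity)
    norm_num at h4
    linarith
  have hKN : K * (M * q ^ b2) ≤ n := by
    have h6 : K * (M * (1 * q ^ b2)) = K * (M * q ^ b2) := by rw [one_mul]
    omega
  have hcard : Fintype.card (Fin K × Fin M × ((Fin 1 × Fin b2) → Fin q)) ≤ Fintype.card (Fin n) := by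
    simp only [Fintype.card_prod, Fintype.card_fin, Fintype.card_fun, one_mul]
    exact hKN
  obtain ⟨e⟩ := Function.Embedding.nonempty_of_card_le hcard
  let φ : Fv (Fin 1 × Fin b2) K M q m ≃ Fin (Fintype.card (Fv (Fin 1 × Fin b2) K M q m)) :=
    Fintype.equivFin _
  refine ⟨Fintype.card (Fv (Fin 1 × Fin b2) K M q m), rnm φ (ndc e h), ?_, ?_, ?_⟩
  · rw [csz_rnm]
    exact ndc_size (by simp) hb2 (by omega) hK1 (by omega) hq1 hKN
  · intro x x' hxx
    rw [hld_rnm, hld_rnm, ndc_iff hq1, ndc_iff hq1]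
    rintro ⟨j, p, hp⟩
    refine ⟨j, p, fun i => ?_⟩
    have h6 := hxx (e (j, i, fun t => p (h i t)))
    rw [hp i] at h6
    exact le_antisymm (Bool.le_true _) h6
  · intro R _ _ C A0 hyes hno hfree
    simp only [hld_rnm] at hyes hno
    by_contra hcon
    push Not at hcon
    refine csp_rand hG (m' := K) C (fun y => encN e y) (fun y y' hy => encN_mono hy)
      (fun y J p => encN_narrow y J p) A0 ((n : ℝ) ^ (-(δ / 4)))
      (fun y hy => hyes _ ((encN_iff hq1 y).mpr hy))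
      (fun y hy => hno _ (fun hh => hy ((encN_iff hq1 y).mp hh))) ?_
      (fun ρ => by rw [Fintype.card_fin, Fintype.card_fin]; exact (g3 _ (hcon ρ)).1)
      (by rw [Fintype.card_fin]; exact g1)
      (fun ρ => by rw [Fintype.card_fin]; exact (g3 _ (hcon ρ)).2)
    intro ρ
    refine (hfree ρ).trans ?_
    rw [pow_zero, one_mul, pow_one] at h4
    have h6 : (n : ℝ) ^ (-(δ / 4)) / 2 * ((n : ℝ) ^ δ * F) ≤
        (n : ℝ) ^ (-(δ / 4)) / 2 * (K : ℝ) :=
      mul_le_mul_of_nonneg_left h4 (by positivity)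
    refine le_trans ?_ h6
    have h7 : (n : ℝ) ^ (-(δ / 4)) / 2 * ((n : ℝ) ^ δ * F) = (n : ℝ) ^ (3 * δ / 4) / 2 * F := by
      have h8 : (n : ℝ) ^ (3 * δ / 4) = (n : ℝ) ^ (-(δ / 4)) * (n : ℝ) ^ δ := by
        rw [← Real.rpow_add hnpos]
        congr 1
        ring
      rw [h8]
      ring
    rw [h7]
    have h8 : (2 : ℝ) ≤ (n : ℝ) ^ (3 * δ / 4) := by
      refine (hl2 l hll2).trans ?_
      apply Real.rpow_le_rpow (Nat.cast_nonneg _) _ (by positivity)
      exact_mod_cast hln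
    calc F = 1 * F := (one_mul _).symm
      _ ≤ (n : ℝ) ^ (3 * δ / 4) / 2 * F := by
        apply mul_le_mul_of_nonneg_right _ (by linarith)
        linarith

end Pool.Agent.W969.MC
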