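import Mathlib

/-! A nondeterministic automaton that accepts the words which are not of the form: a list of blocks,
one for each variable and one for each constraint, which describe an assignment; and the words of
this form for which some constraint is listed. -/

set_option linter.unusedSectionVars false
set_option linter.unusedVariables false

namespace Pool.Agent.W969.MC

section

variable {ν μ ℓ H m M : ℕ} {A : Type}

/-- the fields of a block: the bits of its name, of the label of the copy, and of its content -/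
abbrev Fd (ν μ ℓ : ℕ) (A : Type) : Type := Fin ν ⊕ (Fin μ ⊕ (A × Fin ℓ))

/-- the offset of a data position in a block of length `2 H + 1` -/
def off (H : ℕ) : Fin H ⊕ Fin H → ℕ := Sum.elim (fun k => k.val) (fun k => H + 1 + k.val)

lemma off_lt (x : Fin H ⊕ Fin H) : off H x < 2 * H + 1 := by
  rcases x with k | k
  · show k.val < _
    omega
  · show H + 1 + k.val < _
    omega

lemma off_ne (x : Fin H ⊕ Fin H) : off H x ≠ H := by
  rcases x with k | k
  · show k.val ≠ _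
    omega
  · show H + 1 + k.val ≠ _
    omega

lemma off_inj {x y : Fin H ⊕ Fin H} (h : off H x = off H y) : x = y := by
  rcases x with k | k <;> rcases y with k' | k'
  · have : k.val = k'.val := h
    rw [Fin.ext this]
  · have : k.val = H + 1 + k'.val := h
    omega
  · have : H + 1 + k.val = k'.val := h
    omega
  · have : H + 1 + k.val = H + 1 + k'.val := h
    have h2 : k = k' := Fin.ext (by omega)
    rw [h2]

/-- the phases -/
inductive Ph (μ ℓ M : ℕ) (A : Type) : Type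
  | W : Ph μ ℓ M A
  | L1 : Fin μ → Bool → Ph μ ℓ M A
  | L2 : Fin μ → Bool → Ph μ ℓ M A
  | V1 : Fin M → A → Fin ℓ → Bool → Ph μ ℓ M A
  | VW : Fin M → A → Fin ℓ → Bool → Ph μ ℓ M A
  | V2 : Fin M → A → Fin ℓ → Bool → Ph μ ℓ M A

/-- the states -/
inductive St (μ ℓ H M : ℕ) (A : Type) : Type
  | acc : St μ ℓ H M A
  | fmt : ℕ → St μ ℓ H M A
  | ph : Ph μ ℓ M A → ℕ → St μ ℓ H M A
  | y1 : (Fin H → Bool) → ℕ → St μ ℓ H M A
  | y2 : (Fin H → Bool) → ℕ → St μ ℓ H M A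

/-- the data of the construction -/
structure Gad (ν μ ℓ H m M : ℕ) (A : Type) where
  pos : Fd ν μ ℓ A → Fin H ⊕ Fin H
  inj : Function.Injective pos
  a0 : A
  h : Fin M → A → Fin m
  hH : 0 < H
  hν : m + M ≤ 2 ^ ν

variable (G : Gad ν μ ℓ H m M A)

/-- the bit `b` is allowed in the field `f` in the phase `φ` -/
def ok : Ph μ ℓ M A → Fd ν μ ℓ A → Bool → Prop
  | .W, _, _ => True
  | .L1 d c, f, b => f = Sum.inr (Sum.inl d) → b = c
  | .L2 d c, f, b => f = Sum.inr (Sum.inl d) → b = !c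
  | .V1 i a β c, f, b => (∀ r, f = Sum.inl r → b = Nat.testBit (G.h i a).val r.val) ∧
      (f = Sum.inr (Sum.inr (G.a0, β)) → b = c)
  | .VW _ _ _ _, _, _ => True
  | .V2 i a β c, f, b => (∀ r, f = Sum.inl r → b = Nat.testBit (m + i.val) r.val) ∧
      (f = Sum.inr (Sum.inr (a, β)) → b = !c)

/-- the bit `b` is allowed at the offset `o` in the phase `φ` -/
def okb (φ : Ph μ ℓ M A) (o : ℕ) (b : Bool) : Prop :=
  ∀ f, off H (G.pos f) = o → ok G φ f b

/-- the bit `b` is allowed at the place `k` of the word -/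
def okf (k : ℕ) (b : Bool) : Prop :=
  (k % (2 * H + 1) = H → b = false) ∧
    ∀ r : Fin ν, off H (G.pos (Sum.inl r)) = k % (2 * H + 1) →
      b = Nat.testBit (k / (2 * H + 1)) r.val

/-- the successors of a phase -/
inductive Nx : Ph μ ℓ M A → St μ ℓ H M A → Prop
  | WW : Nx .W (.ph .W 0)
  | WL (d : Fin μ) (c : Bool) : Nx .W (.ph (.L1 d c) 0)
  | WV (i : Fin M) (a : A) (β : Fin ℓ) (c : Bool) : Nx .W (.ph (.V1 i a β c) 0)
  | WY (s : Fin H → Bool) : Nx .W (.y1 s 0)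
  | L12 (d : Fin μ) (c : Bool) : Nx (.L1 d c) (.ph (.L2 d c) 0)
  | L2 (d : Fin μ) (c : Bool) : Nx (.L2 d c) .acc
  | V1W (i : Fin M) (a : A) (β : Fin ℓ) (c : Bool) : Nx (.V1 i a β c) (.ph (.VW i a β c) 0)
  | V12 (i : Fin M) (a : A) (β : Fin ℓ) (c : Bool) : Nx (.V1 i a β c) (.ph (.V2 i a β c) 0)
  | VWW (i : Fin M) (a : A) (β : Fin ℓ) (c : Bool) : Nx (.VW i a β c) (.ph (.VW i a β c) 0)
  | VW2 (i : Fin M) (a : A) (β : Fin ℓ) (c : Bool) : Nx (.VW i a β c) (.ph (.V2 i a β c) 0)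
  | V2 (i : Fin M) (a : A) (β : Fin ℓ) (c : Bool) : Nx (.V2 i a β c) .acc

/-- the transitions -/
inductive Stp (Y : (Fin H → Bool) → (Fin H → Bool) → Prop) :
    St μ ℓ H M A → Bool → St μ ℓ H M A → Prop
  | acc (b : Bool) : Stp Y .acc b .acc
  | fok (k : ℕ) (b : Bool) (hk : k < (m + M) * (2 * H + 1)) (hb : okf G k b) :
      Stp Y (.fmt k) b (.fmt (k + 1))
  | fbad (k : ℕ) (b : Bool) (hk : k < (m + M) * (2 * H + 1)) (hb : ¬ okf G k b) :
      Stp Y (.fmt k) b .acc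
  | fend (b : Bool) : Stp Y (.fmt ((m + M) * (2 * H + 1))) b .acc
  | ph (φ : Ph μ ℓ M A) (o : ℕ) (b : Bool) (ho : o + 1 < 2 * H + 1) (hb : okb G φ o b) :
      Stp Y (.ph φ o) b (.ph φ (o + 1))
  | nx (φ : Ph μ ℓ M A) (b : Bool) (hb : okb G φ (2 * H) b) (s : St μ ℓ H M A)
      (hs : Nx φ s) : Stp Y (.ph φ (2 * H)) b s
  | y1 (s : Fin H → Bool) (k : ℕ) (hk : k < H) : Stp Y (.y1 s k) (s ⟨k, hk⟩) (.y1 s (k + 1))
  | ym (s s' : Fin H → Bool) (hs : Y s s') : Stp Y (.y1 s H) false (.y2 s' 0)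
  | y2 (s : Fin H → Bool) (k : ℕ) (hk : k + 1 < H) :
      Stp Y (.y2 s k) (s ⟨k, by omega⟩) (.y2 s (k + 1))
  | ye (s : Fin H → Bool) (k : ℕ) (hk : k + 1 = H) : Stp Y (.y2 s k) (s ⟨k, by omega⟩) .acc

variable (Y : (Fin H → Bool) → (Fin H → Bool) → Prop) (b : ℕ → Bool)

/-- the states that can be reached by reading the first `t` bits -/
def Rs : ℕ → St μ ℓ H M A → Prop
  | 0, s => s = .fmt 0 ∨ Nx .W s
  | t + 1, s => ∃ s', Rs t s' ∧ Stp G Y s' (b t) s

/-- the word of the first `T` bits is accepted -/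
def Ac (T : ℕ) : Prop :=
  Rs G Y b T .acc ∨ ∃ k < (m + M) * (2 * H + 1), Rs G Y b T (.fmt k)

variable {G Y b}

lemma acc_mono {t t' : ℕ} (h : Rs G Y b t .acc) (ht : t ≤ t') : Rs G Y b t' .acc := by
  induction t', ht using Nat.le_induction with
  | base => exact h
  | succ t' _ ih => exact ⟨_, ih, .acc _⟩

lemma ph_run {φ : Ph μ ℓ M A} {κ : ℕ} (h0 : Rs G Y b (κ * (2 * H + 1)) (.ph φ 0))
    (hok : ∀ f, ok G φ f (b (κ * (2 * H + 1) + off H (G.pos f)))) :
    ∀ o, o < 2 * H + 1 → Rs G Y b (κ * (2 * H + 1) + o) (.ph φ o) := by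
  intro o
  induction o with
  | zero => intro _; exact h0
  | succ o ih =>
    intro ho
    refine ⟨_, ih (by omega), .ph φ o _ ho ?_⟩
    intro f hf
    have := hok f
    rw [hf] at this
    exact this

lemma ph_end {φ : Ph μ ℓ M A} {κ : ℕ} (h0 : Rs G Y b (κ * (2 * H + 1)) (.ph φ 0))
    (hok : ∀ f, ok G φ f (b (κ * (2 * H + 1) + off H (G.pos f)))) {s : St μ ℓ H M A}
    (hs : Nx φ s) : Rs G Y b ((κ + 1) * (2 * H + 1)) s := by
  have e : (κ + 1) * (2 * H + 1) = κ * (2 * H + 1) + 2 * H + 1 := by ring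
  rw [e]
  refine ⟨_, ph_run h0 hok (2 * H) (by omega), .nx φ _ ?_ s hs⟩
  intro f hf
  have := hok f
  rw [hf] at this
  exact this

lemma wait_run (κ : ℕ) : Rs G Y b (κ * (2 * H + 1)) (.ph .W 0) := by
  induction κ with
  | zero =>
    rw [zero_mul]
    exact Or.inr .WW
  | succ κ ih => exact ph_end ih (fun f => trivial) .WW

lemma wait_nx (κ : ℕ) {s : St μ ℓ H M A} (hs : Nx .W s) : Rs G Y b (κ * (2 * H + 1)) s := by
  rcases κ with _ | κ
  · rw [zero_mul]
    exact Or.inr hs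
  · exact ph_end (wait_run κ) (fun f => trivial) hs

lemma lab_acc {κ : ℕ} {d : Fin μ}
    (hd : b (κ * (2 * H + 1) + off H (G.pos (Sum.inr (Sum.inl d)))) ≠
      b ((κ + 1) * (2 * H + 1) + off H (G.pos (Sum.inr (Sum.inl d))))) :
    Rs G Y b ((κ + 2) * (2 * H + 1)) .acc := by
  have h1 : Rs G Y b ((κ + 1) * (2 * H + 1)) (.ph (.L2 d (b (κ * (2 * H + 1) +
      off H (G.pos (Sum.inr (Sum.inl d)))))) 0) := by
    refine ph_end (wait_nx κ (.WL d _)) ?_ (.L12 d _)
    intro f hf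
    rw [hf]
  refine ph_end h1 ?_ (.L2 d _)
  intro f hf
  rw [hf]
  revert hd
  cases b (κ * (2 * H + 1) + off H (G.pos (Sum.inr (Sum.inl d)))) <;>
    cases b ((κ + 1) * (2 * H + 1) + off H (G.pos (Sum.inr (Sum.inl d)))) <;> simp

lemma val_acc {κ κ' : ℕ} (hκ : κ < κ') {i : Fin M} {a : A} {β : Fin ℓ}
    (h1 : ∀ r, b (κ * (2 * H + 1) + off H (G.pos (Sum.inl r))) = Nat.testBit (G.h i a).val r.val)
    (h2 : ∀ r, b (κ' * (2 * H + 1) + off H (G.pos (Sum.inl r))) = Nat.testBit (m + i.val) r.val)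
    (h3 : b (κ * (2 * H + 1) + off H (G.pos (Sum.inr (Sum.inr (G.a0, β))))) ≠
      b (κ' * (2 * H + 1) + off H (G.pos (Sum.inr (Sum.inr (a, β)))))) :
    Rs G Y b ((κ' + 1) * (2 * H + 1)) .acc := by
  set c := b (κ * (2 * H + 1) + off H (G.pos (Sum.inr (Sum.inr (G.a0, β))))) with hc
  have hok : ∀ f, ok G (.V1 i a β c) f (b (κ * (2 * H + 1) + off H (G.pos f))) := by
    intro f
    refine ⟨fun r hr => ?_, fun hf => ?_⟩
    · rw [hr]; exact h1 r
    · rw [hf]
  have h4 : ∀ κ'', κ + 1 ≤ κ'' → Rs G Y b (κ'' * (2 * H + 1)) (.ph (.VW i a β c) 0) ∧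
      Rs G Y b (κ'' * (2 * H + 1)) (.ph (.V2 i a β c) 0) := by
    intro κ'' hk
    induction κ'', hk using Nat.le_induction with
    | base =>
      exact ⟨ph_end (wait_nx κ (.WV i a β c)) hok (.V1W i a β c),
        ph_end (wait_nx κ (.WV i a β c)) hok (.V12 i a β c)⟩
    | succ κ'' _ ih =>
      exact ⟨ph_end ih.1 (fun f => trivial) (.VWW i a β c),
        ph_end ih.1 (fun f => trivial) (.VW2 i a β c)⟩
  refine ph_end (h4 κ' hκ).2 ?_ (.V2 i a β c)
  intro f
  refine ⟨fun r hr => ?_, fun hf => ?_⟩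
  · rw [hr]; exact h2 r
  · rw [hf]
    revert h3
    cases c <;> cases b (κ' * (2 * H + 1) + off H (G.pos (Sum.inr (Sum.inr (a, β))))) <;> simp

lemma y_acc {κ : ℕ} {s s' : Fin H → Bool} (hs : Y s s')
    (h1 : ∀ x, b (κ * (2 * H + 1) + off H x) = Sum.elim s s' x)
    (h2 : b (κ * (2 * H + 1) + H) = false) :
    Rs G Y b ((κ + 1) * (2 * H + 1)) .acc := by
  have hH := G.hH
  have k1 : ∀ k, k ≤ H → Rs G Y b (κ * (2 * H + 1) + k) (.y1 s k) := by
    intro k
    induction k with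
    | zero => intro _; exact wait_nx κ (.WY s)
    | succ k ih =>
      intro hk
      refine ⟨_, ih (by omega), ?_⟩
      have e : b (κ * (2 * H + 1) + k) = s ⟨k, hk⟩ := h1 (Sum.inl ⟨k, hk⟩)
      have h5 : Stp G Y (.y1 s k) (s ⟨k, hk⟩) (.y1 s (k + 1)) := .y1 s k hk
      rw [← e] at h5
      exact h5
  have k2 : ∀ k, k < H → Rs G Y b (κ * (2 * H + 1) + (H + 1 + k)) (.y2 s' k) := by
    intro k
    induction k with
    | zero =>
      intro _
      refine ⟨_, k1 H le_rfl, ?_⟩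
      have h5 : Stp G Y (.y1 s H) false (.y2 s' 0) := .ym s s' hs
      rw [← h2] at h5
      exact h5
    | succ k ih =>
      intro hk
      refine ⟨_, ih (by omega), ?_⟩
      have e : b (κ * (2 * H + 1) + (H + 1 + k)) = s' ⟨k, by omega⟩ := h1 (Sum.inr ⟨k, by omega⟩)
      have h5 : Stp G Y (.y2 s' k) (s' ⟨k, by omega⟩) (.y2 s' (k + 1)) := .y2 s' k hk
      rw [← e] at h5
      exact h5
  have e : (κ + 1) * (2 * H + 1) = κ * (2 * H + 1) + (H + 1 + (H - 1)) + 1 := by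
    rw [add_mul, one_mul]
    omega
  rw [e]
  refine ⟨_, k2 (H - 1) (by omega), ?_⟩
  have e2 : b (κ * (2 * H + 1) + (H + 1 + (H - 1))) = s' ⟨H - 1, by omega⟩ :=
    h1 (Sum.inr ⟨H - 1, by omega⟩)
  rw [e2]
  exact .ye s' (H - 1) (by omega)

lemma fmt_run : ∀ t, t ≤ (m + M) * (2 * H + 1) → (∀ k < t, okf G k (b k)) →
    Rs G Y b t (.fmt t) := by
  intro t
  induction t with
  | zero => intro _ _; exact Or.inl rfl
  | succ t ih =>
    intro ht hok
    exact ⟨_, ih (by omega) (fun k hk => hok k (by omega)), .fok t _ ht (hok t (by omega))⟩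

/-- the words of a wrong form are accepted -/
lemma wrong_acc {T : ℕ} (hT : ¬ (T = (m + M) * (2 * H + 1) ∧
    ∀ k < (m + M) * (2 * H + 1), okf G k (b k))) : Ac G Y b T := by
  classical
  by_cases h1 : ∀ k < min T ((m + M) * (2 * H + 1)), okf G k (b k)
  · rcases lt_trichotomy T ((m + M) * (2 * H + 1)) with h2 | h2 | h2
    · right
      refine ⟨T, h2, fmt_run T h2.le ?_⟩
      intro k hk
      exact h1 k (lt_min hk (hk.trans h2))
    · exfalso
      apply hT
      refine ⟨h2, fun k hk => h1 k (lt_min (by omega) hk)⟩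
    · left
      have h3 : Rs G Y b ((m + M) * (2 * H + 1)) (.fmt ((m + M) * (2 * H + 1))) :=
        fmt_run _ le_rfl (fun k hk => h1 k (lt_min (by omega) hk))
      exact acc_mono (t := (m + M) * (2 * H + 1) + 1) ⟨_, h3, .fend _⟩ h2
  · push Not at h1
    have hex : ∃ k, k < min T ((m + M) * (2 * H + 1)) ∧ ¬ okf G k (b k) := h1
    obtain ⟨h2, h3⟩ := Nat.find_spec hex
    set k := Nat.find hex with hk
    have h4 : k < T := lt_of_lt_of_le h2 (min_le_left _ _)
    have h5 : k < (m + M) * (2 * H + 1) := lt_of_lt_of_le h2 (min_le_right _ _)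
    have h6 : Rs G Y b k (.fmt k) := by
      refine fmt_run k h5.le ?_
      intro k' hk'
      by_contra hcon
      exact Nat.find_min hex hk' ⟨hk'.trans h2, hcon⟩
    left
    exact acc_mono (t := k + 1) ⟨_, h6, .fbad k _ h5 h3⟩ h4

variable (G Y b)

/-- what happened if the accepting state is reached -/
def Ev (t : ℕ) : Prop :=
  (∃ k < t, k < (m + M) * (2 * H + 1) ∧ ¬ okf G k (b k)) ∨
  (m + M) * (2 * H + 1) < t ∨
  (∃ (κ : ℕ) (d : Fin μ), (κ + 2) * (2 * H + 1) ≤ t ∧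
    b (κ * (2 * H + 1) + off H (G.pos (Sum.inr (Sum.inl d)))) ≠
      b ((κ + 1) * (2 * H + 1) + off H (G.pos (Sum.inr (Sum.inl d))))) ∨
  (∃ (κ κ' : ℕ) (i : Fin M) (a : A) (β : Fin ℓ), κ < κ' ∧ (κ' + 1) * (2 * H + 1) ≤ t ∧
    (∀ r, b (κ * (2 * H + 1) + off H (G.pos (Sum.inl r))) = Nat.testBit (G.h i a).val r.val) ∧
    (∀ r, b (κ' * (2 * H + 1) + off H (G.pos (Sum.inl r))) = Nat.testBit (m + i.val) r.val) ∧
    b (κ * (2 * H + 1) + off H (G.pos (Sum.inr (Sum.inr (G.a0, β))))) ≠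
      b (κ' * (2 * H + 1) + off H (G.pos (Sum.inr (Sum.inr (a, β)))))) ∨
  (∃ (κ : ℕ) (s s' : Fin H → Bool), (κ + 1) * (2 * H + 1) ≤ t ∧
    (∀ x, b (κ * (2 * H + 1) + off H x) = Sum.elim s s' x) ∧ Y s s')

/-- the history of a phase -/
def Hist : Ph μ ℓ M A → ℕ → Prop
  | .L2 d c, κ => ∃ κ', κ = κ' + 1 ∧ b (κ' * (2 * H + 1) + off H (G.pos (Sum.inr (Sum.inl d)))) = c
  | .VW i a β c, κ => ∃ κ' < κ, (∀ r, b (κ' * (2 * H + 1) + off H (G.pos (Sum.inl r))) =
      Nat.testBit (G.h i a).val r.val) ∧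
      b (κ' * (2 * H + 1) + off H (G.pos (Sum.inr (Sum.inr (G.a0, β))))) = c
  | .V2 i a β c, κ => ∃ κ' < κ, (∀ r, b (κ' * (2 * H + 1) + off H (G.pos (Sum.inl r))) =
      Nat.testBit (G.h i a).val r.val) ∧
      b (κ' * (2 * H + 1) + off H (G.pos (Sum.inr (Sum.inr (G.a0, β))))) = c
  | _, _ => True

/-- the invariant -/
def Inv (t : ℕ) : St μ ℓ H M A → Prop
  | .acc => Ev G Y b t
  | .fmt k => k = t
  | .ph φ o => ∃ κ, t = κ * (2 * H + 1) + o ∧
      (∀ f, off H (G.pos f) < o → ok G φ f (b (κ * (2 * H + 1) + off H (G.pos f)))) ∧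
      Hist G b φ κ
  | .y1 s k => ∃ κ, t = κ * (2 * H + 1) + k ∧
      ∀ x : Fin H, x.val < k → b (κ * (2 * H + 1) + x.val) = s x
  | .y2 s' k => ∃ κ, t = κ * (2 * H + 1) + (H + 1 + k) ∧ ∃ s : Fin H → Bool,
      (∀ x : Fin H, b (κ * (2 * H + 1) + x.val) = s x) ∧ Y s s' ∧
      ∀ x : Fin H, x.val < k → b (κ * (2 * H + 1) + (H + 1 + x.val)) = s' x

variable {G Y b}

lemma Ev.mono {t : ℕ} (h : Ev G Y b t) : Ev G Y b (t + 1) := by
  rcases h with ⟨k, hk, h⟩ | h | ⟨κ, d, hk, h⟩ | ⟨κ, κ', i, a, β, h1, h2, h⟩ | ⟨κ, s, s', hk, h⟩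
  · exact Or.inl ⟨k, by omega, h⟩
  · exact Or.inr (Or.inl (by omega))
  · exact Or.inr (Or.inr (Or.inl ⟨κ, d, by omega, h⟩))
  · exact Or.inr (Or.inr (Or.inr (Or.inl ⟨κ, κ', i, a, β, h1, by omega, h⟩)))
  · exact Or.inr (Or.inr (Or.inr (Or.inr ⟨κ, s, s', by omega, h⟩)))

lemma inv_start {s : St μ ℓ H M A} (h : Rs G Y b 0 s) : Inv G Y b 0 s := by
  have e0 : ∀ κ : ℕ, κ = 0 → 0 = κ * (2 * H + 1) + 0 := by
    intro κ hκ
    rw [hκ]
    omega
  rcases h with rfl | h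
  · rfl
  · cases h with
    | WW => exact ⟨0, e0 0 rfl, fun f hf => absurd hf (Nat.not_lt_zero _), trivial⟩
    | WL d c => exact ⟨0, e0 0 rfl, fun f hf => absurd hf (Nat.not_lt_zero _), trivial⟩
    | WV i a β c => exact ⟨0, e0 0 rfl, fun f hf => absurd hf (Nat.not_lt_zero _), trivial⟩
    | WY s => exact ⟨0, e0 0 rfl, fun f hf => absurd hf (Nat.not_lt_zero _)⟩

lemma inv_step {t : ℕ} {s s' : St μ ℓ H M A} (h : Inv G Y b t s) (hs : Stp G Y s (b t) s') :
    Inv G Y b (t + 1) s' := by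
  have hH := G.hH
  generalize hbt : b t = bt at hs
  cases hs with
  | acc _ => exact Ev.mono h
  | fok k _ hk hb =>
    have h' : k = t := h
    show k + 1 = t + 1
    rw [h']
  | fbad k _ hk hb =>
    have h' : k = t := h
    subst h'
    rw [← hbt] at hb
    exact Or.inl ⟨k, by omega, hk, hb⟩
  | fend _ =>
    have h' : (m + M) * (2 * H + 1) = t := h
    exact Or.inr (Or.inl (by omega))
  | ph φ o _ ho hb =>
    obtain ⟨κ, h1, h2, h3⟩ := h
    refine ⟨κ, by omega, ?_, h3⟩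
    intro f hf
    rcases Nat.lt_succ_iff_lt_or_eq.mp hf with h4 | h4
    · exact h2 f h4
    · have h5 := hb f h4
      rw [← hbt, h1] at h5
      rw [h4]
      exact h5
  | nx φ _ hb s' hn =>
    obtain ⟨κ, h1, h2, h3⟩ := h
    have hfull : ∀ f, ok G φ f (b (κ * (2 * H + 1) + off H (G.pos f))) := by
      intro f
      have h4 := off_lt (G.pos f)
      rcases Nat.lt_succ_iff_lt_or_eq.mp h4 with h5 | h5
      · exact h2 f h5
      · have h6 := hb f h5
        rw [← hbt, h1] at h6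
        rw [h5]
        exact h6
    have ht : t + 1 = (κ + 1) * (2 * H + 1) := by
      rw [h1]
      ring
    have ht0 : t + 1 = (κ + 1) * (2 * H + 1) + 0 := ht
    cases hn with
    | WW => exact ⟨κ + 1, ht0, fun f hf => absurd hf (Nat.not_lt_zero _), trivial⟩
    | WL d c => exact ⟨κ + 1, ht0, fun f hf => absurd hf (Nat.not_lt_zero _), trivial⟩
    | WV i a β c => exact ⟨κ + 1, ht0, fun f hf => absurd hf (Nat.not_lt_zero _), trivial⟩
    | WY s => exact ⟨κ + 1, ht0, fun f hf => absurd hf (Nat.not_lt_zero _)⟩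
    | L12 d c =>
      refine ⟨κ + 1, ht0, fun f hf => absurd hf (Nat.not_lt_zero _), κ, rfl, ?_⟩
      exact hfull (Sum.inr (Sum.inl d)) rfl
    | L2 d c =>
      obtain ⟨κ', h4, h5⟩ := h3
      have h6 := hfull (Sum.inr (Sum.inl d)) rfl
      refine Or.inr (Or.inr (Or.inl ⟨κ', d, ?_, ?_⟩))
      · rw [ht, h4]
      · rw [h4] at h6
        rw [h5, h6]
        cases c <;> simp
    | V1W i a β c =>
      refine ⟨κ + 1, ht0, fun f hf => absurd hf (Nat.not_lt_zero _), κ, by omega, ?_, ?_⟩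
      · intro r
        exact (hfull (Sum.inl r)).1 r rfl
      · exact (hfull (Sum.inr (Sum.inr (G.a0, β)))).2 rfl
    | V12 i a β c =>
      refine ⟨κ + 1, ht0, fun f hf => absurd hf (Nat.not_lt_zero _), κ, by omega, ?_, ?_⟩
      · intro r
        exact (hfull (Sum.inl r)).1 r rfl
      · exact (hfull (Sum.inr (Sum.inr (G.a0, β)))).2 rfl
    | VWW i a β c =>
      obtain ⟨κ', h4, h5⟩ := h3
      exact ⟨κ + 1, ht0, fun f hf => absurd hf (Nat.not_lt_zero _), κ', by omega, h5⟩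
    | VW2 i a β c =>
      obtain ⟨κ', h4, h5⟩ := h3
      exact ⟨κ + 1, ht0, fun f hf => absurd hf (Nat.not_lt_zero _), κ', by omega, h5⟩
    | V2 i a β c =>
      obtain ⟨κ', h4, h5, h6⟩ := h3
      refine Or.inr (Or.inr (Or.inr (Or.inl ⟨κ', κ, i, a, β, h4, ht.ge, h5, ?_, ?_⟩)))
      · intro r
        exact (hfull (Sum.inl r)).1 r rfl
      · have h7 := (hfull (Sum.inr (Sum.inr (a, β)))).2 rfl
        rw [h6, h7]
        cases c <;> simp
  | y1 s k hk =>
    obtain ⟨κ, h1, h2⟩ := h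
    refine ⟨κ, by omega, ?_⟩
    intro x hx
    rcases Nat.lt_succ_iff_lt_or_eq.mp hx with h4 | h4
    · exact h2 x h4
    · rw [h4, ← h1, hbt]
      congr 1
      exact Fin.ext h4.symm
  | ym s s' hY =>
    obtain ⟨κ, h1, h2⟩ := h
    refine ⟨κ, by omega, s, fun x => h2 x x.isLt, hY, fun x hx => absurd hx (Nat.not_lt_zero _)⟩
  | y2 s k hk =>
    obtain ⟨κ, h1, s1, h2, h3, h4⟩ := h
    refine ⟨κ, by omega, s1, h2, h3, ?_⟩
    intro x hx
    rcases Nat.lt_succ_iff_lt_or_eq.mp hx with h5 | h5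
    · exact h4 x h5
    · rw [h5, ← h1, hbt]
      congr 1
      exact Fin.ext h5.symm
  | ye s k hk =>
    obtain ⟨κ, h1, s1, h2, h3, h4⟩ := h
    refine Or.inr (Or.inr (Or.inr (Or.inr ⟨κ, s1, s, ?_, ?_, h3⟩)))
    · rw [add_mul, one_mul]
      omega
    · intro x
      rcases x with x | x
      · exact h2 x
      · show b (κ * (2 * H + 1) + (H + 1 + x.val)) = s x
        rcases lt_or_eq_of_le (show x.val ≤ k by omega) with h5 | h5
        · exact h4 x h5
        · rw [h5, ← h1, hbt]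
          congr 1
          exact Fin.ext h5.symm

lemma inv_all : ∀ (t : ℕ) (s : St μ ℓ H M A), Rs G Y b t s → Inv G Y b t s := by
  intro t
  induction t with
  | zero => exact fun s hs => inv_start hs
  | succ t ih =>
    rintro s ⟨s', h1, h2⟩
    exact inv_step (ih s' h1) h2

end

end Pool.Agent.W969.MC
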