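import Pool.Agent.W969.MC.Nfa1
import Pool.Agent.W969.MC.CircAll

/-! The automaton is universal if and only if all copies have no solution. -/

set_option linter.unusedSectionVars false
set_option linter.unusedVariables false

namespace Pool.Agent.W969.MC

open Finset Pool.Agent.H560R2

section

variable {ν μ ℓ H m M : ℕ} {A : Type}

variable (G : Gad ν μ ℓ H m M A)

/-- the content of a block -/
def ctn (s s' : Fin H → Bool) : A → Fin ℓ → Bool :=
  fun a β => Sum.elim s s' (G.pos (Sum.inr (Sum.inr (a, β))))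

/-- the label of a block -/
def lbl (s s' : Fin H → Bool) : Fin μ → Bool :=
  fun d => Sum.elim s s' (G.pos (Sum.inr (Sum.inl d)))

/-- the name of a block -/
def nam (s s' : Fin H → Bool) (κ : ℕ) : Prop :=
  ∀ r : Fin ν, Sum.elim s s' (G.pos (Sum.inl r)) = Nat.testBit κ r.val

/-- the block shows a tuple that is listed -/
def Yy (y : (Fin μ → Bool) → Set (Fin M × (A → Fin ℓ → Bool))) (s s' : Fin H → Bool) : Prop :=
  ∃ i : Fin M, nam G s s' (m + i.val) ∧ (i, ctn G s s') ∈ y (lbl G s s')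

lemma name_uniq {x y : ℕ} (hx : x < 2 ^ ν) (hy : y < 2 ^ ν)
    (h : ∀ r : Fin ν, Nat.testBit x r.val = Nat.testBit y r.val) : x = y := by
  apply Nat.eq_of_testBit_eq
  intro i
  by_cases hi : i < ν
  · exact h ⟨i, hi⟩
  · have h1 : 2 ^ ν ≤ 2 ^ i := Nat.pow_le_pow_right (by norm_num) (by omega)
    rw [Nat.testBit_eq_false_of_lt (lt_of_lt_of_le hx h1),
      Nat.testBit_eq_false_of_lt (lt_of_lt_of_le hy h1)]

lemma div_blk (κ o : ℕ) (ho : o < 2 * H + 1) : (κ * (2 * H + 1) + o) / (2 * H + 1) = κ := by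
  rw [mul_comm, Nat.mul_add_div (by omega), Nat.div_eq_of_lt ho, add_zero]

lemma mod_blk (κ o : ℕ) (ho : o < 2 * H + 1) : (κ * (2 * H + 1) + o) % (2 * H + 1) = o := by
  rw [mul_comm, Nat.mul_add_mod, Nat.mod_eq_of_lt ho]

lemma lt_blk {κ n o : ℕ} (hκ : κ < n) (ho : o < 2 * H + 1) :
    κ * (2 * H + 1) + o < n * (2 * H + 1) := by
  have h1 : (κ + 1) * (2 * H + 1) ≤ n * (2 * H + 1) := Nat.mul_le_mul_right _ hκ
  rw [add_mul, one_mul] at h1
  omega

/-- the word of the blocks `g` -/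
noncomputable def wd0 (g : ℕ → Fd ν μ ℓ A → Bool) (t : ℕ) : Bool :=
  @decide (∃ f, off H (G.pos f) = t % (2 * H + 1) ∧ g (t / (2 * H + 1)) f = true)
    (Classical.propDecidable _)

lemma wd0_field (g : ℕ → Fd ν μ ℓ A → Bool) (κ : ℕ) (f : Fd ν μ ℓ A) :
    wd0 G g (κ * (2 * H + 1) + off H (G.pos f)) = g κ f := by
  unfold wd0
  rw [div_blk _ _ (off_lt _), mod_blk _ _ (off_lt _)]
  rw [Bool.eq_iff_iff, @decide_eq_true_iff _ (Classical.propDecidable _)]
  constructor
  · rintro ⟨f', h1, h2⟩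
    rw [← G.inj (off_inj h1)]
    exact h2
  · intro h
    exact ⟨f, rfl, h⟩

lemma wd0_sep (g : ℕ → Fd ν μ ℓ A → Bool) {t : ℕ} (ht : t % (2 * H + 1) = H) :
    wd0 G g t = false := by
  unfold wd0
  rw [@decide_eq_false_iff_not _ (Classical.propDecidable _)]
  rintro ⟨f, h1, -⟩
  rw [ht] at h1
  exact off_ne _ h1

variable [Fintype A] [DecidableEq A]
variable (y : (Fin μ → Bool) → Set (Fin M × (A → Fin ℓ → Bool)))

lemma all_acc (hy : ∀ j : Fin μ → Bool, ∀ p : Fin m → Fin ℓ → Bool,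
      ∃ u ∈ tu G.h (gr p), u ∈ y j) (b : ℕ → Bool) (T : ℕ) : Ac G (Yy G y) b T := by
  classical
  have hA : Nonempty A := ⟨G.a0⟩
  by_cases hT : T = (m + M) * (2 * H + 1) ∧ ∀ k < (m + M) * (2 * H + 1), okf G k (b k)
  swap
  · exact wrong_acc hT
  obtain ⟨hT, hok⟩ := hT
  have hname : ∀ κ < m + M, ∀ r : Fin ν,
      b (κ * (2 * H + 1) + off H (G.pos (Sum.inl r))) = Nat.testBit κ r.val := by
    intro κ hκ r
    have h1 := (hok _ (lt_blk hκ (off_lt (G.pos (Sum.inl r))))).2 r (by rw [mod_blk _ _ (off_lt _)])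
    rwa [div_blk _ _ (off_lt _)] at h1
  have hsep : ∀ κ < m + M, b (κ * (2 * H + 1) + H) = false := by
    intro κ hκ
    exact (hok _ (lt_blk hκ (by omega))).1 (mod_blk _ _ (by omega))
  left
  by_cases hlab : ∃ κ : ℕ, ∃ d : Fin μ, κ + 1 < m + M ∧
      b (κ * (2 * H + 1) + off H (G.pos (Sum.inr (Sum.inl d)))) ≠
      b ((κ + 1) * (2 * H + 1) + off H (G.pos (Sum.inr (Sum.inl d))))
  · obtain ⟨κ, d, hκ, hd⟩ := hlab
    refine acc_mono (lab_acc hd) ?_
    rw [hT]
    exact Nat.mul_le_mul_right _ hκ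
  push Not at hlab
  set j : Fin μ → Bool := fun d => b (0 * (2 * H + 1) + off H (G.pos (Sum.inr (Sum.inl d)))) with hj
  have hlab' : ∀ κ < m + M, ∀ d : Fin μ,
      b (κ * (2 * H + 1) + off H (G.pos (Sum.inr (Sum.inl d)))) = j d := by
    intro κ
    induction κ with
    | zero => intro _ d; rfl
    | succ κ ih =>
      intro hκ d
      rw [← hlab κ d hκ]
      exact ih (by omega) d
  obtain ⟨⟨i, f⟩, hu, huy⟩ := hy j (fun v β => b (v.val * (2 * H + 1) +
    off H (G.pos (Sum.inr (Sum.inr (G.a0, β))))))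
  rw [mem_tu] at hu
  have hf : ∀ a β, b ((G.h i a).val * (2 * H + 1) +
      off H (G.pos (Sum.inr (Sum.inr (G.a0, β))))) = f a β := by
    intro a β
    have h1 := hu a
    rw [mem_gr] at h1
    exact congrFun h1 β
  have hi : m + i.val < m + M := by have := i.isLt; omega
  by_cases hval : ∃ a β, b ((G.h i a).val * (2 * H + 1) +
      off H (G.pos (Sum.inr (Sum.inr (G.a0, β))))) ≠
      b ((m + i.val) * (2 * H + 1) + off H (G.pos (Sum.inr (Sum.inr (a, β)))))
  · obtain ⟨a, β, hne⟩ := hval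
    have h1 : (G.h i a).val < m + i.val := by have := (G.h i a).isLt; omega
    refine acc_mono (val_acc h1 (hname _ (by omega)) (hname _ hi) hne) ?_
    rw [hT]
    exact Nat.mul_le_mul_right _ hi
  push Not at hval
  set s : Fin H → Bool := fun k => b ((m + i.val) * (2 * H + 1) + off H (Sum.inl k)) with hs
  set s' : Fin H → Bool := fun k => b ((m + i.val) * (2 * H + 1) + off H (Sum.inr k)) with hs'
  have hel : ∀ x, b ((m + i.val) * (2 * H + 1) + off H x) = Sum.elim s s' x := by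
    rintro (x | x)
    · rfl
    · rfl
  refine acc_mono (y_acc (κ := m + i.val) (s := s) (s' := s') ?_ hel (hsep _ hi)) ?_
  · refine ⟨i, ?_, ?_⟩
    · intro r
      rw [← hel]
      exact hname _ hi r
    · have e1 : lbl G s s' = j := by
        funext d
        show Sum.elim s s' _ = _
        rw [← hel]
        exact hlab' _ hi d
      have e2 : ctn G s s' = f := by
        funext a β
        show Sum.elim s s' _ = _
        rw [← hel, ← hval a β]
        exact hf a β
      rw [e1, e2]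
      exact huy
  · rw [hT]
    exact Nat.mul_le_mul_right _ hi

lemma some_rej {j : Fin μ → Bool} {p : Fin m → Fin ℓ → Bool}
    (hj : ∀ u ∈ tu G.h (gr p), u ∉ y j) :
    ∃ b : ℕ → Bool, ¬ Ac G (Yy G y) b ((m + M) * (2 * H + 1)) := by
  classical
  have hA : Nonempty A := ⟨G.a0⟩
  -- the contents of the blocks
  set c : ℕ → A → Fin ℓ → Bool := fun κ a => if h1 : κ < m then p ⟨κ, h1⟩
    else if h2 : κ - m < M then p (G.h ⟨κ - m, h2⟩ a) else fun _ => false with hc
  set g : ℕ → Fd ν μ ℓ A → Bool := fun κ => Sum.elim (fun r => Nat.testBit κ r.val)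
    (Sum.elim j (fun q => c κ q.1 q.2)) with hg
  have hc1 : ∀ v : Fin m, ∀ a, c v.val a = p v := by
    intro v a
    simp only [hc]
    rw [dif_pos v.isLt]
  have hc2 : ∀ i : Fin M, ∀ a, c (m + i.val) a = p (G.h i a) := by
    intro i a
    simp only [hc]
    have h2 : m + i.val - m < M := by have := i.isLt; omega
    rw [dif_neg (by omega), dif_pos h2]
    congr 2
    exact Fin.ext (by simp only; omega)
  refine ⟨wd0 G g, ?_⟩
  have hname : ∀ κ (r : Fin ν), wd0 G g (κ * (2 * H + 1) + off H (G.pos (Sum.inl r))) =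
      Nat.testBit κ r.val := fun κ r => wd0_field G g κ _
  have hlab : ∀ κ (d : Fin μ), wd0 G g (κ * (2 * H + 1) + off H (G.pos (Sum.inr (Sum.inl d)))) =
      j d := fun κ r => wd0_field G g κ _
  have hcon : ∀ κ (a : A) (β : Fin ℓ), wd0 G g (κ * (2 * H + 1) +
      off H (G.pos (Sum.inr (Sum.inr (a, β))))) = c κ a β := fun κ a β => wd0_field G g κ _
  have hblk : ∀ {κ : ℕ}, (κ + 1) * (2 * H + 1) ≤ (m + M) * (2 * H + 1) → κ < m + M := by
    intro κ hκ
    exact Nat.le_of_mul_le_mul_right hκ (by omega)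
  have hν := G.hν
  rintro (h1 | ⟨k, hk, h1⟩)
  · have h2 : Ev G (Yy G y) (wd0 G g) ((m + M) * (2 * H + 1)) := inv_all _ _ h1
    rcases h2 with ⟨k, hk, -, h⟩ | h | ⟨κ, d, hκ, h⟩ | ⟨κ, κ', i, a, β, h1, h2, h3, h4, h5⟩ |
      ⟨κ, s, s', hκ, h3, i, h4, h5⟩
    · apply h
      refine ⟨fun hk => wd0_sep G g hk, ?_⟩
      intro r hr
      have e1 : k = k / (2 * H + 1) * (2 * H + 1) + off H (G.pos (Sum.inl r)) := by
        rw [hr]
        exact (Nat.div_add_mod' k (2 * H + 1)).symm
      have h6 := hname (k / (2 * H + 1)) r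
      rw [← e1] at h6
      exact h6
    · exact lt_irrefl _ h
    · rw [hlab, hlab] at h
      exact h rfl
    · have h6 := hblk h2
      have e1 : κ = (G.h i a).val := by
        apply name_uniq (ν := ν) (by omega) (by have := (G.h i a).isLt; omega)
        intro r
        rw [← h3 r, hname]
      have e2 : κ' = m + i.val := by
        apply name_uniq (ν := ν) (by omega) (by have := i.isLt; omega)
        intro r
        rw [← h4 r, hname]
      apply h5
      rw [hcon, hcon, e1, e2, hc1, hc2]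
    · have h6 := hblk hκ
      have e1 : κ = m + i.val := by
        apply name_uniq (ν := ν) (by omega) (by have := i.isLt; omega)
        intro r
        rw [← h4 r, ← h3, hname]
      have e2 : lbl G s s' = j := by
        funext d
        show Sum.elim s s' _ = _
        rw [← h3, hlab]
      have e3 : ctn G s s' = fun a => p (G.h i a) := by
        funext a β
        show Sum.elim s s' _ = _
        rw [← h3, hcon, e1, hc2]
      rw [e2, e3] at h5
      refine hj _ ?_ h5
      rw [mem_tu]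
      intro a
      rw [mem_gr]
  · have h2 : k = (m + M) * (2 * H + 1) := inv_all _ _ h1
    omega

/-! validity of states -/

/-- the states that are used -/
def Val (m : ℕ) : St μ ℓ H M A → Prop
  | .acc => True
  | .fmt k => k ≤ (m + M) * (2 * H + 1)
  | .ph _ o => o < 2 * H + 1
  | .y1 _ k => k ≤ H
  | .y2 _ k => k < H

lemma nx_val {φ : Ph μ ℓ M A} {s : St μ ℓ H M A} (h : Nx φ s) : Val m s := by
  cases h with
  | WW => exact Nat.succ_pos _
  | WL _ _ => exact Nat.succ_pos _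
  | WV _ _ _ _ => exact Nat.succ_pos _
  | WY _ => exact Nat.zero_le _
  | L12 _ _ => exact Nat.succ_pos _
  | L2 _ _ => trivial
  | V1W _ _ _ _ => exact Nat.succ_pos _
  | V12 _ _ _ _ => exact Nat.succ_pos _
  | VWW _ _ _ _ => exact Nat.succ_pos _
  | VW2 _ _ _ _ => exact Nat.succ_pos _
  | V2 _ _ _ _ => trivial

variable {G}

lemma stp_val {Y : (Fin H → Bool) → (Fin H → Bool) → Prop} {s s' : St μ ℓ H M A} {b : Bool}
    (h : Stp G Y s b s') (hs : Val m s) : Val m s' := by
  have hH := G.hH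
  cases h with
  | acc _ => trivial
  | fok k _ hk _ => exact hk
  | fbad k _ hk _ => trivial
  | fend _ => trivial
  | ph φ o _ ho _ => exact ho
  | nx φ _ _ s' hn => exact nx_val hn
  | y1 s k hk => exact hk
  | ym s s' _ => exact hH
  | y2 s k hk => exact hk
  | ye s k hk => trivial

lemma rs_val {Y : (Fin H → Bool) → (Fin H → Bool) → Prop} {b : ℕ → Bool} {t : ℕ}
    {s : St μ ℓ H M A} (h : Rs G Y b t s) : Val m s := by
  induction t generalizing s with
  | zero =>
    rcases h with rfl | h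
    · exact Nat.zero_le _
    · exact nx_val h
  | succ t ih =>
    obtain ⟨s', h1, h2⟩ := h
    exact stp_val h2 (ih h1)

lemma stp_mono {Y Y' : (Fin H → Bool) → (Fin H → Bool) → Prop} (hY : ∀ s s', Y s s' → Y' s s')
    {s s' : St μ ℓ H M A} {b : Bool} (h : Stp G Y s b s') : Stp G Y' s b s' := by
  cases h with
  | acc _ => exact .acc _
  | fok k _ hk hb => exact .fok k _ hk hb
  | fbad k _ hk hb => exact .fbad k _ hk hb
  | fend _ => exact .fend _
  | ph φ o _ ho hb => exact .ph φ o _ ho hb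
  | nx φ _ hb s' hn => exact .nx φ _ hb s' hn
  | y1 s k hk => exact .y1 s k hk
  | ym s s' hs => exact .ym s s' (hY _ _ hs)
  | y2 s k hk => exact .y2 s k hk
  | ye s k hk => exact .ye s k hk

/-! the number of states -/

/-- codes of phases -/
abbrev PhC (μ ℓ M : ℕ) (A : Type) : Type :=
  Unit ⊕ ((Bool × (Fin μ × Bool)) ⊕ (Fin 3 × (Fin M × (A × (Fin ℓ × Bool)))))

/-- the code of a phase -/
def phc : Ph μ ℓ M A → PhC μ ℓ M A
  | .W => Sum.inl ()
  | .L1 d c => Sum.inr (Sum.inl (false, d, c))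
  | .L2 d c => Sum.inr (Sum.inl (true, d, c))
  | .V1 i a β c => Sum.inr (Sum.inr (0, i, a, β, c))
  | .VW i a β c => Sum.inr (Sum.inr (1, i, a, β, c))
  | .V2 i a β c => Sum.inr (Sum.inr (2, i, a, β, c))

lemma phc_inj : Function.Injective (phc : Ph μ ℓ M A → PhC μ ℓ M A) := by
  intro x y h
  cases x <;> cases y <;> simp_all [phc]

/-- codes of states -/
abbrev StC (μ ℓ H m M : ℕ) (A : Type) : Type :=
  Unit ⊕ (Fin ((m + M) * (2 * H + 1) + 1) ⊕ ((PhC μ ℓ M A × Fin (2 * H + 1)) ⊕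
    (((Fin H → Bool) × Fin (H + 1)) ⊕ ((Fin H → Bool) × Fin H))))

/-- the code of a state -/
def stc : (s : St μ ℓ H M A) → Val m s → StC μ ℓ H m M A
  | .acc, _ => Sum.inl ()
  | .fmt k, h => Sum.inr (Sum.inl ⟨k, Nat.lt_succ_of_le h⟩)
  | .ph φ o, h => Sum.inr (Sum.inr (Sum.inl (phc φ, ⟨o, h⟩)))
  | .y1 s k, h => Sum.inr (Sum.inr (Sum.inr (Sum.inl (s, ⟨k, Nat.lt_succ_of_le h⟩))))
  | .y2 s k, h => Sum.inr (Sum.inr (Sum.inr (Sum.inr (s, ⟨k, h⟩))))

lemma stc_inj {s s' : St μ ℓ H M A} (hs : Val m s) (hs' : Val m s') (h : stc s hs = stc s' hs') :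
    s = s' := by
  cases s <;> cases s' <;> simp [stc, phc_inj.eq_iff, Fin.mk.injEq] at h ⊢ <;>
    first
    | exact h
    | exact ⟨h.1, congrArg Fin.val h.2⟩

/-- the states that are used fit into `Fin n` -/
lemma emb_states {n : ℕ} (hn : 2 + (2 * H + 1) * (m + M + 1 + 4 * μ + 6 * (M * (Fintype.card A * ℓ))
    + 2 ^ H) ≤ n) : Nonempty ({s : St μ ℓ H M A // Val m s} ↪ Fin n) := by
  have h1 : Fintype.card (StC μ ℓ H m M A) ≤ Fintype.card (Fin n) := by
    simp only [Fintype.card_sum, Fintype.card_prod, Fintype.card_fun, Fintype.card_fin,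
      Fintype.card_bool, Fintype.card_unit]
    refine le_trans (le_of_eq ?_) hn
    ring
  obtain ⟨e⟩ := Function.Embedding.nonempty_of_card_le h1
  exact ⟨⟨fun s => e (stc s.1 s.2), fun s s' h => Subtype.ext (stc_inj _ _ (e.injective h))⟩⟩

end

end Pool.Agent.W969.MC
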