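import Pool.Agent.W969.MC.Qbf2

/-! Quantified formulas with two blocks: the main bound. -/

set_option linter.unusedSectionVars false
set_option linter.unusedVariables false

namespace Pool.Agent.W969.MC

open Finset Pool.Agent.H560R2

/-- powers of two below quotients -/
lemma log_div {N M : ℕ} (hM : 0 < M) (hMN : M ≤ N) :
    M * 2 ^ (Nat.log 2 (N / M)) ≤ N ∧ (N : ℝ) ≤ 2 * (M * ((2 ^ (Nat.log 2 (N / M)) : ℕ) : ℝ)) := by
  have h1 : N / M ≠ 0 := (Nat.div_pos hMN hM).ne'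
  constructor
  · calc M * 2 ^ (Nat.log 2 (N / M)) ≤ M * (N / M) := Nat.mul_le_mul_left _ (Nat.pow_log_le_self 2 h1)
      _ ≤ N := Nat.mul_div_le N M
  · have h2 : N / M < 2 ^ (Nat.log 2 (N / M) + 1) := Nat.lt_pow_succ_log_self (by norm_num) _
    have h3 : N < M * 2 ^ (Nat.log 2 (N / M) + 1) := by
      have := Nat.lt_mul_of_div_lt h2 hM
      rwa [mul_comm] at this
    have h4 : N ≤ 2 * (M * 2 ^ (Nat.log 2 (N / M))) := by
      rw [pow_succ] at h3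
      calc N ≤ M * (2 ^ (Nat.log 2 (N / M)) * 2) := h3.le
        _ = 2 * (M * 2 ^ (Nat.log 2 (N / M))) := by ring
    exact_mod_cast h4

/-- The main bound for quantified formulas with two blocks. -/
theorem qbf_main (α ε : ℝ) (hα : 0 < α) (hα1 : α ≤ 1) (hε : 0 < ε) :
    ∃ c : ℝ, 0 < c ∧ ∃ n1 : ℕ, ∀ n : ℕ, n1 ≤ n →
      ∀ {S : ℕ} {T : Finset (Fin S)} {wd : Fin S → ℕ}
        {a : ∀ i, Fin (wd i) → QCl n ⊕ Fin S}
        {op : ∀ i, (Fin (wd i) → ℝ) → ℝ} {θ : ∀ i, Fin (wd i) → ℝ}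
        {val : (QCl n → Bool) → Fin S → ℝ}
        (_ : ∀ i j k, a i j = Sum.inr k → k < i)
        (_ : ∀ i ∉ T, wd i ≤ 2 ∧ Monotone (op i))
        (_ : ∀ i ∈ T, ∀ z z' : Fin (wd i) → ℝ, (∀ j, θ i j ≤ z j ↔ θ i j ≤ z' j) →
          op i z = op i z')
        (_ : ∀ x i, val x i = op i (fun j => Sum.elim (bit x) (val x) (a i j)))
        (o : Fin S) (τ : ℝ)
        (_ : ∀ x, τ ≤ val x o ↔ ¬ TrueF n x),
        ((∏ i ∈ T, (wd i + 1) : ℕ) : ℝ) ≤ (n : ℝ) ^ (3 - 2 * α - ε) →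
        (2 : ℝ) ^ (c * (n : ℝ) ^ α) ≤ ((S + ∑ i ∈ T, wd i : ℕ) : ℝ) := by
  set ε0 : ℝ := min (ε / 4) (1 / 4) with hε0
  have hε0pos : 0 < ε0 := lt_min (by positivity) (by norm_num)
  have hε01 : ε0 ≤ ε / 4 := min_le_left _ _
  have hε02 : ε0 ≤ 1 / 4 := min_le_right _ _
  obtain ⟨b2, hb2, δ, hδ, l0, H⟩ := pars_exist3 2 le_rfl ε0 hε0pos
  set C1 : ℝ := 2 / (α / 2) + 1 with hC1
  have hC1pos : 0 < C1 := by rw [hC1]; positivity
  obtain ⟨n1, hn1⟩ := ev_rpow (η := α / 2) (by positivity) (8 * C1 * (l0 + 2))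
  obtain ⟨n2, hn2⟩ := ev_rpow (η := ε / 2) (by positivity) 4608
  obtain ⟨n3, hn3⟩ := ev_rpow (η := 1 / 4) (by norm_num) 24
  obtain ⟨n4, hn4⟩ := ev_rpow (η := 1 / 2) (by norm_num) 30
  obtain ⟨n5, hn5⟩ := ev_rpow (η := α / 4) (by positivity) (16 * C1)
  refine ⟨α * δ / 128, by positivity, max (max (max n1 n2) (max n3 n4)) (max n5 12), ?_⟩
  intro n hn S T wd a op θ val htop hmon hT hval o τ ho hprod
  have g1 := hn1 n ((le_max_left _ _).trans ((le_max_left _ _).trans ((le_max_left _ _).trans hn)))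
  have g2 := hn2 n ((le_max_right _ _).trans ((le_max_left _ _).trans ((le_max_left _ _).trans hn)))
  have g3 := hn3 n ((le_max_left _ _).trans ((le_max_right _ _).trans ((le_max_left _ _).trans hn)))
  have g4 := hn4 n ((le_max_right _ _).trans ((le_max_right _ _).trans
    ((le_max_left _ _).trans hn)))
  have g5 := hn5 n ((le_max_left _ _).trans ((le_max_right _ _).trans hn))
  have g6 : 12 ≤ n := (le_max_right _ _).trans ((le_max_right _ _).trans hn)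
  have hnR : (12 : ℝ) ≤ n := by exact_mod_cast g6
  have hn1R : (1 : ℝ) ≤ n := by linarith
  have hnpos : (0 : ℝ) < n := by linarith
  set L : ℕ := Nat.log 2 n + 1 with hL
  have hLpos : (0 : ℝ) < L := by
    rw [hL]
    positivity
  have hL1 : (1 : ℝ) ≤ L := by
    rw [hL]
    push_cast
    have : (0 : ℝ) ≤ (Nat.log 2 n : ℝ) := Nat.cast_nonneg _
    linarith
  have hLα : (L : ℝ) ≤ C1 * (n : ℝ) ^ (α / 2) := by
    rw [hL]
    push_cast
    exact natlog_le (by positivity) (by omega)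
  have hLh : (L : ℝ) ≤ 5 * (n : ℝ) ^ ((1 : ℝ) / 2) := by
    have h1 := natlog_le (η := 1 / 2) (by norm_num) (l := n) (by omega)
    rw [hL]
    push_cast
    have e1 : (2 : ℝ) / (1 / 2) + 1 = 5 := by norm_num
    rw [e1] at h1
    exact h1
  have hαn : (n : ℝ) ^ α = (n : ℝ) ^ (α / 2) * (n : ℝ) ^ (α / 2) := by
    rw [← Real.rpow_add hnpos]
    congr 1
    ring
  have hn2pos : 0 < (n : ℝ) ^ (α / 2) := by positivity
  have hnα1 : (n : ℝ) ^ α ≤ n := by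
    calc (n : ℝ) ^ α ≤ (n : ℝ) ^ (1 : ℝ) := Real.rpow_le_rpow_of_exponent_le hn1R hα1
      _ = n := Real.rpow_one _
  -- the number l
  set l : ℕ := ⌊(n : ℝ) ^ α / (8 * L)⌋₊ with hl
  have k1 : (l : ℝ) ≤ (n : ℝ) ^ α / (8 * L) := Nat.floor_le (by positivity)
  have k2 : (n : ℝ) ^ α / (8 * L) - 1 < l := Nat.sub_one_lt_floor _
  have k3 : (n : ℝ) ^ (α / 2) / (8 * C1) ≤ (n : ℝ) ^ α / (8 * L) := by
    rw [div_le_div_iff₀ (by positivity) (by positivity), hαn]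
    calc (n : ℝ) ^ (α / 2) * (8 * L) ≤ (n : ℝ) ^ (α / 2) * (8 * (C1 * (n : ℝ) ^ (α / 2))) := by
          apply mul_le_mul_of_nonneg_left _ hn2pos.le
          linarith
      _ = _ := by ring
  have k4 : (l0 : ℝ) + 2 ≤ (n : ℝ) ^ (α / 2) / (8 * C1) := by
    rw [le_div_iff₀ (by positivity)]
    linarith
  have hl0R : (0 : ℝ) ≤ l0 := Nat.cast_nonneg _
  have hll0 : l0 ≤ l := by
    have : (l0 : ℝ) ≤ l := by linarith
    exact_mod_cast this
  have k5 : (n : ℝ) ^ α / (16 * L) ≤ l := by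
    have h1 : (2 : ℝ) ≤ (n : ℝ) ^ α / (8 * L) := by linarith
    have h2 : (n : ℝ) ^ α / (16 * L) = (n : ℝ) ^ α / (8 * L) / 2 := by
      field_simp
      ring
    rw [h2]
    linarith
  have hl1 : (1 : ℝ) ≤ l := by linarith
  have hlpos : (0 : ℝ) < l := by linarith
  have k6 : (l : ℝ) * (8 * L) ≤ (n : ℝ) ^ α := by
    rwa [le_div_iff₀ (by positivity)] at k1
  have k7 : (l : ℝ) ≤ (n : ℝ) ^ α := by
    calc (l : ℝ) = l * 1 := (mul_one _).symm
      _ ≤ l * (8 * L) := mul_le_mul_of_nonneg_left (by linarith) hlpos.le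
      _ ≤ (n : ℝ) ^ α := k6
  -- the number n0
  set n0 : ℕ := ⌈(l : ℝ) ^ (1 + 1 / ((2 : ℕ) : ℝ) + ε0)⌉₊ with hn0
  have j1 : (l : ℝ) ^ (1 + 1 / ((2 : ℕ) : ℝ) + ε0) ≤ n0 := Nat.le_ceil _
  have j2 : (n0 : ℝ) ≤ 2 * (l : ℝ) ^ (1 + 1 / ((2 : ℕ) : ℝ) + ε0) := by
    have h1 : (n0 : ℝ) < (l : ℝ) ^ (1 + 1 / ((2 : ℕ) : ℝ) + ε0) + 1 :=
      Nat.ceil_lt_add_one (by positivity)
    have h2 : (1 : ℝ) ≤ (l : ℝ) ^ (1 + 1 / ((2 : ℕ) : ℝ) + ε0) :=
      Real.one_le_rpow hl1 (by positivity)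
    linarith
  obtain ⟨b, q, M, m, s, w, m', h1, h1', h2, h3, h4, h5⟩ := H n0 l hll0 j1
  have j3 : (l : ℝ) ≤ n0 := by
    refine le_trans ?_ j1
    calc (l : ℝ) = (l : ℝ) ^ (1 : ℝ) := (Real.rpow_one _).symm
      _ ≤ _ := by
        apply Real.rpow_le_rpow_of_exponent_le hl1
        push_cast
        linarith
  have hn0pos : (0 : ℝ) < n0 := by linarith
  have hm'pos : 0 < m' := by
    have h6 : (0 : ℝ) < (n0 : ℝ) ^ δ := Real.rpow_pos_of_pos hn0pos _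
    have h7 : (0 : ℝ) < m' := by linarith
    exact_mod_cast h7
  set t := Nat.log 2 q with ht
  have t1 : 2 ^ t ≤ q := Nat.pow_log_le_self 2 (by omega)
  have t2 : q < 2 ^ (t + 1) := Nat.lt_pow_succ_log_self (by norm_num) q
  obtain ⟨P, h6⟩ := h5 (2 ^ t) t1 (by rw [pow_succ] at t2; omega)
  have hmpos := P.hm
  have hM := P.hM
  have hMpos : 0 < M := by omega
  set Q := (2 ^ t) ^ b2 with hQ
  have hQpos : 0 < Q := by rw [hQ]; positivity
  have hQq : Q ≤ q ^ b2 := Nat.pow_le_pow_left t1 _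
  -- the size of Q
  have hlQ : l * q ^ b2 ≤ n0 := by
    have e1 : l ≤ 4 * M := by omega
    calc l * q ^ b2 ≤ (4 * M) * q ^ b2 := Nat.mul_le_mul_right _ e1
      _ = 1 * (4 * M * q ^ b2) := (one_mul _).symm
      _ ≤ m' * (4 * M * q ^ b2) := Nat.mul_le_mul_right _ hm'pos
      _ = 2 * (m' * (M * (2 * q ^ b2))) := by ring
      _ ≤ n0 := h2
  have hqR : ((q ^ b2 : ℕ) : ℝ) ≤ 2 * (n : ℝ) ^ (α * (1 / 2 + ε0)) := by
    have e1 : (l : ℝ) * ((q ^ b2 : ℕ) : ℝ) ≤ n0 := by exact_mod_cast hlQ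
    have e2 : (l : ℝ) ^ (1 + 1 / ((2 : ℕ) : ℝ) + ε0) = l * (l : ℝ) ^ (1 / 2 + ε0) := by
      have e3 : (1 : ℝ) + 1 / ((2 : ℕ) : ℝ) + ε0 = 1 + (1 / 2 + ε0) := by push_cast; ring
      rw [e3, Real.rpow_add hlpos, Real.rpow_one]
    rw [e2] at j2
    have e4 : (l : ℝ) * ((q ^ b2 : ℕ) : ℝ) ≤ l * (2 * (l : ℝ) ^ (1 / 2 + ε0)) := by
      calc (l : ℝ) * ((q ^ b2 : ℕ) : ℝ) ≤ n0 := e1
        _ ≤ 2 * (l * (l : ℝ) ^ (1 / 2 + ε0)) := j2
        _ = _ := by ring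
    have e5 : ((q ^ b2 : ℕ) : ℝ) ≤ 2 * (l : ℝ) ^ (1 / 2 + ε0) := le_of_mul_le_mul_left e4 hlpos
    refine e5.trans ?_
    apply mul_le_mul_of_nonneg_left _ (by norm_num)
    rw [Real.rpow_mul hnpos.le]
    exact Real.rpow_le_rpow hlpos.le k7 (by positivity)
  have hq34 : (2 : ℝ) * (n : ℝ) ^ (α * (1 / 2 + ε0)) ≤ n / 12 := by
    have e1 : (n : ℝ) ^ (α * (1 / 2 + ε0)) ≤ (n : ℝ) ^ ((3 : ℝ) / 4) := by
      apply Real.rpow_le_rpow_of_exponent_le hn1R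
      calc α * (1 / 2 + ε0) ≤ 1 * (3 / 4) :=
            mul_le_mul hα1 (by linarith) (by linarith) (by norm_num)
        _ = 3 / 4 := one_mul _
    have e2 : (n : ℝ) = (n : ℝ) ^ ((1 : ℝ) / 4) * (n : ℝ) ^ ((3 : ℝ) / 4) := by
      rw [← Real.rpow_add hnpos]
      have : (1 : ℝ) / 4 + 3 / 4 = 1 := by norm_num
      rw [this, Real.rpow_one]
    have e3 : 24 * (n : ℝ) ^ ((3 : ℝ) / 4) ≤ n := by
      calc 24 * (n : ℝ) ^ ((3 : ℝ) / 4) ≤ (n : ℝ) ^ ((1 : ℝ) / 4) * (n : ℝ) ^ ((3 : ℝ) / 4) :=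
            mul_le_mul_of_nonneg_right g3 (by positivity)
        _ = n := e2.symm
    linarith
  -- the number N
  set N : ℕ := n / 6 with hN
  have hN6 : 6 * N ≤ n := Nat.mul_div_le n 6
  have hN12 : (n : ℝ) / 12 ≤ N := by
    have e1 : n ≤ 12 * N := by omega
    have e2 : (n : ℝ) ≤ 12 * N := by exact_mod_cast e1
    linarith
  have hQN : Q ≤ N := by
    have e1 : (Q : ℝ) ≤ N := by
      calc (Q : ℝ) ≤ ((q ^ b2 : ℕ) : ℝ) := by exact_mod_cast hQq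
        _ ≤ 2 * (n : ℝ) ^ (α * (1 / 2 + ε0)) := hqR
        _ ≤ n / 12 := hq34
        _ ≤ N := hN12
    exact_mod_cast e1
  have h8lL : 8 * (l * L) ≤ n := by
    have e1 : (8 : ℝ) * (l * L) ≤ n := by
      calc (8 : ℝ) * (l * L) = l * (8 * L) := by ring
        _ ≤ (n : ℝ) ^ α := k6
        _ ≤ n := hnα1
    exact_mod_cast e1
  have hL1N : 1 ≤ L := by omega
  have hlL : l ≤ l * L := Nat.le_mul_of_pos_right _ hL1N
  have hMN : M ≤ N := by omega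
  have hqn : q ≤ n := by
    have e1 : ((q ^ b2 : ℕ) : ℝ) ≤ n := hqR.trans (hq34.trans (by linarith))
    have e2 : q ^ b2 ≤ n := by exact_mod_cast e1
    exact (Nat.le_self_pow (by omega) q).trans e2
  have htL : t + 1 ≤ L := by
    rw [hL, ht]
    have := Nat.log_mono_right (b := 2) hqn
    omega
  -- the numbers u
  obtain ⟨v1, v2⟩ := log_div hMpos hMN
  obtain ⟨v3, v4⟩ := log_div hQpos hQN
  set u0 := Nat.log 2 (N / M) with hu0
  set u1 := Nat.log 2 (N / Q) with hu1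
  have hu0L : u0 + 1 ≤ L := by
    rw [hL, hu0]
    have e1 : N / M ≤ n := (Nat.div_le_self _ _).trans (Nat.div_le_self _ _)
    have := Nat.log_mono_right (b := 2) e1
    omega
  have hu1L : u1 + 1 ≤ L := by
    rw [hL, hu1]
    have e1 : N / Q ≤ n := (Nat.div_le_self _ _).trans (Nat.div_le_self _ _)
    have := Nat.log_mono_right (b := 2) e1
    omega
  set u : Fin 3 → ℕ := ![u0, u1, u1] with hu
  have husum : ∑ g, u g = u0 + u1 + u1 := by
    rw [Fin.sum_univ_three]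
    rfl
  have hL6 : 6 * L ≤ n := by
    have e1 : (6 : ℝ) * L ≤ n := by
      have e2 : (n : ℝ) = (n : ℝ) ^ ((1 : ℝ) / 2) * (n : ℝ) ^ ((1 : ℝ) / 2) := by
        rw [← Real.rpow_add hnpos]
        have : (1 : ℝ) / 2 + 1 / 2 = 1 := by norm_num
        rw [this, Real.rpow_one]
      calc (6 : ℝ) * L ≤ 6 * (5 * (n : ℝ) ^ ((1 : ℝ) / 2)) := by linarith
        _ = 30 * (n : ℝ) ^ ((1 : ℝ) / 2) := by ring
        _ ≤ (n : ℝ) ^ ((1 : ℝ) / 2) * (n : ℝ) ^ ((1 : ℝ) / 2) :=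
          mul_le_mul_of_nonneg_right g4 (by positivity)
        _ = n := e2.symm
    exact_mod_cast e1
  have hcount : m * t + ∑ g, u g ≤ n := by
    rw [husum]
    have e1 : m * t ≤ l * L := Nat.mul_le_mul (by omega) (by omega)
    omega
  -- the number of copies
  have hcop : (n : ℝ) ^ (3 - 2 * α - ε) ≤ ((2 ^ (∑ g, u g) : ℕ) : ℝ) := by
    rw [husum]
    have e1 : ((2 ^ (u0 + u1 + u1) : ℕ) : ℝ) =
        ((2 ^ u0 : ℕ) : ℝ) * (((2 ^ u1 : ℕ) : ℝ) * ((2 ^ u1 : ℕ) : ℝ)) := by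
      push_cast
      ring
    rw [e1]
    -- the first factor
    have f1 : (n : ℝ) ^ (1 - α) / 2 ≤ ((2 ^ u0 : ℕ) : ℝ) := by
      have e2 : (M : ℝ) ≤ l / 2 := by
        have : 2 * M ≤ l := h1
        have : (2 : ℝ) * M ≤ l := by exact_mod_cast this
        linarith
      have e3 : (n : ℝ) / 12 ≤ 2 * (M * ((2 ^ u0 : ℕ) : ℝ)) := hN12.trans v2
      have e4 : (n : ℝ) / 12 ≤ l * ((2 ^ u0 : ℕ) : ℝ) := by
        refine e3.trans ?_
        have : (0 : ℝ) ≤ ((2 ^ u0 : ℕ) : ℝ) := Nat.cast_nonneg _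
        calc 2 * (M * ((2 ^ u0 : ℕ) : ℝ)) = (2 * M) * ((2 ^ u0 : ℕ) : ℝ) := by ring
          _ ≤ l * ((2 ^ u0 : ℕ) : ℝ) := mul_le_mul_of_nonneg_right (by linarith) this
      have e5 : (n : ℝ) = (n : ℝ) ^ (1 - α) * (n : ℝ) ^ α := by
        rw [← Real.rpow_add hnpos]
        have : 1 - α + α = 1 := by ring
        rw [this, Real.rpow_one]
      have e6 : (l : ℝ) * 8 ≤ (n : ℝ) ^ α := by
        refine le_trans ?_ k6
        apply mul_le_mul_of_nonneg_left _ hlpos.le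
        linarith
      have e7 : (l : ℝ) * ((n : ℝ) ^ (1 - α) / 2) ≤ l * ((2 ^ u0 : ℕ) : ℝ) := by
        refine le_trans ?_ e4
        have h0 : 0 < (n : ℝ) ^ (1 - α) := by positivity
        have : (l : ℝ) * 8 * (n : ℝ) ^ (1 - α) ≤ (n : ℝ) ^ α * (n : ℝ) ^ (1 - α) :=
          mul_le_mul_of_nonneg_right e6 h0.le
        have e8 : (n : ℝ) ^ α * (n : ℝ) ^ (1 - α) = n := by rw [mul_comm]; exact e5.symm
        rw [e8] at this
        have e9 : (l : ℝ) * ((n : ℝ) ^ (1 - α) / 2) = (l : ℝ) * 8 * (n : ℝ) ^ (1 - α) / 16 := by ring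
        rw [e9]
        linarith
      exact le_of_mul_le_mul_left e7 hlpos
    -- the second factor
    have f2 : (n : ℝ) ^ (1 - α * (1 / 2 + ε0)) / 48 ≤ ((2 ^ u1 : ℕ) : ℝ) := by
      have hQR : (Q : ℝ) ≤ 2 * (n : ℝ) ^ (α * (1 / 2 + ε0)) := by
        refine le_trans ?_ hqR
        exact_mod_cast hQq
      have e3 : (n : ℝ) / 12 ≤ 2 * (Q * ((2 ^ u1 : ℕ) : ℝ)) := hN12.trans v4
      have h0 : (0 : ℝ) ≤ ((2 ^ u1 : ℕ) : ℝ) := Nat.cast_nonneg _
      have e4 : (n : ℝ) / 12 ≤ 2 * ((2 * (n : ℝ) ^ (α * (1 / 2 + ε0))) * ((2 ^ u1 : ℕ) : ℝ)) := by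
        refine e3.trans ?_
        apply mul_le_mul_of_nonneg_left _ (by norm_num)
        exact mul_le_mul_of_nonneg_right hQR h0
      have e5 : (n : ℝ) = (n : ℝ) ^ (α * (1 / 2 + ε0)) * (n : ℝ) ^ (1 - α * (1 / 2 + ε0)) := by
        rw [← Real.rpow_add hnpos]
        have : α * (1 / 2 + ε0) + (1 - α * (1 / 2 + ε0)) = 1 := by ring
        rw [this, Real.rpow_one]
      have hpos : 0 < (n : ℝ) ^ (α * (1 / 2 + ε0)) := by positivity
      have e6 : (n : ℝ) ^ (α * (1 / 2 + ε0)) * ((n : ℝ) ^ (1 - α * (1 / 2 + ε0)) / 48) ≤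
          (n : ℝ) ^ (α * (1 / 2 + ε0)) * ((2 ^ u1 : ℕ) : ℝ) := by
        have e7 : (n : ℝ) ^ (α * (1 / 2 + ε0)) * ((n : ℝ) ^ (1 - α * (1 / 2 + ε0)) / 48) =
            n / 48 := by
          rw [← mul_div_assoc, ← e5]
        rw [e7]
        linarith
      exact le_of_mul_le_mul_left e6 hpos
    have hA : 0 < (n : ℝ) ^ (1 - α) := by positivity
    have hB : 0 < (n : ℝ) ^ (1 - α * (1 / 2 + ε0)) := by positivity
    have e9 : ((n : ℝ) ^ (1 - α) / 2) * (((n : ℝ) ^ (1 - α * (1 / 2 + ε0)) / 48) *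
        ((n : ℝ) ^ (1 - α * (1 / 2 + ε0)) / 48)) ≤
        ((2 ^ u0 : ℕ) : ℝ) * (((2 ^ u1 : ℕ) : ℝ) * ((2 ^ u1 : ℕ) : ℝ)) := by
      apply mul_le_mul f1 _ (by positivity) (by positivity)
      exact mul_le_mul f2 f2 (by positivity) (by positivity)
    refine le_trans ?_ e9
    have e10 : ((n : ℝ) ^ (1 - α) / 2) * (((n : ℝ) ^ (1 - α * (1 / 2 + ε0)) / 48) *
        ((n : ℝ) ^ (1 - α * (1 / 2 + ε0)) / 48)) =
        ((n : ℝ) ^ (1 - α) * ((n : ℝ) ^ (1 - α * (1 / 2 + ε0)) *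
          (n : ℝ) ^ (1 - α * (1 / 2 + ε0)))) / 4608 := by ring
    rw [e10, ← Real.rpow_add hnpos, ← Real.rpow_add hnpos, le_div_iff₀ (by norm_num)]
    have e11 : (1 : ℝ) - α + (1 - α * (1 / 2 + ε0) + (1 - α * (1 / 2 + ε0))) =
        (3 - 2 * α - ε) + (ε - 2 * α * ε0) := by ring
    rw [e11, Real.rpow_add hnpos]
    apply mul_le_mul_of_nonneg_left _ (by positivity)
    refine g2.trans ?_
    apply Real.rpow_le_rpow_of_exponent_le hn1R
    have e12 : α * ε0 ≤ 1 * (ε / 4) := mul_le_mul hα1 hε01 hε0pos.le (by norm_num)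
    linarith
  -- the lower bound
  have hmain : (n0 : ℝ) ^ (δ * l) ≤ ((S + ∑ i ∈ T, wd i : ℕ) : ℝ) := by
    by_contra hcon
    push Not at hcon
    obtain ⟨h7, h8⟩ := h6 _ hcon
    have h9 := qbf_param P u (N := N) v1 (by
      intro s'
      have e1 : u s'.succ = u1 := by
        fin_cases s' <;> rfl
      rw [e1]
      exact v3) hN6 hcount htop hmon hT hval o τ ho h7 h8
    have h10 : ((2 ^ (∑ g, u g) : ℕ) : ℝ) < ((∏ i ∈ T, (wd i + 1) : ℕ) : ℝ) := by exact_mod_cast h9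
    linarith
  refine le_trans ?_ hmain
  -- n0 is large
  have hn4pos : 0 < (n : ℝ) ^ (α / 4) := by positivity
  have r1 : (n : ℝ) ^ (α / 4) ≤ n0 := by
    refine le_trans ?_ j3
    have e1 : (n : ℝ) ^ (α / 2) = (n : ℝ) ^ (α / 4) * (n : ℝ) ^ (α / 4) := by
      rw [← Real.rpow_add hnpos]
      congr 1
      ring
    have e2 : (n : ℝ) ^ (α / 4) ≤ (n : ℝ) ^ (α / 2) / (16 * C1) := by
      rw [le_div_iff₀ (by positivity), e1]
      exact mul_le_mul_of_nonneg_left g5 hn4pos.le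
    have e3 : (n : ℝ) ^ (α / 2) / (16 * C1) ≤ (n : ℝ) ^ α / (16 * L) := by
      rw [div_le_div_iff₀ (by positivity) (by positivity), hαn]
      calc (n : ℝ) ^ (α / 2) * (16 * L) ≤ (n : ℝ) ^ (α / 2) * (16 * (C1 * (n : ℝ) ^ (α / 2))) := by
            apply mul_le_mul_of_nonneg_left _ hn2pos.le
            linarith
        _ = _ := by ring
    exact e2.trans (e3.trans k5)
  have r2 : (2 : ℝ) ^ (α / 8 * L) ≤ n0 := by
    refine le_trans ?_ r1
    have e1 : ((2 : ℝ) ^ (Nat.log 2 n)) ≤ n := by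
      exact_mod_cast Nat.pow_log_le_self 2 (by omega : n ≠ 0)
    have e2 : 1 ≤ Nat.log 2 n := by
      have : Nat.log 2 2 ≤ Nat.log 2 n := Nat.log_mono_right (by omega)
      have e3 : Nat.log 2 2 = 1 := by
        rw [Nat.log_eq_one_iff]
        norm_num
      omega
    have e3 : (L : ℝ) ≤ 2 * (Nat.log 2 n : ℝ) := by
      rw [hL]
      push_cast
      have : (1 : ℝ) ≤ (Nat.log 2 n : ℝ) := by exact_mod_cast e2
      linarith
    calc (2 : ℝ) ^ (α / 8 * L) ≤ (2 : ℝ) ^ ((Nat.log 2 n : ℝ) * (α / 4)) := by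
          apply Real.rpow_le_rpow_of_exponent_le (by norm_num)
          have e4 : α / 8 * (L : ℝ) ≤ α / 8 * (2 * (Nat.log 2 n : ℝ)) :=
            mul_le_mul_of_nonneg_left e3 (by positivity)
          linarith
      _ = ((2 : ℝ) ^ (Nat.log 2 n)) ^ (α / 4) := by
          rw [Real.rpow_mul (by norm_num), Real.rpow_natCast]
      _ ≤ (n : ℝ) ^ (α / 4) := Real.rpow_le_rpow (by positivity) e1 (by positivity)
  have r3 : (n : ℝ) ^ α / 16 ≤ L * l := by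
    have e1 : (n : ℝ) ^ α / (16 * L) * L ≤ l * L := mul_le_mul_of_nonneg_right k5 hLpos.le
    have e2 : (n : ℝ) ^ α / (16 * L) * L = (n : ℝ) ^ α / 16 := by
      field_simp
    rw [e2] at e1
    linarith
  calc (2 : ℝ) ^ (α * δ / 128 * (n : ℝ) ^ α) ≤ (2 : ℝ) ^ ((α / 8 * L) * (δ * l)) := by
        apply Real.rpow_le_rpow_of_exponent_le (by norm_num)
        have e1 : (α / 8 * L) * (δ * l) = (α * δ / 8) * (L * l) := by ring
        rw [e1]
        have e2 : (α * δ / 8) * ((n : ℝ) ^ α / 16) ≤ (α * δ / 8) * (L * l) :=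
          mul_le_mul_of_nonneg_left r3 (by positivity)
        linarith
    _ = ((2 : ℝ) ^ (α / 8 * L)) ^ (δ * l) := by rw [Real.rpow_mul (by norm_num)]
    _ ≤ (n0 : ℝ) ^ (δ * l) := Real.rpow_le_rpow (by positivity) r2 (by positivity)

end Pool.Agent.W969.MC
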