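import Pool.Agent.W969.MC.Nfa2
import Pool.Agent.W969.MC.Qbf3
import Mathlib.Computability.NFA

/-! Universality of automata: the lower bound with integer parameters. -/

set_option linter.unusedSectionVars false
set_option linter.unusedVariables false

namespace Pool.Agent.W969.MC

open Finset Pool.Agent.H560R2

/-- the input bits -/
abbrev QIn (n : ℕ) : Type := (Fin n × Bool × Fin n) ⊕ (Fin n ⊕ Fin n)

/-- the automaton -/
def aut {n : ℕ} (x : QIn n → Bool) : NFA Bool (Fin n) where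
  step q a := {q' | x (Sum.inl (q, a, q')) = true}
  start := {q | x (Sum.inr (Sum.inl q)) = true}
  accept := {q | x (Sum.inr (Sum.inr q)) = true}

section

variable {ν μ ℓ H m M n : ℕ} {A : Type} [Fintype A] [DecidableEq A] (G : Gad ν μ ℓ H m M A)
  (ι : {s : St μ ℓ H M A // Val m s} ↪ Fin n)

/-- the bits that are set -/
def InP (Y : (Fin H → Bool) → (Fin H → Bool) → Prop) : QIn n → Prop :=
  Sum.elim
    (fun q => ∃ u u' : {s : St μ ℓ H M A // Val m s}, ι u = q.1 ∧ ι u' = q.2.2 ∧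
      Stp G Y u.1 q.2.1 u'.1)
    (Sum.elim (fun q => ∃ u : {s : St μ ℓ H M A // Val m s}, ι u = q ∧
        (u.1 = .fmt 0 ∨ Nx .W u.1))
      (fun q => ∃ u : {s : St μ ℓ H M A // Val m s}, ι u = q ∧
        (u.1 = .acc ∨ ∃ k < (m + M) * (2 * H + 1), u.1 = .fmt k)))

/-- the input for a relation -/
noncomputable def inq (Y : (Fin H → Bool) → (Fin H → Bool) → Prop) : QIn n → Bool :=
  fun q => @decide (InP G ι Y q) (Classical.propDecidable _)

variable {G ι}

lemma inq_iff {Y : (Fin H → Bool) → (Fin H → Bool) → Prop} {q : QIn n} :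
    inq G ι Y q = true ↔ InP G ι Y q := @decide_eq_true_iff _ (Classical.propDecidable _)

lemma inq_mono {Y Y' : (Fin H → Bool) → (Fin H → Bool) → Prop} (hY : ∀ s s', Y s s' → Y' s s') :
    inq G ι Y ≤ inq G ι Y' := by
  intro q
  rw [Bool.le_iff_imp, inq_iff, inq_iff]
  rcases q with q | q | q
  · rintro ⟨u, u', h1, h2, h3⟩
    exact ⟨u, u', h1, h2, stp_mono hY h3⟩
  · exact id
  · exact id

lemma eval_img (Y : (Fin H → Bool) → (Fin H → Bool) → Prop) (b : ℕ → Bool) (t : ℕ) (q : Fin n) :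
    q ∈ (aut (inq G ι Y)).eval ((List.range t).map b) ↔
      ∃ u : {s : St μ ℓ H M A // Val m s}, ι u = q ∧ Rs G Y b t u.1 := by
  induction t generalizing q with
  | zero =>
    show inq G ι Y (Sum.inr (Sum.inl q)) = true ↔ _
    rw [inq_iff]
    rfl
  | succ t ih =>
    rw [List.range_succ, List.map_append, List.map_singleton, NFA.eval_append_singleton,
      NFA.mem_stepSet]
    constructor
    · rintro ⟨q0, h1, h2⟩
      obtain ⟨u, hu, hR⟩ := (ih q0).mp h1
      have h3 : InP G ι Y (Sum.inl (q0, b t, q)) := inq_iff.mp h2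
      obtain ⟨u1, u1', h4, h5, h6⟩ := h3
      have h7 : u1 = u := ι.injective (h4.trans hu.symm)
      rw [h7] at h6
      exact ⟨u1', h5, u.1, hR, h6⟩
    · rintro ⟨u, hu, s', hs', hst⟩
      refine ⟨ι ⟨s', rs_val hs'⟩, (ih _).mpr ⟨⟨s', rs_val hs'⟩, rfl, hs'⟩, ?_⟩
      show inq G ι Y (Sum.inl (_, b t, q)) = true
      rw [inq_iff]
      exact ⟨⟨s', rs_val hs'⟩, u, rfl, hu, hst⟩

lemma acc_img (Y : (Fin H → Bool) → (Fin H → Bool) → Prop) (b : ℕ → Bool) (t : ℕ) :
    (List.range t).map b ∈ (aut (inq G ι Y)).accepts ↔ Ac G Y b t := by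
  constructor
  · rintro ⟨q, h1, h2⟩
    obtain ⟨u, hu, hR⟩ := (eval_img Y b t q).mp h2
    have h3 : InP G ι Y (Sum.inr (Sum.inr q)) := inq_iff.mp h1
    obtain ⟨u', hu', h4⟩ := h3
    have h5 : u' = u := ι.injective (hu'.trans hu.symm)
    rw [h5] at h4
    rcases h4 with h4 | ⟨k, hk, h4⟩
    · rw [h4] at hR
      exact Or.inl hR
    · rw [h4] at hR
      exact Or.inr ⟨k, hk, hR⟩
  · rintro (h | ⟨k, hk, h⟩)
    · refine ⟨ι ⟨_, rs_val h⟩, ?_, (eval_img Y b t _).mpr ⟨⟨_, rs_val h⟩, rfl, h⟩⟩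
      show inq G ι Y (Sum.inr (Sum.inr _)) = true
      rw [inq_iff]
      exact ⟨⟨_, rs_val h⟩, rfl, Or.inl rfl⟩
    · refine ⟨ι ⟨_, rs_val h⟩, ?_, (eval_img Y b t _).mpr ⟨⟨_, rs_val h⟩, rfl, h⟩⟩
      show inq G ι Y (Sum.inr (Sum.inr _)) = true
      rw [inq_iff]
      exact ⟨⟨_, rs_val h⟩, rfl, Or.inr ⟨k, hk, rfl⟩⟩

lemma word_eq (w : List Bool) : (List.range w.length).map (fun k => w.getD k false) = w := by
  apply List.ext_getElem
  · simp
  · intro i h1 h2
    simp only [List.getElem_map, List.getElem_range]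
    exact List.getD_eq_getElem _ _ h2

lemma stp_change {Y Y' : (Fin H → Bool) → (Fin H → Bool) → Prop}
    {s s' : St μ ℓ H M A} {b : Bool} (h : Stp G Y s b s') : Stp G Y' s b s' ∨
      ∃ z z' : Fin H → Bool, s = .y1 z H ∧ b = false ∧ s' = .y2 z' 0 ∧ Y z z' := by
  cases h with
  | acc _ => exact Or.inl (.acc _)
  | fok k _ hk hb => exact Or.inl (.fok k _ hk hb)
  | fbad k _ hk hb => exact Or.inl (.fbad k _ hk hb)
  | fend _ => exact Or.inl (.fend _)
  | ph φ o _ ho hb => exact Or.inl (.ph φ o _ ho hb)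
  | nx φ _ hb s' hn => exact Or.inl (.nx φ _ hb s' hn)
  | y1 s k hk => exact Or.inl (.y1 s k hk)
  | ym s s' hs => exact Or.inr ⟨s, s', rfl, rfl, rfl, hs⟩
  | y2 s k hk => exact Or.inl (.y2 s k hk)
  | ye s k hk => exact Or.inl (.ye s k hk)

lemma inq_narrow (y : (Fin μ → Bool) → Set (Fin M × (A → Fin ℓ → Bool))) (J : Fin μ → Bool)
    (q : QIn n) :
    ∃ T' : Finset (Fin M × (A → Fin ℓ → Bool)), T'.card ≤ 1 ∧
      ∀ x x' : Set (Fin M × (A → Fin ℓ → Bool)), (∀ e ∈ T', e ∈ x → e ∈ x') →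
        inq G ι (Yy G (Function.update y J x)) q = true →
        inq G ι (Yy G (Function.update y J x')) q = true := by
  classical
  have hν := G.hν
  rcases q with ⟨q, bb, q'⟩ | q
  · by_cases hex : ∃ (i : Fin M) (z z' : Fin H → Bool) (h1 : Val m (.y1 z H : St μ ℓ H M A))
        (h2 : Val m (.y2 z' 0 : St μ ℓ H M A)), ι ⟨.y1 z H, h1⟩ = q ∧ ι ⟨.y2 z' 0, h2⟩ = q' ∧
        nam G z z' (m + i.val)
    · obtain ⟨i, z, z', h1, h2, h3, h4, h5⟩ := hex
      refine ⟨{(i, ctn G z z')}, by simp, fun x x' hx hq => ?_⟩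
      rw [inq_iff] at hq ⊢
      obtain ⟨u, u', h6, h7, h8⟩ := hq
      refine ⟨u, u', h6, h7, ?_⟩
      rcases stp_change (Y' := Yy G (Function.update y J x')) h8 with h9 | ⟨w, w', g1, g2, g3, g4⟩
      · exact h9
      · have e1 : u = ⟨.y1 z H, h1⟩ := ι.injective (h6.trans h3.symm)
        have e2 : u' = ⟨.y2 z' 0, h2⟩ := ι.injective (h7.trans h4.symm)
        have e3 : w = z := by
          have h9 : (.y1 z H : St μ ℓ H M A) = .y1 w H := by
            rw [← g1, e1]
          exact (St.y1.inj h9).1.symm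
        have e4 : w' = z' := by
          have h9 : (.y2 z' 0 : St μ ℓ H M A) = .y2 w' 0 := by
            rw [← g3, e2]
          exact (St.y2.inj h9).1.symm
        rw [g1, g3]
        have g2' : bb = false := g2
        rw [g2']
        apply Stp.ym
        rw [e3, e4] at g4 ⊢
        obtain ⟨i', g5, g6⟩ := g4
        have e5 : i' = i := by
          have h9 : m + i'.val = m + i.val := by
            apply name_uniq (ν := ν) (by have := i'.isLt; omega) (by have := i.isLt; omega)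
            intro r
            rw [← g5 r, ← h5 r]
          exact Fin.ext (by omega)
        refine ⟨i', g5, ?_⟩
        by_cases hJ : lbl G z z' = J
        · rw [hJ, Function.update_self] at g6 ⊢
          apply hx _ _ g6
          rw [e5]
          exact Finset.mem_singleton_self _
        · rw [Function.update_of_ne hJ] at g6 ⊢
          exact g6
    · refine ⟨∅, by simp, fun x x' hx hq => ?_⟩
      rw [inq_iff] at hq ⊢
      obtain ⟨u, u', h6, h7, h8⟩ := hq
      refine ⟨u, u', h6, h7, ?_⟩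
      rcases stp_change (Y' := Yy G (Function.update y J x')) h8 with h9 | ⟨w, w', g1, g2, g3, g4⟩
      · exact h9
      · exfalso
        obtain ⟨i', g5, g6⟩ := g4
        apply hex
        refine ⟨i', w, w', ?_, ?_, ?_, ?_, g5⟩
        · rw [← g1]
          exact u.2
        · rw [← g3]
          exact u'.2
        · have h6' : ι u = q := h6
          rw [← h6']
          congr 1
          exact Subtype.ext g1.symm
        · have h7' : ι u' = q' := h7
          rw [← h7']
          congr 1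
          exact Subtype.ext g3.symm
  · refine ⟨∅, by simp, fun x x' hx hq => ?_⟩
    rw [inq_iff] at hq ⊢
    rcases q with q | q
    · exact hq
    · exact hq

end

/-- the lower bound for automata with integer parameters -/
theorem nfa_param {b2 b t M m s w n μ ν H : ℕ} (P : Pars 2 b2 b (2 ^ t) M m s w)
    (hν : m + M ≤ 2 ^ ν) (hH0 : 0 < H) (hH : ν + (μ + (2 * b2) * t) ≤ 2 * H)
    (hn : 2 + (2 * H + 1) * (m + M + 1 + 4 * μ + 6 * (M * ((2 * b2) * t)) + 2 ^ H) ≤ n)
    {S : ℕ} {T : Finset (Fin S)} {wd : Fin S → ℕ}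
    {a : ∀ i, Fin (wd i) → QIn n ⊕ Fin S}
    {op : ∀ i, (Fin (wd i) → ℝ) → ℝ} {θ : ∀ i, Fin (wd i) → ℝ}
    {val : (QIn n → Bool) → Fin S → ℝ}
    (htop : ∀ i j k, a i j = Sum.inr k → k < i)
    (hmon : ∀ i ∉ T, wd i ≤ 2 ∧ Monotone (op i))
    (hT : ∀ i ∈ T, ∀ z z' : Fin (wd i) → ℝ, (∀ j, θ i j ≤ z j ↔ θ i j ≤ z' j) → op i z = op i z')
    (hval : ∀ x i, val x i = op i (fun j => Sum.elim (bit x) (val x) (a i j)))
    (o : Fin S) (τ : ℝ)
    (hacc : ∀ x, (∀ w, w ∈ (aut x).accepts) → τ ≤ val x o)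
    (hrej : ∀ x w, w.length ≤ n → w ∉ (aut x).accepts → ¬ τ ≤ val x o)
    (hlen : S + ∑ i ∈ T, wd i ≤ (2 ^ t + 1) ^ m)
    (hlt : 8 * (S + ∑ i ∈ T, wd i) * 2 ^ (w / (2 * b) / b + 1) <
      (2 ^ t) ^ (w / (2 * b) / b + 1)) :
    2 ^ μ < ∏ i ∈ T, (wd i + 1) := by
  classical
  obtain ⟨h, hG0⟩ := P.good
  have hΛ : Fintype.card (Fin t → Bool) = 2 ^ t := by
    rw [Fintype.card_fun, Fintype.card_bool, Fintype.card_fin]
  have hG : Good h (Fin t → Bool) b s w := by
    have hc : Fintype.card (Fin t → Bool) = Fintype.card (Fin (2 ^ t)) := by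
      rw [hΛ, Fintype.card_fin]
    refine ⟨hG0.hb, hG0.hA, hG0.hE, hG0.hw, hG0.hws, hG0.hV, hG0.hI, ?_, ?_⟩
    · rw [hc]; exact hG0.hq
    · rw [hc]; exact hG0.hstar
  have : Nonempty (Fin 2 × Fin b2) := ⟨(⟨0, by norm_num⟩, ⟨0, P.hb2⟩)⟩
  have hcA : Fintype.card (Fin 2 × Fin b2) = 2 * b2 := by
    rw [Fintype.card_prod, Fintype.card_fin, Fintype.card_fin]
  -- the gadget
  have hcF : Fintype.card (Fd ν μ t (Fin 2 × Fin b2)) ≤ Fintype.card (Fin H ⊕ Fin H) := by
    simp only [Fintype.card_sum, Fintype.card_prod, Fintype.card_fin]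
    omega
  obtain ⟨pos⟩ := Function.Embedding.nonempty_of_card_le hcF
  let G : Gad ν μ t H m M (Fin 2 × Fin b2) :=
    ⟨pos, pos.injective, (⟨0, by norm_num⟩, ⟨0, P.hb2⟩), h, hH0, hν⟩
  obtain ⟨ι⟩ : Nonempty ({s : St μ t H M (Fin 2 × Fin b2) // Val m s} ↪ Fin n) :=
    emb_states (by rw [hcA]; exact hn)
  obtain ⟨ej⟩ : Nonempty (Fin (2 ^ μ) ≃ (Fin μ → Bool)) :=
    ⟨Fintype.equivOfCardEq (by
      rw [Fintype.card_fin, Fintype.card_fun, Fintype.card_fin, Fintype.card_bool])⟩
  have hlenw : (m + M) * (2 * H + 1) ≤ n := by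
    calc (m + M) * (2 * H + 1) = (2 * H + 1) * (m + M) := mul_comm _ _
      _ ≤ (2 * H + 1) * (m + M + 1 + 4 * μ + 6 * (M * ((2 * b2) * t)) + 2 ^ H) :=
        Nat.mul_le_mul_left _ (by
          generalize M * ((2 * b2) * t) = X1
          generalize 2 ^ H = X2
          omega)
      _ ≤ n := by omega
  refine csp_real_all hG (m' := 2 ^ μ) htop hmon hT hval o τ
    (fun y => inq G ι (Yy G (fun j => y (ej.symm j)))) ?_ ?_ ?_
    (by rw [hΛ, Fintype.card_fin]; exact hlen)
    (by rw [hΛ]; exact hlt)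
  · intro y y' hy
    apply inq_mono
    rintro s s' ⟨i, h1, h2⟩
    exact ⟨i, h1, hy _ h2⟩
  · intro y
    constructor
    · intro hτ
      by_contra hcon
      push Not at hcon
      obtain ⟨j, p, hp⟩ := hcon
      obtain ⟨b', hb'⟩ := some_rej G (fun j => y (ej.symm j)) (j := ej j) (p := p) (by
        rw [Equiv.symm_apply_apply]
        exact hp)
      rw [← acc_img (ι := ι)] at hb'
      refine hrej _ _ ?_ hb' hτ
      rw [List.length_map, List.length_range]
      exact hlenw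
    · intro hy
      apply hacc
      intro w
      have h1 := all_acc G (fun j => y (ej.symm j)) (fun j p => hy (ej.symm j) p)
        (fun k => w.getD k false) w.length
      rw [← acc_img (ι := ι), word_eq] at h1
      exact h1
  · intro y J q
    have hup : ∀ x : Set (Fin M × ((Fin 2 × Fin b2) → (Fin t → Bool))),
        (fun j => Function.update y J x (ej.symm j)) =
        Function.update (fun j => y (ej.symm j)) (ej J) x := by
      intro x
      funext j
      by_cases hj : j = ej J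
      · subst hj
        rw [Function.update_self, Equiv.symm_apply_apply, Function.update_self]
      · rw [Function.update_of_ne hj, Function.update_of_ne]
        intro h
        exact hj (by rw [← h, Equiv.apply_symm_apply])
    obtain ⟨T', h1, h2⟩ := inq_narrow (G := G) (ι := ι) (fun j => y (ej.symm j)) (ej J) q
    refine ⟨T', h1, fun x x' hxx => ?_⟩
    simp only [hup]
    exact h2 x x' hxx

end Pool.Agent.W969.MC
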