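import Pool.Agent.W969.MC.Nfa3

/-! Universality of automata: the main bound. -/

set_option linter.unusedSectionVars false
set_option linter.unusedVariables false

namespace Pool.Agent.W969.MC

open Finset Pool.Agent.H560R2

/-- The main bound for the universality of automata. -/
theorem nfa_main (γ ε : ℝ) (hγ : 0 ≤ γ) (hγ2 : γ < 2) (hε : 0 < ε) :
    ∃ n1 : ℕ, ∀ n : ℕ, n1 ≤ n →
      ∀ {S : ℕ} {T : Finset (Fin S)} {wd : Fin S → ℕ}
        {a : ∀ i, Fin (wd i) → QIn n ⊕ Fin S}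
        {op : ∀ i, (Fin (wd i) → ℝ) → ℝ} {θ : ∀ i, Fin (wd i) → ℝ}
        {val : (QIn n → Bool) → Fin S → ℝ}
        (_ : ∀ i j k, a i j = Sum.inr k → k < i)
        (_ : ∀ i ∉ T, wd i ≤ 2 ∧ Monotone (op i))
        (_ : ∀ i ∈ T, ∀ z z' : Fin (wd i) → ℝ, (∀ j, θ i j ≤ z j ↔ θ i j ≤ z' j) →
          op i z = op i z')
        (_ : ∀ x i, val x i = op i (fun j => Sum.elim (bit x) (val x) (a i j)))
        (o : Fin S) (τ : ℝ)
        (_ : ∀ x, (∀ w, w ∈ (aut x).accepts) → τ ≤ val x o)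
        (_ : ∀ x w, w.length ≤ n → w ∉ (aut x).accepts → ¬ τ ≤ val x o),
        ((∏ i ∈ T, (wd i + 1) : ℕ) : ℝ) ≤ (n : ℝ) ^ γ →
        (2 : ℝ) ^ ((n : ℝ) ^ (1 - γ / 2 - ε)) ≤ ((S + ∑ i ∈ T, wd i : ℕ) : ℝ) := by
  set e : ℝ := min ε ((1 - γ / 2) / 2) with he
  have hepos : 0 < e := lt_min hε (by linarith)
  have he1 : e ≤ ε := min_le_left _ _
  have he2 : e ≤ (1 - γ / 2) / 2 := min_le_right _ _
  have he3 : e ≤ 1 / 2 := by linarith
  set β : ℝ := 1 - γ / 2 - 3 * e / 4 with hβ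
  have hβpos : 0 < β := by rw [hβ]; linarith
  have hβ1 : β ≤ 1 := by rw [hβ]; linarith
  set ε0 : ℝ := e / 4 with hε0
  have hε0pos : 0 < ε0 := by rw [hε0]; positivity
  obtain ⟨b2, hb2, δ, hδ, l0, H⟩ := pars_exist3 2 le_rfl ε0 hε0pos
  set η : ℝ := e / 8 with hη
  have hηpos : 0 < η := by rw [hη]; positivity
  have hη1 : η ≤ 1 := by rw [hη]; linarith
  set C1 : ℝ := 2 / η + 1 with hC1
  have hC1pos : 0 < C1 := by rw [hC1]; positivity
  obtain ⟨n1, hn1⟩ := ev_rpow hβpos ((l0 : ℝ) + 4)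
  obtain ⟨n2, hn2⟩ := ev_rpow (η := e / 4) (by positivity) (2 / δ)
  obtain ⟨n3, hn3⟩ := ev_rpow (η := e / 4) (by positivity) (5888 * C1 ^ 2)
  refine ⟨max (max n1 n2) (max n3 2), ?_⟩
  intro n hn S T wd a op θ val htop hmon hT hval o τ hacc hrej hprod
  have g1 := hn1 n ((le_max_left _ _).trans ((le_max_left _ _).trans hn))
  have g2 := hn2 n ((le_max_right _ _).trans ((le_max_left _ _).trans hn))
  have g3 := hn3 n ((le_max_left _ _).trans ((le_max_right _ _).trans hn))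
  have g4 : 2 ≤ n := (le_max_right _ _).trans ((le_max_right _ _).trans hn)
  have hnR : (2 : ℝ) ≤ n := by exact_mod_cast g4
  have hn1R : (1 : ℝ) ≤ n := by linarith
  have hnpos : (0 : ℝ) < n := by linarith
  -- the number l
  set l : ℕ := ⌊(n : ℝ) ^ β⌋₊ with hl
  have k1 : (l : ℝ) ≤ (n : ℝ) ^ β := Nat.floor_le (by positivity)
  have k2 : (n : ℝ) ^ β - 1 < l := Nat.sub_one_lt_floor _
  have hl0R : (0 : ℝ) ≤ l0 := Nat.cast_nonneg _
  have hll0 : l0 ≤ l := by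
    have : (l0 : ℝ) ≤ l := by linarith
    exact_mod_cast this
  have hl3 : (3 : ℝ) ≤ l := by linarith
  have hl1 : (1 : ℝ) ≤ l := by linarith
  have hlpos : (0 : ℝ) < l := by linarith
  have hl3N : 3 ≤ l := by exact_mod_cast hl3
  have k5 : (n : ℝ) ^ β / 2 ≤ l := by linarith
  -- the number n0
  set n0 : ℕ := ⌈(l : ℝ) ^ (1 + 1 / ((2 : ℕ) : ℝ) + ε0)⌉₊ with hn0
  have j1 : (l : ℝ) ^ (1 + 1 / ((2 : ℕ) : ℝ) + ε0) ≤ n0 := Nat.le_ceil _
  have j2 : (n0 : ℝ) ≤ 2 * (l : ℝ) ^ (1 + 1 / ((2 : ℕ) : ℝ) + ε0) := by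
    have h1 : (n0 : ℝ) < (l : ℝ) ^ (1 + 1 / ((2 : ℕ) : ℝ) + ε0) + 1 :=
      Nat.ceil_lt_add_one (by positivity)
    have h2 : (1 : ℝ) ≤ (l : ℝ) ^ (1 + 1 / ((2 : ℕ) : ℝ) + ε0) :=
      Real.one_le_rpow hl1 (by positivity)
    linarith
  obtain ⟨b, q, M, m, s, w, m', h1, h1', h2, h3, h4, h5⟩ := H n0 l hll0 j1
  have j3 : (l : ℝ) ≤ n0 := by
    refine le_trans ?_ j1
    calc (l : ℝ) = (l : ℝ) ^ (1 : ℝ) := (Real.rpow_one _).symm
      _ ≤ _ := by
        apply Real.rpow_le_rpow_of_exponent_le hl1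
        push_cast
        linarith
  have hn0pos : (0 : ℝ) < n0 := by linarith
  have hm'pos : 0 < m' := by
    have h6 : (0 : ℝ) < (n0 : ℝ) ^ δ := Real.rpow_pos_of_pos hn0pos _
    have h7 : (0 : ℝ) < m' := by linarith
    exact_mod_cast h7
  set t := Nat.log 2 q with ht
  have t1 : 2 ^ t ≤ q := Nat.pow_log_le_self 2 (by omega)
  have t2 : q < 2 ^ (t + 1) := Nat.lt_pow_succ_log_self (by norm_num) q
  obtain ⟨P, h6⟩ := h5 (2 ^ t) t1 (by rw [pow_succ] at t2; omega)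
  have hmpos := P.hm
  have hM := P.hM
  have hMpos : 0 < M := by omega
  have hmMl : m + M ≤ l := by omega
  set Q := (2 ^ t) ^ b2 with hQ
  have hQq : Q ≤ q ^ b2 := Nat.pow_le_pow_left t1 _
  have hlQ : l * q ^ b2 ≤ n0 := by
    have e1 : l ≤ 4 * M := by omega
    calc l * q ^ b2 ≤ (4 * M) * q ^ b2 := Nat.mul_le_mul_right _ e1
      _ = 1 * (4 * M * q ^ b2) := (one_mul _).symm
      _ ≤ m' * (4 * M * q ^ b2) := Nat.mul_le_mul_right _ hm'pos
      _ = 2 * (m' * (M * (2 * q ^ b2))) := by ring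
      _ ≤ n0 := h2
  have hQR : (Q : ℝ) ≤ 2 * (l : ℝ) ^ (1 / 2 + ε0) := by
    have e1 : (l : ℝ) * ((q ^ b2 : ℕ) : ℝ) ≤ n0 := by exact_mod_cast hlQ
    have e2 : (l : ℝ) ^ (1 + 1 / ((2 : ℕ) : ℝ) + ε0) = l * (l : ℝ) ^ (1 / 2 + ε0) := by
      have e3 : (1 : ℝ) + 1 / ((2 : ℕ) : ℝ) + ε0 = 1 + (1 / 2 + ε0) := by push_cast; ring
      rw [e3, Real.rpow_add hlpos, Real.rpow_one]
    rw [e2] at j2
    have e4 : (l : ℝ) * ((q ^ b2 : ℕ) : ℝ) ≤ l * (2 * (l : ℝ) ^ (1 / 2 + ε0)) := by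
      calc (l : ℝ) * ((q ^ b2 : ℕ) : ℝ) ≤ n0 := e1
        _ ≤ 2 * (l * (l : ℝ) ^ (1 / 2 + ε0)) := j2
        _ = _ := by ring
    have e5 : ((q ^ b2 : ℕ) : ℝ) ≤ 2 * (l : ℝ) ^ (1 / 2 + ε0) := le_of_mul_le_mul_left e4 hlpos
    refine le_trans ?_ e5
    exact_mod_cast hQq
  -- the number of copies
  have hnγ1 : (1 : ℝ) ≤ (n : ℝ) ^ γ := Real.one_le_rpow hn1R hγ
  set g : ℕ := ⌊(n : ℝ) ^ γ⌋₊ with hg
  have hg1 : (g : ℝ) ≤ (n : ℝ) ^ γ := Nat.floor_le (by positivity)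
  have hg2 : (n : ℝ) ^ γ < g + 1 := Nat.lt_floor_add_one _
  have hg0 : g ≠ 0 := by
    intro h0
    rw [h0] at hg2
    push_cast at hg2
    linarith
  set μ : ℕ := Nat.log 2 g + 1 with hμ
  have hμ1 : (n : ℝ) ^ γ ≤ ((2 ^ μ : ℕ) : ℝ) := by
    have e1 : g + 1 ≤ 2 ^ μ := Nat.lt_pow_succ_log_self (by norm_num) g
    have e2 : ((g : ℝ) + 1) ≤ ((2 ^ μ : ℕ) : ℝ) := by exact_mod_cast e1
    linarith
  have hμ2 : ((2 ^ μ : ℕ) : ℝ) ≤ 2 * (n : ℝ) ^ γ := by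
    have e1 : 2 ^ μ ≤ 2 * g := by
      rw [hμ, pow_succ]
      have := Nat.pow_log_le_self 2 hg0
      omega
    have e2 : ((2 ^ μ : ℕ) : ℝ) ≤ 2 * g := by exact_mod_cast e1
    linarith
  set ν : ℕ := Nat.log 2 (m + M) + 1 with hν
  have hν1 : m + M ≤ 2 ^ ν := (Nat.lt_pow_succ_log_self (by norm_num) (m + M)).le
  have hν2 : ((2 ^ ν : ℕ) : ℝ) ≤ 2 * l := by
    have e1 : 2 ^ ν ≤ 2 * l := by
      rw [hν, pow_succ]
      have := Nat.pow_log_le_self 2 (show m + M ≠ 0 by omega)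
      omega
    exact_mod_cast e1
  -- the number of bits
  obtain ⟨x, hx⟩ : ∃ x, x = ν + (μ + (2 * b2) * t) := ⟨_, rfl⟩
  obtain ⟨h, hh⟩ : ∃ h, h = x / 2 + 1 := ⟨_, rfl⟩
  have hh1 : 0 < h := by omega
  have hh2 : ν + (μ + (2 * b2) * t) ≤ 2 * h := by omega
  have hh3 : 2 * h ≤ x + 2 := by omega
  have hhR : (1 : ℝ) ≤ h := by exact_mod_cast hh1
  have hpowx : 2 ^ x = 2 ^ ν * (2 ^ μ * (Q * Q)) := by
    rw [hx, pow_add, pow_add]
    congr 2
    rw [hQ, ← pow_mul, ← pow_add]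
    ring
  have hsq : ((2 : ℝ) ^ h) ^ 2 ≤ (8 * (n : ℝ) ^ (1 - e / 2)) ^ 2 := by
    have e1 : ((2 : ℝ) ^ h) ^ 2 ≤ 4 * ((2 ^ x : ℕ) : ℝ) := by
      rw [← pow_mul]
      have e2 : 2 ^ (h * 2) ≤ 4 * 2 ^ x := by
        calc 2 ^ (h * 2) ≤ 2 ^ (x + 2) := Nat.pow_le_pow_right (by norm_num) (by omega)
          _ = 4 * 2 ^ x := by rw [pow_add]; ring
      exact_mod_cast e2
    refine e1.trans ?_
    rw [hpowx]
    push_cast
    have e3 : ((2 : ℝ) ^ ν) ≤ 2 * l := by exact_mod_cast hν2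
    have e4 : ((2 : ℝ) ^ μ) ≤ 2 * (n : ℝ) ^ γ := by exact_mod_cast hμ2
    have hQ0 : (0 : ℝ) ≤ Q := Nat.cast_nonneg _
    have e5 : (Q : ℝ) * Q ≤ (2 * (l : ℝ) ^ (1 / 2 + ε0)) * (2 * (l : ℝ) ^ (1 / 2 + ε0)) :=
      mul_le_mul hQR hQR hQ0 (by positivity)
    calc 4 * ((2 : ℝ) ^ ν * ((2 : ℝ) ^ μ * (Q * Q)))
        ≤ 4 * ((2 * l) * ((2 * (n : ℝ) ^ γ) *
            ((2 * (l : ℝ) ^ (1 / 2 + ε0)) * (2 * (l : ℝ) ^ (1 / 2 + ε0))))) := by
          apply mul_le_mul_of_nonneg_left _ (by norm_num)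
          apply mul_le_mul e3 _ (by positivity) (by positivity)
          exact mul_le_mul e4 e5 (by positivity) (by positivity)
      _ = 64 * ((l * ((l : ℝ) ^ (1 / 2 + ε0) * (l : ℝ) ^ (1 / 2 + ε0))) * (n : ℝ) ^ γ) := by ring
      _ = 64 * ((l : ℝ) ^ (2 + 2 * ε0) * (n : ℝ) ^ γ) := by
          congr 2
          rw [← Real.rpow_add hlpos]
          nth_rewrite 1 [← Real.rpow_one (l : ℝ)]
          rw [← Real.rpow_add hlpos]
          congr 1
          ring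
      _ ≤ 64 * (((n : ℝ) ^ β) ^ (2 + 2 * ε0) * (n : ℝ) ^ γ) := by
          apply mul_le_mul_of_nonneg_left _ (by norm_num)
          apply mul_le_mul_of_nonneg_right _ (by positivity)
          exact Real.rpow_le_rpow hlpos.le k1 (by positivity)
      _ = 64 * (n : ℝ) ^ (β * (2 + 2 * ε0) + γ) := by
          rw [← Real.rpow_mul hnpos.le, ← Real.rpow_add hnpos]
      _ ≤ 64 * (n : ℝ) ^ (2 * (1 - e / 2)) := by
          apply mul_le_mul_of_nonneg_left _ (by norm_num)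
          apply Real.rpow_le_rpow_of_exponent_le hn1R
          have e6 : β * (2 * ε0) ≤ 1 * (2 * ε0) :=
            mul_le_mul_of_nonneg_right hβ1 (by positivity)
          rw [hε0] at e6 ⊢
          rw [hβ] at e6 ⊢
          linarith
      _ = (8 * (n : ℝ) ^ (1 - e / 2)) ^ 2 := by
          rw [mul_pow]
          have e7 : (2 : ℝ) * (1 - e / 2) = (1 - e / 2) * ((2 : ℕ) : ℝ) := by push_cast; ring
          rw [e7, Real.rpow_mul hnpos.le, Real.rpow_natCast]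
          norm_num
  have hpow : (2 : ℝ) ^ h ≤ 8 * (n : ℝ) ^ (1 - e / 2) :=
    (pow_le_pow_iff_left₀ (by positivity) (by positivity) (by norm_num)).mp hsq
  have hN1 : (1 : ℝ) ≤ (n : ℝ) ^ (1 - e / 2) := Real.one_le_rpow hn1R (by linarith)
  have hNn : (n : ℝ) ^ (1 - e / 2) ≤ n := by
    calc (n : ℝ) ^ (1 - e / 2) ≤ (n : ℝ) ^ (1 : ℝ) :=
          Real.rpow_le_rpow_of_exponent_le hn1R (by linarith)
      _ = n := Real.rpow_one _
  have hlN : (l : ℝ) ≤ (n : ℝ) ^ (1 - e / 2) := by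
    refine k1.trans ?_
    apply Real.rpow_le_rpow_of_exponent_le hn1R
    rw [hβ]
    linarith
  have hhη : (h : ℝ) ≤ 8 * C1 * (n : ℝ) ^ η := by
    have e1 := natlog_le hηpos (l := 2 ^ h) Nat.one_le_two_pow
    rw [Nat.log_pow (by norm_num)] at e1
    have e2 : (((2 ^ h : ℕ) : ℝ)) ^ η ≤ 8 * (n : ℝ) ^ η := by
      calc (((2 ^ h : ℕ) : ℝ)) ^ η ≤ (8 * (n : ℝ)) ^ η := by
            apply Real.rpow_le_rpow (by positivity) _ hηpos.le
            push_cast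
            linarith
        _ = (8 : ℝ) ^ η * (n : ℝ) ^ η := Real.mul_rpow (by norm_num) hnpos.le
        _ ≤ 8 * (n : ℝ) ^ η := by
            apply mul_le_mul_of_nonneg_right _ (by positivity)
            calc (8 : ℝ) ^ η ≤ (8 : ℝ) ^ (1 : ℝ) :=
                  Real.rpow_le_rpow_of_exponent_le (by norm_num) hη1
              _ = 8 := Real.rpow_one _
    calc (h : ℝ) ≤ h + 1 := by linarith
      _ ≤ C1 * (((2 ^ h : ℕ) : ℝ)) ^ η := e1
      _ ≤ C1 * (8 * (n : ℝ) ^ η) := mul_le_mul_of_nonneg_left e2 hC1pos.le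
      _ = _ := by ring
  -- the number of states
  have hcount : 2 + (2 * h + 1) * (m + M + 1 + 4 * μ + 6 * (M * ((2 * b2) * t)) + 2 ^ h) ≤ n := by
    have e1 : m + M + 1 + 4 * μ + 6 * (M * ((2 * b2) * t)) ≤ 22 * (l * h) := by
      have f1 : M * ((2 * b2) * t) ≤ l * (2 * h) := Nat.mul_le_mul (by omega) (by omega)
      have f2 : l * (2 * h) = 2 * (l * h) := by ring
      have f3 : l ≤ l * h := Nat.le_mul_of_pos_right _ hh1
      have f4 : h ≤ l * h := Nat.le_mul_of_pos_left _ (by omega)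
      rw [f2] at f1
      generalize M * ((2 * b2) * t) = X1 at f1 ⊢
      generalize l * h = X2 at f1 f3 f4 ⊢
      omega
    have e2 : 2 + (2 * h + 1) * (m + M + 1 + 4 * μ + 6 * (M * ((2 * b2) * t)) + 2 ^ h) ≤
        2 + (2 * h + 1) * (22 * (l * h) + 2 ^ h) := by
      apply Nat.add_le_add_left
      apply Nat.mul_le_mul_left
      exact Nat.add_le_add_right e1 _
    have e3 : ((2 + (2 * h + 1) * (22 * (l * h) + 2 ^ h) : ℕ) : ℝ) ≤ n := by
      push_cast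
      set N1 : ℝ := (n : ℝ) ^ (1 - e / 2) with hN1'
      have hN1pos : 0 < N1 := by linarith
      have f1 : (22 : ℝ) * (l * h) + 2 ^ h ≤ 30 * (N1 * h) := by
        have f2 : (l : ℝ) * h ≤ N1 * h := mul_le_mul_of_nonneg_right hlN (by positivity)
        have f3 : N1 ≤ N1 * h := le_mul_of_one_le_right hN1pos.le hhR
        linarith
      have f4 : (2 : ℝ) * h + 1 ≤ 3 * h := by linarith
      have f5 : ((2 : ℝ) * h + 1) * (22 * (l * h) + 2 ^ h) ≤ (3 * h) * (30 * (N1 * h)) :=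
        mul_le_mul f4 f1 (by positivity) (by positivity)
      have f6 : (1 : ℝ) ≤ h * (h * N1) := by
        have f7 : (1 : ℝ) * 1 ≤ h * N1 := mul_le_mul hhR hN1 (by norm_num) (by positivity)
        calc (1 : ℝ) = 1 * (1 * 1) := by ring
          _ ≤ h * (h * N1) := mul_le_mul hhR f7 (by norm_num) (by positivity)
      have f8 : (2 : ℝ) + (2 * h + 1) * (22 * (l * h) + 2 ^ h) ≤ 92 * (h * (h * N1)) := by
        calc (2 : ℝ) + (2 * h + 1) * (22 * (l * h) + 2 ^ h)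
            ≤ 2 * (h * (h * N1)) + (3 * h) * (30 * (N1 * h)) := by linarith
          _ = 92 * (h * (h * N1)) := by ring
      refine f8.trans ?_
      have f9 : (h : ℝ) * (h * N1) ≤ (8 * C1 * (n : ℝ) ^ η) * ((8 * C1 * (n : ℝ) ^ η) * N1) := by
        apply mul_le_mul hhη _ (by positivity) (by positivity)
        exact mul_le_mul_of_nonneg_right hhη hN1pos.le
      calc 92 * ((h : ℝ) * (h * N1))
          ≤ 92 * ((8 * C1 * (n : ℝ) ^ η) * ((8 * C1 * (n : ℝ) ^ η) * N1)) :=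
            mul_le_mul_of_nonneg_left f9 (by norm_num)
        _ = (5888 * C1 ^ 2) * ((n : ℝ) ^ η * ((n : ℝ) ^ η * N1)) := by ring
        _ ≤ (n : ℝ) ^ (e / 4) * ((n : ℝ) ^ η * ((n : ℝ) ^ η * N1)) :=
            mul_le_mul_of_nonneg_right g3 (by positivity)
        _ = (n : ℝ) ^ (1 : ℝ) := by
            rw [hN1', ← Real.rpow_add hnpos, ← Real.rpow_add hnpos, ← Real.rpow_add hnpos]
            congr 1
            rw [hη]
            ring
        _ = n := Real.rpow_one _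
    have e4 : 2 + (2 * h + 1) * (22 * (l * h) + 2 ^ h) ≤ n := by exact_mod_cast e3
    exact e2.trans e4
  -- the lower bound
  have hmain : (n0 : ℝ) ^ (δ * l) ≤ ((S + ∑ i ∈ T, wd i : ℕ) : ℝ) := by
    by_contra hcon
    push Not at hcon
    obtain ⟨h7, h8⟩ := h6 _ hcon
    have h9 := nfa_param P hν1 hh1 hh2 hcount htop hmon hT hval o τ hacc hrej h7 h8
    have h10 : ((2 ^ μ : ℕ) : ℝ) < ((∏ i ∈ T, (wd i + 1) : ℕ) : ℝ) := by exact_mod_cast h9
    linarith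
  refine le_trans ?_ hmain
  have r1 : (2 : ℝ) ≤ n0 := by linarith
  have r2 : (n : ℝ) ^ (1 - γ / 2 - ε) ≤ δ * l := by
    calc (n : ℝ) ^ (1 - γ / 2 - ε) ≤ (n : ℝ) ^ (1 - γ / 2 - e) :=
          Real.rpow_le_rpow_of_exponent_le hn1R (by linarith)
      _ = δ * (((2 / δ) * (n : ℝ) ^ (1 - γ / 2 - e)) / 2) := by
          field_simp
      _ ≤ δ * (((n : ℝ) ^ (e / 4) * (n : ℝ) ^ (1 - γ / 2 - e)) / 2) := by
          apply mul_le_mul_of_nonneg_left _ hδ.le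
          apply div_le_div_of_nonneg_right _ (by norm_num)
          exact mul_le_mul_of_nonneg_right g2 (by positivity)
      _ = δ * ((n : ℝ) ^ β / 2) := by
          rw [← Real.rpow_add hnpos]
          congr 3
          rw [hβ]
          ring
      _ ≤ δ * l := mul_le_mul_of_nonneg_left k5 hδ.le
  calc (2 : ℝ) ^ ((n : ℝ) ^ (1 - γ / 2 - ε)) ≤ (2 : ℝ) ^ (δ * l) :=
        Real.rpow_le_rpow_of_exponent_le (by norm_num) r2
    _ ≤ (n0 : ℝ) ^ (δ * l) := Real.rpow_le_rpow (by norm_num) r1 (by positivity)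

end Pool.Agent.W969.MC
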