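import Pool.Agent.W969.MC.Par

/-! The choice of the parameters, with a flexible alphabet and a lower bound for `m`. -/

namespace Pool.Agent.W969.MC

open Finset

theorem pars_exist3 (r : ℕ) (hr : 2 ≤ r) (ε : ℝ) (hε : 0 < ε) :
    ∃ b2 : ℕ, 0 < b2 ∧ ∃ δ : ℝ, 0 < δ ∧ ∃ l0 : ℕ, ∀ n l : ℕ, l0 ≤ l →
    (l : ℝ) ^ (1 + 1 / (r : ℝ) + ε) ≤ n →
    ∃ b q M m s w m' : ℕ, r * M ≤ l ∧ l ≤ 4 * r * m ∧ 2 * (m' * (M * (r * q ^ b2))) ≤ n ∧ (n : ℝ) ^ δ ≤ m' ∧
      16 ≤ q ∧ ∀ q' : ℕ, q' ≤ q → q ≤ 2 * q' → Pars r b2 b q' M m s w ∧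
        ∀ z : ℕ, (z : ℝ) < (n : ℝ) ^ (δ * l) → z ≤ (q' + 1) ^ m ∧
          8 * z * 2 ^ (w / (2 * b) / b + 1) < q' ^ (w / (2 * b) / b + 1) := by
  have hrR : (2 : ℝ) ≤ r := by exact_mod_cast hr
  have hrpos : (0 : ℝ) < r := by linarith
  obtain ⟨b2, hb2⟩ := exists_nat_ge (5 * (1 + ε) / ε + 5)
  have hb2R : (5 : ℝ) ≤ b2 := by
    have : 0 < 5 * (1 + ε) / ε := by positivity
    linarith
  have hb2N : 5 ≤ b2 := by exact_mod_cast hb2R
  have hb2e : 5 * (1 + ε) ≤ ε * b2 := by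
    have h1 : 5 * (1 + ε) / ε ≤ b2 := by linarith
    rw [div_le_iff₀ hε] at h1
    linarith
  have hrb : 10 ≤ r * b2 := Nat.mul_le_mul hr hb2N
  obtain ⟨b, hb⟩ : ∃ b, r * b2 = b + 2 := ⟨r * b2 - 2, by omega⟩
  have hb8 : 8 ≤ b := by omega
  obtain ⟨b3, hb3⟩ : ∃ b3, b = b3 + 3 := ⟨b - 3, by omega⟩
  obtain ⟨K, hK⟩ : ∃ K, K = 18 * 3 ^ b * b ^ 2 := ⟨_, rfl⟩
  have hKpos : 0 < K := by rw [hK]; positivity
  set e0 : ℝ := 1 + 1 / (r : ℝ) + ε with he0
  have he0pos : 1 < e0 := by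
    have : 0 < 1 / (r : ℝ) := by positivity
    rw [he0]; linarith
  set δ1 : ℝ := ε / (4 * e0) with hδ1
  have hδ1pos : 0 < δ1 := by rw [hδ1]; positivity
  set η : ℝ := (1 / (r : ℝ) + ε / 2) / e0 with hη
  have hηpos : 0 < η := by rw [hη]; positivity
  have hηe : 1 - 2 * δ1 - 1 / e0 = η := by
    rw [hη, hδ1]
    field_simp
    rw [he0]
    field_simp
    ring
  set θ : ℝ := η / b2 with hθ
  have hb2pos : (0 : ℝ) < b2 := by linarith
  have hθpos : 0 < θ := by rw [hθ]; positivity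
  set D : ℝ := 32 * r * K * b ^ 2 with hD
  have hbpos : (0 : ℝ) < b := by
    have : 0 < b := by omega
    exact_mod_cast this
  have hKR : (1 : ℝ) ≤ K := by exact_mod_cast hKpos
  have hDpos : 0 < D := by rw [hD]; positivity
  obtain ⟨l1, hl1⟩ := ev_rpow (η := θ / 4) (by positivity) (128 * r)
  obtain ⟨l2, hl2⟩ := ev_rpow (η := ε / 4) (by positivity)
    (1024 * (8 * r) ^ b3 * (2 / (ε / 4) + 1))
  refine ⟨b2, by omega, min δ1 (θ / D), lt_min hδ1pos (by positivity),
    max (max l1 l2) (4 * r * K * (b * (b + 2) + 1)), ?_⟩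
  intro n l hl hln
  have hll1 : l1 ≤ l := (le_max_left _ _).trans ((le_max_left _ _).trans hl)
  have hll2 : l2 ≤ l := (le_max_right _ _).trans ((le_max_left _ _).trans hl)
  obtain ⟨M, m, s, w, j0, f1, f2, f3, f4, f5, f6, f7, f8, f9, f10, f11, hj0⟩ :=
    floors' hr (by omega : 2 ≤ b) hKpos ((le_max_right _ _).trans hl)
  have hl0 : 0 < l := by omega
  have hlR : (1 : ℝ) ≤ l := by exact_mod_cast hl0
  have hlpos : (0 : ℝ) < l := by linarith
  have hnl : (l : ℝ) ≤ n := by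
    refine le_trans ?_ hln
    calc (l : ℝ) = (l : ℝ) ^ (1 : ℝ) := (Real.rpow_one _).symm
      _ ≤ (l : ℝ) ^ e0 := Real.rpow_le_rpow_of_exponent_le hlR he0pos.le
  have hnR : (1 : ℝ) ≤ n := hlR.trans hnl
  have hnpos : (0 : ℝ) < n := by linarith
  -- the number X
  set X : ℝ := (n : ℝ) ^ (1 - 2 * δ1) / (2 * r * l) with hX
  have hXpos : 0 < X := by rw [hX]; positivity
  have hXY : (n : ℝ) ^ η / (2 * r) ≤ X := by
    rw [hX]
    have h1 : (l : ℝ) ≤ (n : ℝ) ^ (1 / e0) := by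
      have h2 : ((l : ℝ) ^ e0) ^ (1 / e0) ≤ (n : ℝ) ^ (1 / e0) :=
        Real.rpow_le_rpow (by positivity) hln (by positivity)
      rw [← Real.rpow_mul hlpos.le, mul_one_div_cancel (by positivity : e0 ≠ 0),
        Real.rpow_one] at h2
      exact h2
    have h3 : (n : ℝ) ^ (1 - 2 * δ1) = (n : ℝ) ^ η * (n : ℝ) ^ (1 / e0) := by
      rw [← Real.rpow_add hnpos]
      congr 1
      linarith
    rw [h3, div_le_div_iff₀ (by positivity) (by positivity)]
    calc (n : ℝ) ^ η * (2 * r * l) = ((n : ℝ) ^ η * (2 * r)) * l := by ring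
      _ ≤ ((n : ℝ) ^ η * (2 * r)) * (n : ℝ) ^ (1 / e0) :=
          mul_le_mul_of_nonneg_left h1 (by positivity)
      _ = _ := by ring
  -- the alphabet
  set q : ℕ := ⌊X ^ (1 / (b2 : ℝ))⌋₊ with hq
  have hqX : (q : ℝ) ^ b2 ≤ X := by
    have h1 : (q : ℝ) ≤ X ^ (1 / (b2 : ℝ)) := Nat.floor_le (by positivity)
    calc (q : ℝ) ^ b2 ≤ (X ^ (1 / (b2 : ℝ))) ^ b2 := pow_le_pow_left₀ (by positivity) h1 _
      _ = X := by
        rw [← Real.rpow_natCast, ← Real.rpow_mul hXpos.le, one_div_mul_cancel hb2pos.ne',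
          Real.rpow_one]
  have hnθ4 : (128 : ℝ) * r ≤ (n : ℝ) ^ (θ / 4) :=
    (hl1 l hll1).trans (Real.rpow_le_rpow hlpos.le hnl (by positivity))
  have hnθ2 : (n : ℝ) ^ (θ / 2) = (n : ℝ) ^ (θ / 4) * (n : ℝ) ^ (θ / 4) := by
    rw [← Real.rpow_add hnpos]
    congr 1
    ring
  have hnθ : (n : ℝ) ^ θ = (n : ℝ) ^ (θ / 2) * (n : ℝ) ^ (θ / 2) := by
    rw [← Real.rpow_add hnpos]
    congr 1
    ring
  have hn4pos : 0 < (n : ℝ) ^ (θ / 4) := by positivity
  have h64 : (1 : ℝ) ≤ 128 * r := by linarith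
  have hnθ2' : (128 : ℝ) * r ≤ (n : ℝ) ^ (θ / 2) := by
    rw [hnθ2]
    exact sq_ge hnθ4 h64
  have hqlow : (n : ℝ) ^ θ / (4 * r) ≤ q := by
    have h1 : (n : ℝ) ^ θ / (2 * r) ≤ X ^ (1 / (b2 : ℝ)) := by
      have h2 : ((n : ℝ) ^ η / (2 * r)) ^ (1 / (b2 : ℝ)) ≤ X ^ (1 / (b2 : ℝ)) :=
        Real.rpow_le_rpow (by positivity) hXY (by positivity)
      refine le_trans ?_ h2
      rw [Real.div_rpow (by positivity) (by positivity), ← Real.rpow_mul hnpos.le]
      have h3 : η * (1 / (b2 : ℝ)) = θ := by rw [hθ]; ring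
      rw [h3]
      apply div_le_div_of_nonneg_left (by positivity) (by positivity)
      calc (2 * (r : ℝ)) ^ (1 / (b2 : ℝ)) ≤ (2 * (r : ℝ)) ^ (1 : ℝ) := by
            apply Real.rpow_le_rpow_of_exponent_le (by linarith)
            rw [div_le_one hb2pos]
            linarith
        _ = 2 * r := Real.rpow_one _
    have h4 : X ^ (1 / (b2 : ℝ)) - 1 ≤ q := (Nat.sub_one_lt_floor _).le
    have h5 : (4 : ℝ) * r ≤ (n : ℝ) ^ θ := by
      rw [hnθ]
      have h5' := sq_ge hnθ2' h64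
      linarith
    have h6 : 1 ≤ (n : ℝ) ^ θ / (4 * r) := by
      rw [le_div_iff₀ (by positivity)]
      linarith
    have h7 : (n : ℝ) ^ θ / (2 * r) = 2 * ((n : ℝ) ^ θ / (4 * r)) := by
      field_simp
      ring
    linarith
  have hq16R : (16 : ℝ) ≤ q := by
    refine le_trans ?_ hqlow
    rw [le_div_iff₀ (by positivity), hnθ]
    have h1 : 128 * (r : ℝ) ≤ (n : ℝ) ^ (θ / 2) * (n : ℝ) ^ (θ / 2) := sq_ge hnθ2' h64
    linarith
  have hq16' : 16 ≤ q := by exact_mod_cast hq16R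
  refine ⟨b, q, M, m, s, w, ⌈(n : ℝ) ^ δ1⌉₊, f4, f8, ?_, ?_, hq16', ?_⟩
  · -- the number of vertices
    have h1 : ((⌈(n : ℝ) ^ δ1⌉₊ : ℕ) : ℝ) ≤ 2 * (n : ℝ) ^ δ1 := by
      have h2 : ((⌈(n : ℝ) ^ δ1⌉₊ : ℕ) : ℝ) < (n : ℝ) ^ δ1 + 1 :=
        Nat.ceil_lt_add_one (by positivity)
      have h3 : (1 : ℝ) ≤ (n : ℝ) ^ δ1 := Real.one_le_rpow hnR hδ1pos.le
      linarith
    have h4 : ((r * M : ℕ) : ℝ) ≤ l := by exact_mod_cast f4
    push_cast at h4
    have h5 : (2 : ℝ) * (((⌈(n : ℝ) ^ δ1⌉₊ : ℕ) : ℝ) * (M * (r * (q : ℝ) ^ b2))) ≤ n := by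
      calc (2 : ℝ) * (((⌈(n : ℝ) ^ δ1⌉₊ : ℕ) : ℝ) * (M * (r * (q : ℝ) ^ b2))) =
            2 * (((⌈(n : ℝ) ^ δ1⌉₊ : ℕ) : ℝ) * ((r * M) * (q : ℝ) ^ b2)) := by ring
        _ ≤ 2 * ((2 * (n : ℝ) ^ δ1) * (l * X)) := by
            apply mul_le_mul_of_nonneg_left _ (by norm_num)
            apply mul_le_mul h1 _ (by positivity) (by positivity)
            exact mul_le_mul h4 hqX (by positivity) (by positivity)
        _ = (2 / r) * ((n : ℝ) ^ δ1 * (n : ℝ) ^ (1 - 2 * δ1)) := by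
            rw [hX]
            field_simp
        _ ≤ 1 * (n : ℝ) ^ (1 : ℝ) := by
            apply mul_le_mul _ _ (by positivity) (by norm_num)
            · rw [div_le_one hrpos]
              exact hrR
            · rw [← Real.rpow_add hnpos]
              apply Real.rpow_le_rpow_of_exponent_le hnR
              linarith
        _ = n := by rw [Real.rpow_one, one_mul]
    exact_mod_cast h5
  · calc (n : ℝ) ^ (min δ1 (θ / D)) ≤ (n : ℝ) ^ δ1 :=
          Real.rpow_le_rpow_of_exponent_le hnR (min_le_left _ _)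
      _ ≤ _ := Nat.le_ceil _
  · intro q' hq'1 hq'2
    have hqlow' : (n : ℝ) ^ θ / (8 * r) ≤ q' := by
      have h1 : (q : ℝ) ≤ 2 * q' := by exact_mod_cast hq'2
      have h2 : (n : ℝ) ^ θ / (4 * r) = 2 * ((n : ℝ) ^ θ / (8 * r)) := by
        field_simp
        ring
      linarith
    have hqn : 16 * (n : ℝ) ^ (θ / 2) ≤ q' := by
      refine le_trans ?_ hqlow'
      rw [hnθ, le_div_iff₀ (by positivity)]
      have h1 : 0 < (n : ℝ) ^ (θ / 2) := by positivity
      calc 16 * (n : ℝ) ^ (θ / 2) * (8 * r) = (128 * r) * (n : ℝ) ^ (θ / 2) := by ring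
        _ ≤ (n : ℝ) ^ (θ / 2) * (n : ℝ) ^ (θ / 2) := mul_le_mul_of_nonneg_right hnθ2' h1.le
    have hn2one : (1 : ℝ) ≤ (n : ℝ) ^ (θ / 2) := h64.trans hnθ2'
    have hq16 : 16 ≤ q' := by
      have : (16 : ℝ) ≤ q' := by linarith
      exact_mod_cast this
    -- the condition on the alphabet
    have hstar' : 1024 * (m * (Nat.log 2 w + 1)) ≤ q' ^ b3 := by
      have h1 : (1024 : ℝ) * (m * ((Nat.log 2 w : ℝ) + 1)) ≤ (q' : ℝ) ^ b3 := by
        have h2 : (m : ℝ) ≤ l := by exact_mod_cast f11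
        have h3 : (Nat.log 2 w : ℝ) + 1 ≤ (2 / (ε / 4) + 1) * (l : ℝ) ^ (ε / 4) := by
          refine le_trans ?_ (natlog_le (by positivity) hl0)
          have : Nat.log 2 w ≤ Nat.log 2 l := Nat.log_mono_right f10
          have : (Nat.log 2 w : ℝ) ≤ Nat.log 2 l := by exact_mod_cast this
          linarith
        have h4 : 1024 * (8 * (r : ℝ)) ^ b3 * (2 / (ε / 4) + 1) ≤ (l : ℝ) ^ (ε / 4) := hl2 l hll2
        have h5 : (l : ℝ) ^ (1 + ε / 2) ≤ ((n : ℝ) ^ θ) ^ b3 := by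
          rw [← Real.rpow_natCast, ← Real.rpow_mul hnpos.le]
          have h6 : (l : ℝ) ^ (e0 * (θ * b3)) ≤ (n : ℝ) ^ (θ * b3) := by
            rw [Real.rpow_mul hlpos.le]
            exact Real.rpow_le_rpow (by positivity) hln (by positivity)
          refine le_trans ?_ h6
          apply Real.rpow_le_rpow_of_exponent_le hlR
          have h7 : (b3 : ℝ) = r * b2 - 5 := by
            have h8 : r * b2 = b3 + 5 := by omega
            have h9 : ((r * b2 : ℕ) : ℝ) = ((b3 + 5 : ℕ) : ℝ) := by rw [h8]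
            push_cast at h9
            linarith
          have h8 : e0 * (θ * b3) = (1 / (r : ℝ) + ε / 2) * (r * b2 - 5) / b2 := by
            rw [hθ, hη, h7]
            field_simp
          rw [h8, le_div_iff₀ hb2pos]
          have h9 : (1 / (r : ℝ)) * r = 1 := one_div_mul_cancel hrpos.ne'
          have h10 : 1 / (r : ℝ) ≤ 1 / 2 := one_div_le_one_div_of_le (by norm_num) hrR
          have h11 : (1 / (r : ℝ) + ε / 2) * (r * b2 - 5) =
              b2 + (ε / 2) * r * b2 - 5 * (1 / (r : ℝ) + ε / 2) := by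
            calc _ = ((1 / (r : ℝ)) * r) * b2 + (ε / 2) * r * b2 - 5 * (1 / (r : ℝ) + ε / 2) := by
                  ring
              _ = _ := by rw [h9]; ring
          rw [h11]
          have h12 : (ε / 2) * 2 * b2 ≤ (ε / 2) * r * b2 := by
            apply mul_le_mul_of_nonneg_right _ hb2pos.le
            apply mul_le_mul_of_nonneg_left hrR (by positivity)
          have h13 : (1 + ε / 2) * b2 = b2 + (ε * b2) / 2 := by ring
          have h14 : (ε / 2) * 2 * b2 = ε * b2 := by ring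
          rw [h13]
          rw [h14] at h12
          linarith
        have hqp : ((n : ℝ) ^ θ / (8 * r)) ^ b3 ≤ (q' : ℝ) ^ b3 :=
          pow_le_pow_left₀ (by positivity) hqlow' _
        refine le_trans ?_ hqp
        rw [div_pow, le_div_iff₀ (by positivity)]
        refine le_trans ?_ h5
        have h13 : (l : ℝ) ^ (1 + ε / 2) = l * ((l : ℝ) ^ (ε / 4) * (l : ℝ) ^ (ε / 4)) := by
          rw [← Real.rpow_add hlpos, Real.rpow_add hlpos, Real.rpow_one]
          congr 2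
          ring
        rw [h13]
        have h14 : 0 < (l : ℝ) ^ (ε / 4) := by positivity
        calc (1024 : ℝ) * (m * ((Nat.log 2 w : ℝ) + 1)) * (8 * r) ^ b3 ≤
              1024 * (l * ((2 / (ε / 4) + 1) * (l : ℝ) ^ (ε / 4))) * (8 * r) ^ b3 := by
              apply mul_le_mul_of_nonneg_right _ (by positivity)
              apply mul_le_mul_of_nonneg_left _ (by norm_num)
              exact mul_le_mul h2 h3 (by positivity) (by positivity)
          _ = l * ((1024 * (8 * (r : ℝ)) ^ b3 * (2 / (ε / 4) + 1)) * (l : ℝ) ^ (ε / 4)) := by ring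
          _ ≤ l * ((l : ℝ) ^ (ε / 4) * (l : ℝ) ^ (ε / 4)) := by
              apply mul_le_mul_of_nonneg_left _ hlpos.le
              exact mul_le_mul_of_nonneg_right h4 h14.le
      exact_mod_cast h1
    have hstar : 256 * (q' * ((2 * (m * Nat.clog 2 (q' + 1)) + 2) * (Nat.log 2 w + 1))) ≤
        q' ^ (b - 1) := by
      have h1 : Nat.clog 2 (q' + 1) ≤ q' := Nat.clog_le_of_le_pow (Nat.lt_two_pow_self)
      have h2 : 2 * (m * Nat.clog 2 (q' + 1)) + 2 ≤ 4 * (m * q') := by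
        have h3 : m * Nat.clog 2 (q' + 1) ≤ m * q' := Nat.mul_le_mul_left _ h1
        have h4 : 1 ≤ m * q' := Nat.mul_pos f1 (by omega)
        omega
      have hb1 : b - 1 = b3 + 2 := by omega
      rw [hb1]
      calc 256 * (q' * ((2 * (m * Nat.clog 2 (q' + 1)) + 2) * (Nat.log 2 w + 1))) ≤
            256 * (q' * ((4 * (m * q')) * (Nat.log 2 w + 1))) :=
            Nat.mul_le_mul_left _ (Nat.mul_le_mul_left _ (Nat.mul_le_mul_right _ h2))
        _ = (1024 * (m * (Nat.log 2 w + 1))) * q' ^ 2 := by ring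
        _ ≤ q' ^ b3 * q' ^ 2 := Nat.mul_le_mul_right _ hstar'
        _ = q' ^ (b3 + 2) := by rw [pow_add]

    refine ⟨⟨by omega, by omega, hb, f7, f6, by rw [← hK]; exact f5, f1, f2, f3, hq16, hstar⟩, ?_⟩
    intro z hz
    rw [← hj0]
    have hδ : min δ1 (θ / D) ≤ θ / D := min_le_right _ _
    have hf9 : (l : ℝ) ≤ 8 * r * K * b ^ 2 * j0 := by exact_mod_cast f9
    have hf8 : (l : ℝ) ≤ 4 * r * m := by exact_mod_cast f8
    constructor
    · have h1 : (z : ℝ) ≤ ((q' : ℝ) + 1) ^ m := by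
        refine hz.le.trans ?_
        have h2 : (n : ℝ) ^ (min δ1 (θ / D) * l) ≤ ((n : ℝ) ^ (θ / 2)) ^ m := by
          rw [← Real.rpow_natCast, ← Real.rpow_mul hnpos.le]
          apply Real.rpow_le_rpow_of_exponent_le hnR
          have h3 : θ / D ≤ θ / (8 * r) := by
            apply div_le_div_of_nonneg_left hθpos.le (by positivity)
            rw [hD]
            have h4 : (1 : ℝ) ≤ K * b ^ 2 := by
              have h5 : (1 : ℝ) ≤ (b : ℝ) ^ 2 := by
                have : (1 : ℝ) ≤ b := by exact_mod_cast (by omega : 1 ≤ b)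
                exact one_le_pow₀ this
              calc (1 : ℝ) = 1 * 1 := by ring
                _ ≤ K * b ^ 2 := mul_le_mul hKR h5 (by norm_num) (by positivity)
            calc 8 * (r : ℝ) = 8 * r * 1 := by ring
              _ ≤ 32 * r * (K * b ^ 2) :=
                mul_le_mul (by linarith) h4 (by norm_num) (by positivity)
              _ = 32 * r * K * b ^ 2 := by ring
          calc min δ1 (θ / D) * l ≤ θ / (8 * r) * (4 * r * m) :=
                mul_le_mul (hδ.trans h3) hf8 hlpos.le (by positivity)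
            _ = θ / 2 * m := by
                field_simp
                ring
        refine h2.trans ?_
        apply pow_le_pow_left₀ (by positivity)
        linarith
      exact_mod_cast h1
    · have h1 : (8 : ℝ) * z * 2 ^ j0 < (q' : ℝ) ^ j0 := by
        have hj1 : 1 ≤ j0 := hj0 ▸ Nat.le_add_left 1 _
        have h2 : (n : ℝ) ^ (min δ1 (θ / D) * l) ≤ ((n : ℝ) ^ (θ / 2)) ^ j0 := by
          rw [← Real.rpow_natCast, ← Real.rpow_mul hnpos.le]
          apply Real.rpow_le_rpow_of_exponent_le hnR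
          calc min δ1 (θ / D) * l ≤ θ / D * (8 * r * K * b ^ 2 * j0) :=
                mul_le_mul hδ hf9 hlpos.le (by positivity)
            _ = θ / 4 * j0 := by
                rw [hD]
                field_simp
                ring
            _ ≤ θ / 2 * j0 := by
                apply mul_le_mul_of_nonneg_right _ (Nat.cast_nonneg _)
                linarith
        have h3 : (8 : ℝ) ≤ 8 ^ j0 := by
          calc (8 : ℝ) = 8 ^ 1 := (pow_one _).symm
            _ ≤ 8 ^ j0 := pow_le_pow_right₀ (by norm_num) hj1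
        calc (8 : ℝ) * z * 2 ^ j0 < 8 * (n : ℝ) ^ (min δ1 (θ / D) * l) * 2 ^ j0 := by
              apply mul_lt_mul_of_pos_right _ (by positivity)
              exact mul_lt_mul_of_pos_left hz (by norm_num)
          _ ≤ 8 ^ j0 * ((n : ℝ) ^ (θ / 2)) ^ j0 * 2 ^ j0 := by
              apply mul_le_mul_of_nonneg_right _ (by positivity)
              exact mul_le_mul h3 h2 (by positivity) (by positivity)
          _ = (16 * (n : ℝ) ^ (θ / 2)) ^ j0 := by
              rw [← mul_pow, ← mul_pow]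
              congr 1
              ring
          _ ≤ (q' : ℝ) ^ j0 := pow_le_pow_left₀ (by positivity) hqn _
      exact_mod_cast h1


end Pool.Agent.W969.MC
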