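import Pool.Agent.W969.MC.Circ
import Pool.Agent.W969.MC.Clq2

/-! Quantified formulas with two blocks. -/

set_option linter.unusedSectionVars false
set_option linter.unusedVariables false

namespace Pool.Agent.W969.MC

open Finset Pool.Agent.H560R2

/-- variables of the two blocks -/
abbrev QV (n : ℕ) : Type := Fin n ⊕ Fin n

/-- clauses with at most three literals -/
abbrev QCl (n : ℕ) : Type := {c : Finset (QV n × Bool) // c.card ≤ 3}

/-- the formula is true -/
def TrueF (n : ℕ) (x : QCl n → Bool) : Prop :=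
  ∀ p : Fin n → Bool, ∃ s : Fin n → Bool, ∀ c : QCl n, x c = true →
    ∃ l ∈ c.1, Sum.elim p s l.1 = l.2

lemma ext_emb {X : Type} {n : ℕ} (ι : X ↪ Fin n) (f : X → Bool) :
    ∃ α : Fin n → Bool, ∀ x, α (ι x) = f x := by
  classical
  refine ⟨fun v => if hv : ∃ z, ι z = v then f hv.choose else false, ?_⟩
  intro x
  have hv : ∃ z, ι z = ι x := ⟨x, rfl⟩
  show (if hv : ∃ z, ι z = ι x then f hv.choose else false) = f x
  rw [dif_pos hv, ι.injective hv.choose_spec]

/-- labels of the numbers in the three groups -/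
structure DecS (I : Type) (b2 t N : ℕ) (u : Fin 3 → ℕ) where
  di : Fin N → I
  dr : Fin 2 → Fin N → (Fin b2 → (Fin t → Bool))
  dj : (g : Fin 3) → Fin N → (Fin (u g) → Bool)
  s0 : ∀ i j, ∃ k, di k = i ∧ dj 0 k = j
  s1 : ∀ (s : Fin 2) ρ j, ∃ k, dr s k = ρ ∧ dj s.succ k = j

section

variable {V I : Type} [Fintype V] [DecidableEq V] [Fintype I] [DecidableEq I]
  {n N t b2 : ℕ} {u : Fin 3 → ℕ}

/-- variables of the first block that are used -/
abbrev XV (V : Type) (t : ℕ) (u : Fin 3 → ℕ) : Type := (V × Fin t) ⊕ (Σ g : Fin 3, Fin (u g))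

/-- variables of the second block that are used -/
abbrev YV (N : ℕ) : Type := Fin 3 × Fin N × Bool

variable (ιX : XV V t u ↪ Fin n) (ιY : YV N ↪ Fin n) (h : I → (Fin 2 × Fin b2) → V)
  (D : DecS I b2 t N u)

/-- the selected number -/
def vW (g : Fin 3) (k : Fin N) : QV n := Sum.inr (ιY (g, k, true))

/-- chain variable -/
def vU (g : Fin 3) (k : Fin N) : QV n := Sum.inr (ιY (g, k, false))

/-- bit of the assignment -/
def vX (v : V) (jj : Fin t) : QV n := Sum.inl (ιX (Sum.inl (v, jj)))

/-- bit of the number of the copy -/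
def vJ (g : Fin 3) (c : Fin (u g)) : QV n := Sum.inl (ιX (Sum.inr ⟨g, c⟩))

/-- the clauses that are always present -/
def Fq (c : Finset (QV n × Bool)) : Prop :=
  (∃ g k k', k'.val + 1 = k.val ∧
      c = {(vU ιY g k, false), (vW ιY g k, true), (vU ιY g k', true)}) ∨
  (∃ g k, k.val = 0 ∧ c = {(vU ιY g k, false), (vW ιY g k, true)}) ∨
  (∃ g k, k.val + 1 = N ∧ c = {(vU ιY g k, true)}) ∨
  (∃ g k c', c = {(vW ιY g k, false), (vJ ιX g c', D.dj g k c')}) ∨
  (∃ (s : Fin 2) (k0 k : Fin N) (t' : Fin b2) (jj : Fin t),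
      c = {(vW ιY 0 k0, false), (vW ιY s.succ k, false),
        (vX ιX (h (D.di k0) (s, t')) jj, D.dr s k t' jj)})

/-- the clause of three numbers -/
def cK (K : Fin 3 → Fin N) : Finset (QV n × Bool) := univ.image (fun g => (vW ιY g (K g), false))

/-- the tuple of three numbers -/
def tK (K : Fin 3 → Fin N) : I × ((Fin 2 × Fin b2) → (Fin t → Bool)) :=
  (D.di (K 0), fun a => D.dr a.1 (K a.1.succ) a.2)

/-- the formula -/
noncomputable def qf (y : ((g : Fin 3) → (Fin (u g) → Bool)) →
    Set (I × ((Fin 2 × Fin b2) → (Fin t → Bool)))) : QCl n → Bool :=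
  fun c => @decide (Fq ιX ιY h D c.1 ∨ ∃ K : Fin 3 → Fin N, tK D K ∈ y (fun g => D.dj g (K g)) ∧
    c.1 = cK ιY K) (Classical.propDecidable _)

variable {ιX ιY h D}

lemma qf_mono {y y' : ((g : Fin 3) → (Fin (u g) → Bool)) →
    Set (I × ((Fin 2 × Fin b2) → (Fin t → Bool)))}
    (hy : ∀ j, y j ⊆ y' j) : qf ιX ιY h D y ≤ qf ιX ιY h D y' := by
  intro c
  rw [Bool.le_iff_imp]
  intro hx
  have h1 := @of_decide_eq_true _ (Classical.propDecidable _) hx
  apply @decide_eq_true _ (Classical.propDecidable _)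
  rcases h1 with h1 | ⟨K, h1, h2⟩
  · exact Or.inl h1
  · exact Or.inr ⟨K, hy _ h1, h2⟩

lemma cK_uniq {K K' : Fin 3 → Fin N} (hc : cK ιY K = cK ιY K') : K = K' := by
  funext g
  have h1 : ((vW ιY g (K g), false) : QV n × Bool) ∈ cK ιY K' := by
    rw [← hc]
    exact Finset.mem_image_of_mem _ (mem_univ g)
  obtain ⟨g', -, h2⟩ := Finset.mem_image.mp h1
  have h3 := (Prod.ext_iff.mp h2).1
  have h4 := ιY.injective (Sum.inr.inj h3)
  simp only [Prod.mk.injEq, and_true] at h4
  obtain ⟨rfl, h5⟩ := h4
  exact h5.symm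

lemma qf_narrow (y : ((g : Fin 3) → (Fin (u g) → Bool)) →
    Set (I × ((Fin 2 × Fin b2) → (Fin t → Bool))))
    (J : (g : Fin 3) → (Fin (u g) → Bool)) (c : QCl n) :
    ∃ T' : Finset (I × ((Fin 2 × Fin b2) → (Fin t → Bool))), T'.card ≤ 1 ∧
      ∀ x x' : Set (I × ((Fin 2 × Fin b2) → (Fin t → Bool))), (∀ e ∈ T', e ∈ x → e ∈ x') →
        qf ιX ιY h D (Function.update y J x) c = true →
        qf ιX ιY h D (Function.update y J x') c = true := by
  classical
  by_cases hex : ∃ K : Fin 3 → Fin N, c.1 = cK ιY K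
  · obtain ⟨K0, h0⟩ := hex
    refine ⟨{tK D K0}, by simp, fun x x' hx hf => ?_⟩
    have h1 := @of_decide_eq_true _ (Classical.propDecidable _) hf
    apply @decide_eq_true _ (Classical.propDecidable _)
    rcases h1 with h1 | ⟨K, h1, h2⟩
    · exact Or.inl h1
    · refine Or.inr ⟨K, ?_, h2⟩
      have hK : K0 = K := cK_uniq (h0.symm.trans h2)
      by_cases hj : (fun g => D.dj g (K g)) = J
      · rw [hj, Function.update_self] at h1 ⊢
        apply hx _ _ h1
        rw [hK]
        exact Finset.mem_singleton_self _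
      · rw [Function.update_of_ne hj] at h1 ⊢
        exact h1
  · refine ⟨∅, by simp, fun x x' hx hf => ?_⟩
    have h1 := @of_decide_eq_true _ (Classical.propDecidable _) hf
    apply @decide_eq_true _ (Classical.propDecidable _)
    rcases h1 with h1 | ⟨K, h1, h2⟩
    · exact Or.inl h1
    · exact absurd ⟨K, h2⟩ hex

/-- the formula is false if and only if some copy has a solution -/
lemma qf_false (hb2 : 0 < b2) (y : ((g : Fin 3) → (Fin (u g) → Bool)) →
    Set (I × ((Fin 2 × Fin b2) → (Fin t → Bool)))) :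
    ¬ TrueF n (qf ιX ιY h D y) ↔
      ∃ j : (g : Fin 3) → (Fin (u g) → Bool), ∃ p : V → (Fin t → Bool),
        (tu h (gr p) : Set (I × ((Fin 2 × Fin b2) → (Fin t → Bool)))) ⊆ y j := by
  classical
  have hne : Nonempty (Fin 2 × Fin b2) := ⟨(0, ⟨0, hb2⟩)⟩
  constructor
  · intro hns
    unfold TrueF at hns
    push Not at hns
    obtain ⟨p0, hp0⟩ := hns
    refine ⟨fun g c => p0 (ιX (Sum.inr ⟨g, c⟩)), fun v jj => p0 (ιX (Sum.inl (v, jj))), ?_⟩
    rintro ⟨i, f⟩ hf
    rw [Finset.mem_coe, mem_tu] at hf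
    have hf' : f = fun a jj => p0 (ιX (Sum.inl (h i a, jj))) := by
      funext a
      have := hf a
      rw [mem_gr] at this
      exact this.symm
    rw [hf']
    -- the numbers
    obtain ⟨k0, hk0, hk0'⟩ := D.s0 i (fun c => p0 (ιX (Sum.inr ⟨0, c⟩)))
    choose ks hks hks' using fun s : Fin 2 => D.s1 s
      (fun t' jj => p0 (ιX (Sum.inl (h i (s, t'), jj)))) (fun c => p0 (ιX (Sum.inr ⟨s.succ, c⟩)))
    let K : Fin 3 → Fin N := Fin.cases k0 ks
    have hKj : ∀ g c, D.dj g (K g) c = p0 (ιX (Sum.inr ⟨g, c⟩)) := by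
      intro g
      refine Fin.cases ?_ (fun s => ?_) g
      · intro c
        exact congrFun hk0' c
      · intro c
        exact congrFun (hks' s) c
    obtain ⟨s, hs⟩ := ext_emb ιY (fun q => if q.2.2 = true then decide (q.2.1 = K q.1)
      else decide (K q.1 ≤ q.2.1))
    have hsW : ∀ g k, Sum.elim p0 s (vW ιY g k) = decide (k = K g) := by
      intro g k
      show s (ιY (g, k, true)) = _
      rw [hs]
      rfl
    have hsU : ∀ g k, Sum.elim p0 s (vU ιY g k) = decide (K g ≤ k) := by
      intro g k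
      show s (ιY (g, k, false)) = _
      rw [hs]
      rfl
    obtain ⟨c, hc, hc'⟩ := hp0 s
    have h1 := @of_decide_eq_true _ (Classical.propDecidable _) hc
    rcases h1 with (⟨g, k, k', hk, h1⟩ | ⟨g, k, hk, h1⟩ | ⟨g, k, hk, h1⟩ | ⟨g, k, c', h1⟩ |
      ⟨s', k1, k, t', jj, h1⟩) | ⟨K', h1, h2⟩
    · exfalso
      have a1 := hc' (vU ιY g k, false) (by rw [h1]; simp)
      have a2 := hc' (vW ιY g k, true) (by rw [h1]; simp)
      have a3 := hc' (vU ιY g k', true) (by rw [h1]; simp)
      simp only [hsU, hsW] at a1 a2 a3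
      have b1 : K g ≤ k := by
        by_contra hcon
        exact a1 (decide_eq_false hcon)
      have b2' : k ≠ K g := fun hcon => a2 (decide_eq_true hcon)
      have b3 : ¬ K g ≤ k' := fun hcon => a3 (decide_eq_true hcon)
      rw [Fin.le_def] at b1 b3
      have b4 : k.val ≠ (K g).val := fun hcon => b2' (Fin.ext hcon)
      omega
    · exfalso
      have a1 := hc' (vU ιY g k, false) (by rw [h1]; simp)
      have a2 := hc' (vW ιY g k, true) (by rw [h1]; simp)
      simp only [hsU, hsW] at a1 a2
      have b1 : K g ≤ k := by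
        by_contra hcon
        exact a1 (decide_eq_false hcon)
      have b2' : k ≠ K g := fun hcon => a2 (decide_eq_true hcon)
      rw [Fin.le_def] at b1
      have b4 : k.val ≠ (K g).val := fun hcon => b2' (Fin.ext hcon)
      omega
    · exfalso
      have a1 := hc' (vU ιY g k, true) (by rw [h1]; simp)
      simp only [hsU] at a1
      apply a1
      apply decide_eq_true
      rw [Fin.le_def]
      have := (K g).isLt
      omega
    · exfalso
      have a1 := hc' (vW ιY g k, false) (by rw [h1]; simp)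
      have a2 := hc' (vJ ιX g c', D.dj g k c') (by rw [h1]; simp)
      simp only [hsW] at a1
      have b1 : k = K g := by
        by_contra hcon
        exact a1 (decide_eq_false hcon)
      apply a2
      show p0 (ιX (Sum.inr ⟨g, c'⟩)) = D.dj g k c'
      rw [b1, hKj]
    · exfalso
      have a1 := hc' (vW ιY 0 k1, false) (by rw [h1]; simp)
      have a2 := hc' (vW ιY s'.succ k, false) (by rw [h1]; simp)
      have a3 := hc' (vX ιX (h (D.di k1) (s', t')) jj, D.dr s' k t' jj) (by rw [h1]; simp)
      simp only [hsW] at a1 a2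
      have b1 : k1 = K 0 := by
        by_contra hcon
        exact a1 (decide_eq_false hcon)
      have b2' : k = K s'.succ := by
        by_contra hcon
        exact a2 (decide_eq_false hcon)
      apply a3
      show p0 (ιX (Sum.inl (h (D.di k1) (s', t'), jj))) = D.dr s' k t' jj
      have e1 : K 0 = k0 := rfl
      have e2 : K s'.succ = ks s' := rfl
      rw [b1, b2', e1, e2, hk0, hks]
    · -- the input clause
      have hKK : K' = K := by
        funext g
        have a1 := hc' (vW ιY g (K' g), false) (by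
          rw [h2]
          exact Finset.mem_image_of_mem _ (mem_univ g))
        simp only [hsW] at a1
        by_contra hcon
        exact a1 (decide_eq_false hcon)
      rw [hKK] at h1
      have e1 : (fun g => D.dj g (K g)) = fun g c => p0 (ιX (Sum.inr ⟨g, c⟩)) := by
        funext g c
        exact hKj g c
      rw [e1] at h1
      have e2 : tK D K = (i, fun a jj => p0 (ιX (Sum.inl (h i a, jj)))) := by
        unfold tK
        refine Prod.ext hk0 ?_
        funext a
        show D.dr a.1 (ks a.1) a.2 = _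
        rw [hks]
      rw [e2] at h1
      exact h1
  · rintro ⟨j, p, hjp⟩ hT
    obtain ⟨p0, hp0⟩ := ext_emb ιX (Sum.elim (fun q => p q.1 q.2) (fun q => j q.1 q.2))
    obtain ⟨s, hs⟩ := hT p0
    have hs' : ∀ c : Finset (QV n × Bool), c.card ≤ 3 →
        (Fq ιX ιY h D c ∨ ∃ K : Fin 3 → Fin N, tK D K ∈ y (fun g => D.dj g (K g)) ∧
          c = cK ιY K) → ∃ l ∈ c, Sum.elim p0 s l.1 = l.2 := fun c hc hx =>
      hs ⟨c, hc⟩ (@decide_eq_true _ (Classical.propDecidable _) hx)
    -- some number is selected in each group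
    have hN : 0 < N := by
      obtain ⟨k, -⟩ := D.s1 0 (fun _ _ => false) (fun _ => false)
      exact lt_of_le_of_lt (Nat.zero_le _) k.isLt
    have hsel : ∀ g, ∃ k, Sum.elim p0 s (vW ιY g k) = true := by
      intro g
      by_contra hcon
      push Not at hcon
      have hdown : ∀ d : ℕ, ∀ k : Fin N, k.val + d + 1 = N →
          Sum.elim p0 s (vU ιY g k) = true := by
        intro d
        induction d with
        | zero =>
          intro k hk
          obtain ⟨l, hl, hl'⟩ := hs' {(vU ιY g k, true)} (by simp)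
            (Or.inl (Or.inr (Or.inr (Or.inl ⟨g, k, by omega, rfl⟩))))
          rw [Finset.mem_singleton.mp hl] at hl'
          exact hl'
        | succ d ih =>
          intro k hk
          have hk1 : k.val + 1 < N := by omega
          have h1 := ih ⟨k.val + 1, hk1⟩ (by simp only; omega)
          obtain ⟨l, hl, hl'⟩ := hs' {(vU ιY g ⟨k.val + 1, hk1⟩, false),
            (vW ιY g ⟨k.val + 1, hk1⟩, true), (vU ιY g k, true)} Finset.card_le_three
            (Or.inl (Or.inl ⟨g, ⟨k.val + 1, hk1⟩, k, rfl, rfl⟩))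
          rw [Finset.mem_insert, Finset.mem_insert, Finset.mem_singleton] at hl
          rcases hl with rfl | rfl | rfl
          · exfalso
            have h2 : Sum.elim p0 s (vU ιY g ⟨k.val + 1, hk1⟩) = false := hl'
            rw [h1] at h2
            exact absurd h2 (by decide)
          · exact absurd hl' (hcon _)
          · exact hl'
      have h1 := hdown (N - 1) ⟨0, hN⟩ (by simp only; omega)
      obtain ⟨l, hl, hl'⟩ := hs' {(vU ιY g ⟨0, hN⟩, false), (vW ιY g ⟨0, hN⟩, true)}
        (Finset.card_le_two.trans (by norm_num))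
        (Or.inl (Or.inr (Or.inl ⟨g, ⟨0, hN⟩, rfl, rfl⟩)))
      rw [Finset.mem_insert, Finset.mem_singleton] at hl
      rcases hl with rfl | rfl
      · have h2 : Sum.elim p0 s (vU ιY g ⟨0, hN⟩) = false := hl'
        rw [h1] at h2
        exact absurd h2 (by decide)
      · exact absurd hl' (hcon _)
    choose K hK using hsel
    have hKj : (fun g => D.dj g (K g)) = j := by
      funext g c
      obtain ⟨l, hl, hl'⟩ := hs' {(vW ιY g (K g), false), (vJ ιX g c, D.dj g (K g) c)}
        (Finset.card_le_two.trans (by norm_num))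
        (Or.inl (Or.inr (Or.inr (Or.inr (Or.inl ⟨g, K g, c, rfl⟩)))))
      rw [Finset.mem_insert, Finset.mem_singleton] at hl
      rcases hl with rfl | rfl
      · have h2 : Sum.elim p0 s (vW ιY g (K g)) = false := hl'
        rw [hK] at h2
        exact absurd h2 (by decide)
      · have h2 : p0 (ιX (Sum.inr ⟨g, c⟩)) = D.dj g (K g) c := hl'
        rw [hp0] at h2
        exact h2.symm
    have hKr : ∀ (s' : Fin 2) (t' : Fin b2) (jj : Fin t),
        D.dr s' (K s'.succ) t' jj = p (h (D.di (K 0)) (s', t')) jj := by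
      intro s' t' jj
      obtain ⟨l, hl, hl'⟩ := hs' {(vW ιY 0 (K 0), false), (vW ιY s'.succ (K s'.succ), false),
          (vX ιX (h (D.di (K 0)) (s', t')) jj, D.dr s' (K s'.succ) t' jj)} Finset.card_le_three
        (Or.inl (Or.inr (Or.inr (Or.inr (Or.inr ⟨s', K 0, K s'.succ, t', jj, rfl⟩)))))
      rw [Finset.mem_insert, Finset.mem_insert, Finset.mem_singleton] at hl
      rcases hl with rfl | rfl | rfl
      · have h2 : Sum.elim p0 s (vW ιY 0 (K 0)) = false := hl'
        rw [hK] at h2
        exact absurd h2 (by decide)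
      · have h2 : Sum.elim p0 s (vW ιY s'.succ (K s'.succ)) = false := hl'
        rw [hK] at h2
        exact absurd h2 (by decide)
      · have h2 : p0 (ιX (Sum.inl (h (D.di (K 0)) (s', t'), jj))) = D.dr s' (K s'.succ) t' jj := hl'
        rw [hp0] at h2
        exact h2.symm
    have hin : tK D K ∈ y (fun g => D.dj g (K g)) := by
      rw [hKj]
      apply hjp
      rw [Finset.mem_coe, mem_tu]
      intro a
      rw [mem_gr]
      show p (h (D.di (K 0)) a) = D.dr a.1 (K a.1.succ) a.2
      funext jj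
      exact (hKr a.1 a.2 jj).symm
    obtain ⟨l, hl, hl'⟩ := hs' (cK ιY K) (by
      unfold cK
      refine Finset.card_image_le.trans ?_
      rw [Finset.card_univ, Fintype.card_fin]) (Or.inr ⟨K, hin, rfl⟩)
    obtain ⟨g, -, rfl⟩ := Finset.mem_image.mp hl
    have h2 : Sum.elim p0 s (vW ιY g (K g)) = false := hl'
    rw [hK] at h2
    exact absurd h2 (by decide)

end

end Pool.Agent.W969.MC
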