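import Pool.Agent.W969.MC.Qbf1
import Pool.Agent.W969.MC.Par3

/-! Quantified formulas with two blocks: the lower bound with integer parameters. -/

set_option linter.unusedSectionVars false
set_option linter.unusedVariables false

namespace Pool.Agent.W969.MC

open Finset Pool.Agent.H560R2

lemma exists_surj (G : Type) [Fintype G] [Nonempty G] (N : ℕ) (h : Fintype.card G ≤ N) :
    ∃ d : Fin N → G, ∀ x, ∃ k, d k = x := by
  obtain ⟨e⟩ := Function.Embedding.nonempty_of_card_le (α := G) (β := Fin N)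
    (by rw [Fintype.card_fin]; exact h)
  exact ⟨Function.invFun e, Function.invFun_surjective e.injective⟩

lemma exists_dec {I : Type} [Fintype I] [Nonempty I] {b2 t N : ℕ} (u : Fin 3 → ℕ)
    (h0 : Fintype.card I * 2 ^ (u 0) ≤ N) (h1 : ∀ s : Fin 2, (2 ^ t) ^ b2 * 2 ^ (u s.succ) ≤ N) :
    Nonempty (DecS I b2 t N u) := by
  obtain ⟨d0, hd0⟩ := exists_surj (I × (Fin (u 0) → Bool)) N (by
    simp only [Fintype.card_prod, Fintype.card_fun, Fintype.card_fin, Fintype.card_bool]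
    exact h0)
  have h2 : ∀ s : Fin 2, ∃ d : Fin N → (Fin b2 → (Fin t → Bool)) × (Fin (u s.succ) → Bool),
      ∀ x, ∃ k, d k = x := fun s =>
    exists_surj ((Fin b2 → (Fin t → Bool)) × (Fin (u s.succ) → Bool)) N (by
      simp only [Fintype.card_prod, Fintype.card_fun, Fintype.card_fin, Fintype.card_bool]
      exact h1 s)
  choose d hd using h2
  refine ⟨⟨fun k => (d0 k).1, fun s k => (d s k).1,
    Fin.cases (fun k => (d0 k).2) (fun s k => (d s k).2), ?_, ?_⟩⟩
  · intro i j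
    obtain ⟨k, hk⟩ := hd0 (i, j)
    exact ⟨k, by rw [hk], by rw [Fin.cases_zero, hk]⟩
  · intro s ρ j
    obtain ⟨k, hk⟩ := hd s (ρ, j)
    exact ⟨k, by rw [hk], by rw [Fin.cases_succ, hk]⟩

/-- the lower bound for quantified formulas with integer parameters -/
theorem qbf_param {b2 b t M m s w n N : ℕ} (P : Pars 2 b2 b (2 ^ t) M m s w) (u : Fin 3 → ℕ)
    (hN0 : M * 2 ^ (u 0) ≤ N) (hN1 : ∀ s : Fin 2, (2 ^ t) ^ b2 * 2 ^ (u s.succ) ≤ N)
    (hn1 : 6 * N ≤ n) (hn2 : m * t + ∑ g, u g ≤ n)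
    {S : ℕ} {T : Finset (Fin S)} {wd : Fin S → ℕ}
    {a : ∀ i, Fin (wd i) → QCl n ⊕ Fin S}
    {op : ∀ i, (Fin (wd i) → ℝ) → ℝ} {θ : ∀ i, Fin (wd i) → ℝ}
    {val : (QCl n → Bool) → Fin S → ℝ}
    (htop : ∀ i j k, a i j = Sum.inr k → k < i)
    (hmon : ∀ i ∉ T, wd i ≤ 2 ∧ Monotone (op i))
    (hT : ∀ i ∈ T, ∀ z z' : Fin (wd i) → ℝ, (∀ j, θ i j ≤ z j ↔ θ i j ≤ z' j) → op i z = op i z')
    (hval : ∀ x i, val x i = op i (fun j => Sum.elim (bit x) (val x) (a i j)))
    (o : Fin S) (τ : ℝ)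
    (ho : ∀ x, τ ≤ val x o ↔ ¬ TrueF n x)
    (hlen : S + ∑ i ∈ T, wd i ≤ (2 ^ t + 1) ^ m)
    (hlt : 8 * (S + ∑ i ∈ T, wd i) * 2 ^ (w / (2 * b) / b + 1) <
      (2 ^ t) ^ (w / (2 * b) / b + 1)) :
    2 ^ (∑ g, u g) < ∏ i ∈ T, (wd i + 1) := by
  classical
  obtain ⟨h, hG0⟩ := P.good
  have hΛ : Fintype.card (Fin t → Bool) = 2 ^ t := by
    rw [Fintype.card_fun, Fintype.card_bool, Fintype.card_fin]
  have hG : Good h (Fin t → Bool) b s w := by
    have hc : Fintype.card (Fin t → Bool) = Fintype.card (Fin (2 ^ t)) := by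
      rw [hΛ, Fintype.card_fin]
    refine ⟨hG0.hb, hG0.hA, hG0.hE, hG0.hw, hG0.hws, hG0.hV, hG0.hI, ?_, ?_⟩
    · rw [hc]; exact hG0.hq
    · rw [hc]; exact hG0.hstar
  have : Nonempty (Fin 2 × Fin b2) := ⟨(⟨0, by norm_num⟩, ⟨0, P.hb2⟩)⟩
  have hM := P.hM
  have hm := P.hm
  have : Nonempty (Fin M) := ⟨⟨0, by omega⟩⟩
  obtain ⟨D⟩ : Nonempty (DecS (Fin M) b2 t N u) := exists_dec u
    (by rw [Fintype.card_fin]; exact hN0) hN1
  have hcX : Fintype.card (XV (Fin m) t u) ≤ Fintype.card (Fin n) := by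
    rw [Fintype.card_sum, Fintype.card_prod, Fintype.card_sigma]
    simp only [Fintype.card_fin]
    exact hn2
  have hcY : Fintype.card (YV N) ≤ Fintype.card (Fin n) := by
    rw [Fintype.card_prod, Fintype.card_prod, Fintype.card_bool]
    simp only [Fintype.card_fin]
    omega
  obtain ⟨ιX⟩ := Function.Embedding.nonempty_of_card_le hcX
  obtain ⟨ιY⟩ := Function.Embedding.nonempty_of_card_le hcY
  obtain ⟨ej⟩ : Nonempty (Fin (2 ^ (∑ g, u g)) ≃ ((g : Fin 3) → (Fin (u g) → Bool))) :=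
    ⟨Fintype.equivOfCardEq (by
      rw [Fintype.card_fin, Fintype.card_pi]
      simp only [Fintype.card_fun, Fintype.card_fin, Fintype.card_bool]
      rw [Finset.prod_pow_eq_pow_sum])⟩
  refine csp_real hG (m' := 2 ^ (∑ g, u g)) htop hmon hT hval o τ
    (fun y => qf ιX ιY h D (fun j => y (ej.symm j))) ?_ ?_ ?_
    (by rw [hΛ, Fintype.card_fin]; exact hlen)
    (by rw [hΛ]; exact hlt)
  · intro y y' hy
    exact qf_mono (fun j => hy (ej.symm j))
  · intro y
    rw [ho, qf_false P.hb2]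
    constructor
    · rintro ⟨j, p, hp⟩
      exact ⟨ej.symm j, p, hp⟩
    · rintro ⟨j, p, hp⟩
      refine ⟨ej j, p, ?_⟩
      rw [Equiv.symm_apply_apply]
      exact hp
  · intro y J c
    have hup : ∀ x : Set (Fin M × ((Fin 2 × Fin b2) → (Fin t → Bool))),
        (fun j => Function.update y J x (ej.symm j)) =
        Function.update (fun j => y (ej.symm j)) (ej J) x := by
      intro x
      funext j
      by_cases hj : j = ej J
      · subst hj
        rw [Function.update_self, Equiv.symm_apply_apply, Function.update_self]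
      · rw [Function.update_of_ne hj, Function.update_of_ne]
        intro h
        exact hj (by rw [← h, Equiv.apply_symm_apply])
    obtain ⟨T', h1, h2⟩ := qf_narrow (ιX := ιX) (ιY := ιY) (h := h) (D := D)
      (fun j => y (ej.symm j)) (ej J) c
    refine ⟨T', h1, fun x x' hxx => ?_⟩
    simp only [hup]
    exact h2 x x' hxx

end Pool.Agent.W969.MC
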