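import Pool.Agent.W969.MC.Clq4
import Pool.Agent.W969.MC.Par4

/-! Cliques: as many further gates as possible. -/

set_option linter.unusedSectionVars false
set_option linter.unusedVariables false

namespace Pool.Agent.W969.MC

open Finset Pool.Agent.H560R2

theorem thr_rand (u : ℕ) (hu : 1 ≤ u) (ε : ℝ) (hε : 0 < ε) :
    ∃ δ : ℝ, 0 < δ ∧ ∃ l0 : ℕ, ∀ n k l : ℕ, l0 ≤ l → l ≤ k → 2 * k ≤ n + 1 →
      ∀ F : ℝ, (l : ℝ) ^ (2 + ε) * max F ((n : ℝ) ^ u) ≤ (n : ℝ) ^ (u + 1) →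
      ∀ (R : Type) [Fintype R] [Nonempty R] (C : R → RC {e : Finset (Fin n) // e.card = u + 1})
        (A0 : ℝ),
        (∀ x, HasClq n (u + 1) k x →
          (A0 + (l : ℝ) ^ (-δ)) * Fintype.card R ≤ ({ρ : R | (C ρ).acc x}.ncard : ℝ)) →
        (∀ x, ¬ HasClq n (u + 1) k x →
          ({ρ : R | (C ρ).acc x}.ncard : ℝ) ≤ A0 * Fintype.card R) →
        (∀ ρ, ((C ρ).free : ℝ) ≤ F) →
        ∃ ρ, (l : ℝ) ^ (δ * l) ≤ ((C ρ).size : ℝ) := by
  -- it suffices to consider small ε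
  wlog hε1 : ε ≤ 1 with Hw
  · obtain ⟨δ, hδ, l0, H⟩ := Hw u hu 1 one_pos le_rfl
    refine ⟨δ, hδ, max l0 1, ?_⟩
    intro n k l hl hlk hkn F hF
    refine H n k l ((le_max_left _ _).trans hl) hlk hkn F (le_trans ?_ hF)
    push Not at hε1
    have h1 : 1 ≤ l := (le_max_right _ _).trans hl
    have h1R : (1 : ℝ) ≤ l := by exact_mod_cast h1
    apply mul_le_mul_of_nonneg_right
    · apply Real.rpow_le_rpow_of_exponent_le h1R
      linarith
    · exact le_trans (by positivity) (le_max_right _ _)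
  obtain ⟨δ1, hδ1, l1, H⟩ := pars_curve u 1 le_rfl (ε / 8) (by positivity) (by linarith)
  set δ2 : ℝ := min δ1 (ε / 3) with hδ2d
  have hδ2 : 0 < δ2 := lt_min hδ1 (by positivity)
  have hδ21 : δ2 ≤ δ1 := min_le_left _ _
  have hδ2e : δ2 ≤ ε / 3 := min_le_right _ _
  obtain ⟨l2, Hab⟩ := absorb hδ2
  obtain ⟨l3, hl3⟩ := ev_rpow (η := 3 * ε / 16) (by positivity) 2
  obtain ⟨l4, hl4⟩ := ev_rpow (η := ε / 2) (by positivity) 2
  obtain ⟨l5, hl5⟩ := ev_rpow (η := ε / 4) (by positivity) (8 * (8 * ((u : ℝ) + 1)) ^ u)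
  refine ⟨δ2 / 4, by positivity,
    max (max (max l1 l2) (max l3 l4)) (max l5 (4 * (u + 1) + 2)), ?_⟩
  intro n k l hl hlk hkn F hF R _ _ C A0 hyes hno hfree
  have hll1 : l1 ≤ l := (le_max_left _ _).trans ((le_max_left _ _).trans
    ((le_max_left _ _).trans hl))
  have hll2 : l2 ≤ l := (le_max_right _ _).trans ((le_max_left _ _).trans
    ((le_max_left _ _).trans hl))
  have hll3 : l3 ≤ l := (le_max_left _ _).trans ((le_max_right _ _).trans
    ((le_max_left _ _).trans hl))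
  have hll4 : l4 ≤ l := (le_max_right _ _).trans ((le_max_right _ _).trans
    ((le_max_left _ _).trans hl))
  have hll5 : l5 ≤ l := (le_max_left _ _).trans ((le_max_right _ _).trans hl)
  have hll6 : 4 * (u + 1) + 2 ≤ l := (le_max_right _ _).trans ((le_max_right _ _).trans hl)
  have hl1N : 1 ≤ l := by omega
  have hln : l ≤ n := by omega
  have hlR : (1 : ℝ) ≤ l := by exact_mod_cast hl1N
  have hlpos : (0 : ℝ) < l := by linarith
  have hnl : (l : ℝ) ≤ n := by exact_mod_cast hln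
  have hnR : (1 : ℝ) ≤ n := hlR.trans hnl
  have hnpos : (0 : ℝ) < n := by linarith
  -- the small number of vertices
  set Λ : ℝ := (l : ℝ) ^ (2 + ε / 2) with hΛ
  set n' : ℕ := ⌊Λ⌋₊ with hn'
  have hlΛ : (l : ℝ) ^ (2 : ℕ) ≤ Λ := by
    rw [hΛ, ← Real.rpow_natCast]
    apply Real.rpow_le_rpow_of_exponent_le hlR
    push_cast
    linarith
  have hΛ2 : (2 : ℝ) ≤ Λ := by
    have h1 : (2 : ℝ) ≤ l := by exact_mod_cast (by omega : 2 ≤ l)
    nlinarith
  have hΛpos : 0 < Λ := by linarith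
  have hn'1 : (n' : ℝ) ≤ Λ := Nat.floor_le hΛpos.le
  have hn'2 : Λ / 2 ≤ n' := by
    have h1 : Λ - 1 < n' := Nat.sub_one_lt_floor _
    linarith
  have hln' : l ≤ n' := by
    apply Nat.le_floor
    have h1 : (1 : ℝ) * l ≤ l * l := mul_le_mul_of_nonneg_right hlR hlpos.le
    nlinarith
  have hn'R : (1 : ℝ) ≤ n' := by exact_mod_cast hl1N.trans hln'
  have hn'pos : (0 : ℝ) < n' := by linarith
  have hln'R : (l : ℝ) ≤ n' := by exact_mod_cast hln'
  have hmain : (l : ℝ) ^ (1 + 1) * max 1 ((n' : ℝ) ^ u) ≤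
      (n' : ℝ) ^ ((u : ℝ) + (1 : ℕ) - ε / 8) := by
    rw [max_eq_right (one_le_pow₀ hn'R)]
    have h1 : (n' : ℝ) ^ ((u : ℝ) + (1 : ℕ) - ε / 8) = (n' : ℝ) ^ (1 - ε / 8) * (n' : ℝ) ^ u := by
      rw [← Real.rpow_natCast (n' : ℝ) u, ← Real.rpow_add hn'pos]
      congr 1
      push_cast
      ring
    rw [h1]
    apply mul_le_mul_of_nonneg_right _ (by positivity)
    have h2 : (Λ / 2) ^ (1 - ε / 8) ≤ (n' : ℝ) ^ (1 - ε / 8) :=
      Real.rpow_le_rpow (by positivity) hn'2 (by linarith)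
    refine le_trans ?_ h2
    rw [Real.div_rpow hΛpos.le (by norm_num), le_div_iff₀ (by positivity)]
    have h3 : (2 : ℝ) ^ (1 - ε / 8) ≤ 2 := by
      calc (2 : ℝ) ^ (1 - ε / 8) ≤ (2 : ℝ) ^ (1 : ℝ) :=
            Real.rpow_le_rpow_of_exponent_le (by norm_num) (by linarith)
        _ = 2 := Real.rpow_one _
    have h4 : Λ ^ (1 - ε / 8) = (l : ℝ) ^ ((2 + ε / 2) * (1 - ε / 8)) := by
      rw [hΛ, ← Real.rpow_mul hlpos.le]
    rw [h4]
    calc (l : ℝ) ^ (1 + 1) * (2 : ℝ) ^ (1 - ε / 8) ≤ (l : ℝ) ^ (1 + 1) * (l : ℝ) ^ (3 * ε / 16) := by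
          apply mul_le_mul_of_nonneg_left _ (by positivity)
          exact h3.trans (hl3 l hll3)
      _ = (l : ℝ) ^ (2 + 3 * ε / 16) := by
          rw [← Real.rpow_natCast, ← Real.rpow_add hlpos]
          norm_num
      _ ≤ (l : ℝ) ^ ((2 + ε / 2) * (1 - ε / 8)) := by
          apply Real.rpow_le_rpow_of_exponent_le hlR
          nlinarith
  obtain ⟨b2, b, q, M, m, sx, w, K1, K, P, h1, h2, h3, h4, h5⟩ := H n' l 1 hll1 hln' hmain
  have h5' : ∀ z : ℕ, (z : ℝ) < (n' : ℝ) ^ (δ2 * l) → z ≤ (q + 1) ^ m ∧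
        8 * z * 2 ^ (w / (2 * b) / b + 1) < q ^ (w / (2 * b) / b + 1) := by
    intro z hz
    refine h5 z (lt_of_lt_of_le hz ?_)
    apply Real.rpow_le_rpow_of_exponent_le hn'R
    exact mul_le_mul_of_nonneg_right hδ21 hlpos.le
  obtain ⟨g1, g2, g3⟩ := Hab n' l q m (w / (2 * b) / b + 1) hll2 hln' (Nat.le_add_left 1 _) h2 h5'
  by_contra hcon
  push Not at hcon
  obtain ⟨r0, hr0⟩ : ∃ r0, k = u + 1 * M + r0 := ⟨k - (u + 1 * M), by omega⟩
  have hsM : 1 ≤ M := by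
    have := P.hM
    have := P.hm
    omega
  have hK1 : 1 ≤ K := by
    by_contra hc
    have h0 : K = 0 := by omega
    rw [h0] at h4
    have h6 : (0 : ℝ) < (n' : ℝ) ^ δ1 * 1 := by positivity
    norm_num at h4
    linarith
  set D : ℕ := M * (1 * q ^ b2) with hD
  have hqpos : 0 < q := by
    have := P.hq
    omega
  have hDpos : 0 < D := by rw [hD]; positivity
  have hDn' : 2 * D ≤ n' := by
    have h6 : 1 * D ≤ K * D := Nat.mul_le_mul_right _ hK1
    omega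
  have hln2 : (l : ℝ) ^ (2 + ε) ≤ n := by
    have h6 : (l : ℝ) ^ (2 + ε) * (n : ℝ) ^ u ≤ (n : ℝ) ^ (u + 1) := by
      refine le_trans ?_ hF
      exact mul_le_mul_of_nonneg_left (le_max_right _ _) (by positivity)
    rw [pow_succ, mul_comm ((n : ℝ) ^ u)] at h6
    exact le_of_mul_le_mul_right h6 (by positivity)
  have hDn : 4 * D ≤ n := by
    have h6 : (4 * D : ℝ) ≤ n := by
      refine le_trans ?_ hln2
      have h7 : (2 * D : ℝ) ≤ n' := by exact_mod_cast hDn'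
      calc (4 * D : ℝ) = 2 * (2 * D) := by ring
        _ ≤ (l : ℝ) ^ (ε / 2) * Λ := by
          apply mul_le_mul (hl4 l hll4) (h7.trans hn'1) (by positivity) (by positivity)
        _ = (l : ℝ) ^ (2 + ε) := by
          rw [hΛ, ← Real.rpow_add hlpos]
          congr 1
          ring
    exact_mod_cast h6
  have hu4 : 4 * (u + 1) ≤ n := by omega
  obtain ⟨K', hK'⟩ : ∃ K', K' = n / (4 * D) := ⟨_, rfl⟩
  obtain ⟨K1', hK1'⟩ : ∃ K1', K1' = n / (4 * (u + 1)) := ⟨_, rfl⟩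
  have hK'low : (n : ℝ) / (8 * D) ≤ K' := by
    have h6 := div_half (by positivity : 0 < 4 * D) hDn
    rw [← hK'] at h6
    refine le_trans (le_of_eq ?_) h6
    push_cast
    ring
  have hK1'low : (n : ℝ) / (8 * ((u : ℝ) + 1)) ≤ K1' := by
    have h6 := div_half (by positivity : 0 < 4 * (u + 1)) hu4
    rw [← hK1'] at h6
    refine le_trans (le_of_eq ?_) h6
    push_cast
    ring
  have hvert : 2 * (u * K1' + K' * D) ≤ n := by
    have h6 : K' * (4 * D) ≤ n := by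
      rw [hK']
      exact Nat.div_mul_le_self _ _
    have h7 : K1' * (4 * (u + 1)) ≤ n := by
      rw [hK1']
      exact Nat.div_mul_le_self _ _
    have h8 : 4 * (u * K1') ≤ K1' * (4 * (u + 1)) := by
      calc 4 * (u * K1') = K1' * (4 * u) := by ring
        _ ≤ K1' * (4 * (u + 1)) := Nat.mul_le_mul_left _ (by omega)
    have h9 : 4 * (K' * D) = K' * (4 * D) := by ring
    omega
  refine curve_param (r0 := r0) (K1 := K1') (K := K') (by omega) one_pos P (by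
      rw [← hD]
      omega) C A0
    ((n' : ℝ) ^ (-(δ2 / 4))) ?_ (by rw [← hr0]; exact hno) ?_
    (fun ρ => (g3 _ (lt_of_lt_of_le (hcon ρ) ?_)).1) g1
    (fun ρ => (g3 _ (lt_of_lt_of_le (hcon ρ) ?_)).2)
  · rw [← hr0]
    intro x hx
    refine le_trans (mul_le_mul_of_nonneg_right ?_ (Nat.cast_nonneg _)) (hyes x hx)
    have h6 : (n' : ℝ) ^ (-(δ2 / 4)) ≤ (l : ℝ) ^ (-(δ2 / 4)) :=
      Real.rpow_le_rpow_of_nonpos hlpos hln'R (by linarith)
    linarith
  · intro ρ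
    refine (hfree ρ).trans ?_
    have hF0 : 0 ≤ F := (Nat.cast_nonneg _).trans (hfree ρ)
    have h6 : (l : ℝ) ^ (2 + ε) * F ≤ (n : ℝ) ^ (u + 1) := by
      refine le_trans ?_ hF
      exact mul_le_mul_of_nonneg_left (le_max_left _ _) (by positivity)
    have h7 : ((n : ℝ) / (8 * ((u : ℝ) + 1))) ^ u * ((n : ℝ) / (8 * D)) ^ 1 ≤
        ((K1' ^ u * K' ^ 1 : ℕ) : ℝ) := by
      push_cast
      apply mul_le_mul _ _ (by positivity) (by positivity)
      · exact pow_le_pow_left₀ (by positivity) hK1'low _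
      · exact pow_le_pow_left₀ (by positivity) hK'low _
    refine le_trans ?_ (mul_le_mul_of_nonneg_left h7 (by positivity))
    have h8 : ((n : ℝ) / (8 * ((u : ℝ) + 1))) ^ u * ((n : ℝ) / (8 * D)) ^ 1 =
        (n : ℝ) ^ (u + 1) / ((8 * ((u : ℝ) + 1)) ^ u * (8 * D)) := by
      rw [div_pow, pow_one, div_mul_div_comm, ← pow_succ]
    rw [h8, Real.rpow_neg hn'pos.le]
    have hDR : (2 * D : ℝ) ≤ n' := by exact_mod_cast hDn'
    have hDposR : (0 : ℝ) < D := by exact_mod_cast hDpos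
    have h9 : ((n' : ℝ) ^ (δ2 / 4))⁻¹ / 2 * ((n : ℝ) ^ (u + 1) /
        ((8 * ((u : ℝ) + 1)) ^ u * (8 * D))) =
        (n : ℝ) ^ (u + 1) / (2 * (n' : ℝ) ^ (δ2 / 4) * ((8 * ((u : ℝ) + 1)) ^ u * (8 * D))) := by
      field_simp
    rw [h9, le_div_iff₀ (by positivity)]
    refine le_trans ?_ h6
    have h10 : (n' : ℝ) ^ (δ2 / 4) ≤ (l : ℝ) ^ (3 * δ2 / 4) := by
      calc (n' : ℝ) ^ (δ2 / 4) ≤ ((l : ℝ) ^ (3 : ℝ)) ^ (δ2 / 4) := by
            apply Real.rpow_le_rpow hn'pos.le _ (by positivity)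
            refine hn'1.trans ?_
            rw [hΛ]
            apply Real.rpow_le_rpow_of_exponent_le hlR
            linarith
        _ = (l : ℝ) ^ (3 * δ2 / 4) := by
            rw [← Real.rpow_mul hlpos.le]
            congr 1
            ring
    calc F * (2 * (n' : ℝ) ^ (δ2 / 4) * ((8 * ((u : ℝ) + 1)) ^ u * (8 * D))) =
          (8 * (8 * ((u : ℝ) + 1)) ^ u) * (n' : ℝ) ^ (δ2 / 4) * (2 * D) * F := by ring
      _ ≤ (l : ℝ) ^ (ε / 4) * (l : ℝ) ^ (3 * δ2 / 4) * Λ * F := by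
          apply mul_le_mul_of_nonneg_right _ hF0
          apply mul_le_mul _ (hDR.trans hn'1) (by positivity) (by positivity)
          exact mul_le_mul (hl5 l hll5) h10 (by positivity) (by positivity)
      _ = (l : ℝ) ^ (ε / 4 + 3 * δ2 / 4 + (2 + ε / 2)) * F := by
          rw [hΛ, ← Real.rpow_add hlpos, ← Real.rpow_add hlpos]
      _ ≤ (l : ℝ) ^ (2 + ε) * F := by
          apply mul_le_mul_of_nonneg_right _ hF0
          apply Real.rpow_le_rpow_of_exponent_le hlR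
          linarith
  · exact Real.rpow_le_rpow hlpos.le hln'R (by positivity)
  · exact Real.rpow_le_rpow hlpos.le hln'R (by positivity)

end Pool.Agent.W969.MC
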